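import Mathlib

/-!
Definitions for the theorem on vertex-critical `(P₅, H)`-free graphs.
-/

namespace Pool.Agent.H46.P5

/-- Vertices of the double half graph. -/
inductive Vtx : Type
  | hub : Vtx
  | mid : ℕ → Vtx
  | up : ℕ → Vtx
  | down : ℕ → Vtx
  deriving DecidableEq

/-- The relation generating the double half graph: `hub` is joined to all `mid s` and all `up t`;
`mid s` is joined to `up t` for `s ≤ t` and to `down t` for `t ≤ s`; every `up s` is joined to
every `down t`. -/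
def dhRel : Vtx → Vtx → Prop
  | .hub, .mid _ => True
  | .hub, .up _ => True
  | .mid s, .up t => s ≤ t
  | .mid s, .down t => t ≤ s
  | .up _, .down _ => True
  | _, _ => False

/-- The (infinite) double half graph. -/
def doubleHalf : SimpleGraph Vtx := SimpleGraph.fromRel dhRel

/-- `G` is `k`-vertex-critical: `χ(G) = k` and `χ(G - v) < k` for every vertex `v`. -/
def IsVertexCritical {V : Type*} (G : SimpleGraph V) (k : ℕ) : Prop :=
  G.chromaticNumber = (k : ℕ∞) ∧ ∀ v : V, (G.induce {v}ᶜ).chromaticNumber < (k : ℕ∞)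

/-- `critSet k H`: all `k`-vertex-critical `(P₅, H)`-free graphs, on the vertex sets `Fin m`
(`F ↪g G` is the type of embeddings of `F` into `G` as an induced subgraph). -/
def critSet {W : Type*} (k : ℕ) (H : SimpleGraph W) : Set (Σ m : ℕ, SimpleGraph (Fin m)) :=
  {G | IsVertexCritical G.2 k ∧ IsEmpty (SimpleGraph.pathGraph 5 ↪g G.2) ∧ IsEmpty (H ↪g G.2)}

/-- The graph on the vertices `0, …, n - 1` whose edges are the listed pairs. -/
def ofPairs {n : ℕ} (L : List (Fin n × Fin n)) : SimpleGraph (Fin n) :=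
  SimpleGraph.fromRel (fun a b => (a, b) ∈ L)

/-- `P₄ + P₁`. -/
def P4P1 : SimpleGraph (Fin 5) := ofPairs [(0, 1), (1, 2), (2, 3)]

/-- `C₄ + P₁`. -/
def C4P1 : SimpleGraph (Fin 5) := ofPairs [(0, 1), (1, 2), (2, 3), (3, 0)]

/-- The chair: `K_{1,3}` with one edge subdivided. -/
def chair : SimpleGraph (Fin 5) := ofPairs [(0, 1), (0, 2), (0, 3), (3, 4)]

/-- The bull: a triangle `0, 1, 2` with a pendant vertex at `0` and one at `1`. -/
def bull : SimpleGraph (Fin 5) := ofPairs [(0, 1), (1, 2), (0, 2), (0, 3), (1, 4)]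

/-- The cricket: `K_{1,4}` plus an edge. -/
def cricket : SimpleGraph (Fin 5) := ofPairs [(0, 1), (0, 2), (0, 3), (0, 4), (1, 2)]

/-- `K₅` minus an edge. -/
def K5e : SimpleGraph (Fin 5) := (ofPairs [(0, 1)])ᶜ

/-- The complement of `P₃ + 2P₁`. -/
def coP3P1P1 : SimpleGraph (Fin 5) := (ofPairs [(0, 1), (1, 2)])ᶜ

/-- `2P₂`. -/
def twoP2 : SimpleGraph (Fin 4) := ofPairs [(0, 1), (2, 3)]

/-- `K₃ + P₁`. -/
def K3P1 : SimpleGraph (Fin 4) := ofPairs [(0, 1), (1, 2), (0, 2)]

end Pool.Agent.H46.P5
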