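import Mathlib
import Pool.Agent.H46.P5Defs

/-!
Classification of the graphs on five vertices by a table of certificates (generated).
-/

namespace Pool.Agent.H46.P5

/-- Certificates for a graph `A` on five vertices. -/
inductive Cert : Type
  | c2P2 (a b c d : Fin 5) : Cert
  | cK3P1 (a b c d : Fin 5) : Cert
  | cC5 (a b c d e : Fin 5) : Cert
  | cK5 : Cert
  | cDH (a b c d e : Vtx) : Cert
  | cK5e (a b c d e : Fin 5) : Cert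
  | cCo (a b c d e : Fin 5) : Cert

/-- The table of certificates. -/
def certTable : List Cert := [
  .cDH .hub (.down 0) (.down 1) (.down 2) (.down 3),
  .cDH .hub (.mid 0) (.down 1) (.down 2) (.down 3),
  .cDH .hub (.down 1) (.mid 0) (.down 2) (.down 3),
  .cDH .hub (.mid 0) (.mid 1) (.down 2) (.down 3),
  .cDH .hub (.down 1) (.down 2) (.mid 0) (.down 3),
  .cDH .hub (.mid 0) (.down 2) (.mid 1) (.down 3),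
  .cDH .hub (.down 2) (.mid 0) (.mid 1) (.down 3),
  .cDH .hub (.mid 0) (.mid 1) (.mid 2) (.down 3),
  .cDH .hub (.down 1) (.down 2) (.down 3) (.mid 0),
  .cDH .hub (.mid 0) (.down 2) (.down 3) (.mid 1),
  .cDH .hub (.down 2) (.mid 0) (.down 3) (.mid 1),
  .cDH .hub (.mid 0) (.mid 1) (.down 3) (.mid 2),
  .cDH .hub (.down 2) (.down 3) (.mid 0) (.mid 1),
  .cDH .hub (.mid 0) (.down 3) (.mid 1) (.mid 2),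
  .cDH .hub (.down 3) (.mid 0) (.mid 1) (.mid 2),
  .cDH .hub (.mid 0) (.mid 1) (.mid 2) (.mid 3),
  .cDH (.mid 0) (.mid 1) (.down 1) (.down 2) (.down 3),
  .cDH .hub (.mid 0) (.down 0) (.down 1) (.down 2),
  .cDH .hub (.down 0) (.mid 0) (.down 1) (.down 2),
  .cK3P1 0 1 2 3,
  .c2P2 0 3 1 2,
  .cDH .hub (.mid 1) (.down 1) (.mid 0) (.down 2),
  .cDH .hub (.down 1) (.mid 1) (.mid 0) (.down 2),
  .cK3P1 0 1 2 4,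
  .c2P2 0 4 1 2,
  .cDH .hub (.mid 1) (.down 1) (.down 2) (.mid 0),
  .cDH .hub (.down 1) (.mid 1) (.down 2) (.mid 0),
  .cK3P1 0 1 2 3,
  .c2P2 0 3 1 2,
  .cDH .hub (.up 0) (.down 3) (.mid 1) (.mid 2),
  .cDH .hub (.down 2) (.mid 2) (.mid 0) (.mid 1),
  .cDH .hub (.mid 0) (.up 0) (.mid 1) (.mid 2),
  .cDH (.mid 0) (.mid 1) (.down 2) (.down 1) (.down 3),
  .cDH .hub (.mid 0) (.down 1) (.down 0) (.down 2),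
  .c2P2 0 2 1 3,
  .cDH .hub (.mid 1) (.mid 0) (.down 1) (.down 2),
  .cDH .hub (.down 0) (.down 1) (.mid 0) (.down 2),
  .cK3P1 0 1 3 2,
  .cDH .hub (.down 1) (.mid 0) (.mid 1) (.down 2),
  .cK3P1 0 1 3 4,
  .c2P2 0 4 1 3,
  .cDH .hub (.mid 1) (.down 2) (.down 1) (.mid 0),
  .c2P2 0 2 1 3,
  .cDH .hub (.up 0) (.mid 1) (.down 3) (.mid 2),
  .cDH .hub (.down 1) (.down 2) (.mid 1) (.mid 0),
  .cK3P1 0 1 3 2,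
  .cDH .hub (.down 2) (.mid 0) (.mid 2) (.mid 1),
  .cDH .hub (.mid 0) (.mid 1) (.up 0) (.mid 2),
  .cDH (.mid 0) (.down 1) (.mid 1) (.mid 2) (.down 3),
  .cDH .hub (.mid 1) (.down 0) (.down 1) (.down 2),
  .cDH (.mid 0) (.mid 1) .hub (.down 1) (.down 2),
  .cK3P1 0 1 2 4,
  .cDH (.mid 0) (.mid 1) (.down 1) .hub (.down 2),
  .cK3P1 0 1 3 4,
  .cDH .hub (.down 0) (.mid 0) (.mid 1) (.down 2),
  .cK3P1 0 1 2 4,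
  .c2P2 0 4 1 2,
  .cDH .hub (.up 0) (.down 2) (.down 3) (.mid 1),
  .c2P2 0 4 1 3,
  .cDH .hub (.up 0) (.mid 0) (.down 2) (.mid 1),
  .c2P2 0 4 1 2,
  .cDH .hub (.up 0) (.down 2) (.mid 0) (.mid 1),
  .cDH .hub (.down 1) (.mid 1) (.mid 2) (.mid 0),
  .cDH .hub (.mid 0) (.up 0) (.up 1) (.mid 2),
  .cDH (.mid 0) (.mid 1) (.down 2) (.down 3) (.down 1),
  .cDH .hub (.mid 0) (.down 1) (.down 2) (.down 0),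
  .c2P2 0 2 1 4,
  .cDH .hub (.mid 1) (.mid 0) (.down 2) (.down 1),
  .c2P2 0 3 1 4,
  .cDH .hub (.mid 1) (.down 2) (.mid 0) (.down 1),
  .c2P2 0 2 1 4,
  .cDH .hub (.up 0) (.mid 1) (.mid 2) (.down 3),
  .cDH .hub (.down 0) (.down 1) (.down 2) (.mid 0),
  .cK3P1 0 1 4 2,
  .cDH .hub (.down 1) (.mid 0) (.down 2) (.mid 1),
  .cK3P1 0 1 4 3,
  .cDH .hub (.down 1) (.down 2) (.mid 0) (.mid 1),
  .cK3P1 0 1 4 2,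
  .cDH .hub (.down 2) (.mid 0) (.mid 1) (.mid 2),
  .cDH .hub (.mid 0) (.mid 1) (.mid 2) (.up 0),
  .cDH (.mid 0) (.down 1) (.mid 1) (.down 3) (.mid 2),
  .cDH .hub (.mid 1) (.down 0) (.down 2) (.down 1),
  .cDH (.mid 0) (.mid 1) .hub (.down 2) (.down 1),
  .cK3P1 0 1 2 3,
  .c2P2 0 3 1 2,
  .cDH .hub (.up 0) (.down 2) (.mid 1) (.down 3),
  .c2P2 0 3 1 4,
  .cDH .hub (.up 0) (.mid 0) (.mid 1) (.down 2),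
  .cDH (.mid 0) (.mid 1) (.down 1) (.down 2) .hub,
  .cK3P1 0 1 4 3,
  .cDH .hub (.down 0) (.mid 0) (.down 2) (.mid 1),
  .cK3P1 0 1 2 3,
  .c2P2 0 3 1 2,
  .cDH .hub (.up 0) (.down 2) (.mid 1) (.mid 0),
  .cDH .hub (.down 1) (.mid 1) (.mid 0) (.mid 2),
  .cDH .hub (.mid 0) (.up 0) (.mid 2) (.up 1),
  .cDH (.mid 0) (.down 1) (.down 3) (.mid 1) (.mid 2),
  .cDH .hub (.mid 1) (.down 2) (.down 0) (.down 1),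
  .c2P2 0 2 1 3,
  .cDH .hub (.up 0) (.mid 1) (.down 2) (.down 3),
  .cDH (.mid 0) (.mid 1) (.down 2) .hub (.down 1),
  .cK3P1 0 1 3 2,
  .c2P2 0 2 1 4,
  .cDH .hub (.up 0) (.mid 1) (.mid 0) (.down 2),
  .cDH (.mid 0) (.mid 1) (.down 2) (.down 1) .hub,
  .cK3P1 0 1 4 2,
  .c2P2 0 2 1 3,
  .cDH .hub (.up 0) (.mid 1) (.down 2) (.mid 0),
  .cDH .hub (.down 0) (.down 2) (.mid 0) (.mid 1),
  .cK3P1 0 1 3 2,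
  .cDH .hub (.down 1) (.mid 0) (.mid 1) (.mid 2),
  .cDH .hub (.mid 0) (.mid 2) (.up 0) (.up 1),
  .cDH (.mid 0) (.down 1) (.mid 1) (.mid 2) (.mid 3),
  .cDH .hub (.up 0) (.down 0) (.down 1) (.down 2),
  .cDH (.mid 0) (.down 1) (.up 0) (.mid 1) (.mid 2),
  .cDH .hub (.up 0) (.mid 0) (.down 1) (.down 2),
  .cDH (.mid 0) (.down 1) (.mid 1) (.up 0) (.mid 2),
  .cDH .hub (.up 0) (.down 1) (.mid 0) (.down 2),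
  .cDH (.mid 0) (.mid 1) .hub (.down 0) (.down 1),
  .cDH .hub (.up 1) (.mid 0) (.mid 1) (.down 2),
  .cDH (.mid 0) (.down 1) (.mid 1) (.mid 2) (.up 0),
  .cDH .hub (.up 0) (.down 1) (.down 2) (.mid 0),
  .cDH (.mid 0) (.mid 1) .hub (.down 1) (.down 0),
  .cDH .hub (.up 1) (.mid 0) (.down 2) (.mid 1),
  .cDH (.mid 0) (.mid 1) (.down 1) .hub (.down 0),
  .cDH .hub (.up 1) (.down 2) (.mid 0) (.mid 1),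
  .cDH .hub (.down 0) (.mid 0) (.mid 1) (.mid 2),
  .cDH .hub (.mid 0) (.up 0) (.up 1) (.up 2),
  .cDH (.mid 0) (.mid 1) (.mid 2) (.down 2) (.down 3),
  .c2P2 0 1 2 3,
  .cDH .hub (.down 1) (.mid 0) (.down 0) (.down 2),
  .cDH .hub (.mid 0) (.mid 1) (.down 1) (.down 2),
  .cDH .hub (.down 1) (.down 0) (.mid 0) (.down 2),
  .cDH .hub (.mid 0) (.down 1) (.mid 1) (.down 2),
  .cK3P1 0 2 3 1,
  .cK3P1 0 2 3 4,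
  .c2P2 0 4 2 3,
  .c2P2 0 1 2 3,
  .cDH .hub (.down 2) (.mid 1) (.down 1) (.mid 0),
  .cDH .hub (.mid 0) (.mid 2) (.down 2) (.mid 1),
  .cDH .hub (.down 2) (.down 1) (.mid 1) (.mid 0),
  .cDH .hub (.mid 0) (.down 2) (.mid 2) (.mid 1),
  .cK3P1 0 2 3 1,
  .cDH .hub (.up 0) (.mid 1) (.up 1) (.mid 2),
  .cDH (.mid 0) (.mid 1) (.down 1) (.mid 2) (.down 3),
  .cDH (.mid 0) .hub (.mid 1) (.down 1) (.down 2),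
  .cDH .hub (.down 0) (.mid 1) (.down 1) (.down 2),
  .cK3P1 0 1 2 4,
  .cDH (.mid 0) (.down 1) (.mid 1) .hub (.down 2),
  .cDH .hub (.mid 0) (.down 0) (.mid 1) (.down 2),
  .cK3P1 0 2 3 4,
  .cK3P1 0 1 2 4,
  .c2P2 0 4 1 2,
  .c2P2 0 4 2 3,
  .cDH .hub (.down 1) (.mid 2) (.down 2) (.mid 0),
  .cDH .hub (.mid 0) (.up 0) (.down 2) (.mid 1),
  .c2P2 0 4 1 2,
  .cDH .hub (.up 0) (.down 2) (.mid 2) (.mid 1),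
  .cDH .hub (.down 2) (.up 0) (.mid 0) (.mid 1),
  .cDH .hub (.mid 0) (.up 1) (.mid 1) (.mid 2),
  .cDH (.mid 0) (.mid 1) (.mid 2) (.down 1) (.down 3),
  .cDH (.mid 0) .hub (.down 1) (.mid 1) (.down 2),
  .cDH (.mid 0) (.down 1) .hub (.mid 1) (.down 2),
  .cDH .hub (.mid 0) (.mid 1) (.down 0) (.down 2),
  .cDH .hub (.down 0) (.down 1) (.mid 1) (.down 2),
  .cK3P1 0 1 3 4,
  .cK3P1 0 2 3 4,
  .cK3P1 0 1 3 4,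
  .c2P2 0 4 1 3,
  .c2P2 0 4 2 3,
  .c2P2 0 4 1 3,
  .cDH .hub (.up 0) (.up 1) (.down 3) (.mid 2),
  .cDH .hub (.down 1) (.down 2) (.mid 2) (.mid 0),
  .cDH .hub (.mid 0) (.down 2) (.up 0) (.mid 1),
  .cDH .hub (.down 2) (.mid 0) (.up 0) (.mid 1),
  .cDH .hub (.mid 0) (.mid 1) (.up 1) (.mid 2),
  .cK3P1 1 2 3 0,
  .cK3P1 1 2 3 4,
  .cK3P1 1 2 3 4,
  .cK3P1 0 1 2 4,
  .cK3P1 1 2 3 4,
  .cK3P1 0 1 3 4,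
  .cK3P1 0 2 3 4,
  .cK3P1 0 1 2 4,
  .c2P2 0 4 1 2,
  .c2P2 0 4 2 3,
  .c2P2 0 4 1 3,
  .cK3P1 1 2 3 4,
  .c2P2 0 4 1 2,
  .cK3P1 1 2 3 4,
  .cK3P1 1 2 3 4,
  .cK3P1 1 2 3 4,
  .c2P2 1 4 2 3,
  .c2P2 0 1 2 3,
  .c2P2 0 2 1 4,
  .c2P2 1 4 2 3,
  .c2P2 0 3 1 4,
  .c2P2 1 4 2 3,
  .c2P2 0 2 1 4,
  .c2P2 1 4 2 3,
  .c2P2 0 4 2 3,
  .c2P2 0 1 2 3,
  .c2P2 1 4 2 3,
  .c2P2 1 4 2 3,
  .c2P2 1 4 2 3,
  .c2P2 1 4 2 3,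
  .c2P2 1 4 2 3,
  .c2P2 1 4 2 3,
  .cDH (.mid 0) (.down 1) (.mid 2) (.down 2) (.mid 1),
  .cDH (.mid 0) .hub (.mid 2) (.down 2) (.mid 1),
  .cDH (.mid 0) (.down 1) (.up 0) (.down 2) (.mid 1),
  .cDH (.mid 0) .hub (.up 0) (.down 2) (.mid 1),
  .c2P2 0 3 1 4,
  .cDH .hub (.up 0) (.down 0) (.mid 1) (.down 2),
  .c2P2 0 3 1 4,
  .cK3P1 0 2 3 4,
  .c2P2 0 4 2 3,
  .c2P2 0 4 2 3,
  .cDH .hub (.down 0) (.up 0) (.down 2) (.mid 1),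
  .cK3P1 0 1 4 3,
  .cC5 0 3 2 1 4,
  .cDH .hub (.up 0) (.down 1) (.mid 1) (.mid 0),
  .cDH .hub (.down 1) (.up 0) (.mid 0) (.mid 1),
  .cDH .hub (.mid 0) (.up 1) (.mid 1) (.up 0),
  .cDH (.mid 0) (.down 1) (.down 2) (.mid 2) (.mid 1),
  .cDH (.mid 0) .hub (.down 2) (.mid 2) (.mid 1),
  .c2P2 0 2 1 4,
  .cDH .hub (.up 0) (.mid 1) (.down 0) (.down 2),
  .cDH (.mid 0) (.down 1) (.down 2) (.up 0) (.mid 1),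
  .cDH (.mid 0) .hub (.down 2) (.up 0) (.mid 1),
  .c2P2 0 2 1 4,
  .cK3P1 0 2 3 4,
  .c2P2 0 4 2 3,
  .c2P2 0 4 2 3,
  .cC5 0 2 3 1 4,
  .cDH .hub (.up 0) (.mid 1) (.down 1) (.mid 0),
  .cDH .hub (.down 0) (.down 1) (.mid 1) (.mid 0),
  .cK3P1 0 1 4 2,
  .cDH .hub (.down 1) (.mid 0) (.up 0) (.mid 1),
  .cDH .hub (.mid 0) (.mid 1) (.up 1) (.up 0),
  .cK3P1 1 2 3 0,
  .cDH (.mid 0) (.up 1) (.mid 1) (.down 1) (.down 2),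
  .cDH (.mid 0) (.down 1) (.up 1) (.mid 1) (.mid 2),
  .cDH .hub (.up 0) (.mid 0) (.down 0) (.down 1),
  .cDH (.mid 0) (.down 1) (.mid 1) (.up 1) (.mid 2),
  .cDH .hub (.up 0) (.down 0) (.mid 0) (.down 1),
  .cK3P1 0 2 3 4,
  .cK3P1 0 2 3 4,
  .c2P2 0 4 2 3,
  .c2P2 0 4 2 3,
  .cDH (.mid 0) (.down 1) (.up 1) (.mid 1) (.up 0),
  .cDH .hub (.up 1) (.mid 1) (.down 1) (.mid 0),
  .cDH (.mid 0) (.down 1) (.mid 1) (.up 1) (.up 0),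
  .cDH .hub (.up 1) (.down 1) (.mid 1) (.mid 0),
  .cDH .hub (.down 0) (.mid 0) (.up 0) (.mid 1),
  .cCo 3 4 0 2 1,
  .cDH (.mid 0) (.mid 1) (.mid 2) (.down 3) (.down 2),
  .c2P2 0 1 2 4,
  .cDH .hub (.down 1) (.mid 0) (.down 2) (.down 0),
  .cDH .hub (.mid 0) (.mid 1) (.down 2) (.down 1),
  .c2P2 0 3 2 4,
  .c2P2 0 1 2 4,
  .cDH .hub (.down 2) (.mid 1) (.mid 0) (.down 1),
  .cDH .hub (.mid 0) (.mid 2) (.mid 1) (.down 2),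
  .cDH .hub (.down 1) (.down 0) (.down 2) (.mid 0),
  .cDH .hub (.mid 0) (.down 1) (.down 2) (.mid 1),
  .cK3P1 0 2 4 1,
  .cK3P1 0 2 4 3,
  .cDH .hub (.down 2) (.down 1) (.mid 0) (.mid 1),
  .cDH .hub (.mid 0) (.down 2) (.mid 1) (.mid 2),
  .cK3P1 0 2 4 1,
  .cDH .hub (.up 0) (.mid 1) (.mid 2) (.up 1),
  .cDH (.mid 0) (.mid 1) (.down 1) (.down 3) (.mid 2),
  .cDH (.mid 0) .hub (.mid 1) (.down 2) (.down 1),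
  .cDH .hub (.down 0) (.mid 1) (.down 2) (.down 1),
  .cK3P1 0 1 2 3,
  .c2P2 0 3 1 2,
  .c2P2 0 3 2 4,
  .cDH .hub (.down 1) (.mid 2) (.mid 0) (.down 2),
  .cDH .hub (.mid 0) (.up 0) (.mid 1) (.down 2),
  .cDH (.mid 0) (.down 1) (.mid 1) (.down 2) .hub,
  .cDH .hub (.mid 0) (.down 0) (.down 2) (.mid 1),
  .cK3P1 0 2 4 3,
  .cK3P1 0 1 2 3,
  .c2P2 0 3 1 2,
  .cDH .hub (.up 0) (.down 2) (.mid 1) (.mid 2),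
  .cDH .hub (.down 2) (.up 0) (.mid 1) (.mid 0),
  .cDH .hub (.mid 0) (.up 1) (.mid 2) (.mid 1),
  .c2P2 1 3 2 4,
  .c2P2 0 1 2 4,
  .c2P2 0 2 1 3,
  .c2P2 1 3 2 4,
  .c2P2 0 3 2 4,
  .c2P2 0 1 2 4,
  .c2P2 1 3 2 4,
  .c2P2 1 3 2 4,
  .c2P2 0 4 1 3,
  .c2P2 1 3 2 4,
  .c2P2 0 2 1 3,
  .c2P2 1 3 2 4,
  .c2P2 1 3 2 4,
  .c2P2 1 3 2 4,
  .c2P2 1 3 2 4,
  .c2P2 1 3 2 4,
  .cDH (.mid 0) (.down 1) (.mid 2) (.mid 1) (.down 2),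
  .cDH (.mid 0) .hub (.mid 2) (.mid 1) (.down 2),
  .cDH (.mid 0) (.down 1) (.up 0) (.mid 1) (.down 2),
  .cDH (.mid 0) .hub (.up 0) (.mid 1) (.down 2),
  .c2P2 0 3 2 4,
  .c2P2 0 3 2 4,
  .cDH .hub (.down 0) (.up 0) (.mid 1) (.down 2),
  .cK3P1 0 1 3 4,
  .c2P2 0 4 1 3,
  .cDH .hub (.up 0) (.down 0) (.down 2) (.mid 1),
  .c2P2 0 4 1 3,
  .cK3P1 0 2 4 3,
  .cC5 0 3 1 2 4,
  .cDH .hub (.up 0) (.down 1) (.mid 0) (.mid 1),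
  .cDH .hub (.down 1) (.up 0) (.mid 1) (.mid 0),
  .cDH .hub (.mid 0) (.up 1) (.up 0) (.mid 1),
  .cDH (.mid 0) (.mid 1) (.mid 2) (.down 3) (.down 1),
  .cDH (.mid 0) .hub (.down 1) (.down 2) (.mid 1),
  .cDH (.mid 0) (.down 1) .hub (.down 2) (.mid 1),
  .cDH .hub (.mid 0) (.mid 1) (.down 2) (.down 0),
  .c2P2 0 3 1 4,
  .c2P2 0 3 2 4,
  .c2P2 0 3 1 4,
  .cDH .hub (.up 0) (.up 1) (.mid 2) (.down 3),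
  .cDH .hub (.down 0) (.down 1) (.down 2) (.mid 1),
  .cK3P1 0 1 4 3,
  .cK3P1 0 2 4 3,
  .cK3P1 0 1 4 3,
  .cDH .hub (.down 1) (.down 2) (.mid 0) (.mid 2),
  .cDH .hub (.mid 0) (.down 2) (.mid 1) (.up 0),
  .cDH .hub (.down 2) (.mid 0) (.mid 1) (.up 0),
  .cDH .hub (.mid 0) (.mid 1) (.mid 2) (.up 1),
  .cK3P1 1 2 4 0,
  .cK3P1 1 2 4 3,
  .cK3P1 1 2 4 3,
  .cK3P1 0 1 2 3,
  .c2P2 0 3 1 2,
  .c2P2 0 3 2 4,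
  .c2P2 0 3 1 4,
  .cK3P1 1 2 4 3,
  .cK3P1 1 2 4 3,
  .cK3P1 0 1 4 3,
  .cK3P1 0 2 4 3,
  .cK3P1 0 1 2 3,
  .c2P2 0 3 1 2,
  .cK3P1 1 2 4 3,
  .cK3P1 1 2 4 3,
  .cK3P1 1 2 4 3,
  .cDH (.mid 0) (.down 1) (.down 2) (.mid 1) (.mid 2),
  .cDH (.mid 0) .hub (.down 2) (.mid 1) (.mid 2),
  .c2P2 0 2 1 3,
  .cDH .hub (.up 0) (.mid 1) (.down 2) (.down 0),
  .c2P2 0 3 2 4,
  .c2P2 0 3 2 4,
  .cC5 0 2 4 1 3,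
  .cDH .hub (.up 0) (.mid 1) (.mid 0) (.down 1),
  .cDH (.mid 0) (.down 1) (.down 2) (.mid 1) (.up 0),
  .cDH (.mid 0) .hub (.down 2) (.mid 1) (.up 0),
  .c2P2 0 2 1 3,
  .cK3P1 0 2 4 3,
  .cDH .hub (.down 0) (.down 1) (.mid 0) (.mid 1),
  .cK3P1 0 1 3 2,
  .cDH .hub (.down 1) (.mid 0) (.mid 1) (.up 0),
  .cDH .hub (.mid 0) (.mid 1) (.up 0) (.up 1),
  .cK3P1 1 2 4 0,
  .cDH (.mid 0) (.up 1) (.mid 1) (.down 2) (.down 1),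
  .cDH (.mid 0) (.down 1) (.up 1) (.mid 2) (.mid 1),
  .cDH .hub (.up 0) (.mid 0) (.down 1) (.down 0),
  .c2P2 0 3 2 4,
  .c2P2 0 3 2 4,
  .cDH (.mid 0) (.down 1) (.up 1) (.up 0) (.mid 1),
  .cDH .hub (.up 1) (.mid 1) (.mid 0) (.down 1),
  .cDH (.mid 0) (.down 1) (.mid 1) (.mid 2) (.up 1),
  .cDH .hub (.up 0) (.down 0) (.down 1) (.mid 0),
  .cK3P1 0 2 4 3,
  .cK3P1 0 2 4 3,
  .cDH (.mid 0) (.down 1) (.mid 1) (.up 0) (.up 1),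
  .cDH .hub (.up 1) (.down 1) (.mid 0) (.mid 1),
  .cDH .hub (.down 0) (.mid 0) (.mid 1) (.up 0),
  .cCo 3 4 0 1 2,
  .cDH (.mid 0) (.mid 1) (.down 2) (.mid 2) (.mid 3),
  .c2P2 0 1 2 3,
  .cDH .hub (.down 2) (.mid 1) (.down 0) (.down 1),
  .cDH .hub (.mid 0) (.mid 2) (.down 1) (.down 2),
  .cDH (.mid 0) (.mid 1) (.down 2) (.up 0) (.mid 2),
  .c2P2 0 1 2 4,
  .cK3P1 0 2 3 1,
  .cDH .hub (.mid 1) (.up 0) (.mid 0) (.down 2),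
  .cDH (.mid 0) (.mid 1) (.down 2) (.mid 2) (.up 0),
  .c2P2 0 1 2 3,
  .cK3P1 0 2 4 1,
  .cDH .hub (.mid 1) (.up 0) (.down 2) (.mid 0),
  .cDH .hub (.down 2) (.down 0) (.mid 0) (.mid 1),
  .cDH .hub (.mid 0) (.down 1) (.mid 1) (.mid 2),
  .cK3P1 0 2 3 1,
  .cDH .hub (.up 0) (.mid 1) (.up 1) (.up 2),
  .cDH (.mid 0) (.mid 1) (.down 1) (.mid 2) (.mid 3),
  .cDH (.mid 0) .hub (.mid 2) (.down 1) (.down 2),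
  .cDH .hub (.down 0) (.up 0) (.down 1) (.down 2),
  .cDH .hub (.mid 0) (.up 0) (.down 1) (.down 2),
  .cDH (.mid 0) (.mid 1) (.down 1) (.up 0) (.mid 2),
  .cDH (.mid 0) .hub (.mid 1) (.down 0) (.down 1),
  .cDH .hub (.down 1) (.up 0) (.mid 0) (.down 2),
  .cDH .hub (.mid 0) (.up 1) (.mid 1) (.down 2),
  .cDH (.mid 0) (.mid 1) (.down 1) (.mid 2) (.up 0),
  .cDH (.mid 0) .hub (.mid 1) (.down 1) (.down 0),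
  .cDH .hub (.down 1) (.up 0) (.down 2) (.mid 0),
  .cDH .hub (.mid 0) (.up 1) (.down 2) (.mid 1),
  .cDH (.mid 0) (.down 1) (.mid 1) .hub (.down 0),
  .cDH .hub (.mid 0) (.down 0) (.mid 1) (.mid 2),
  .cDH .hub (.down 2) (.up 1) (.mid 0) (.mid 1),
  .cDH .hub (.mid 0) (.up 2) (.mid 1) (.mid 2),
  .cDH (.mid 0) (.mid 1) (.mid 2) (.down 1) (.down 2),
  .c2P2 0 1 2 4,
  .cDH (.mid 0) (.mid 1) (.up 0) (.down 1) (.down 2),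
  .cDH .hub (.mid 0) (.mid 1) (.down 0) (.down 1),
  .cDH (.mid 0) (.mid 1) (.mid 2) .hub (.down 2),
  .c2P2 0 1 2 4,
  .cDH (.mid 0) (.mid 1) (.up 0) .hub (.down 2),
  .cK3P1 0 1 3 4,
  .c2P2 0 4 1 3,
  .cC5 0 1 3 2 4,
  .c2P2 0 4 1 3,
  .cDH .hub (.up 0) (.up 1) (.down 2) (.mid 1),
  .cDH .hub (.down 1) (.down 0) (.mid 1) (.mid 0),
  .cDH .hub (.mid 0) (.down 1) (.up 0) (.mid 1),
  .cK3P1 0 2 4 1,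
  .cDH .hub (.up 0) (.up 1) (.mid 0) (.mid 1),
  .cK3P1 1 2 3 0,
  .cDH (.mid 0) (.up 1) (.down 1) (.mid 1) (.mid 2),
  .cDH (.mid 0) (.mid 1) (.up 1) (.down 1) (.down 2),
  .cDH .hub (.mid 0) (.up 0) (.down 0) (.down 1),
  .cDH (.mid 0) (.mid 1) (.down 1) (.up 1) (.mid 2),
  .cK3P1 0 1 3 4,
  .cDH .hub (.down 0) (.up 0) (.mid 0) (.down 1),
  .cK3P1 0 1 3 4,
  .c2P2 0 4 1 3,
  .cDH (.mid 0) (.up 1) (.down 1) (.mid 1) (.up 0),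
  .c2P2 0 4 1 3,
  .cDH .hub (.mid 1) (.up 1) (.down 1) (.mid 0),
  .cDH (.mid 0) (.mid 1) (.down 1) (.up 1) (.up 0),
  .cDH .hub (.mid 0) (.down 0) (.up 0) (.mid 1),
  .cDH .hub (.down 1) (.up 1) (.mid 1) (.mid 0),
  .cCo 3 0 4 2 1,
  .cDH (.mid 0) (.mid 1) (.mid 2) (.down 2) (.down 1),
  .c2P2 0 1 2 3,
  .cDH (.mid 0) (.mid 1) (.up 0) (.down 2) (.down 1),
  .cDH .hub (.mid 0) (.mid 1) (.down 1) (.down 0),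
  .c2P2 0 3 1 4,
  .cC5 0 1 4 2 3,
  .c2P2 0 3 1 4,
  .cDH .hub (.up 0) (.up 1) (.mid 1) (.down 2),
  .cDH (.mid 0) (.mid 1) (.mid 2) (.down 2) .hub,
  .c2P2 0 1 2 3,
  .cDH (.mid 0) (.mid 1) (.up 0) (.down 2) .hub,
  .cK3P1 0 1 4 3,
  .cDH .hub (.down 1) (.down 0) (.mid 0) (.mid 1),
  .cDH .hub (.mid 0) (.down 1) (.mid 1) (.up 0),
  .cK3P1 0 2 3 1,
  .cDH .hub (.up 0) (.up 1) (.mid 1) (.mid 0),
  .cK3P1 1 2 4 0,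
  .cDH (.mid 0) (.up 1) (.down 1) (.mid 2) (.mid 1),
  .cDH (.mid 0) (.mid 1) (.up 1) (.down 2) (.down 1),
  .cDH .hub (.mid 0) (.up 0) (.down 1) (.down 0),
  .c2P2 0 3 1 4,
  .cDH (.mid 0) (.up 1) (.down 1) (.up 0) (.mid 1),
  .c2P2 0 3 1 4,
  .cDH .hub (.mid 1) (.up 1) (.mid 0) (.down 1),
  .cDH (.mid 0) (.mid 1) (.down 1) (.mid 2) (.up 1),
  .cK3P1 0 1 4 3,
  .cDH .hub (.down 0) (.up 0) (.down 1) (.mid 0),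
  .cK3P1 0 1 4 3,
  .cDH (.mid 0) (.mid 1) (.down 1) (.up 0) (.up 1),
  .cDH .hub (.mid 0) (.down 0) (.mid 1) (.up 0),
  .cDH .hub (.down 1) (.up 1) (.mid 0) (.mid 1),
  .cCo 3 0 4 1 2,
  .cDH (.mid 0) (.down 1) (.down 2) (.mid 2) (.mid 3),
  .cDH (.mid 0) .hub (.down 1) (.mid 1) (.mid 2),
  .cDH (.mid 0) (.down 1) .hub (.mid 1) (.mid 2),
  .cDH .hub (.up 0) (.mid 1) (.down 0) (.down 1),
  .cDH (.mid 0) (.mid 1) (.mid 2) .hub (.down 1),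
  .cDH (.mid 0) .hub (.down 1) (.up 0) (.mid 1),
  .cDH (.mid 0) (.mid 1) (.up 0) .hub (.down 1),
  .cDH .hub (.up 0) (.up 1) (.mid 0) (.down 1),
  .cDH (.mid 0) (.mid 1) (.mid 2) (.down 1) .hub,
  .cDH (.mid 0) .hub (.down 1) (.mid 1) (.up 0),
  .cDH (.mid 0) (.mid 1) (.up 0) (.down 1) .hub,
  .cDH .hub (.up 0) (.up 1) (.down 1) (.mid 0),
  .cDH .hub (.down 0) (.down 1) (.up 0) (.mid 1),
  .cDH .hub (.mid 0) (.down 1) (.up 0) (.up 1),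
  .cDH .hub (.down 1) (.mid 0) (.up 0) (.up 1),
  .cDH .hub (.mid 0) (.mid 1) (.up 1) (.up 2),
  .cK3P1 1 2 3 0,
  .cDH (.mid 0) (.up 2) (.down 1) (.mid 1) (.mid 2),
  .cDH (.mid 0) (.down 1) (.up 2) (.mid 1) (.mid 2),
  .cDH .hub (.mid 1) (.up 1) (.down 0) (.down 1),
  .cK3P1 1 2 4 0,
  .cDH (.mid 0) (.up 1) (.mid 1) .hub (.down 1),
  .cDH (.mid 0) (.mid 1) (.up 1) .hub (.down 1),
  .cCo 0 3 4 2 1,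
  .cK3P1 1 2 3 0,
  .cDH (.mid 0) (.up 1) (.mid 1) (.down 1) .hub,
  .cDH (.mid 0) (.mid 1) (.up 1) (.down 1) .hub,
  .cCo 0 3 4 1 2,
  .cDH (.mid 0) (.mid 1) (.down 1) (.up 1) (.up 2),
  .cDH .hub (.mid 0) (.down 0) (.up 0) (.up 1),
  .cDH .hub (.down 0) (.mid 0) (.up 0) (.up 1),
  .cK5e 2 3 4 0 1,
  .cDH (.mid 0) (.mid 1) (.mid 2) (.mid 3) (.down 3),
  .c2P2 0 1 3 4,
  .c2P2 0 2 3 4,
  .c2P2 0 1 3 4,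
  .cDH .hub (.down 1) (.down 2) (.mid 0) (.down 0),
  .cDH .hub (.mid 0) (.down 2) (.mid 1) (.down 1),
  .cDH .hub (.down 2) (.mid 0) (.mid 1) (.down 1),
  .cDH .hub (.mid 0) (.mid 1) (.mid 2) (.down 2),
  .cDH .hub (.down 1) (.down 2) (.down 0) (.mid 0),
  .cDH .hub (.mid 0) (.down 2) (.down 1) (.mid 1),
  .cDH .hub (.down 2) (.mid 0) (.down 1) (.mid 1),
  .cDH .hub (.mid 0) (.mid 1) (.down 2) (.mid 2),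
  .cK3P1 0 3 4 1,
  .cK3P1 0 3 4 2,
  .cK3P1 0 3 4 1,
  .cDH .hub (.up 0) (.up 1) (.mid 2) (.up 2),
  .c2P2 1 2 3 4,
  .c2P2 0 1 3 4,
  .c2P2 0 2 3 4,
  .c2P2 0 1 3 4,
  .c2P2 0 3 1 2,
  .c2P2 1 2 3 4,
  .c2P2 1 2 3 4,
  .c2P2 1 2 3 4,
  .c2P2 0 4 1 2,
  .c2P2 1 2 3 4,
  .c2P2 1 2 3 4,
  .c2P2 1 2 3 4,
  .c2P2 0 3 1 2,
  .c2P2 1 2 3 4,
  .c2P2 1 2 3 4,
  .c2P2 1 2 3 4,
  .cDH (.mid 0) (.mid 1) (.down 3) (.down 1) (.mid 2),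
  .cDH (.mid 0) .hub (.down 2) (.mid 1) (.down 1),
  .c2P2 0 2 1 3,
  .c2P2 0 2 3 4,
  .cDH .hub (.down 0) (.down 2) (.mid 1) (.down 1),
  .cK3P1 0 1 3 2,
  .cDH .hub (.down 1) (.mid 0) (.mid 2) (.down 2),
  .cDH .hub (.mid 0) (.mid 1) (.up 0) (.down 2),
  .cDH (.mid 0) (.down 1) (.down 2) (.mid 1) .hub,
  .cDH .hub (.mid 0) (.down 2) (.down 0) (.mid 1),
  .c2P2 0 2 1 3,
  .cDH .hub (.up 0) (.mid 1) (.down 2) (.mid 2),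
  .cK3P1 0 3 4 2,
  .cK3P1 0 1 3 2,
  .cDH .hub (.down 2) (.mid 1) (.up 0) (.mid 0),
  .cDH .hub (.mid 0) (.mid 2) (.up 1) (.mid 1),
  .cDH (.mid 0) (.down 1) (.mid 1) (.mid 2) (.down 2),
  .cDH (.mid 0) .hub (.mid 1) (.mid 2) (.down 2),
  .c2P2 0 2 3 4,
  .c2P2 0 2 3 4,
  .cDH (.mid 0) (.down 1) (.mid 1) (.up 0) (.down 2),
  .cDH (.mid 0) .hub (.mid 1) (.up 0) (.down 2),
  .cDH .hub (.down 0) (.mid 0) (.mid 1) (.down 1),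
  .cK3P1 0 1 2 4,
  .c2P2 0 4 1 2,
  .cDH .hub (.up 0) (.down 2) (.down 0) (.mid 1),
  .cC5 0 2 1 3 4,
  .cDH .hub (.up 0) (.mid 0) (.down 1) (.mid 1),
  .c2P2 0 4 1 2,
  .cK3P1 0 3 4 2,
  .cDH .hub (.down 1) (.mid 1) (.up 0) (.mid 0),
  .cDH .hub (.mid 0) (.up 0) (.up 1) (.mid 1),
  .cDH (.mid 0) (.mid 1) (.down 3) (.mid 2) (.down 1),
  .cDH (.mid 0) .hub (.down 2) (.down 1) (.mid 1),
  .c2P2 0 2 1 4,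
  .c2P2 0 2 3 4,
  .cDH (.mid 0) (.down 1) (.down 2) .hub (.mid 1),
  .cDH .hub (.mid 0) (.down 2) (.mid 1) (.down 0),
  .c2P2 0 2 1 4,
  .cDH .hub (.up 0) (.mid 1) (.mid 2) (.down 2),
  .cDH .hub (.down 0) (.down 2) (.down 1) (.mid 1),
  .cK3P1 0 1 4 2,
  .cDH .hub (.down 1) (.mid 0) (.down 2) (.mid 2),
  .cDH .hub (.mid 0) (.mid 1) (.down 2) (.up 0),
  .cK3P1 0 3 4 2,
  .cK3P1 0 1 4 2,
  .cDH .hub (.down 2) (.mid 1) (.mid 0) (.up 0),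
  .cDH .hub (.mid 0) (.mid 2) (.mid 1) (.up 1),
  .cDH (.mid 0) (.down 1) (.mid 1) (.down 2) (.mid 2),
  .cDH (.mid 0) .hub (.mid 1) (.down 2) (.mid 2),
  .c2P2 0 2 3 4,
  .c2P2 0 2 3 4,
  .c2P2 0 3 1 2,
  .cDH .hub (.up 0) (.down 2) (.mid 1) (.down 0),
  .cC5 0 2 1 4 3,
  .cDH .hub (.up 0) (.mid 0) (.mid 1) (.down 1),
  .cDH (.mid 0) (.down 1) (.mid 1) (.down 2) (.up 0),
  .cDH (.mid 0) .hub (.mid 1) (.down 2) (.up 0),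
  .cDH .hub (.down 0) (.mid 0) (.down 1) (.mid 1),
  .cK3P1 0 1 2 3,
  .c2P2 0 3 1 2,
  .cK3P1 0 3 4 2,
  .cDH .hub (.down 1) (.mid 1) (.mid 0) (.up 0),
  .cDH .hub (.mid 0) (.up 0) (.mid 1) (.up 1),
  .cK3P1 1 3 4 0,
  .cK3P1 1 3 4 2,
  .c2P2 0 2 1 3,
  .c2P2 0 2 3 4,
  .cK3P1 1 3 4 2,
  .cK3P1 0 1 3 2,
  .c2P2 0 2 1 4,
  .cK3P1 1 3 4 2,
  .cK3P1 1 3 4 2,
  .cK3P1 0 1 4 2,
  .c2P2 0 2 1 3,
  .cK3P1 1 3 4 2,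
  .cK3P1 0 3 4 2,
  .cK3P1 0 1 3 2,
  .cK3P1 1 3 4 2,
  .cK3P1 1 3 4 2,
  .cK3P1 1 3 4 0,
  .cDH (.mid 0) (.up 1) (.down 2) (.mid 1) (.down 1),
  .c2P2 0 2 3 4,
  .c2P2 0 2 3 4,
  .cDH (.mid 0) (.down 1) (.mid 2) (.up 1) (.mid 1),
  .cDH .hub (.up 0) (.down 1) (.mid 0) (.down 0),
  .cDH (.mid 0) (.down 1) (.up 0) (.up 1) (.mid 1),
  .cDH .hub (.up 1) (.mid 0) (.mid 1) (.down 1),
  .cDH (.mid 0) (.down 1) (.mid 2) (.mid 1) (.up 1),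
  .cDH .hub (.up 0) (.down 1) (.down 0) (.mid 0),
  .cDH (.mid 0) (.down 1) (.up 0) (.mid 1) (.up 1),
  .cDH .hub (.up 1) (.mid 0) (.down 1) (.mid 1),
  .cK3P1 0 3 4 2,
  .cK3P1 0 3 4 2,
  .cDH .hub (.down 0) (.up 0) (.mid 1) (.up 1),
  .cCo 3 4 1 0 2,
  .cDH (.mid 0) (.mid 1) (.mid 2) (.down 2) (.mid 3),
  .c2P2 0 1 2 3,
  .cDH (.mid 0) (.mid 1) (.up 0) (.down 2) (.mid 2),
  .c2P2 0 1 3 4,
  .cDH .hub (.down 2) (.down 0) (.mid 1) (.down 1),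
  .cDH .hub (.mid 0) (.down 1) (.mid 2) (.down 2),
  .cK3P1 0 2 3 1,
  .cDH .hub (.mid 1) (.mid 0) (.up 0) (.down 2),
  .cDH (.mid 0) (.mid 1) (.mid 2) (.down 2) (.up 0),
  .c2P2 0 1 2 3,
  .cDH .hub (.down 2) (.mid 0) (.down 0) (.mid 1),
  .cDH .hub (.mid 0) (.mid 1) (.down 1) (.mid 2),
  .cK3P1 0 3 4 1,
  .cDH .hub (.mid 1) (.down 2) (.up 0) (.mid 0),
  .cK3P1 0 2 3 1,
  .cDH .hub (.up 0) (.mid 1) (.up 2) (.mid 2),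
  .cDH (.mid 0) (.mid 1) (.down 1) (.mid 2) (.down 2),
  .c2P2 0 1 3 4,
  .cDH (.mid 0) (.mid 1) .hub (.mid 2) (.down 2),
  .c2P2 0 1 3 4,
  .cDH (.mid 0) (.mid 1) (.down 1) (.up 0) (.down 2),
  .cDH .hub (.mid 0) (.down 0) (.mid 1) (.down 1),
  .cDH (.mid 0) (.mid 1) .hub (.up 0) (.down 2),
  .cK3P1 0 1 2 4,
  .c2P2 0 4 1 2,
  .cC5 0 1 2 3 4,
  .cDH .hub (.down 1) (.mid 1) (.down 0) (.mid 0),
  .cDH .hub (.mid 0) (.up 0) (.down 1) (.mid 1),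
  .c2P2 0 4 1 2,
  .cDH .hub (.up 0) (.down 2) (.up 1) (.mid 1),
  .cK3P1 0 3 4 1,
  .cDH .hub (.up 0) (.mid 0) (.up 1) (.mid 1),
  .cDH (.mid 0) (.mid 1) (.mid 2) (.down 1) (.mid 3),
  .cDH (.mid 0) .hub (.down 1) (.mid 2) (.down 2),
  .cDH (.mid 0) (.mid 1) (.up 0) (.down 1) (.mid 2),
  .cDH (.mid 0) .hub (.down 0) (.mid 1) (.down 1),
  .cDH .hub (.down 0) (.down 1) (.up 0) (.down 2),
  .cDH .hub (.mid 0) (.down 1) (.up 0) (.down 2),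
  .cDH .hub (.down 1) (.mid 0) (.up 0) (.down 2),
  .cDH .hub (.mid 0) (.mid 1) (.up 1) (.down 2),
  .cDH (.mid 0) (.mid 1) (.mid 2) (.down 1) (.up 0),
  .cDH (.mid 0) .hub (.down 1) (.mid 1) (.down 0),
  .cDH (.mid 0) (.down 1) .hub (.mid 1) (.down 0),
  .cDH .hub (.mid 0) (.mid 1) (.down 0) (.mid 2),
  .cDH .hub (.down 1) (.down 2) (.up 0) (.mid 0),
  .cDH .hub (.mid 0) (.down 2) (.up 1) (.mid 1),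
  .cDH .hub (.down 2) (.mid 0) (.up 1) (.mid 1),
  .cDH .hub (.mid 0) (.mid 1) (.up 2) (.mid 2),
  .cK3P1 1 2 3 0,
  .cDH (.mid 0) (.up 1) (.mid 1) (.down 1) (.mid 2),
  .cDH (.mid 0) (.mid 1) (.up 1) (.down 1) (.mid 2),
  .cK3P1 0 1 2 4,
  .cDH (.mid 0) (.mid 1) (.down 1) (.up 1) (.down 2),
  .cDH .hub (.mid 0) (.down 0) (.up 0) (.down 1),
  .cDH .hub (.down 0) (.mid 0) (.up 0) (.down 1),
  .cK3P1 0 1 2 4,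
  .c2P2 0 4 1 2,
  .cDH (.mid 0) (.up 1) (.mid 1) (.down 1) (.up 0),
  .cDH (.mid 0) (.mid 1) (.up 1) (.down 1) (.up 0),
  .cDH .hub (.mid 0) (.up 0) (.down 0) (.mid 1),
  .c2P2 0 4 1 2,
  .cDH .hub (.mid 1) (.down 1) (.up 1) (.mid 0),
  .cDH .hub (.down 1) (.mid 1) (.up 1) (.mid 0),
  .cCo 3 0 2 4 1,
  .cDH (.mid 0) (.mid 1) (.down 2) (.mid 2) (.down 1),
  .c2P2 0 1 2 3,
  .c2P2 0 2 1 4,
  .cC5 0 1 4 3 2,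
  .cDH (.mid 0) (.mid 1) (.down 2) (.up 0) (.down 1),
  .cDH .hub (.mid 0) (.down 1) (.mid 1) (.down 0),
  .c2P2 0 2 1 4,
  .cDH .hub (.up 0) (.mid 1) (.up 1) (.down 2),
  .cDH (.mid 0) (.mid 1) (.mid 2) (.down 2) (.up 1),
  .c2P2 0 1 2 3,
  .cDH .hub (.down 1) (.mid 0) (.down 0) (.mid 1),
  .cDH .hub (.mid 0) (.mid 1) (.down 1) (.up 0),
  .cDH (.mid 0) (.mid 1) (.down 2) (.up 0) .hub,
  .cK3P1 0 1 4 2,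
  .cK3P1 0 2 3 1,
  .cDH .hub (.up 0) (.mid 1) (.up 1) (.mid 0),
  .cDH (.mid 0) (.down 1) (.mid 2) (.down 2) (.mid 3),
  .cDH (.mid 0) .hub (.mid 1) (.down 1) (.mid 2),
  .cDH (.mid 0) (.mid 1) .hub (.mid 2) (.down 1),
  .cDH (.mid 0) .hub (.up 0) (.down 1) (.mid 1),
  .cDH (.mid 0) (.down 1) (.mid 1) .hub (.mid 2),
  .cDH .hub (.up 0) (.down 0) (.mid 1) (.down 1),
  .cDH (.mid 0) (.mid 1) .hub (.up 0) (.down 1),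
  .cDH .hub (.up 0) (.mid 0) (.up 1) (.down 1),
  .cDH (.mid 0) (.mid 1) (.down 1) (.mid 2) .hub,
  .cDH (.mid 0) .hub (.mid 1) (.down 1) (.up 0),
  .cDH .hub (.down 0) (.up 0) (.down 1) (.mid 1),
  .cDH .hub (.mid 0) (.up 0) (.down 1) (.up 1),
  .cDH (.mid 0) (.mid 1) (.down 1) (.up 0) .hub,
  .cDH .hub (.up 0) (.down 1) (.up 1) (.mid 0),
  .cDH .hub (.down 1) (.up 0) (.mid 0) (.up 1),
  .cDH .hub (.mid 0) (.up 1) (.mid 1) (.up 2),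
  .cK3P1 1 3 4 0,
  .cDH (.mid 0) (.up 1) (.mid 2) (.down 1) (.mid 1),
  .c2P2 0 2 1 4,
  .cDH (.mid 0) (.up 1) (.up 0) (.down 1) (.mid 1),
  .cDH (.mid 0) (.mid 1) (.down 2) (.up 1) (.down 1),
  .cDH .hub (.mid 0) (.down 1) (.up 0) (.down 0),
  .c2P2 0 2 1 4,
  .cDH .hub (.mid 1) (.mid 0) (.up 1) (.down 1),
  .cDH (.mid 0) (.mid 1) (.mid 2) (.down 1) (.up 1),
  .cK3P1 0 1 4 2,
  .cDH (.mid 0) (.mid 1) (.up 0) (.down 1) (.up 1),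
  .cDH .hub (.mid 0) (.mid 1) (.down 0) (.up 0),
  .cDH .hub (.down 0) (.down 1) (.up 0) (.mid 0),
  .cK3P1 0 1 4 2,
  .cDH .hub (.down 1) (.mid 0) (.up 1) (.mid 1),
  .cCo 3 0 1 4 2,
  .cK3P1 1 2 3 0,
  .cDH (.mid 0) (.up 2) (.mid 1) (.down 1) (.mid 2),
  .cK3P1 1 3 4 0,
  .cDH (.mid 0) (.up 1) .hub (.mid 1) (.down 1),
  .cDH (.mid 0) (.down 1) (.mid 1) (.up 2) (.mid 2),
  .cDH .hub (.mid 1) (.down 0) (.up 1) (.down 1),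
  .cDH (.mid 0) (.mid 1) .hub (.up 1) (.down 1),
  .cCo 0 3 2 4 1,
  .cK3P1 1 2 3 0,
  .cDH (.mid 0) (.up 1) (.down 1) (.mid 1) .hub,
  .cDH (.mid 0) (.mid 1) (.up 1) (.down 1) (.up 2),
  .cDH .hub (.mid 0) (.up 0) (.down 0) (.up 1),
  .cDH (.mid 0) (.mid 1) (.down 1) (.up 1) .hub,
  .cCo 0 3 1 4 2,
  .cDH .hub (.down 0) (.mid 0) (.up 1) (.mid 1),
  .cK5e 2 3 0 4 1,
  .cDH (.mid 0) (.mid 1) (.mid 2) (.mid 3) (.down 2),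
  .c2P2 0 1 2 4,
  .cDH (.mid 0) (.mid 1) (.up 0) (.mid 2) (.down 2),
  .c2P2 0 1 3 4,
  .cDH (.mid 0) (.mid 1) (.mid 2) (.up 0) (.down 2),
  .c2P2 0 1 2 4,
  .cDH .hub (.down 2) (.mid 0) (.mid 1) (.down 0),
  .cDH .hub (.mid 0) (.mid 1) (.mid 2) (.down 1),
  .cDH .hub (.down 2) (.down 0) (.down 1) (.mid 1),
  .cDH .hub (.mid 0) (.down 1) (.down 2) (.mid 2),
  .cK3P1 0 2 4 1,
  .cDH .hub (.mid 1) (.mid 0) (.down 2) (.up 0),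
  .cK3P1 0 3 4 1,
  .cDH .hub (.mid 1) (.down 2) (.mid 0) (.up 0),
  .cK3P1 0 2 4 1,
  .cDH .hub (.up 0) (.mid 1) (.mid 2) (.up 2),
  .cDH (.mid 0) (.mid 1) (.down 1) (.down 2) (.mid 2),
  .c2P2 0 1 3 4,
  .cDH (.mid 0) (.mid 1) .hub (.down 2) (.mid 2),
  .c2P2 0 1 3 4,
  .c2P2 0 3 1 2,
  .cC5 0 1 2 4 3,
  .cDH .hub (.down 1) (.mid 1) (.mid 0) (.down 0),
  .cDH .hub (.mid 0) (.up 0) (.mid 1) (.down 1),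
  .cDH (.mid 0) (.mid 1) (.down 1) (.down 2) (.up 0),
  .cDH .hub (.mid 0) (.down 0) (.down 1) (.mid 1),
  .cDH (.mid 0) (.mid 1) .hub (.down 2) (.up 0),
  .cK3P1 0 1 2 3,
  .c2P2 0 3 1 2,
  .cDH .hub (.up 0) (.down 2) (.mid 1) (.up 1),
  .cK3P1 0 3 4 1,
  .cDH .hub (.up 0) (.mid 0) (.mid 1) (.up 1),
  .cDH (.mid 0) (.mid 1) (.down 2) (.down 1) (.mid 2),
  .c2P2 0 1 2 4,
  .c2P2 0 2 1 3,
  .cC5 0 1 3 4 2,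
  .cDH (.mid 0) (.mid 1) (.mid 2) (.up 1) (.down 2),
  .c2P2 0 1 2 4,
  .cDH .hub (.down 1) (.mid 0) (.mid 1) (.down 0),
  .cDH .hub (.mid 0) (.mid 1) (.up 0) (.down 1),
  .cDH (.mid 0) (.mid 1) (.down 2) (.down 1) (.up 0),
  .cDH .hub (.mid 0) (.down 1) (.down 0) (.mid 1),
  .c2P2 0 2 1 3,
  .cDH .hub (.up 0) (.mid 1) (.down 2) (.up 1),
  .cDH (.mid 0) (.mid 1) (.down 2) .hub (.up 0),
  .cK3P1 0 1 3 2,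
  .cK3P1 0 2 4 1,
  .cDH .hub (.up 0) (.mid 1) (.mid 0) (.up 1),
  .cDH (.mid 0) (.down 1) (.mid 2) (.mid 3) (.down 2),
  .cDH (.mid 0) .hub (.mid 1) (.mid 2) (.down 1),
  .cDH (.mid 0) (.mid 1) .hub (.down 1) (.mid 2),
  .cDH (.mid 0) .hub (.up 0) (.mid 1) (.down 1),
  .cDH (.mid 0) (.mid 1) (.down 1) .hub (.mid 2),
  .cDH (.mid 0) .hub (.mid 1) (.up 0) (.down 1),
  .cDH .hub (.down 0) (.up 0) (.mid 1) (.down 1),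
  .cDH .hub (.mid 0) (.up 0) (.up 1) (.down 1),
  .cDH (.mid 0) (.down 1) (.mid 1) (.mid 2) .hub,
  .cDH .hub (.up 0) (.down 0) (.down 1) (.mid 1),
  .cDH (.mid 0) (.mid 1) .hub (.down 1) (.up 0),
  .cDH .hub (.up 0) (.mid 0) (.down 1) (.up 1),
  .cDH (.mid 0) (.mid 1) (.down 1) .hub (.up 0),
  .cDH .hub (.up 0) (.down 1) (.mid 0) (.up 1),
  .cDH .hub (.down 1) (.up 0) (.up 1) (.mid 0),
  .cDH .hub (.mid 0) (.up 1) (.up 2) (.mid 1),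
  .cDH (.mid 0) (.mid 1) (.mid 2) (.mid 3) (.down 1),
  .cDH (.mid 0) .hub (.down 1) (.down 2) (.mid 2),
  .cDH (.mid 0) (.mid 1) (.up 0) (.mid 2) (.down 1),
  .cDH (.mid 0) .hub (.down 0) (.down 1) (.mid 1),
  .cDH (.mid 0) (.mid 1) (.mid 2) (.up 0) (.down 1),
  .cDH (.mid 0) .hub (.down 1) (.down 0) (.mid 1),
  .cDH (.mid 0) (.down 1) .hub (.down 0) (.mid 1),
  .cDH .hub (.mid 0) (.mid 1) (.mid 2) (.down 0),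
  .cDH .hub (.down 0) (.down 1) (.down 2) (.up 0),
  .cDH .hub (.mid 0) (.down 1) (.down 2) (.up 0),
  .cDH .hub (.down 1) (.mid 0) (.down 2) (.up 0),
  .cDH .hub (.mid 0) (.mid 1) (.down 2) (.up 1),
  .cDH .hub (.down 1) (.down 2) (.mid 0) (.up 0),
  .cDH .hub (.mid 0) (.down 2) (.mid 1) (.up 1),
  .cDH .hub (.down 2) (.mid 0) (.mid 1) (.up 1),
  .cDH .hub (.mid 0) (.mid 1) (.mid 2) (.up 2),
  .cK3P1 1 2 4 0,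
  .cDH (.mid 0) (.up 1) (.mid 1) (.mid 2) (.down 1),
  .cDH (.mid 0) (.mid 1) (.up 1) (.mid 2) (.down 1),
  .cK3P1 0 1 2 3,
  .c2P2 0 3 1 2,
  .cDH (.mid 0) (.up 1) (.mid 1) (.up 0) (.down 1),
  .cDH (.mid 0) (.mid 1) (.up 1) (.up 0) (.down 1),
  .cDH .hub (.mid 0) (.up 0) (.mid 1) (.down 0),
  .cDH (.mid 0) (.mid 1) (.down 1) (.down 2) (.up 1),
  .cDH .hub (.mid 0) (.down 0) (.down 1) (.up 0),
  .cDH .hub (.down 0) (.mid 0) (.down 1) (.up 0),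
  .cK3P1 0 1 2 3,
  .c2P2 0 3 1 2,
  .cDH .hub (.mid 1) (.down 1) (.mid 0) (.up 1),
  .cDH .hub (.down 1) (.mid 1) (.mid 0) (.up 1),
  .cCo 3 0 2 1 4,
  .cK3P1 1 3 4 0,
  .cDH (.mid 0) (.up 1) (.mid 2) (.mid 1) (.down 1),
  .c2P2 0 2 1 3,
  .cDH (.mid 0) (.up 1) (.up 0) (.mid 1) (.down 1),
  .cDH (.mid 0) (.mid 1) (.mid 2) (.up 1) (.down 1),
  .cK3P1 0 1 3 2,
  .cDH (.mid 0) (.mid 1) (.up 0) (.up 1) (.down 1),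
  .cDH .hub (.mid 0) (.mid 1) (.up 0) (.down 0),
  .cDH (.mid 0) (.mid 1) (.down 2) (.down 1) (.up 1),
  .cDH .hub (.mid 0) (.down 1) (.down 0) (.up 0),
  .c2P2 0 2 1 3,
  .cDH .hub (.mid 1) (.mid 0) (.down 1) (.up 1),
  .cDH .hub (.down 0) (.down 1) (.mid 0) (.up 0),
  .cK3P1 0 1 3 2,
  .cDH .hub (.down 1) (.mid 0) (.mid 1) (.up 1),
  .cCo 3 0 1 2 4,
  .cK3P1 1 2 4 0,
  .cDH (.mid 0) (.up 2) (.mid 1) (.mid 2) (.down 1),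
  .cK3P1 1 3 4 0,
  .cDH (.mid 0) (.up 1) .hub (.down 1) (.mid 1),
  .cK3P1 1 2 4 0,
  .cDH (.mid 0) (.up 1) (.down 1) .hub (.mid 1),
  .cDH (.mid 0) (.mid 1) (.up 1) (.up 2) (.down 1),
  .cDH .hub (.mid 0) (.up 0) (.up 1) (.down 0),
  .cDH (.mid 0) (.down 1) (.mid 1) (.mid 2) (.up 2),
  .cDH .hub (.mid 1) (.down 0) (.down 1) (.up 1),
  .cDH (.mid 0) (.mid 1) .hub (.down 1) (.up 1),
  .cCo 0 3 2 1 4,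
  .cDH (.mid 0) (.mid 1) (.down 1) .hub (.up 1),
  .cCo 0 3 1 2 4,
  .cDH .hub (.down 0) (.mid 0) (.mid 1) (.up 1),
  .cK5e 2 3 0 1 4,
  .cK3P1 2 3 4 0,
  .c2P2 0 1 2 3,
  .cK3P1 2 3 4 1,
  .c2P2 0 1 3 4,
  .cK3P1 2 3 4 1,
  .c2P2 0 1 2 4,
  .cK3P1 0 2 3 1,
  .cK3P1 2 3 4 1,
  .cK3P1 2 3 4 1,
  .c2P2 0 1 2 3,
  .cK3P1 0 2 4 1,
  .cK3P1 2 3 4 1,
  .cK3P1 0 3 4 1,
  .cK3P1 2 3 4 1,
  .cK3P1 0 2 3 1,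
  .cK3P1 2 3 4 1,
  .cK3P1 2 3 4 0,
  .c2P2 0 1 3 4,
  .cDH (.mid 0) (.mid 1) (.up 2) (.mid 2) (.down 2),
  .c2P2 0 1 3 4,
  .cDH (.mid 0) (.mid 2) (.down 1) (.up 1) (.mid 1),
  .cDH (.mid 0) (.up 0) (.down 1) (.up 1) (.mid 1),
  .cDH .hub (.down 1) (.up 0) (.mid 0) (.down 0),
  .cDH .hub (.mid 0) (.up 1) (.mid 1) (.down 1),
  .cDH (.mid 0) (.mid 2) (.down 1) (.mid 1) (.up 1),
  .cDH (.mid 0) (.up 0) (.down 1) (.mid 1) (.up 1),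
  .cDH .hub (.down 1) (.up 0) (.down 0) (.mid 0),
  .cDH .hub (.mid 0) (.up 1) (.down 1) (.mid 1),
  .cK3P1 0 3 4 1,
  .cDH .hub (.up 0) (.down 0) (.mid 1) (.up 1),
  .cK3P1 0 3 4 1,
  .cCo 3 1 4 0 2,
  .cK3P1 2 3 4 0,
  .c2P2 0 1 2 4,
  .cDH (.mid 0) (.mid 2) (.up 1) (.down 1) (.mid 1),
  .cDH (.mid 0) (.up 0) (.up 1) (.down 1) (.mid 1),
  .cDH (.mid 0) (.mid 1) (.mid 2) (.up 2) (.down 2),
  .c2P2 0 1 2 4,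
  .cDH .hub (.down 1) (.mid 0) (.up 0) (.down 0),
  .cDH .hub (.mid 0) (.mid 1) (.up 1) (.down 1),
  .cDH (.mid 0) (.mid 2) (.mid 1) (.down 1) (.up 1),
  .cDH (.mid 0) (.up 0) (.mid 1) (.down 1) (.up 1),
  .cK3P1 0 2 4 1,
  .cDH .hub (.up 0) (.mid 1) (.down 0) (.up 1),
  .cDH .hub (.down 1) (.down 0) (.up 0) (.mid 0),
  .cDH .hub (.mid 0) (.down 1) (.up 1) (.mid 1),
  .cK3P1 0 2 4 1,
  .cCo 3 1 0 4 2,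
  .cK3P1 1 2 3 0,
  .cK3P1 2 3 4 0,
  .cDH (.mid 0) (.mid 1) (.up 2) (.down 1) (.mid 2),
  .cDH (.mid 0) .hub (.up 1) (.mid 1) (.down 1),
  .cDH (.mid 0) (.mid 1) (.down 1) (.up 2) (.mid 2),
  .cDH (.mid 0) .hub (.mid 1) (.up 1) (.down 1),
  .cDH .hub (.down 0) (.mid 1) (.up 1) (.down 1),
  .cCo 0 2 3 4 1,
  .cK3P1 1 2 3 0,
  .cDH (.mid 0) (.up 1) (.mid 1) (.down 1) (.up 2),
  .cDH (.mid 0) (.down 1) (.up 1) (.mid 1) .hub,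
  .cDH .hub (.mid 0) (.up 1) (.down 0) (.mid 1),
  .cDH (.mid 0) (.down 1) (.mid 1) (.up 1) .hub,
  .cDH .hub (.mid 0) (.down 0) (.up 1) (.mid 1),
  .cCo 0 1 3 4 2,
  .cK5e 2 0 3 4 1,
  .cK3P1 2 3 4 0,
  .c2P2 0 1 2 3,
  .cDH (.mid 0) (.mid 2) (.up 1) (.mid 1) (.down 1),
  .cDH (.mid 0) (.up 0) (.up 1) (.mid 1) (.down 1),
  .cDH (.mid 0) (.mid 2) (.mid 1) (.up 1) (.down 1),
  .cDH (.mid 0) (.up 0) (.mid 1) (.up 1) (.down 1),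
  .cK3P1 0 2 3 1,
  .cDH .hub (.up 0) (.mid 1) (.up 1) (.down 0),
  .cDH (.mid 0) (.mid 1) (.mid 2) (.down 2) (.up 2),
  .c2P2 0 1 2 3,
  .cDH .hub (.down 1) (.mid 0) (.down 0) (.up 0),
  .cDH .hub (.mid 0) (.mid 1) (.down 1) (.up 1),
  .cDH .hub (.down 1) (.down 0) (.mid 0) (.up 0),
  .cDH .hub (.mid 0) (.down 1) (.mid 1) (.up 1),
  .cK3P1 0 2 3 1,
  .cCo 3 1 0 2 4,
  .cK3P1 1 2 4 0,
  .cK3P1 2 3 4 0,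
  .cDH (.mid 0) (.mid 1) (.up 2) (.mid 2) (.down 1),
  .cDH (.mid 0) .hub (.up 1) (.down 1) (.mid 1),
  .cK3P1 1 2 4 0,
  .cDH (.mid 0) (.up 1) (.mid 1) (.up 2) (.down 1),
  .cDH (.mid 0) (.down 1) (.up 1) .hub (.mid 1),
  .cDH .hub (.mid 0) (.up 1) (.mid 1) (.down 0),
  .cDH (.mid 0) (.mid 1) (.down 1) (.mid 2) (.up 2),
  .cDH (.mid 0) .hub (.mid 1) (.down 1) (.up 1),
  .cDH .hub (.down 0) (.mid 1) (.down 1) (.up 1),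
  .cCo 0 2 3 1 4,
  .cDH (.mid 0) (.down 1) (.mid 1) .hub (.up 1),
  .cDH .hub (.mid 0) (.down 0) (.mid 1) (.up 1),
  .cCo 0 1 3 2 4,
  .cK5e 2 0 3 1 4,
  .cK3P1 1 3 4 0,
  .cK3P1 2 3 4 0,
  .cK3P1 1 3 4 0,
  .cDH (.mid 0) (.up 1) (.up 2) (.mid 1) (.down 1),
  .cDH (.mid 0) (.mid 1) (.mid 2) (.up 2) (.down 1),
  .cDH (.mid 0) .hub (.down 1) (.up 1) (.mid 1),
  .cDH (.mid 0) (.down 1) .hub (.up 1) (.mid 1),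
  .cDH .hub (.mid 0) (.mid 1) (.up 1) (.down 0),
  .cDH (.mid 0) (.mid 1) (.mid 2) (.down 1) (.up 2),
  .cDH (.mid 0) .hub (.down 1) (.mid 1) (.up 1),
  .cDH (.mid 0) (.down 1) .hub (.mid 1) (.up 1),
  .cDH .hub (.mid 0) (.mid 1) (.down 0) (.up 1),
  .cDH .hub (.down 0) (.down 1) (.mid 1) (.up 1),
  .cCo 0 2 1 3 4,
  .cCo 0 1 2 3 4,
  .cK5e 2 0 1 3 4,
  .cK3P1 1 2 3 0,
  .cK3P1 2 3 4 0,
  .cK3P1 1 3 4 0,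
  .cCo 1 3 4 0 2,
  .cK3P1 1 2 4 0,
  .cCo 1 3 0 4 2,
  .cCo 1 0 3 4 2,
  .cK5e 0 2 3 4 1,
  .cK3P1 1 2 3 0,
  .cCo 1 3 0 2 4,
  .cCo 1 0 3 2 4,
  .cK5e 0 2 3 1 4,
  .cCo 1 0 2 3 4,
  .cK5e 0 2 1 3 4,
  .cK5e 0 1 2 3 4,
  .cK5]

end Pool.Agent.H46.P5
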