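import Mathlib
import Pool.Agent.H46.P5Defs
import Pool.Agent.H46.CertTable

/-!
Classification of the graphs on five vertices: checking of the certificates.
-/

namespace Pool.Agent.H46.P5

/-- Boolean version of `dhRel`. -/
def dhB : Vtx → Vtx → Bool
  | .hub, .mid _ => true
  | .hub, .up _ => true
  | .mid s, .up t => Nat.ble s t
  | .mid s, .down t => Nat.ble t s
  | .up _, .down _ => true
  | _, _ => false

/-- Boolean inequality of vertices. -/
def neB : Vtx → Vtx → Bool
  | .hub, .hub => false
  | .mid s, .mid t => !(Nat.beq s t)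
  | .up s, .up t => !(Nat.beq s t)
  | .down s, .down t => !(Nat.beq s t)
  | _, _ => true

theorem dhB_iff (a b : Vtx) : dhB a b = true ↔ dhRel a b := by
  cases a <;> cases b <;> simp [dhB, dhRel]

theorem neB_iff (a b : Vtx) : neB a b = true ↔ a ≠ b := by
  cases a <;> cases b <;> simp [neB, ← Bool.not_eq_true, Nat.beq_eq]

/-- `true` on all pairs `i < j`. -/
def allPairs (f : Fin 5 → Fin 5 → Bool) : Bool :=
  f 0 1 && f 0 2 && f 0 3 && f 0 4 && f 1 2 && f 1 3 && f 1 4 && f 2 3 && f 2 4 && f 3 4

/-- `true` on all pairs `i < j < 4`. -/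
def allPairs4 (f : Fin 4 → Fin 4 → Bool) : Bool :=
  f 0 1 && f 0 2 && f 0 3 && f 1 2 && f 1 3 && f 2 3

theorem allPairs_spec {f : Fin 5 → Fin 5 → Bool} (h : allPairs f = true) (i j : Fin 5)
    (hij : i < j) : f i j = true := by
  simp only [allPairs, Bool.and_eq_true] at h
  obtain ⟨⟨⟨⟨⟨⟨⟨⟨⟨h1, h2⟩, h3⟩, h4⟩, h5⟩, h6⟩, h7⟩, h8⟩, h9⟩, h10⟩ := h
  fin_cases i <;> fin_cases j <;> first | assumption | (exfalso; revert hij; decide)

theorem allPairs4_spec {f : Fin 4 → Fin 4 → Bool} (h : allPairs4 f = true) (i j : Fin 4)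
    (hij : i < j) : f i j = true := by
  simp only [allPairs4, Bool.and_eq_true] at h
  obtain ⟨⟨⟨⟨⟨h1, h2⟩, h3⟩, h4⟩, h5⟩, h6⟩ := h
  fin_cases i <;> fin_cases j <;> first | assumption | (exfalso; revert hij; decide)

/-- Matrix of `2P₂`. -/
def m2P2 : Fin 4 → Fin 4 → Bool := ![![false, true, false, false], ![true, false, false, false],
  ![false, false, false, true], ![false, false, true, false]]

/-- Matrix of `K₃ + P₁`. -/
def mK3P1 : Fin 4 → Fin 4 → Bool := ![![false, true, true, false], ![true, false, true, false],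
  ![true, true, false, false], ![false, false, false, false]]

/-- Matrix of `C₅`. -/
def mC5 : Fin 5 → Fin 5 → Bool := ![![false, true, false, false, true],
  ![true, false, true, false, false], ![false, true, false, true, false],
  ![false, false, true, false, true], ![true, false, false, true, false]]

/-- Matrix of `K₅ - e`. -/
def mK5e : Fin 5 → Fin 5 → Bool := ![![false, false, true, true, true],
  ![false, false, true, true, true], ![true, true, false, true, true],
  ![true, true, true, false, true], ![true, true, true, true, false]]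

/-- Matrix of the complement of `P₃ + 2P₁`. -/
def mCo : Fin 5 → Fin 5 → Bool := ![![false, false, true, true, true],
  ![false, false, false, true, true], ![true, false, false, true, true],
  ![true, true, true, false, true], ![true, true, true, true, false]]

theorem m2P2_iff (i j : Fin 4) : m2P2 i j = true ↔ twoP2.Adj i j := by
  fin_cases i <;> fin_cases j <;> simp [m2P2, twoP2, ofPairs]

theorem mK3P1_iff (i j : Fin 4) : mK3P1 i j = true ↔ K3P1.Adj i j := by
  fin_cases i <;> fin_cases j <;> simp [mK3P1, K3P1, ofPairs]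

theorem mC5_iff : ∀ i j : Fin 5, mC5 i j = true ↔ (SimpleGraph.cycleGraph 5).Adj i j := by
  decide

theorem mK5e_iff (i j : Fin 5) : mK5e i j = true ↔ K5e.Adj i j := by
  fin_cases i <;> fin_cases j <;> simp [mK5e, K5e, ofPairs]

theorem mCo_iff (i j : Fin 5) : mCo i j = true ↔ coP3P1P1.Adj i j := by
  fin_cases i <;> fin_cases j <;> simp [mCo, coP3P1P1, ofPairs]

/-- Check of a certificate. -/
def check (A : Fin 5 → Fin 5 → Bool) : Cert → Bool
  | .c2P2 a b c d => allPairs4 (fun i j =>
      (A (![a, b, c, d] i) (![a, b, c, d] j) == m2P2 i j) && !(![a, b, c, d] i == ![a, b, c, d] j))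
  | .cK3P1 a b c d => allPairs4 (fun i j =>
      (A (![a, b, c, d] i) (![a, b, c, d] j) == mK3P1 i j) &&
        !(![a, b, c, d] i == ![a, b, c, d] j))
  | .cC5 a b c d e => allPairs (fun i j =>
      (A (![a, b, c, d, e] i) (![a, b, c, d, e] j) == mC5 i j) &&
        !(![a, b, c, d, e] i == ![a, b, c, d, e] j))
  | .cK5 => allPairs (fun i j => A i j)
  | .cDH a b c d e => allPairs (fun i j =>
      (A i j == (dhB (![a, b, c, d, e] i) (![a, b, c, d, e] j) ||
        dhB (![a, b, c, d, e] j) (![a, b, c, d, e] i))) &&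
        neB (![a, b, c, d, e] i) (![a, b, c, d, e] j))
  | .cK5e a b c d e => allPairs (fun i j =>
      (A i j == mK5e (![a, b, c, d, e] i) (![a, b, c, d, e] j)) &&
        !(![a, b, c, d, e] i == ![a, b, c, d, e] j))
  | .cCo a b c d e => allPairs (fun i j =>
      (A i j == mCo (![a, b, c, d, e] i) (![a, b, c, d, e] j)) &&
        !(![a, b, c, d, e] i == ![a, b, c, d, e] j))

/-- The adjacency matrix with given upper triangle. -/
def mkA (b0 b1 b2 b3 b4 b5 b6 b7 b8 b9 : Bool) : Fin 5 → Fin 5 → Bool :=
  ![![false, b0, b1, b2, b3], ![b0, false, b4, b5, b6], ![b1, b4, false, b7, b8],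
    ![b2, b5, b7, false, b9], ![b3, b6, b8, b9, false]]

/-- Index of a graph in the table. -/
def idx (b0 b1 b2 b3 b4 b5 b6 b7 b8 b9 : Bool) : ℕ :=
  b0.toNat + 2 * b1.toNat + 4 * b2.toNat + 8 * b3.toNat + 16 * b4.toNat + 32 * b5.toNat +
    64 * b6.toNat + 128 * b7.toNat + 256 * b8.toNat + 512 * b9.toNat

theorem all_ok : ∀ b0 b1 b2 b3 b4 b5 b6 b7 b8 b9 : Bool,
    check (mkA b0 b1 b2 b3 b4 b5 b6 b7 b8 b9)
      (certTable.getD (idx b0 b1 b2 b3 b4 b5 b6 b7 b8 b9) .cK5) = true := by
  decide +kernel

/-- Embeddings from checks on pairs `i < j`. -/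
theorem emb_of_lt {n : ℕ} {W : Type*} (F : SimpleGraph (Fin n)) (K : SimpleGraph W)
    (f : Fin n → W) (h : ∀ i j, i < j → f i ≠ f j ∧ (K.Adj (f i) (f j) ↔ F.Adj i j)) :
    Nonempty (F ↪g K) := by
  refine ⟨⟨⟨f, fun i j hij => ?_⟩, fun {i j} => ?_⟩⟩
  · rcases lt_trichotomy i j with h' | h' | h'
    · exact absurd hij (h i j h').1
    · exact h'
    · exact absurd hij.symm (h j i h').1
  · rcases lt_trichotomy i j with h' | h' | h'
    · exact (h i j h').2
    · subst h'
      simp
    · exact (K.adj_comm _ _).trans ((h j i h').2.trans (F.adj_comm _ _))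

theorem doubleHalf_adj (a b : Vtx) :
    doubleHalf.Adj a b ↔ a ≠ b ∧ (dhRel a b ∨ dhRel b a) := by
  simp [doubleHalf]

/-- Classification of the graphs on five vertices. -/
theorem classify (H : SimpleGraph (Fin 5)) :
    Nonempty (twoP2 ↪g H) ∨ Nonempty (K3P1 ↪g H) ∨ Nonempty (SimpleGraph.cycleGraph 5 ↪g H) ∨
      Nonempty ((⊤ : SimpleGraph (Fin 5)) ↪g H) ∨ Nonempty (H ↪g doubleHalf) ∨
      Nonempty (H ↪g K5e) ∨ Nonempty (H ↪g coP3P1P1) := by
  classical
  have key := all_ok (decide (H.Adj 0 1)) (decide (H.Adj 0 2)) (decide (H.Adj 0 3))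
    (decide (H.Adj 0 4)) (decide (H.Adj 1 2)) (decide (H.Adj 1 3)) (decide (H.Adj 1 4))
    (decide (H.Adj 2 3)) (decide (H.Adj 2 4)) (decide (H.Adj 3 4))
  generalize certTable.getD _ _ = cert at key
  have hA : ∀ i j, mkA (decide (H.Adj 0 1)) (decide (H.Adj 0 2)) (decide (H.Adj 0 3))
      (decide (H.Adj 0 4)) (decide (H.Adj 1 2)) (decide (H.Adj 1 3)) (decide (H.Adj 1 4))
      (decide (H.Adj 2 3)) (decide (H.Adj 2 4)) (decide (H.Adj 3 4)) i j = true ↔ H.Adj i j := by
    intro i j
    fin_cases i <;> fin_cases j <;> simp [mkA] <;> exact H.adj_comm _ _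
  generalize mkA _ _ _ _ _ _ _ _ _ _ = A at key hA
  cases cert with
  | c2P2 a b c d =>
    left
    apply emb_of_lt _ _ ![a, b, c, d]
    intro i j hij
    simp only [check] at key
    have := allPairs4_spec key i j hij
    simp only [Bool.and_eq_true, beq_iff_eq, Bool.not_eq_true', beq_eq_false_iff_ne] at this
    exact ⟨this.2, by rw [← hA, this.1, m2P2_iff]⟩
  | cK3P1 a b c d =>
    right; left
    apply emb_of_lt _ _ ![a, b, c, d]
    intro i j hij
    simp only [check] at key
    have := allPairs4_spec key i j hij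
    simp only [Bool.and_eq_true, beq_iff_eq, Bool.not_eq_true', beq_eq_false_iff_ne] at this
    exact ⟨this.2, by rw [← hA, this.1, mK3P1_iff]⟩
  | cC5 a b c d e =>
    right; right; left
    apply emb_of_lt _ _ ![a, b, c, d, e]
    intro i j hij
    simp only [check] at key
    have := allPairs_spec key i j hij
    simp only [Bool.and_eq_true, beq_iff_eq, Bool.not_eq_true', beq_eq_false_iff_ne] at this
    exact ⟨this.2, by rw [← hA, this.1, mC5_iff]⟩
  | cK5 =>
    right; right; right; left
    apply emb_of_lt _ _ id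
    intro i j hij
    simp only [check] at key
    have := allPairs_spec key i j hij
    exact ⟨hij.ne, by simp [← hA, this, hij.ne]⟩
  | cDH a b c d e =>
    right; right; right; right; left
    apply emb_of_lt _ _ ![a, b, c, d, e]
    intro i j hij
    simp only [check] at key
    have := allPairs_spec key i j hij
    simp only [Bool.and_eq_true, beq_iff_eq, neB_iff] at this
    refine ⟨this.2, ?_⟩
    rw [← hA, this.1, Bool.or_eq_true, dhB_iff, dhB_iff, doubleHalf_adj]
    exact and_iff_right this.2
  | cK5e a b c d e =>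
    right; right; right; right; right; left
    apply emb_of_lt _ _ ![a, b, c, d, e]
    intro i j hij
    simp only [check] at key
    have := allPairs_spec key i j hij
    simp only [Bool.and_eq_true, beq_iff_eq, Bool.not_eq_true', beq_eq_false_iff_ne] at this
    exact ⟨this.2, by rw [← hA, this.1, mK5e_iff]⟩
  | cCo a b c d e =>
    right; right; right; right; right; right
    apply emb_of_lt _ _ ![a, b, c, d, e]
    intro i j hij
    simp only [check] at key
    have := allPairs_spec key i j hij
    simp only [Bool.and_eq_true, beq_iff_eq, Bool.not_eq_true', beq_eq_false_iff_ne] at this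
    exact ⟨this.2, by rw [← hA, this.1, mCo_iff]⟩

end Pool.Agent.H46.P5
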