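import Mathlib
import Pool.Agent.H46.P5Defs

/-!
Infinite families of vertex-critical graphs: the circular complete graphs `K_{(c s + 1)/s}`.
-/

namespace Pool.Agent.H46.P5

/-- Circular adjacency: distance at least `s` on both sides (`n` = number of vertices). -/
def FAdj (n s i j : ℕ) : Prop := (i + s ≤ j ∧ j + s ≤ i + n) ∨ (j + s ≤ i ∧ i + s ≤ j + n)

theorem f_2P2 (n s w x y z : ℕ) (hn : 4 * s + 1 ≤ n) (hs : 1 ≤ s)
    (hw : w < n) (hx : x < n) (hy : y < n) (hz : z < n)
    (h1 : FAdj n s w x) (h2 : FAdj n s y z) (wy : ¬ FAdj n s w y) (wz : ¬ FAdj n s w z)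
    (xy : ¬ FAdj n s x y) (xz : ¬ FAdj n s x z) : False := by
  unfold FAdj at *
  omega

theorem f_K3P1 (n s w x y z : ℕ) (hn : 4 * s + 1 ≤ n) (hs : 1 ≤ s)
    (hw : w < n) (hx : x < n) (hy : y < n) (hz : z < n)
    (h1 : FAdj n s x y) (h2 : FAdj n s y z) (h3 : FAdj n s x z) (wy : ¬ FAdj n s w y)
    (wz : ¬ FAdj n s w z) (wx : ¬ FAdj n s w x) : False := by
  unfold FAdj at *
  omega

set_option linter.unusedVariables false in
theorem f_K5 (n s w x y z t : ℕ) (hn : n < 5 * s) (hs : 1 ≤ s)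
    (hw : w < n) (hx : x < n) (hy : y < n) (hz : z < n) (ht : t < n)
    (wx : FAdj n s w x) (wy : FAdj n s w y) (wz : FAdj n s w z) (wt : FAdj n s w t)
    (xy : FAdj n s x y) (xz : FAdj n s x z) (xt : FAdj n s x t) (yz : FAdj n s y z)
    (yt : FAdj n s y t) (zt : FAdj n s z t) : False := by
  unfold FAdj at *
  omega

set_option linter.unusedVariables false in
theorem f_C5 (n s v0 v1 v2 v3 v4 : ℕ) (hn : 5 * s + 1 ≤ n) (hs : 1 ≤ s)
    (hw : v0 < n) (hx : v1 < n) (hy : v2 < n) (hz : v3 < n) (ht : v4 < n)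
    (e01 : FAdj n s v0 v1) (e12 : FAdj n s v1 v2) (e23 : FAdj n s v2 v3) (e34 : FAdj n s v3 v4)
    (e40 : FAdj n s v4 v0) (n02 : ¬ FAdj n s v0 v2) (n03 : ¬ FAdj n s v0 v3)
    (n13 : ¬ FAdj n s v1 v3) (n14 : ¬ FAdj n s v1 v4) (n24 : ¬ FAdj n s v2 v4) : False := by
  unfold FAdj at *
  omega

/-- The circular complete graph `K_{(c (t+1) + 1)/(t+1)}`. -/
def fam (c t : ℕ) : SimpleGraph (Fin (c * (t + 1) + 1)) where
  Adj i j := FAdj (c * (t + 1) + 1) (t + 1) i j
  symm := ⟨fun i j h => Or.symm h⟩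
  loopless := ⟨fun i h => by unfold FAdj at h; omega⟩

theorem fam_adj {c t : ℕ} {i j : Fin (c * (t + 1) + 1)} :
    (fam c t).Adj i j ↔ FAdj (c * (t + 1) + 1) (t + 1) i j := Iff.rfl

/-- forward distance from `x` to `y`. -/
def fwd (n x y : ℕ) : ℕ := if x ≤ y then y - x else y + n - x

/-- folded forward distance from `x` to `y`. -/
def fold (n s x y : ℕ) : ℕ := if fwd n x y < s then fwd n x y else fwd n x y - (n - s)

theorem fold_lt {n s x y : ℕ} (hs : 1 ≤ s) (hn : 2 * s ≤ n) (hx : x < n) (hy : y < n)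
    (h : ¬ FAdj n s x y) : fold n s x y < s := by
  unfold FAdj at h
  unfold fold fwd
  split_ifs <;> omega

theorem fold_inj {n s x y z : ℕ} (hs : 1 ≤ s) (hn : 2 * s ≤ n) (hx : x < n) (hy : y < n)
    (hz : z < n) (h : ¬ FAdj n s x y) (h' : ¬ FAdj n s x z) (h'' : ¬ FAdj n s y z)
    (e : fold n s x y = fold n s x z) : y = z := by
  unfold FAdj at h h' h''
  unfold fold fwd at e
  split_ifs at e <;> omega

theorem alpha_gen (n s : ℕ) (hs : 1 ≤ s) (hn : 2 * s ≤ n) (S : Finset (Fin n))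
    (hS : ∀ x ∈ S, ∀ y ∈ S, ¬ FAdj n s x y) : S.card ≤ s := by
  rcases S.eq_empty_or_nonempty with h | ⟨x, hx⟩
  · simp [h]
  · have := Finset.card_le_card_of_injOn (s := S) (t := Finset.range s)
      (fun y : Fin n => fold n s x y)
      (fun y hy => by
        simpa using fold_lt hs hn x.2 y.2 (hS x hx y hy))
      (fun y hy z hz e => Fin.ext (fold_inj hs hn x.2 y.2 z.2 (hS x hx y hy) (hS x hx z hz)
        (hS y hy z hz) e))
    simpa using this

theorem alpha_le {c t : ℕ} (hc : 2 ≤ c) (S : Finset (Fin (c * (t + 1) + 1)))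
    (hS : ∀ x ∈ S, ∀ y ∈ S, ¬ (fam c t).Adj x y) : S.card ≤ t + 1 :=
  alpha_gen _ _ (Nat.succ_pos _) (by
    have : 2 * (t + 1) ≤ c * (t + 1) := Nat.mul_le_mul_right _ hc
    omega) S hS

theorem not_colorable {c t : ℕ} (hc : 2 ≤ c) : ¬ (fam c t).Colorable c := by
  rintro ⟨f⟩
  have hlt : (Finset.univ : Finset (Fin c)).card * (t + 1) <
      (Finset.univ : Finset (Fin (c * (t + 1) + 1))).card := by
    simp
  obtain ⟨a, -, ha⟩ := Finset.exists_lt_card_fiber_of_mul_lt_card_of_maps_to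
    (f := fun v => f v) (fun v _ => Finset.mem_univ (f v)) hlt
  have := alpha_le hc (Finset.univ.filter (fun v => f v = a)) (by
    intro x hx y hy hxy
    simp only [Finset.mem_filter, Finset.mem_univ, true_and] at hx hy
    exact f.valid hxy (hx.trans hy.symm))
  omega

/-- Two numbers with equal quotient by `s` differ by less than `s`. -/
theorem div_eq_close {s a b : ℕ} (hs : 0 < s) (h : a / s = b / s) : a < b + s ∧ b < a + s := by
  have h1 := Nat.div_add_mod a s
  have h2 := Nat.div_add_mod b s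
  have h3 := Nat.mod_lt a hs
  have h4 := Nat.mod_lt b hs
  rw [h] at h1
  generalize s * (b / s) = z at *
  omega

theorem colorable {c t : ℕ} : (fam c t).Colorable (c + 1) := by
  refine ⟨SimpleGraph.Coloring.mk (fun v => (⟨(v : ℕ) / (t + 1), ?_⟩ : Fin (c + 1))) ?_⟩
  · rw [Nat.div_lt_iff_lt_mul (Nat.succ_pos _)]
    have := v.2
    nlinarith
  · intro a b hab h
    have h' := div_eq_close (Nat.succ_pos t) (Fin.mk.inj_iff.1 h)
    have h5 := fam_adj.1 hab
    unfold FAdj at h5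
    omega

theorem del_close {n s v a b : ℕ} (hs : 0 < s) (hn : 2 * s ≤ n) (hv : v < n) (ha : a < n) (hb : b < n)
    (hva : a ≠ v) (hvb : b ≠ v)
    (h : (fwd n v a - 1) / s = (fwd n v b - 1) / s) : ¬ FAdj n s a b := by
  have h' := div_eq_close hs h
  unfold fwd at h'
  unfold FAdj
  split_ifs at h' <;> omega

theorem fwd_lt {n v a : ℕ} (hv : v < n) (ha : a < n) (hva : a ≠ v) :
    1 ≤ fwd n v a ∧ fwd n v a < n := by
  unfold fwd
  split_ifs <;> omega

theorem critical {c t : ℕ} (hc : 2 ≤ c) : IsVertexCritical (fam c t) (c + 1) := by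
  constructor
  · rw [Nat.cast_add_one]
    exact SimpleGraph.chromaticNumber_eq_iff_colorable_not_colorable.2
      ⟨colorable, not_colorable hc⟩
  · intro v
    have : ((fam c t).induce {v}ᶜ).Colorable c := by
      refine ⟨SimpleGraph.Coloring.mk (fun x =>
        (⟨(fwd (c * (t + 1) + 1) v x.1 - 1) / (t + 1), ?_⟩ : Fin c)) ?_⟩
      · rw [Nat.div_lt_iff_lt_mul (Nat.succ_pos _)]
        have := fwd_lt v.2 x.1.2 (fun h => x.2 (Fin.ext h))
        change _ < c * (t + 1)
        omega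
      · intro a b hab h
        have hc' : 2 * (t + 1) ≤ c * (t + 1) := Nat.mul_le_mul_right _ hc
        exact del_close (Nat.succ_pos t) (by omega) v.2 a.1.2 b.1.2 (fun h => a.2 (Fin.ext h))
          (fun h => b.2 (Fin.ext h)) (Fin.mk.inj_iff.1 h) hab
    exact lt_of_le_of_lt this.chromaticNumber_le (by exact_mod_cast Nat.lt_succ_self c)

end Pool.Agent.H46.P5
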