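import Mathlib

/-!
List colour function: basic counting lemmas.
-/

namespace Pool.Agent.H46.LC

open Finset

variable {W : Type*} [Fintype W] [DecidableEq W]

open Classical in
/-- The finite set of proper colourings of `H` from the lists `L`. -/
noncomputable def cols (H : SimpleGraph W) (L : W → Finset ℕ) : Finset (W → ℕ) :=
  (Fintype.piFinset L).filter (fun f => ∀ u v, H.Adj u v → f u ≠ f v)

/-- The number of proper colourings of `H` from the lists `L`. -/
noncomputable def N (H : SimpleGraph W) (L : W → Finset ℕ) : ℕ := (cols H L).card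

theorem mem_cols {H : SimpleGraph W} {L : W → Finset ℕ} {f : W → ℕ} :
    f ∈ cols H L ↔ (∀ x, f x ∈ L x) ∧ ∀ u v, H.Adj u v → f u ≠ f v := by
  simp [cols, Fintype.mem_piFinset]

theorem N_mono {H : SimpleGraph W} {L L' : W → Finset ℕ} (h : ∀ x, L x ⊆ L' x) :
    N H L ≤ N H L' := by
  apply Finset.card_le_card
  intro f hf
  rw [mem_cols] at hf ⊢
  exact ⟨fun x => h x (hf.1 x), hf.2⟩

theorem N_update_erase (H : SimpleGraph W) (L : W → Finset ℕ) (x : W) (d : ℕ) :
    N H (Function.update L x ((L x).erase d)) = ((cols H L).filter (fun f => f x ≠ d)).card := by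
  unfold N
  congr 1
  ext f
  rw [Finset.mem_filter, mem_cols, mem_cols]
  constructor
  · rintro ⟨h1, h2⟩
    have hx := h1 x
    rw [Function.update_self, Finset.mem_erase] at hx
    refine ⟨⟨fun y => ?_, h2⟩, hx.1⟩
    by_cases hy : y = x
    · subst hy; exact hx.2
    · have := h1 y
      rwa [Function.update_of_ne hy] at this
  · rintro ⟨⟨h1, h2⟩, h3⟩
    refine ⟨fun y => ?_, h2⟩
    by_cases hy : y = x
    · subst hy
      rw [Function.update_self, Finset.mem_erase]
      exact ⟨h3, h1 y⟩
    · rw [Function.update_of_ne hy]; exact h1 y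

/-- Averaging over the deletion of one colour from one list. -/
theorem sum_N_update (H : SimpleGraph W) (L : W → Finset ℕ) (x : W) :
    ∑ d ∈ L x, N H (Function.update L x ((L x).erase d)) = ((L x).card - 1) * N H L := by
  simp_rw [N_update_erase, Finset.card_filter]
  rw [Finset.sum_comm]
  have : ∀ f ∈ cols H L, ∑ d ∈ L x, (if f x ≠ d then 1 else 0) = (L x).card - 1 := by
    intro f hf
    rw [← Finset.card_filter]
    have h1 : (L x).filter (fun d => f x ≠ d) = (L x).erase (f x) := by
      ext d
      simp only [Finset.mem_filter, Finset.mem_erase]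
      constructor
      · rintro ⟨a, b⟩; exact ⟨fun h => b h.symm, a⟩
      · rintro ⟨a, b⟩; exact ⟨b, fun h => a h.symm⟩
    rw [h1, Finset.card_erase_of_mem ((mem_cols.1 hf).1 x)]
  rw [Finset.sum_congr rfl this, Finset.sum_const, smul_eq_mul, mul_comm]
  rfl

/-- If all lists have at least `m` elements, with total excess `E`, then the number of colourings is
at least `(1 + E/m)` times the minimum over all `m`-assignments. -/
theorem excess (H : SimpleGraph W) (m B : ℕ) (hm : 1 ≤ m)
    (hB : ∀ L : W → Finset ℕ, (∀ x, (L x).card = m) → B ≤ N H L) :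
    ∀ (E : ℕ) (L : W → Finset ℕ), (∀ x, m ≤ (L x).card) → ∑ x, ((L x).card - m) = E →
      (m + E) * B ≤ m * N H L := by
  intro E
  induction E with
  | zero =>
    intro L h1 h2
    rw [Finset.sum_eq_zero_iff] at h2
    have : B ≤ N H L := hB L (fun x => by
      have := h2 x (Finset.mem_univ x)
      have := h1 x
      omega)
    simpa using Nat.mul_le_mul_left m this
  | succ E ih =>
    intro L h1 h2
    obtain ⟨x, -, hx⟩ : ∃ x ∈ (Finset.univ : Finset W), (L x).card - m ≠ 0 := by
      by_contra hcon
      push Not at hcon
      rw [Finset.sum_eq_zero hcon] at h2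
      omega
    obtain ⟨j, hj⟩ : ∃ j, (L x).card = m + j := ⟨(L x).card - m, by have := h1 x; omega⟩
    have hj1 : 1 ≤ j := by omega
    have hjE : j ≤ E + 1 := by
      rw [← h2]
      have := Finset.single_le_sum (f := fun x => (L x).card - m) (fun i _ => Nat.zero_le _)
        (Finset.mem_univ x)
      simp only [hj] at this
      omega
    have key : ∀ d ∈ L x, (m + E) * B ≤ m * N H (Function.update L x ((L x).erase d)) := by
      intro d hd
      apply ih
      · intro y
        by_cases hy : y = x
        · subst hy
          rw [Function.update_self, Finset.card_erase_of_mem hd]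
          omega
        · rw [Function.update_of_ne hy]; exact h1 y
      · rw [← Finset.add_sum_erase _ _ (Finset.mem_univ x)] at h2 ⊢
        rw [Function.update_self, Finset.card_erase_of_mem hd]
        have h3 : ∑ y ∈ (Finset.univ : Finset W).erase x,
            ((Function.update L x ((L x).erase d) y).card - m)
            = ∑ y ∈ (Finset.univ : Finset W).erase x, ((L y).card - m) := by
          apply Finset.sum_congr rfl
          intro y hy
          rw [Function.update_of_ne (Finset.ne_of_mem_erase hy)]
        rw [h3]
        omega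
    have hsum := Finset.sum_le_sum key
    rw [Finset.sum_const, ← Finset.mul_sum, sum_N_update, smul_eq_mul, hj] at hsum
    have hpos : 0 < m + j - 1 := by omega
    apply Nat.le_of_mul_le_mul_left _ hpos
    obtain ⟨k, hk⟩ : ∃ k, m + j - 1 = k ∧ m + j = k + 1 := ⟨m + j - 1, rfl, by omega⟩
    rw [hk.1] at hsum ⊢
    rw [hk.2] at hsum
    calc k * ((m + (E + 1)) * B) ≤ (k + 1) * ((m + E) * B) := by
          have : k * (m + (E + 1)) ≤ (k + 1) * (m + E) := by
            have : k ≤ m + E := by omega
            nlinarith
          calc k * ((m + (E + 1)) * B) = (k * (m + (E + 1))) * B := by ring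
            _ ≤ ((k + 1) * (m + E)) * B := Nat.mul_le_mul_right B this
            _ = _ := by ring
      _ ≤ m * (k * N H L) := hsum
      _ = k * (m * N H L) := by ring

end Pool.Agent.H46.LC
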