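import Mathlib
import Pool.Agent.H46.LC1

/-!
Join with a clique: removal of a clique vertex.
-/

namespace Pool.Agent.H46.LC

open Finset

variable {V : Type*} [Fintype V] [DecidableEq V]

/-- The join of `G` with the complete graph on `Fin p`. -/
def Hp (G : SimpleGraph V) (p : ℕ) : SimpleGraph (V ⊕ Fin p) :=
  (G ⊕g (⊤ : SimpleGraph (Fin p))) ⊔ completeBipartiteGraph V (Fin p)

omit [Fintype V] [DecidableEq V] in
theorem Hp_ll {G : SimpleGraph V} {p : ℕ} {u v : V} :
    (Hp G p).Adj (.inl u) (.inl v) ↔ G.Adj u v := by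
  simp [Hp, completeBipartiteGraph]

omit [Fintype V] [DecidableEq V] in
theorem Hp_lr {G : SimpleGraph V} {p : ℕ} {u : V} {i : Fin p} :
    (Hp G p).Adj (.inl u) (.inr i) := by
  simp [Hp, completeBipartiteGraph]

omit [Fintype V] [DecidableEq V] in
theorem Hp_rl {G : SimpleGraph V} {p : ℕ} {u : V} {i : Fin p} :
    (Hp G p).Adj (.inr i) (.inl u) := Hp_lr.symm

omit [Fintype V] [DecidableEq V] in
theorem Hp_rr {G : SimpleGraph V} {p : ℕ} {i j : Fin p} :
    (Hp G p).Adj (.inr i) (.inr j) ↔ i ≠ j := by
  simp [Hp, completeBipartiteGraph]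

theorem mem_cols_Hp {G : SimpleGraph V} {p : ℕ} {L : V ⊕ Fin p → Finset ℕ} {f : V ⊕ Fin p → ℕ} :
    f ∈ cols (Hp G p) L ↔ (∀ x, f x ∈ L x) ∧ (∀ u v, G.Adj u v → f (.inl u) ≠ f (.inl v)) ∧
      (∀ i j, f (.inr i) = f (.inr j) → i = j) ∧ ∀ u i, f (.inl u) ≠ f (.inr i) := by
  rw [mem_cols]
  refine and_congr_right fun _ => ?_
  constructor
  · intro h
    refine ⟨fun u v huv => h _ _ (Hp_ll.2 huv), fun i j hij => ?_, fun u i => h _ _ Hp_lr⟩
    by_contra hne
    exact h _ _ (Hp_rr.2 hne) hij
  · rintro ⟨h1, h2, h3⟩ (u | i) (v | j) h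
    · exact h1 u v (Hp_ll.1 h)
    · exact h3 u j
    · exact (h3 v i).symm
    · intro hij
      exact Hp_rr.1 h (h2 i j hij)

/-- The inclusion of `G ∨ K_p` in `G ∨ K_{p+1}` which misses the clique vertex `i`. -/
def emb {p : ℕ} (i : Fin (p + 1)) : V ⊕ Fin p → V ⊕ Fin (p + 1) := Sum.map id i.succAbove

/-- The remaining lists after the clique vertex `i` has been coloured with `c`. -/
def rest {p : ℕ} (L : V ⊕ Fin (p + 1) → Finset ℕ) (i : Fin (p + 1)) (c : ℕ) :
    V ⊕ Fin p → Finset ℕ := fun x => (L (emb i x)).erase c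

theorem clique_step (G : SimpleGraph V) (p : ℕ) (L : V ⊕ Fin (p + 1) → Finset ℕ)
    (i : Fin (p + 1)) :
    N (Hp G (p + 1)) L = ∑ c ∈ L (.inr i), N (Hp G p) (rest L i c) := by
  unfold N
  rw [Finset.card_eq_sum_card_fiberwise (f := fun f => f (.inr i)) (t := L (.inr i))
    (fun f hf => (mem_cols.1 hf).1 (.inr i))]
  apply Finset.sum_congr rfl
  intro c hc
  refine Finset.card_bij' (fun f _ => fun x => f (emb i x))
    (fun g _ => Sum.elim (fun u => g (.inl u)) (i.insertNth c (fun k => g (.inr k))))
    ?_ ?_ ?_ ?_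
  · intro f hf
    rw [Finset.mem_filter, mem_cols_Hp] at hf
    obtain ⟨⟨h1, h2, h3, h4⟩, h5⟩ := hf
    rw [mem_cols_Hp]
    refine ⟨?_, fun u v huv => h2 u v huv, ?_, fun u k => h4 u _⟩
    · rintro (u | k)
      · rw [rest, Finset.mem_erase]
        exact ⟨by rw [← h5]; exact h4 u i, h1 _⟩
      · rw [rest, Finset.mem_erase]
        refine ⟨?_, h1 _⟩
        rw [← h5]
        intro h
        exact Fin.succAbove_ne i k (h3 _ _ h)
    · intro k l hkl
      exact Fin.succAbove_right_injective (h3 _ _ hkl)
  · intro g hg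
    rw [mem_cols_Hp] at hg
    obtain ⟨h1, h2, h3, h4⟩ := hg
    rw [Finset.mem_filter, mem_cols_Hp]
    refine ⟨⟨?_, fun u v huv => h2 u v huv, ?_, ?_⟩, ?_⟩
    · rintro (u | k)
      · have := h1 (.inl u)
        rw [rest, Finset.mem_erase] at this
        exact this.2
      · refine Fin.succAboveCases i ?_ ?_ k
        · simpa using hc
        · intro k
          have := h1 (.inr k)
          rw [rest, Finset.mem_erase] at this
          simpa [emb] using this.2
    · intro k l
      refine Fin.succAboveCases i ?_ ?_ k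
      · refine Fin.succAboveCases i ?_ ?_ l
        · simp
        · intro l
          have := h1 (.inr l)
          rw [rest, Finset.mem_erase] at this
          simp only [Sum.elim_inr, Fin.insertNth_apply_same, Fin.insertNth_apply_succAbove]
          intro h
          exact absurd h.symm this.1
      · intro k
        refine Fin.succAboveCases i ?_ ?_ l
        · have := h1 (.inr k)
          rw [rest, Finset.mem_erase] at this
          simp only [Sum.elim_inr, Fin.insertNth_apply_same, Fin.insertNth_apply_succAbove]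
          intro h
          exact absurd h this.1
        · intro l
          simp only [Sum.elim_inr, Fin.insertNth_apply_succAbove]
          intro h
          rw [h3 _ _ h]
    · intro u k
      refine Fin.succAboveCases i ?_ ?_ k
      · have := h1 (.inl u)
        rw [rest, Finset.mem_erase] at this
        simpa using this.1
      · intro k
        simpa using h4 u k
    · simp
  · intro f hf
    rw [Finset.mem_filter] at hf
    funext x
    rcases x with (u | k)
    · rfl
    · refine Fin.succAboveCases i ?_ ?_ k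
      · simpa using hf.2.symm
      · intro k
        simp [emb]
  · intro g hg
    funext x
    rcases x with (u | k)
    · rfl
    · simp [emb]

end Pool.Agent.H46.LC
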