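import Mathlib
import Pool.Agent.H46.LC2

/-!
The growth inequality, and the count when all clique lists agree.
-/

namespace Pool.Agent.H46.LC

open Finset

variable {V : Type*} [Fintype V] [DecidableEq V]

/-- The growth inequality for the minimum number of list colourings. -/
theorem step_ineq (G : SimpleGraph V) (p q B : ℕ) (hq : 1 ≤ p + q)
    (hB : ∀ L : V ⊕ Fin p → Finset ℕ, (∀ x, (L x).card = p + q) → B ≤ N (Hp G p) L)
    (L : V ⊕ Fin (p + 1) → Finset ℕ) (hL : ∀ x, (L x).card = p + 1 + q) (i : Fin (p + 1)) :
    ((p + 1 + q) * (p + q) + ∑ x, (L (.inr i) \ L (emb i x)).card) * B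
      ≤ (p + q) * N (Hp G (p + 1)) L := by
  rw [clique_step G p L i, Finset.mul_sum]
  have key : ∀ c ∈ L (.inr i), ((p + q) + ∑ x, (if c ∈ L (emb i x) then 0 else 1)) * B ≤
      (p + q) * N (Hp G p) (rest L i c) := by
    intro c _
    have hcard : ∀ x, (rest L i c x).card = p + q + (if c ∈ L (emb i x) then 0 else 1) := by
      intro x
      unfold rest
      split_ifs with h
      · rw [Finset.card_erase_of_mem h, hL]; omega
      · rw [Finset.erase_eq_of_notMem h, hL]; omega
    apply excess (Hp G p) (p + q) B hq hB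
    · intro x; rw [hcard]; omega
    · apply Finset.sum_congr rfl
      intro x _
      rw [hcard]; omega
  refine le_trans (le_of_eq ?_) (Finset.sum_le_sum key)
  rw [← Finset.sum_mul, Finset.sum_add_distrib, Finset.sum_const, smul_eq_mul, hL,
    Finset.sum_comm]
  congr 2
  apply Finset.sum_congr rfl
  intro x _
  rw [Finset.card_eq_sum_ones, ← Finset.filter_notMem_eq_sdiff, Finset.sum_filter]
  apply Finset.sum_congr rfl
  intro c _
  by_cases h : c ∈ L (emb i x) <;> simp [h]

/-- The list assignment with lists `A v` on `G` and the list `M` on every clique vertex. -/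
def glue (A : V → Finset ℕ) (M : Finset ℕ) (p : ℕ) : V ⊕ Fin p → Finset ℕ :=
  Sum.elim A (fun _ => M)

theorem N_glue_succ (G : SimpleGraph V) (A : V → Finset ℕ) (M : Finset ℕ) (p : ℕ) :
    N (Hp G (p + 1)) (glue A M (p + 1)) =
      ∑ c ∈ M, N (Hp G p) (glue (fun v => (A v).erase c) (M.erase c) p) := by
  rw [clique_step G p _ 0]
  apply Finset.sum_congr rfl
  intro c _
  congr 1
  funext x
  rcases x with (u | k) <;> simp [rest, emb, glue]

theorem N_glue_zero (G : SimpleGraph V) (A : V → Finset ℕ) (M : Finset ℕ) :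
    N (Hp G 0) (glue A M 0) = N G A := by
  unfold N
  refine Finset.card_bij' (fun f _ => fun v => f (.inl v))
    (fun g _ => Sum.elim g (fun i => i.elim0)) ?_ ?_ ?_ ?_
  · intro f hf
    rw [mem_cols_Hp] at hf
    rw [mem_cols]
    exact ⟨fun v => hf.1 (.inl v), hf.2.1⟩
  · intro g hg
    rw [mem_cols] at hg
    rw [mem_cols_Hp]
    refine ⟨?_, hg.2, fun i => i.elim0, fun _ i => i.elim0⟩
    rintro (u | i)
    · exact hg.1 u
    · exact i.elim0
  · intro f _
    funext x
    rcases x with (u | i)
    · rfl
    · exact i.elim0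
  · intro g _
    rfl

open Classical in
/-- A translation from one finite set to another one of the same size. -/
noncomputable def tr (A B : Finset ℕ) (x : ℕ) : ℕ :=
  if h : A.card = B.card ∧ x ∈ A then (Finset.equivOfCardEq h.1 ⟨x, h.2⟩ : B) else x

theorem tr_mem {A B : Finset ℕ} {x : ℕ} (h : A.card = B.card) (hx : x ∈ A) : tr A B x ∈ B := by
  rw [tr, dif_pos ⟨h, hx⟩]
  exact Subtype.property _

theorem tr_inj {A B : Finset ℕ} {x y : ℕ} (h : A.card = B.card) (hx : x ∈ A) (hy : y ∈ A)
    (hxy : tr A B x = tr A B y) : x = y := by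
  rw [tr, dif_pos ⟨h, hx⟩, tr, dif_pos ⟨h, hy⟩] at hxy
  have := (Finset.equivOfCardEq h).injective (Subtype.ext hxy)
  simpa using this

theorem N_const_le (G : SimpleGraph V) {L L' : V → Finset ℕ}
    (h1 : ∀ v, (L v).card = (L' v).card) (h2 : ∀ u v, G.Adj u v → L u = L v)
    (h3 : ∀ u v, G.Adj u v → L' u = L' v) : N G L ≤ N G L' := by
  apply Finset.card_le_card_of_injOn (fun f => fun v => tr (L v) (L' v) (f v))
  · intro f hf
    have hf := mem_cols.1 (Finset.mem_coe.1 hf)
    apply Finset.mem_coe.2
    rw [mem_cols]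
    refine ⟨fun v => tr_mem (h1 v) (hf.1 v), fun u v huv h => ?_⟩
    have h4 := h2 u v huv
    have h5 := h3 u v huv
    have hu := hf.1 u
    have hv := hf.1 v
    have h1v := h1 v
    simp only at h
    rw [h4] at h hu
    rw [h5] at h
    exact hf.2 u v huv (tr_inj h1v hu hv h)
  · intro f hf g hg hfg
    have hf := mem_cols.1 (Finset.mem_coe.1 hf)
    have hg := mem_cols.1 (Finset.mem_coe.1 hg)
    funext v
    exact tr_inj (h1 v) (hf.1 v) (hg.1 v) (congrFun hfg v)

/-- The number of colourings from lists that agree along the edges depends only on the sizes. -/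
theorem N_const_congr (G : SimpleGraph V) {L L' : V → Finset ℕ}
    (h1 : ∀ v, (L v).card = (L' v).card) (h2 : ∀ u v, G.Adj u v → L u = L v)
    (h3 : ∀ u v, G.Adj u v → L' u = L' v) : N G L = N G L' :=
  le_antisymm (N_const_le G h1 h2 h3) (N_const_le G (fun v => (h1 v).symm) h3 h2)

/-- The number of proper `q`-colourings. -/
noncomputable def Pn (G : SimpleGraph V) (q : ℕ) : ℕ := N G (fun _ => Finset.range q)

theorem N_eq_Pn (G : SimpleGraph V) (L : V → Finset ℕ) (q : ℕ) (h1 : ∀ v, (L v).card = q)
    (h2 : ∀ u v, G.Adj u v → L u = L v) : N G L = Pn G q :=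
  N_const_congr G (fun v => by rw [h1, Finset.card_range]) h2 (fun _ _ _ => rfl)

theorem N_glue_const (G : SimpleGraph V) (p : ℕ) : ∀ (M : Finset ℕ),
    N (Hp G p) (glue (fun _ => M) M p) = M.card.descFactorial p * Pn G (M.card - p) := by
  induction p with
  | zero =>
    intro M
    rw [N_glue_zero, N_eq_Pn G _ M.card (fun _ => rfl) (fun _ _ _ => rfl)]
    simp
  | succ p ih =>
    intro M
    rw [N_glue_succ]
    rw [Finset.sum_congr rfl (fun c hc => by rw [ih (M.erase c), Finset.card_erase_of_mem hc])]
    rw [Finset.sum_const, smul_eq_mul]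
    rcases Nat.eq_zero_or_pos M.card with h | h
    · rw [h]; simp
    · obtain ⟨k, hk⟩ : ∃ k, M.card = k + 1 := ⟨M.card - 1, by omega⟩
      rw [hk, Nat.succ_descFactorial_succ, Nat.add_sub_cancel, Nat.add_sub_add_right, mul_assoc]

/-- The number of elements of `M` that are missing from some list. -/
theorem glue_bound (G : SimpleGraph V) (q : ℕ) (hq : 1 ≤ q) (hP : 1 ≤ Pn G q) (v₀ : V) (p : ℕ) :
    ∀ (A : V → Finset ℕ) (M D : Finset ℕ) (β : ℕ), M.card = p + q → D ⊆ M →
      (∀ c ∈ M, c ∉ D → ∀ v, c ∈ A v) → β ∈ A v₀ → β ∉ M →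
      (((p + q : ℕ) : ℤ) - D.card * q) * ((p + q).descFactorial p : ℤ) * ((Pn G q : ℤ) + 1)
        ≤ ((p + q : ℕ) : ℤ) * (N (Hp G p) (glue A M p) : ℤ) := by
  induction p with
  | zero =>
    intro A M D β hM hD hA hβ hβM
    rw [N_glue_zero]
    simp only [Nat.zero_add, Nat.descFactorial_zero, Nat.cast_one, mul_one] at hM ⊢
    rcases Nat.eq_zero_or_pos D.card with h | h
    · rw [h]
      rw [Finset.card_eq_zero] at h
      subst h
      have h1 : Pn G q + 1 ≤ N G A := by
        rw [← N_eq_Pn G (fun _ => M) q (fun _ => hM) (fun _ _ _ => rfl)] at hP ⊢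
        obtain ⟨f₀, hf₀⟩ : (cols G (fun _ => M)).Nonempty := Finset.card_pos.1 hP
        rw [mem_cols] at hf₀
        have hsub : insert (Function.update f₀ v₀ β) (cols G (fun _ => M)) ⊆ cols G A := by
          intro f hf
          rw [Finset.mem_insert] at hf
          rcases hf with rfl | hf
          · rw [mem_cols]
            constructor
            · intro v
              by_cases hv : v = v₀
              · subst hv; simpa using hβ
              · rw [Function.update_of_ne hv]
                exact hA _ (hf₀.1 v) (by simp) v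
            · intro u v huv
              by_cases hu : u = v₀
              · have hv : v ≠ v₀ := by
                  intro hv
                  rw [hu, hv] at huv
                  exact G.loopless.irrefl _ huv
                rw [hu, Function.update_self, Function.update_of_ne hv]
                intro h
                exact hβM (h ▸ hf₀.1 v)
              · rw [Function.update_of_ne hu]
                by_cases hv : v = v₀
                · rw [hv, Function.update_self]
                  intro h
                  exact hβM (h ▸ hf₀.1 u)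
                · rw [Function.update_of_ne hv]
                  exact hf₀.2 u v huv
          · rw [mem_cols] at hf ⊢
            exact ⟨fun v => hA _ (hf.1 v) (by simp) v, hf.2⟩
        have hcard := Finset.card_le_card hsub
        rw [Finset.card_insert_of_notMem] at hcard
        · exact hcard
        · rw [mem_cols]
          intro h
          have := h.1 v₀
          rw [Function.update_self] at this
          exact hβM this
      have h2 : (Pn G q : ℤ) + 1 ≤ (N G A : ℤ) := by exact_mod_cast h1
      have h3 : (0 : ℤ) ≤ q := by positivity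
      simp only [Nat.cast_zero, zero_mul, sub_zero]
      exact mul_le_mul_of_nonneg_left h2 h3
    · have h1 : ((q : ℤ) - D.card * q) ≤ 0 := by
        have h2 : (1 : ℤ) ≤ D.card := by exact_mod_cast h
        have h3 : (0 : ℤ) ≤ q := by positivity
        nlinarith
      have h2 : (0 : ℤ) ≤ (q : ℤ) * (N G A : ℤ) := by positivity
      have h3 : (0 : ℤ) ≤ (Pn G q : ℤ) + 1 := by positivity
      nlinarith
  | succ p ih =>
    intro A M D β hM hD hA hβ hβM
    rw [N_glue_succ]
    have key : ∀ c ∈ M, ((((p + q : ℕ) : ℤ) - (D.erase c).card * q) *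
        ((p + q).descFactorial p : ℤ) * ((Pn G q : ℤ) + 1))
        ≤ ((p + q : ℕ) : ℤ) *
          (N (Hp G p) (glue (fun v => (A v).erase c) (M.erase c) p) : ℤ) := by
      intro c hc
      apply ih _ _ _ β
      · rw [Finset.card_erase_of_mem hc, hM]; omega
      · exact Finset.erase_subset_erase c hD
      · intro x hx hxD v
        rw [Finset.mem_erase] at hx ⊢
        refine ⟨hx.1, hA x hx.2 ?_ v⟩
        intro h
        exact hxD (Finset.mem_erase.2 ⟨hx.1, h⟩)
      · rw [Finset.mem_erase]
        exact ⟨fun h => hβM (h ▸ hc), hβ⟩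
      · intro h
        exact hβM (Finset.mem_of_mem_erase h)
    have hsum := Finset.sum_le_sum key
    rw [← Finset.mul_sum, ← Finset.sum_mul, ← Finset.sum_mul] at hsum
    have hE : ∑ c ∈ M, (((p + q : ℕ) : ℤ) - (D.erase c).card * q)
        = ((p + q : ℕ) : ℤ) * (((p + 1 + q : ℕ) : ℤ) - D.card * q) := by
      have h1 : ∀ c ∈ M, (((p + q : ℕ) : ℤ) - (D.erase c).card * q)
          = ((p + q : ℕ) : ℤ) - D.card * q + (if c ∈ D then (q : ℤ) else 0) := by
        intro c _
        split_ifs with h
        · rw [Finset.card_erase_of_mem h]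
          have : 1 ≤ D.card := Finset.card_pos.2 ⟨c, h⟩
          rw [Nat.cast_sub this]
          push_cast
          ring
        · rw [Finset.erase_eq_of_notMem h]
          ring
      rw [Finset.sum_congr rfl h1, Finset.sum_add_distrib, Finset.sum_const, hM,
        ← Finset.sum_filter, Finset.sum_const]
      have h2 : M.filter (fun c => c ∈ D) = D := by
        ext x
        simp only [Finset.mem_filter]
        exact ⟨fun h => h.2, fun h => ⟨hD h, h⟩⟩
      rw [h2]
      simp only [nsmul_eq_mul]
      push_cast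
      ring
    rw [hE] at hsum
    have hpos : (0 : ℤ) < ((p + q : ℕ) : ℤ) := by
      have : 0 < p + q := by omega
      exact_mod_cast this
    have h5 : (((p + 1 + q : ℕ) : ℤ) - D.card * q) * ((p + q).descFactorial p : ℤ) *
        ((Pn G q : ℤ) + 1) ≤
        ∑ c ∈ M, (N (Hp G p) (glue (fun v => (A v).erase c) (M.erase c) p) : ℤ) := by
      apply le_of_mul_le_mul_left _ hpos
      calc _ = ((p + q : ℕ) : ℤ) * (((p + 1 + q : ℕ) : ℤ) - D.card * q) *
            ((p + q).descFactorial p : ℤ) * ((Pn G q : ℤ) + 1) := by ring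
        _ ≤ _ := hsum
    have h6 : (p + 1 + q).descFactorial (p + 1) = (p + 1 + q) * (p + q).descFactorial p := by
      have : p + 1 + q = (p + q) + 1 := by omega
      rw [this, Nat.succ_descFactorial_succ]
    rw [h6]
    have hpos' : (0 : ℤ) ≤ ((p + 1 + q : ℕ) : ℤ) := by positivity
    calc _ = ((p + 1 + q : ℕ) : ℤ) * ((((p + 1 + q : ℕ) : ℤ) - D.card * q) *
          ((p + q).descFactorial p : ℤ) * ((Pn G q : ℤ) + 1)) := by push_cast; ring
      _ ≤ ((p + 1 + q : ℕ) : ℤ) *
          ∑ c ∈ M, (N (Hp G p) (glue (fun v => (A v).erase c) (M.erase c) p) : ℤ) :=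
        mul_le_mul_of_nonneg_left h5 hpos'
      _ = _ := by push_cast; rfl

end Pool.Agent.H46.LC
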