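import Mathlib
import Pool.Agent.H46.LC2

/-!
Positivity: for `p ≥ |V|^2` the join `G ∨ K_p` is colourable from all lists of size `p + q`,
provided `G` is `q`-colourable.
-/

namespace Pool.Agent.H46.LC

open Finset

theorem sdr_of_card_le {ι : Type*} [Fintype ι] (t : ι → Finset ℕ)
    (h : ∀ i, Fintype.card ι ≤ (t i).card) : ∃ f : ι → ℕ, Function.Injective f ∧ ∀ i, f i ∈ t i := by
  classical
  rw [← Finset.all_card_le_biUnion_card_iff_exists_injective]
  intro s
  rcases s.eq_empty_or_nonempty with rfl | ⟨i, hi⟩
  · simp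
  · calc s.card ≤ Fintype.card ι := Finset.card_le_univ s
      _ ≤ (t i).card := h i
      _ ≤ (s.biUnion t).card := Finset.card_le_card (Finset.subset_biUnion_of_mem t hi)

variable {V : Type*} [Fintype V] [DecidableEq V]

theorem N_pos (G : SimpleGraph V) (q : ℕ) (φ : V → Fin q) (hφ : ∀ u v, G.Adj u v → φ u ≠ φ v)
    (p : ℕ) (hp : Fintype.card V * Fintype.card V ≤ p) (L : V ⊕ Fin p → Finset ℕ)
    (hL : ∀ x, (L x).card = p + q) : 0 < N (Hp G p) L := by
  classical
  -- a maximal set `X` with `|L(X)| ≤ |X|`
  let S : Finset (Finset (V ⊕ Fin p)) :=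
    Finset.univ.filter (fun X => (X.biUnion L).card ≤ X.card)
  have hS : S.Nonempty := ⟨∅, by simp [S]⟩
  obtain ⟨X, hXS, hXmax⟩ := Finset.exists_max_image S Finset.card hS
  have hX : (X.biUnion L).card ≤ X.card := by simpa [S] using hXS
  -- Hall condition outside `X`
  have hHall : ∀ s : Finset {x // x ∉ X}, s.card ≤
      (s.biUnion (fun x => L x.1 \ X.biUnion L)).card := by
    intro s
    by_contra hcon
    push Not at hcon
    have hs : s.Nonempty := by
      rw [Finset.nonempty_iff_ne_empty]
      rintro rfl
      simp at hcon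
    let Y : Finset (V ⊕ Fin p) := s.map ⟨Subtype.val, Subtype.val_injective⟩
    have hYc : Y.card = s.card := Finset.card_map _
    have hdisj : Disjoint X Y := by
      rw [Finset.disjoint_left]
      intro x hx hy
      rw [Finset.mem_map] at hy
      obtain ⟨y, _, rfl⟩ := hy
      exact y.2 hx
    have hsub : (X ∪ Y).biUnion L ⊆ X.biUnion L ∪ s.biUnion (fun x => L x.1 \ X.biUnion L) := by
      intro c hc
      rw [Finset.mem_biUnion] at hc
      obtain ⟨x, hx, hcx⟩ := hc
      rw [Finset.mem_union]
      by_cases hcX : c ∈ X.biUnion L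
      · exact Or.inl hcX
      · right
        rw [Finset.mem_union] at hx
        rcases hx with hx | hx
        · exact absurd (Finset.mem_biUnion.2 ⟨x, hx, hcx⟩) hcX
        · rw [Finset.mem_map] at hx
          obtain ⟨y, hy, rfl⟩ := hx
          rw [Finset.mem_biUnion]
          exact ⟨y, hy, Finset.mem_sdiff.2 ⟨hcx, hcX⟩⟩
    have hmem : X ∪ Y ∈ S := by
      simp only [S, Finset.mem_filter, Finset.mem_univ, true_and]
      calc ((X ∪ Y).biUnion L).card ≤ _ := Finset.card_le_card hsub
        _ ≤ (X.biUnion L).card + (s.biUnion (fun x => L x.1 \ X.biUnion L)).card :=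
          Finset.card_union_le _ _
        _ ≤ X.card + Y.card := by omega
        _ = (X ∪ Y).card := (Finset.card_union_of_disjoint hdisj).symm
    have := hXmax _ hmem
    rw [Finset.card_union_of_disjoint hdisj] at this
    have := hs.card_pos
    omega
  obtain ⟨g, hginj, hg⟩ := (Finset.all_card_le_biUnion_card_iff_exists_injective
    (fun x : {x // x ∉ X} => L x.1 \ X.biUnion L)).1 hHall
  rw [N, Finset.card_pos]
  rcases X.eq_empty_or_nonempty with hXe | ⟨x₀, hx₀⟩
  · refine ⟨fun x => g ⟨x, by simp [hXe]⟩, ?_⟩
    rw [mem_cols]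
    refine ⟨fun x => (Finset.mem_sdiff.1 (hg ⟨x, by simp [hXe]⟩)).1, fun u v huv h => ?_⟩
    have := hginj h
    rw [Subtype.mk.injEq] at this
    subst this
    exact (Hp G p).loopless.irrefl _ huv
  · -- the common colours of a colour class
    have hXW : X.card ≤ Fintype.card V + p := by
      calc X.card ≤ Fintype.card (V ⊕ Fin p) := Finset.card_le_univ X
        _ = _ := by simp
    have hLX : p + q ≤ (X.biUnion L).card := by
      rw [← hL x₀]
      exact Finset.card_le_card (Finset.subset_biUnion_of_mem L hx₀)
    let C : Fin q → Finset ℕ := fun j => X.biUnion L \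
      (Finset.univ.filter (fun v : V => Sum.inl v ∈ X ∧ φ v = j)).biUnion
        (fun v => X.biUnion L \ L (.inl v))
    have hC : ∀ j, Fintype.card (Fin q) ≤ (C j).card := by
      intro j
      rw [Fintype.card_fin]
      have h1 : ((Finset.univ.filter (fun v : V => Sum.inl v ∈ X ∧ φ v = j)).biUnion
          (fun v => X.biUnion L \ L (.inl v))).card ≤ Fintype.card V * Fintype.card V := by
        calc _ ≤ ∑ v ∈ Finset.univ.filter (fun v : V => Sum.inl v ∈ X ∧ φ v = j),
              (X.biUnion L \ L (.inl v)).card := Finset.card_biUnion_le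
          _ ≤ ∑ v ∈ Finset.univ.filter (fun v : V => Sum.inl v ∈ X ∧ φ v = j),
              Fintype.card V := by
            apply Finset.sum_le_sum
            intro v hv
            rw [Finset.mem_filter] at hv
            rw [Finset.card_sdiff_of_subset (Finset.subset_biUnion_of_mem L hv.2.1), hL]
            omega
          _ = (Finset.univ.filter (fun v : V => Sum.inl v ∈ X ∧ φ v = j)).card *
              Fintype.card V := by rw [Finset.sum_const, smul_eq_mul]
          _ ≤ _ := Nat.mul_le_mul_right _ (Finset.card_le_univ _)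
      have h2 := Finset.le_card_sdiff ((Finset.univ.filter (fun v : V => Sum.inl v ∈ X ∧
        φ v = j)).biUnion (fun v => X.biUnion L \ L (.inl v))) (X.biUnion L)
      simp only [C]
      omega
    obtain ⟨c, hcinj, hc⟩ := sdr_of_card_le C hC
    have hc1 : ∀ v, Sum.inl v ∈ X → c (φ v) ∈ L (.inl v) := by
      intro v hv
      have := hc (φ v)
      simp only [C, Finset.mem_sdiff] at this
      by_contra hcon
      apply this.2
      rw [Finset.mem_biUnion]
      exact ⟨v, by simp [hv], Finset.mem_sdiff.2 ⟨this.1, hcon⟩⟩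
    obtain ⟨d, hdinj, hd⟩ := sdr_of_card_le
      (fun i : {i : Fin p // Sum.inr i ∈ X} => L (.inr i.1) \ Finset.univ.image c) (by
        intro i
        have h1 : Fintype.card {i : Fin p // Sum.inr i ∈ X} ≤ p := by
          calc _ ≤ Fintype.card (Fin p) := Fintype.card_subtype_le _
            _ = p := Fintype.card_fin p
        have h2 : (Finset.univ.image c).card ≤ q := by
          calc _ ≤ (Finset.univ : Finset (Fin q)).card := Finset.card_image_le
            _ = q := by simp
        have h3 := Finset.le_card_sdiff (Finset.univ.image c) (L (.inr i.1))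
        rw [hL] at h3
        omega)
    let F : V ⊕ Fin p → ℕ := fun x => if hx : x ∈ X then
      (match x, hx with
        | .inl v, _ => c (φ v)
        | .inr i, hi => d ⟨i, hi⟩) else g ⟨x, hx⟩
    have hFl : ∀ v, (Sum.inl v ∈ X) → F (.inl v) = c (φ v) := by
      intro v hv
      simp [F, hv]
    have hFr : ∀ i, (hi : Sum.inr i ∈ X) → F (.inr i) = d ⟨i, hi⟩ := by
      intro v hv
      simp [F, hv]
    have hFo : ∀ x, (hx : x ∉ X) → F x = g ⟨x, hx⟩ := by
      intro x hx
      simp [F, hx]
    have hFX : ∀ x, x ∈ X → F x ∈ L x := by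
      rintro (v | i) hx
      · rw [hFl v hx]; exact hc1 v hx
      · rw [hFr i hx]; exact (Finset.mem_sdiff.1 (hd ⟨i, hx⟩)).1
    have hFL : ∀ x, F x ∈ L x := by
      intro x
      by_cases hx : x ∈ X
      · exact hFX x hx
      · rw [hFo x hx]; exact (Finset.mem_sdiff.1 (hg ⟨x, hx⟩)).1
    refine ⟨F, ?_⟩
    rw [mem_cols]
    refine ⟨hFL, ?_⟩
    have hio : ∀ x y, x ∈ X → y ∉ X → F x ≠ F y := by
      intro x y hx hy h
      have h1 := hFX x hx
      rw [h, hFo y hy] at h1
      exact (Finset.mem_sdiff.1 (hg ⟨y, hy⟩)).2 (Finset.mem_biUnion.2 ⟨x, hx, h1⟩)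
    intro x y hxy
    by_cases hx : x ∈ X
    · by_cases hy : y ∈ X
      · rcases x with (u | i) <;> rcases y with (v | j)
        · rw [hFl u hx, hFl v hy]
          intro h
          exact hφ u v (Hp_ll.1 hxy) (hcinj h)
        · rw [hFl u hx, hFr j hy]
          intro h
          apply (Finset.mem_sdiff.1 (hd ⟨j, hy⟩)).2
          rw [← h]
          exact Finset.mem_image_of_mem c (Finset.mem_univ _)
        · rw [hFl v hy, hFr i hx]
          intro h
          apply (Finset.mem_sdiff.1 (hd ⟨i, hx⟩)).2
          rw [h]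
          exact Finset.mem_image_of_mem c (Finset.mem_univ _)
        · rw [hFr i hx, hFr j hy]
          intro h
          have := hdinj h
          rw [Subtype.mk.injEq] at this
          exact Hp_rr.1 hxy this
      · exact hio x y hx hy
    · by_cases hy : y ∈ X
      · exact (hio y x hy hx).symm
      · rw [hFo x hx, hFo y hy]
        intro h
        have := hginj h
        rw [Subtype.mk.injEq] at this
        subst this
        exact (Hp G p).loopless.irrefl _ hxy

end Pool.Agent.H46.LC
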