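import Mathlib
import Pool.Agent.H46.LC3
import Pool.Agent.H46.LC4

/-!
For every fixed number `q` of spare colours and all large `p`, constant lists of size `p + q`
minimise the number of colourings of `G ∨ K_p`.
-/

namespace Pool.Agent.H46.LC

open Finset

variable {V : Type*} [Fintype V] [DecidableEq V]

/-- The minimum number of colourings of `G ∨ K_p` over the `m`-assignments. -/
noncomputable def Bm (G : SimpleGraph V) (p m : ℕ) : ℕ :=
  sInf {k | ∃ L : V ⊕ Fin p → Finset ℕ, (∀ x, (L x).card = m) ∧ N (Hp G p) L = k}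

theorem Bm_attained (G : SimpleGraph V) (p m : ℕ) :
    ∃ L : V ⊕ Fin p → Finset ℕ, (∀ x, (L x).card = m) ∧ N (Hp G p) L = Bm G p m := by
  have : {k | ∃ L : V ⊕ Fin p → Finset ℕ, (∀ x, (L x).card = m) ∧ N (Hp G p) L = k}.Nonempty :=
    ⟨_, fun _ => Finset.range m, fun _ => Finset.card_range m, rfl⟩
  exact Nat.sInf_mem this

theorem Bm_le (G : SimpleGraph V) (p m : ℕ) (L : V ⊕ Fin p → Finset ℕ)
    (hL : ∀ x, (L x).card = m) : Bm G p m ≤ N (Hp G p) L :=
  Nat.sInf_le ⟨L, hL, rfl⟩

omit [Fintype V] [DecidableEq V] in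
theorem glue_self {p : ℕ} (M : Finset ℕ) :
    (fun _ => M : V ⊕ Fin p → Finset ℕ) = glue (fun _ => M) M p := by
  funext x
  rcases x with (u | i) <;> rfl

theorem Bm_le_const (G : SimpleGraph V) (p q : ℕ) :
    Bm G p (p + q) ≤ (p + q).descFactorial p * Pn G q := by
  have h := Bm_le G p (p + q) (fun _ => Finset.range (p + q)) (fun _ => Finset.card_range _)
  rw [glue_self, N_glue_const, Finset.card_range, Nat.add_sub_cancel_left] at h
  exact h

theorem Bm_step (G : SimpleGraph V) (p q : ℕ) (hq : 1 ≤ p + q) :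
    (p + 1 + q) * Bm G p (p + q) ≤ Bm G (p + 1) (p + 1 + q) := by
  obtain ⟨L, hL, hLB⟩ := Bm_attained G (p + 1) (p + 1 + q)
  have h := step_ineq G p q (Bm G p (p + q)) hq (fun L hL => Bm_le G p _ L hL) L hL 0
  rw [hLB] at h
  apply Nat.le_of_mul_le_mul_left _ hq
  calc (p + q) * ((p + 1 + q) * Bm G p (p + q))
      = ((p + 1 + q) * (p + q)) * Bm G p (p + q) := by ring
    _ ≤ ((p + 1 + q) * (p + q) + ∑ x, (L (.inr 0) \ L (emb 0 x)).card) * Bm G p (p + q) := by
        apply Nat.mul_le_mul_right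
        omega
    _ ≤ _ := h

/-- If the total variation of the lists is small, then there are at least as many colourings as
for constant lists. -/
theorem near_const (G : SimpleGraph V) (q : ℕ) (hq : 1 ≤ q) (hP : 1 ≤ Pn G q) (p : ℕ)
    (hpq : q ≤ p + 1) (L : V ⊕ Fin (p + 1) → Finset ℕ) (hL : ∀ x, (L x).card = p + 1 + q)
    (hvar : ∀ i, 8 * q * (Pn G q + 1) * ∑ x, (L (.inr i) \ L (emb i x)).card ≤ p + 1 + q) :
    (p + 1 + q).descFactorial (p + 1) * Pn G q ≤ N (Hp G (p + 1)) L := by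
  classical
  have hK : 16 ≤ 8 * q * (Pn G q + 1) := by nlinarith
  -- number of clique vertices with a list different from that of `i`
  have hdiff : ∀ i : Fin (p + 1),
      16 * (Finset.univ.filter (fun k : Fin (p + 1) => L (.inr k) ≠ L (.inr i))).card
        ≤ p + 1 + q := by
    intro i
    have h1 : (Finset.univ.filter (fun k : Fin (p + 1) => L (.inr k) ≠ L (.inr i))).card ≤
        ∑ x, (L (.inr i) \ L (emb i x)).card := by
      have h2 : (Finset.univ.filter (fun k : Fin (p + 1) => L (.inr k) ≠ L (.inr i))) ⊆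
          (Finset.univ.filter (fun k : Fin p => L (.inr (i.succAbove k)) ≠ L (.inr i))).map
            ⟨i.succAbove, Fin.succAbove_right_injective⟩ := by
        intro k hk
        rw [Finset.mem_filter] at hk
        have hki : k ≠ i := by
          rintro rfl
          exact hk.2 rfl
        obtain ⟨l, hl⟩ := Fin.exists_succAbove_eq hki
        rw [Finset.mem_map]
        refine ⟨l, ?_, hl⟩
        rw [Finset.mem_filter]
        refine ⟨Finset.mem_univ _, ?_⟩
        rw [hl]
        exact hk.2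
      calc _ ≤ _ := Finset.card_le_card h2
        _ = (Finset.univ.filter (fun k : Fin p =>
            L (.inr (i.succAbove k)) ≠ L (.inr i))).card := Finset.card_map _
        _ = ∑ k : Fin p, (if L (.inr (i.succAbove k)) ≠ L (.inr i) then 1 else 0) := by
            rw [Finset.card_filter]
        _ ≤ ∑ k : Fin p, (L (.inr i) \ L (.inr (i.succAbove k))).card := by
            apply Finset.sum_le_sum
            intro k _
            split_ifs with h
            · rw [Nat.one_le_iff_ne_zero, Ne, Finset.card_eq_zero, Finset.sdiff_eq_empty_iff_subset]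
              intro hsub
              exact h (Finset.eq_of_subset_of_card_le hsub (by rw [hL, hL])).symm
            · exact Nat.zero_le _
        _ ≤ ∑ x, (L (.inr i) \ L (emb i x)).card := by
            rw [Fintype.sum_sum_type]
            exact Nat.le_add_left _ _
    calc 16 * (Finset.univ.filter (fun k : Fin (p + 1) => L (.inr k) ≠ L (.inr i))).card
        ≤ (8 * q * (Pn G q + 1)) * ∑ x, (L (.inr i) \ L (emb i x)).card :=
          Nat.mul_le_mul hK h1
      _ ≤ p + 1 + q := hvar i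
  have heq : ∀ i j : Fin (p + 1), L (.inr i) = L (.inr j) := by
    intro i j
    by_contra hne
    have h1 := hdiff i
    have h2 := hdiff j
    have h3 : (Finset.univ : Finset (Fin (p + 1))) ⊆
        (Finset.univ.filter (fun k : Fin (p + 1) => L (.inr k) ≠ L (.inr i))) ∪
        (Finset.univ.filter (fun k : Fin (p + 1) => L (.inr k) ≠ L (.inr j))) := by
      intro k _
      rw [Finset.mem_union, Finset.mem_filter, Finset.mem_filter]
      by_cases h : L (.inr k) = L (.inr i)
      · right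
        refine ⟨Finset.mem_univ _, ?_⟩
        rw [h]; exact hne
      · left
        exact ⟨Finset.mem_univ _, h⟩
    have h4 := (Finset.card_le_card h3).trans (Finset.card_union_le _ _)
    rw [Finset.card_univ, Fintype.card_fin] at h4
    omega
  set M : Finset ℕ := L (.inr 0) with hM
  set A : V → Finset ℕ := fun v => L (.inl v) with hA
  have hLg : L = glue A M (p + 1) := by
    funext x
    rcases x with (u | i)
    · rfl
    · exact heq i 0
  have hMc : M.card = p + 1 + q := hL _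
  by_cases hall : ∀ v, A v = M
  · have hA' : A = fun _ => M := funext hall
    rw [hLg, hA', N_glue_const, hMc, Nat.add_sub_cancel_left]
  · push Not at hall
    obtain ⟨v₀, hv₀⟩ := hall
    obtain ⟨β, hβ, hβM⟩ : ∃ β, β ∈ A v₀ ∧ β ∉ M := by
      by_contra hcon
      push Not at hcon
      exact hv₀ (Finset.eq_of_subset_of_card_le hcon (by rw [hMc, hA]; simp [hL]))
    let D : Finset ℕ := Finset.univ.biUnion (fun v => M \ A v)
    have hD : D ⊆ M := by
      intro c hc
      rw [Finset.mem_biUnion] at hc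
      obtain ⟨v, _, hc⟩ := hc
      exact (Finset.mem_sdiff.1 hc).1
    have hDA : ∀ c ∈ M, c ∉ D → ∀ v, c ∈ A v := by
      intro c hc hcD v
      by_contra hcon
      exact hcD (Finset.mem_biUnion.2 ⟨v, Finset.mem_univ _, Finset.mem_sdiff.2 ⟨hc, hcon⟩⟩)
    have hDc : 8 * q * (Pn G q + 1) * D.card ≤ p + 1 + q := by
      refine le_trans (Nat.mul_le_mul_left _ ?_) (hvar 0)
      calc D.card ≤ ∑ v : V, (M \ A v).card := Finset.card_biUnion_le
        _ ≤ _ := by
          rw [Fintype.sum_sum_type]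
          exact Nat.le_add_right _ _
    have hb := glue_bound G q hq hP v₀ (p + 1) A M D β hMc hD hDA hβ hβM
    rw [← hLg] at hb
    have h1 : (p + 1 + q) * ((p + 1 + q).descFactorial (p + 1) * Pn G q) ≤
        (p + 1 + q) * N (Hp G (p + 1)) L := by
      have h2 : ((p + 1 + q : ℕ) : ℤ) * (((p + 1 + q).descFactorial (p + 1) : ℤ) * Pn G q) ≤
          ((p + 1 + q : ℕ) : ℤ) * N (Hp G (p + 1)) L := by
        refine le_trans ?_ hb
        have h3 : ((D.card : ℤ) * q) * ((Pn G q : ℤ) + 1) ≤ ((p + 1 + q : ℕ) : ℤ) := by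
          have h4 : D.card * q * (Pn G q + 1) ≤ p + 1 + q := by
            refine le_trans ?_ hDc
            have : D.card * q * (Pn G q + 1) = q * (Pn G q + 1) * D.card := by ring
            rw [this]
            apply Nat.mul_le_mul_right
            apply Nat.mul_le_mul_right
            omega
          exact_mod_cast h4
        have h5 : (0 : ℤ) ≤ ((p + 1 + q).descFactorial (p + 1) : ℤ) := by positivity
        have h6 : ((p + 1 + q : ℕ) : ℤ) * (Pn G q : ℤ) ≤
            (((p + 1 + q : ℕ) : ℤ) - D.card * q) * ((Pn G q : ℤ) + 1) := by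
          linarith
        calc ((p + 1 + q : ℕ) : ℤ) * (((p + 1 + q).descFactorial (p + 1) : ℤ) * Pn G q)
            = ((p + 1 + q).descFactorial (p + 1) : ℤ) *
                (((p + 1 + q : ℕ) : ℤ) * (Pn G q : ℤ)) := by ring
          _ ≤ ((p + 1 + q).descFactorial (p + 1) : ℤ) *
                ((((p + 1 + q : ℕ) : ℤ) - D.card * q) * ((Pn G q : ℤ) + 1)) :=
              mul_le_mul_of_nonneg_left h6 h5
          _ = _ := by ring
      exact_mod_cast h2
    exact Nat.le_of_mul_le_mul_left h1 (by omega)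

/-- There is an arbitrarily large `p` at which some minimising assignment is nearly constant. -/
theorem exists_near_const (G : SimpleGraph V) (q K : ℕ) (hq : 1 ≤ q) (hK : 1 ≤ K)
    (φ : V → Fin q) (hφ : ∀ u v, G.Adj u v → φ u ≠ φ v) (p₁ : ℕ)
    (hp₁ : Fintype.card V * Fintype.card V ≤ p₁) :
    ∃ p, p₁ ≤ p ∧ ∃ L : V ⊕ Fin (p + 1) → Finset ℕ, (∀ x, (L x).card = p + 1 + q) ∧
      N (Hp G (p + 1)) L = Bm G (p + 1) (p + 1 + q) ∧
      ∀ i, K * ∑ x, (L (.inr i) \ L (emb i x)).card ≤ p + 1 + q := by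
  by_contra hcon
  push Not at hcon
  -- the normalised minimum
  let u : ℕ → ℝ := fun p => (Bm G p (p + q) : ℝ) / ((p + q).descFactorial p : ℝ)
  have hdf : ∀ p, (0 : ℝ) < ((p + q).descFactorial p : ℝ) := by
    intro p
    have : 0 < (p + q).descFactorial p := Nat.descFactorial_pos.2 (by omega)
    exact_mod_cast this
  have hu_le : ∀ p, u p ≤ (Pn G q : ℝ) := by
    intro p
    rw [div_le_iff₀ (hdf p)]
    have := Bm_le_const G p q
    have h2 : (Bm G p (p + q) : ℝ) ≤ (((p + q).descFactorial p * Pn G q : ℕ) : ℝ) := by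
      exact_mod_cast this
    rw [Nat.cast_mul] at h2
    linarith
  have hu_pos : 0 < u p₁ := by
    apply div_pos _ (hdf p₁)
    obtain ⟨L, hL, hLB⟩ := Bm_attained G p₁ (p₁ + q)
    rw [← hLB]
    exact_mod_cast N_pos G q φ hφ p₁ hp₁ L hL
  have hgrow : ∀ p, p₁ ≤ p → u p * (1 + 1 / ((K : ℝ) * (p + q))) ≤ u (p + 1) := by
    intro p hp
    obtain ⟨L, hL, hLB⟩ := Bm_attained G (p + 1) (p + 1 + q)
    obtain ⟨i, hi⟩ := hcon p hp L hL hLB
    have h := step_ineq G p q (Bm G p (p + q)) (by omega) (fun L hL => Bm_le G p _ L hL) L hL i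
    rw [hLB] at h
    set Tv := ∑ x, (L (.inr i) \ L (emb i x)).card with hTv
    have hdf1 : (p + 1 + q).descFactorial (p + 1) = (p + 1 + q) * (p + q).descFactorial p := by
      have : p + 1 + q = (p + q) + 1 := by omega
      rw [this, Nat.succ_descFactorial_succ]
    have hR : (((p + 1 + q : ℕ) : ℝ) * ((p + q : ℕ) : ℝ) + (Tv : ℝ)) * (Bm G p (p + q) : ℝ) ≤
        ((p + q : ℕ) : ℝ) * (Bm G (p + 1) (p + 1 + q) : ℝ) := by
      exact_mod_cast h
    have hS : ((p + 1 + q : ℕ) : ℝ) ≤ (K : ℝ) * (Tv : ℝ) := by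
      exact_mod_cast hi.le
    have hKpos : (0 : ℝ) < (K : ℝ) := by exact_mod_cast hK
    have hm' : (0 : ℝ) < ((p + q : ℕ) : ℝ) := by
      have : 0 < p + q := by omega
      exact_mod_cast this
    have hm : (0 : ℝ) < ((p + 1 + q : ℕ) : ℝ) := by
      have : 0 < p + 1 + q := by omega
      exact_mod_cast this
    have hB : (0 : ℝ) ≤ (Bm G p (p + q) : ℝ) := by positivity
    simp only [u]
    rw [hdf1, Nat.cast_mul]
    rw [le_div_iff₀ (mul_pos hm (hdf p))]
    have e1 : (Bm G p (p + q) : ℝ) / ((p + q).descFactorial p : ℝ) *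
        (1 + 1 / ((K : ℝ) * (p + q))) *
        (((p + 1 + q : ℕ) : ℝ) * ((p + q).descFactorial p : ℝ)) =
        (Bm G p (p + q) : ℝ) * ((p + 1 + q : ℕ) : ℝ) * (1 + 1 / ((K : ℝ) * (p + q))) := by
      have := (hdf p).ne'
      field_simp
    rw [e1]
    have e2 : (Bm G p (p + q) : ℝ) * ((p + 1 + q : ℕ) : ℝ) * (1 + 1 / ((K : ℝ) * (p + q)))
        = ((Bm G p (p + q) : ℝ) * ((p + 1 + q : ℕ) : ℝ) * ((K : ℝ) * ((p + q : ℕ) : ℝ) + 1)) /
          ((K : ℝ) * ((p + q : ℕ) : ℝ)) := by
      push_cast at hm' ⊢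
      field_simp
    rw [e2, div_le_iff₀ (mul_pos hKpos hm')]
    calc (Bm G p (p + q) : ℝ) * ((p + 1 + q : ℕ) : ℝ) * ((K : ℝ) * ((p + q : ℕ) : ℝ) + 1)
        = (K * (((p + 1 + q : ℕ) : ℝ) * ((p + q : ℕ) : ℝ)) + ((p + 1 + q : ℕ) : ℝ)) *
            (Bm G p (p + q) : ℝ) := by ring
      _ ≤ (K * (((p + 1 + q : ℕ) : ℝ) * ((p + q : ℕ) : ℝ)) + K * (Tv : ℝ)) *
            (Bm G p (p + q) : ℝ) := by
          apply mul_le_mul_of_nonneg_right _ hB
          linarith
      _ = K * ((((p + 1 + q : ℕ) : ℝ) * ((p + q : ℕ) : ℝ) + (Tv : ℝ)) *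
            (Bm G p (p + q) : ℝ)) := by ring
      _ ≤ K * (((p + q : ℕ) : ℝ) * (Bm G (p + 1) (p + 1 + q) : ℝ)) :=
          mul_le_mul_of_nonneg_left hR hKpos.le
      _ = (Bm G (p + 1) (p + 1 + q) : ℝ) * (K * ((p + q : ℕ) : ℝ)) := by ring
  have hp₁q : (0 : ℝ) < (p₁ : ℝ) + q := by
    have : 0 < p₁ + q := by omega
    exact_mod_cast this
  have hKpos : (0 : ℝ) < (K : ℝ) := by exact_mod_cast hK
  have hsum : ∀ n : ℕ, u p₁ * (1 + (1 / ((K : ℝ) * (p₁ + q))) *
      ∑ j ∈ Finset.range n, 1 / ((j : ℝ) + 1)) ≤ u (p₁ + n) := by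
    intro n
    induction n with
    | zero => simp
    | succ n ih =>
      have h1 := hgrow (p₁ + n) (by omega)
      have h0 : u p₁ ≤ u (p₁ + n) := by
        refine le_trans ?_ ih
        have : (0 : ℝ) ≤ (1 / ((K : ℝ) * (p₁ + q))) * ∑ j ∈ Finset.range n, 1 / ((j : ℝ) + 1) := by
          positivity
        nlinarith
      have h2 : 1 / ((K : ℝ) * (p₁ + q)) * (1 / ((n : ℝ) + 1)) ≤
          1 / ((K : ℝ) * (((p₁ + n : ℕ) : ℝ) + q)) := by
        rw [one_div_mul_one_div]
        apply one_div_le_one_div_of_le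
        · have : (0 : ℝ) < ((p₁ + n : ℕ) : ℝ) + q := by
            have : 0 < (p₁ + n) + q := by omega
            exact_mod_cast this
          positivity
        · push_cast
          have h5 : (1 : ℝ) ≤ (p₁ : ℝ) + q := by
            have : 1 ≤ p₁ + q := by omega
            exact_mod_cast this
          have h6 : (0 : ℝ) ≤ n := by positivity
          have h7 : (p₁ : ℝ) + n + q ≤ ((p₁ : ℝ) + q) * (n + 1) := by nlinarith
          calc (K : ℝ) * ((p₁ : ℝ) + n + q) ≤ K * (((p₁ : ℝ) + q) * (n + 1)) :=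
                mul_le_mul_of_nonneg_left h7 hKpos.le
            _ = _ := by ring
      rw [Finset.sum_range_succ]
      have h5 : u p₁ * (1 / ((K : ℝ) * (p₁ + q)) * (1 / ((n : ℝ) + 1))) ≤
          u (p₁ + n) * (1 / ((K : ℝ) * (((p₁ + n : ℕ) : ℝ) + q))) := by
        apply mul_le_mul h0 h2
        · positivity
        · linarith
      calc u p₁ * (1 + (1 / ((K : ℝ) * (p₁ + q))) *
            (∑ j ∈ Finset.range n, 1 / ((j : ℝ) + 1) + 1 / ((n : ℝ) + 1)))
          = u p₁ * (1 + (1 / ((K : ℝ) * (p₁ + q))) *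
            ∑ j ∈ Finset.range n, 1 / ((j : ℝ) + 1)) +
            u p₁ * (1 / ((K : ℝ) * (p₁ + q)) * (1 / ((n : ℝ) + 1))) := by ring
        _ ≤ u (p₁ + n) + u (p₁ + n) * (1 / ((K : ℝ) * (((p₁ + n : ℕ) : ℝ) + q))) :=
            add_le_add ih h5
        _ = u (p₁ + n) * (1 + 1 / ((K : ℝ) * (((p₁ + n : ℕ) : ℝ) + q))) := by ring
        _ ≤ u (p₁ + n + 1) := h1
        _ = _ := by rw [add_assoc]
  have hdiv := Real.tendsto_sum_range_one_div_nat_succ_atTop
  rw [Filter.tendsto_atTop_atTop] at hdiv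
  obtain ⟨n, hn⟩ := hdiv (((Pn G q : ℝ) / u p₁) * ((K : ℝ) * (p₁ + q)))
  have h1 := hn n le_rfl
  have h2 := (hsum n).trans (hu_le _)
  have h3 : (Pn G q : ℝ) / u p₁ ≤ (1 / ((K : ℝ) * (p₁ + q))) *
      ∑ j ∈ Finset.range n, 1 / ((j : ℝ) + 1) := by
    rw [one_div, inv_mul_eq_div, le_div_iff₀ (mul_pos hKpos hp₁q)]
    exact h1
  have h4 : (Pn G q : ℝ) < u p₁ * (1 + (1 / ((K : ℝ) * (p₁ + q))) *
      ∑ j ∈ Finset.range n, 1 / ((j : ℝ) + 1)) := by
    rw [div_le_iff₀ hu_pos] at h3
    nlinarith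
  linarith

/-- For fixed `q`, constant lists are optimal for all large `p`. -/
theorem eventually_const (G : SimpleGraph V) (q : ℕ) (hq : 1 ≤ q) (hP : 1 ≤ Pn G q)
    (φ : V → Fin q) (hφ : ∀ u v, G.Adj u v → φ u ≠ φ v) :
    ∃ p₀, ∀ p, p₀ ≤ p → ∀ L : V ⊕ Fin p → Finset ℕ, (∀ x, (L x).card = p + q) →
      (p + q).descFactorial p * Pn G q ≤ N (Hp G p) L := by
  obtain ⟨p, hp, L, hL, hLB, hvar⟩ := exists_near_const G q (8 * q * (Pn G q + 1)) hq
    (by nlinarith) φ hφ (Fintype.card V * Fintype.card V + q) (by omega)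
  have hbase := near_const G q hq hP p (by omega) L hL hvar
  rw [hLB] at hbase
  refine ⟨p + 1, fun p' hp' L' hL' => ?_⟩
  refine le_trans ?_ (Bm_le G p' _ L' hL')
  clear hL' L'
  induction p', hp' using Nat.le_induction with
  | base => exact hbase
  | succ k hk ih =>
    refine le_trans ?_ (Bm_step G k q (by omega))
    have : k + 1 + q = (k + q) + 1 := by omega
    rw [this, Nat.succ_descFactorial_succ, mul_assoc]
    exact Nat.mul_le_mul_left _ ih

end Pool.Agent.H46.LC
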