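import Mathlib
import Pool.Agent.H46.LC3

/-!
For every graph and all large `m`, constant lists minimise the number of list colourings.
The proof compresses one colour into another one.
-/

namespace Pool.Agent.H46.LC

open Finset

variable {W : Type*} [Fintype W] [DecidableEq W]

section compress

variable (H : SimpleGraph W) (L : W → Finset ℕ) (a b : ℕ)

/-- The compressed lists: `b` is replaced by `a` wherever `a` is missing. -/
def compr : W → Finset ℕ := fun w => if b ∈ L w ∧ a ∉ L w then insert a ((L w).erase b) else L w

open Classical in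
/-- The recolouring map. -/
noncomputable def Phi (f : W → ℕ) : W → ℕ := fun w =>
  if (b ∈ L w ∧ a ∉ L w) ∧ f w = a then b
  else if f w = b ∧ ∃ y, H.Adj w y ∧ (b ∈ L y ∧ a ∉ L y) ∧ f y = a then a else f w

open Classical in
/-- The inverse recolouring map. -/
noncomputable def Psi (f : W → ℕ) : W → ℕ := fun w =>
  if (b ∈ L w ∧ a ∉ L w) ∧ f w = b then a
  else if f w = a ∧ ∃ y, H.Adj w y ∧ (b ∈ L y ∧ a ∉ L y) ∧ f y = b then b else f w

variable {H L a b}

omit [Fintype W] [DecidableEq W] in
theorem compr_card (w : W) : (compr L a b w).card = (L w).card := by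
  unfold compr
  split_ifs with h
  · rw [Finset.card_insert_of_notMem, Finset.card_erase_of_mem h.1]
    · have := Finset.card_pos.2 ⟨b, h.1⟩
      omega
    · intro h2
      exact h.2 (Finset.mem_of_mem_erase h2)
  · rfl

omit [Fintype W] [DecidableEq W] in
theorem not_mem_compr (hab : a ≠ b) {w : W} (h : b ∈ L w ∧ a ∉ L w) : b ∉ compr L a b w := by
  unfold compr
  rw [if_pos h, Finset.mem_insert]
  rintro (h1 | h1)
  · exact hab h1.symm
  · exact (Finset.notMem_erase b (L w)) h1

omit [Fintype W] [DecidableEq W] in
theorem compr_eq {w : W} (h : ¬ (b ∈ L w ∧ a ∉ L w)) : compr L a b w = L w := by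
  unfold compr
  rw [if_neg h]

theorem Psi_Phi (hab : a ≠ b) {f : W → ℕ} (hf : f ∈ cols H (compr L a b)) :
    Psi H L a b (Phi H L a b f) = f := by
  rw [mem_cols] at hf
  obtain ⟨h1, h2⟩ := hf
  have hB : ∀ w, (b ∈ L w ∧ a ∉ L w) → f w ≠ b := by
    intro w hw h
    exact not_mem_compr hab hw (h ▸ h1 w)
  funext w
  by_cases hwa : f w = a
  · by_cases hw : b ∈ L w ∧ a ∉ L w
    · have e : Phi H L a b f w = b := by simp [Phi, hw, hwa]
      simp [Psi, hw, e, hwa]
    · have e : Phi H L a b f w = a := by
        unfold Phi
        rw [if_neg (fun h => hw h.1), if_neg (fun h => hab (hwa.symm.trans h.1)), hwa]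
      unfold Psi
      rw [if_neg (fun h => hw h.1), if_neg, e, hwa]
      rintro ⟨_, y, hy1, hy2, hy3⟩
      unfold Phi at hy3
      split_ifs at hy3 with h3 h4
      · exact h2 w y hy1 (hwa.trans h3.2.symm)
      · exact hab hy3
      · exact hB y hy2 hy3
  · by_cases hwb : f w = b
    · have hw : ¬ (b ∈ L w ∧ a ∉ L w) := fun hw => hB w hw hwb
      by_cases hy : ∃ y, H.Adj w y ∧ (b ∈ L y ∧ a ∉ L y) ∧ f y = a
      · have e : Phi H L a b f w = a := by
          unfold Phi
          rw [if_neg (fun h => hw h.1), if_pos ⟨hwb, hy⟩]
        unfold Psi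
        rw [if_neg (fun h => hw h.1), if_pos, hwb]
        refine ⟨e, ?_⟩
        obtain ⟨y, hy1, hy2, hy3⟩ := hy
        refine ⟨y, hy1, hy2, ?_⟩
        unfold Phi
        rw [if_pos ⟨hy2, hy3⟩]
      · have e : Phi H L a b f w = b := by
          unfold Phi
          rw [if_neg (fun h => hw h.1), if_neg (fun h => hy h.2), hwb]
        unfold Psi
        rw [if_neg (fun h => hw h.1), if_neg, e, hwb]
        rintro ⟨h, _⟩
        exact hab (h.symm.trans e)
    · have e : Phi H L a b f w = f w := by
        unfold Phi
        rw [if_neg (fun h => hwa h.2), if_neg (fun h => hwb h.1)]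
      unfold Psi
      rw [e, if_neg (fun h => hwb h.2), if_neg (fun h => hwa h.1)]

theorem Phi_mem (hab : a ≠ b) {f : W → ℕ} (hf : f ∈ cols H (compr L a b))
    (hsmall : (Finset.univ.filter (fun w => f w = a ∨ f w = b)).card ≤ 2) :
    Phi H L a b f ∈ cols H L := by
  rw [mem_cols] at hf ⊢
  obtain ⟨h1, h2⟩ := hf
  have hB : ∀ w, (b ∈ L w ∧ a ∉ L w) → f w ≠ b := by
    intro w hw h
    exact not_mem_compr hab hw (h ▸ h1 w)
  have hval : ∀ w, ¬ (f w = a ∨ f w = b) → Phi H L a b f w = f w := by
    intro w hw
    push Not at hw
    unfold Phi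
    rw [if_neg (fun h => hw.1 h.2), if_neg (fun h => hw.2 h.1)]
  have hval2 : ∀ w, (f w = a ∨ f w = b) → (Phi H L a b f w = a ∨ Phi H L a b f w = b) := by
    intro w hw
    unfold Phi
    split_ifs
    · exact Or.inr rfl
    · exact Or.inl rfl
    · exact hw
  constructor
  · intro w
    unfold Phi
    split_ifs with h3 h4
    · exact h3.1.1
    · have hw : ¬ (b ∈ L w ∧ a ∉ L w) := fun hw => hB w hw h4.1
      have := h1 w
      rw [compr_eq hw, h4.1] at this
      by_contra ha
      exact hw ⟨this, ha⟩
    · have := h1 w
      by_cases hw : b ∈ L w ∧ a ∉ L w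
      · unfold compr at this
        rw [if_pos hw, Finset.mem_insert] at this
        rcases this with h5 | h5
        · exact absurd ⟨hw, h5⟩ h3
        · exact Finset.mem_of_mem_erase h5
      · rwa [compr_eq hw] at this
  · have main : ∀ w w', H.Adj w w' → f w = a → f w' = b →
        Phi H L a b f w ≠ Phi H L a b f w' := by
      intro w w' hww ha hb
      have hne : w ≠ w' := hww.ne
      have hw' : ¬ (b ∈ L w' ∧ a ∉ L w') := fun hw => hB w' hw hb
      by_cases hw : b ∈ L w ∧ a ∉ L w
      · have e1 : Phi H L a b f w = b := by
          unfold Phi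
          rw [if_pos ⟨hw, ha⟩]
        have e2 : Phi H L a b f w' = a := by
          unfold Phi
          rw [if_neg (fun h => hw' h.1), if_pos ⟨hb, w, hww.symm, hw, ha⟩]
        rw [e1, e2]
        exact hab.symm
      · have e1 : Phi H L a b f w = a := by
          unfold Phi
          rw [if_neg (fun h => hw h.1), if_neg (fun h => hab (ha.symm.trans h.1)), ha]
        have e2 : Phi H L a b f w' = b := by
          unfold Phi
          rw [if_neg (fun h => hw' h.1), if_neg, hb]
          rintro ⟨_, y, hy1, hy2, hy3⟩
          have hyw : y ≠ w := by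
            rintro rfl
            exact hw hy2
          have hyw' : y ≠ w' := hy1.ne'
          have : ({w, w', y} : Finset W) ⊆
              Finset.univ.filter (fun w => f w = a ∨ f w = b) := by
            intro z hz
            rw [Finset.mem_insert, Finset.mem_insert, Finset.mem_singleton] at hz
            rw [Finset.mem_filter]
            refine ⟨Finset.mem_univ _, ?_⟩
            rcases hz with rfl | rfl | rfl
            · exact Or.inl ha
            · exact Or.inr hb
            · exact Or.inl hy3
          have hc := Finset.card_le_card this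
          rw [Finset.card_insert_of_notMem, Finset.card_insert_of_notMem,
            Finset.card_singleton] at hc
          · omega
          · rw [Finset.mem_singleton]; exact hyw'.symm
          · rw [Finset.mem_insert, Finset.mem_singleton]
            rintro (h | h)
            · exact hne h
            · exact hyw h.symm
        rw [e1, e2]
        exact hab
    intro w w' hww
    by_cases hw : f w = a ∨ f w = b
    · by_cases hw' : f w' = a ∨ f w' = b
      · rcases hw with hw | hw <;> rcases hw' with hw' | hw'
        · exact absurd (hw.trans hw'.symm) (h2 w w' hww)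
        · exact main w w' hww hw hw'
        · exact (main w' w hww.symm hw' hw).symm
        · exact absurd (hw.trans hw'.symm) (h2 w w' hww)
      · rw [hval w' hw']
        intro h
        apply hw'
        rw [← h]
        exact hval2 w hw
    · by_cases hw' : f w' = a ∨ f w' = b
      · rw [hval w hw]
        intro h
        apply hw
        rw [h]
        exact hval2 w' hw'
      · rw [hval w hw, hval w' hw']
        exact h2 w w' hww

/-- The lists which force the colours `a` and `b` on `u` and `v`, and nowhere else. -/
def forced (L : W → Finset ℕ) (a b : ℕ) (u v : W) : W → Finset ℕ := fun w =>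
  if w = u then {a} else if w = v then {b} else ((L w).erase a).erase b

theorem Phi_not_forced {u v : W} (huv : H.Adj u v)
    (hav : a ∉ L v) (hbv : b ∈ L v) (hbu : b ∉ L u) {f : W → ℕ}
    (hf : f ∈ cols H (compr L a b)) : Phi H L a b f ∉ cols H (forced L a b u v) := by
  have hab : a ≠ b := by
    rintro rfl
    exact hav hbv
  intro hcon
  rw [mem_cols] at hf hcon
  obtain ⟨h1, h2⟩ := hf
  have e1 : Phi H L a b f u = a := by
    have := hcon.1 u
    simpa [forced] using this
  have e2 : Phi H L a b f v = b := by
    have := hcon.1 v
    simpa [forced, huv.ne'] using this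
  have hu : ¬ (b ∈ L u ∧ a ∉ L u) := fun h => hbu h.1
  have hv : (b ∈ L v ∧ a ∉ L v) := ⟨hbv, hav⟩
  have hfu : f u = a := by
    have hfu' : f u ≠ b := by
      intro h
      have := h1 u
      rw [compr_eq hu, h] at this
      exact hbu this
    unfold Phi at e1
    rw [if_neg (fun h => hu h.1), if_neg (fun h => hfu' h.1)] at e1
    exact e1
  have hfv : f v = a := by
    by_contra hne
    unfold Phi at e2
    rw [if_neg (fun h => hne h.2)] at e2
    split_ifs at e2 with h3
    · exact hab e2
    · exact not_mem_compr hab hv (e2 ▸ h1 v)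
  exact h2 u v huv (hfu.trans hfv.symm)

end compress

/-- The main comparison: compression loses more than it can gain. -/
theorem compress_count (H : SimpleGraph W) (L : W → Finset ℕ) {a b : ℕ} {u v : W}
    (huv : H.Adj u v) (hau : a ∈ L u) (hav : a ∉ L v) (hbv : b ∈ L v) (hbu : b ∉ L u) :
    N H (compr L a b) + N H (forced L a b u v) ≤ N H L +
      ((cols H (compr L a b)).filter
        (fun f => 3 ≤ (Finset.univ.filter (fun w => f w = a ∨ f w = b)).card)).card := by
  classical
  have hab : a ≠ b := by
    rintro rfl
    exact hav hbv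
  set S := (cols H (compr L a b)).filter
    (fun f => ¬ 3 ≤ (Finset.univ.filter (fun w => f w = a ∨ f w = b)).card) with hS
  have hsplit : N H (compr L a b) = ((cols H (compr L a b)).filter
        (fun f => 3 ≤ (Finset.univ.filter (fun w => f w = a ∨ f w = b)).card)).card + S.card := by
    rw [N, hS, Finset.card_filter_add_card_filter_not]
  have himg : (S.image (Phi H L a b)).card = S.card := by
    apply Finset.card_image_of_injOn
    intro f hf g hg hfg
    have hf' : f ∈ cols H (compr L a b) := (Finset.mem_filter.1 (Finset.mem_coe.1 hf)).1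
    have hg' : g ∈ cols H (compr L a b) := (Finset.mem_filter.1 (Finset.mem_coe.1 hg)).1
    rw [← Psi_Phi hab hf', ← Psi_Phi hab hg']
    exact congrArg _ hfg
  have hdisj : Disjoint (S.image (Phi H L a b)) (cols H (forced L a b u v)) := by
    rw [Finset.disjoint_left]
    intro g hg
    rw [Finset.mem_image] at hg
    obtain ⟨f, hf, rfl⟩ := hg
    exact Phi_not_forced huv hav hbv hbu (Finset.mem_filter.1 hf).1
  have hsub : S.image (Phi H L a b) ∪ cols H (forced L a b u v) ⊆ cols H L := by
    intro g hg
    rw [Finset.mem_union] at hg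
    rcases hg with hg | hg
    · rw [Finset.mem_image] at hg
      obtain ⟨f, hf, rfl⟩ := hg
      rw [hS, Finset.mem_filter] at hf
      exact Phi_mem hab hf.1 (by omega)
    · rw [mem_cols] at hg ⊢
      refine ⟨fun w => ?_, hg.2⟩
      have := hg.1 w
      unfold forced at this
      split_ifs at this with h1 h2
      · rw [Finset.mem_singleton] at this
        rw [this, h1]; exact hau
      · rw [Finset.mem_singleton] at this
        rw [this, h2]; exact hbv
      · exact Finset.mem_of_mem_erase (Finset.mem_of_mem_erase this)
  have hc := Finset.card_le_card hsub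
  rw [Finset.card_union_of_disjoint hdisj, himg] at hc
  unfold N at hsplit ⊢
  omega

end Pool.Agent.H46.LC
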