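import Mathlib
import Pool.Agent.H46.LC6

/-!
Counting bounds for the compression argument, and the theorem of Donner.
-/

namespace Pool.Agent.H46.LC

open Finset

variable {W : Type*} [Fintype W] [DecidableEq W]

theorem big_bound (H : SimpleGraph W) (L : W → Finset ℕ) (m a b : ℕ)
    (hL : ∀ w, (L w).card = m) :
    ((cols H L).filter
        (fun f => 3 ≤ (Finset.univ.filter (fun w => f w = a ∨ f w = b)).card)).card * m ^ 3 ≤
      Fintype.card W ^ 3 * (8 * m ^ Fintype.card W) := by
  classical
  have hsub : ((cols H L).filter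
      (fun f => 3 ≤ (Finset.univ.filter (fun w => f w = a ∨ f w = b)).card)) ⊆
      (Finset.powersetCard 3 (Finset.univ : Finset W)).biUnion
        (fun T => Fintype.piFinset (fun w => if w ∈ T then {a, b} else L w)) := by
    intro f hf
    rw [Finset.mem_filter, mem_cols] at hf
    obtain ⟨⟨h1, _⟩, h3⟩ := hf
    obtain ⟨T, hT, hTc⟩ := Finset.exists_subset_card_eq h3
    rw [Finset.mem_biUnion]
    refine ⟨T, Finset.mem_powersetCard.2 ⟨Finset.subset_univ _, hTc⟩, ?_⟩
    rw [Fintype.mem_piFinset]
    intro w
    split_ifs with hw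
    · have := hT hw
      rw [Finset.mem_filter] at this
      rw [Finset.mem_insert, Finset.mem_singleton]
      exact this.2
    · exact h1 w
  have hT : ∀ T ∈ Finset.powersetCard 3 (Finset.univ : Finset W),
      (Fintype.piFinset (fun w => if w ∈ T then ({a, b} : Finset ℕ) else L w)).card * m ^ 3 ≤
        8 * m ^ Fintype.card W := by
    intro T hT
    rw [Finset.mem_powersetCard] at hT
    rw [Fintype.card_piFinset]
    have h1 : ∏ w, (if w ∈ T then ({a, b} : Finset ℕ) else L w).card ≤
        ∏ w, (if w ∈ T then 2 else m) := by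
      apply Finset.prod_le_prod'
      intro w _
      split_ifs
      · exact Finset.card_le_two
      · rw [hL]
    have h2 : (∏ w, (if w ∈ T then 2 else m)) * m ^ 3 = 8 * m ^ Fintype.card W := by
      have e1 : m ^ 3 = ∏ w, (if w ∈ T then m else 1) := by
        rw [Finset.prod_ite_mem, Finset.univ_inter, Finset.prod_const, hT.2]
      have e2 : (8 : ℕ) = ∏ w, (if w ∈ T then 2 else 1) := by
        rw [Finset.prod_ite_mem, Finset.univ_inter, Finset.prod_const, hT.2]
        norm_num
      have e3 : m ^ Fintype.card W = ∏ _w : W, m := by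
        rw [Finset.prod_const, Finset.card_univ]
      rw [e1, e2, e3, ← Finset.prod_mul_distrib, ← Finset.prod_mul_distrib]
      apply Finset.prod_congr rfl
      intro w _
      split_ifs <;> simp
    calc _ ≤ (∏ w, (if w ∈ T then 2 else m)) * m ^ 3 := Nat.mul_le_mul_right _ h1
      _ = _ := h2
  calc _ ≤ ((Finset.powersetCard 3 (Finset.univ : Finset W)).biUnion
        (fun T => Fintype.piFinset (fun w => if w ∈ T then {a, b} else L w))).card * m ^ 3 :=
        Nat.mul_le_mul_right _ (Finset.card_le_card hsub)
    _ ≤ (∑ T ∈ Finset.powersetCard 3 (Finset.univ : Finset W),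
        (Fintype.piFinset (fun w => if w ∈ T then ({a, b} : Finset ℕ) else L w)).card) * m ^ 3 :=
        Nat.mul_le_mul_right _ Finset.card_biUnion_le
    _ = ∑ T ∈ Finset.powersetCard 3 (Finset.univ : Finset W),
        (Fintype.piFinset (fun w => if w ∈ T then ({a, b} : Finset ℕ) else L w)).card * m ^ 3 :=
        Finset.sum_mul _ _ _
    _ ≤ ∑ _T ∈ Finset.powersetCard 3 (Finset.univ : Finset W), 8 * m ^ Fintype.card W :=
        Finset.sum_le_sum hT
    _ = (Fintype.card W).choose 3 * (8 * m ^ Fintype.card W) := by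
        rw [Finset.sum_const, Finset.card_powersetCard, Finset.card_univ, smul_eq_mul]
    _ ≤ _ := Nat.mul_le_mul_right _ (Nat.choose_le_pow _ _)

omit [Fintype W] in
theorem forced_card_other (L : W → Finset ℕ) {m a b : ℕ} (hL : ∀ w, (L w).card = m) {u v w : W}
    (hwu : w ≠ u) (hwv : w ≠ v) : m - 2 ≤ (forced L a b u v w).card := by
  unfold forced
  rw [if_neg hwu, if_neg hwv]
  have h1 := Finset.pred_card_le_card_erase (s := L w) (a := a)
  have h2 := Finset.pred_card_le_card_erase (s := (L w).erase a) (a := b)
  rw [hL] at h1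
  omega

theorem forced_prod (L : W → Finset ℕ) {m a b : ℕ} (hL : ∀ w, (L w).card = m) {u v : W}
    (huv : u ≠ v) :
    (m - 2) ^ (Fintype.card W - 2) ≤ ∏ w, (forced L a b u v w).card := by
  rw [← Finset.mul_prod_erase _ _ (Finset.mem_univ u),
    ← Finset.mul_prod_erase (Finset.univ.erase u) _
      (Finset.mem_erase.2 ⟨huv.symm, Finset.mem_univ v⟩)]
  have hu : (forced L a b u v u).card = 1 := by simp [forced]
  have hv : (forced L a b u v v).card = 1 := by simp [forced, huv.symm]
  rw [hu, hv, one_mul, one_mul]
  have hc : ((Finset.univ.erase u).erase v).card = Fintype.card W - 2 := by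
    rw [Finset.card_erase_of_mem (Finset.mem_erase.2 ⟨huv.symm, Finset.mem_univ v⟩),
      Finset.card_erase_of_mem (Finset.mem_univ u), Finset.card_univ]
    omega
  rw [← hc]
  apply Finset.pow_card_le_prod
  intro w hw
  rw [Finset.mem_erase, Finset.mem_erase] at hw
  exact forced_card_other L hL hw.2.1 hw.1

theorem forced_lower (H : SimpleGraph W) (L : W → Finset ℕ) {m a b : ℕ}
    (hL : ∀ w, (L w).card = m) (hab : a ≠ b) {u v : W} (huv : u ≠ v) :
    (m - 2) * ∏ w, (forced L a b u v w).card ≤
      (m - 2) * N H (forced L a b u v) +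
        Fintype.card W ^ 2 * ∏ w, (forced L a b u v w).card := by
  classical
  set L₀ := forced L a b u v with hL₀
  set T := ∏ w, (L₀ w).card with hT
  -- bad functions
  have hsub : Fintype.piFinset L₀ ⊆ cols H L₀ ∪
      ((Finset.univ : Finset (W × W)).filter (fun p => p.1 ≠ p.2)).biUnion
        (fun p => (Fintype.piFinset L₀).filter (fun g => g p.1 = g p.2)) := by
    intro g hg
    rw [Finset.mem_union]
    by_cases h : g ∈ cols H L₀
    · exact Or.inl h
    · right
      rw [mem_cols] at h
      push Not at h
      obtain ⟨x, y, hxy, hg2⟩ := h (fun w => Fintype.mem_piFinset.1 hg w)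
      rw [Finset.mem_biUnion]
      refine ⟨(x, y), ?_, ?_⟩
      · rw [Finset.mem_filter]
        exact ⟨Finset.mem_univ _, hxy.ne⟩
      · rw [Finset.mem_filter]
        exact ⟨hg, hg2⟩
  have hpair : ∀ p ∈ ((Finset.univ : Finset (W × W)).filter (fun p => p.1 ≠ p.2)),
      (m - 2) * ((Fintype.piFinset L₀).filter (fun g => g p.1 = g p.2)).card ≤ T := by
    rintro ⟨x, y⟩ hp
    rw [Finset.mem_filter] at hp
    have hne : x ≠ y := hp.2
    by_cases hy : y = u ∨ y = v
    · have hempty : ((Fintype.piFinset L₀).filter (fun g => g (x, y).1 = g (x, y).2)) = ∅ := by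
        rw [Finset.filter_eq_empty_iff]
        intro g hg hgxy
        rw [Fintype.mem_piFinset] at hg
        simp only at hgxy
        have hx := hg x
        have hy' := hg y
        rcases hy with rfl | rfl
        · have e1 : g y = a := by simpa [L₀, forced] using hy'
          by_cases hxv : x = v
          · subst hxv
            have e2 : g x = b := by simpa [L₀, forced, huv.symm] using hx
            exact hab (e1.symm.trans (hgxy.symm.trans e2))
          · rw [hL₀, forced, if_neg hne, if_neg hxv] at hx
            have := (Finset.mem_erase.1 (Finset.mem_of_mem_erase hx)).1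
            exact this (hgxy.trans e1)
        · have e1 : g y = b := by simpa [L₀, forced, huv.symm] using hy'
          by_cases hxu : x = u
          · subst hxu
            have e2 : g x = a := by simpa [L₀, forced] using hx
            exact hab (e2.symm.trans (hgxy.trans e1))
          · rw [hL₀, forced, if_neg hxu, if_neg hne] at hx
            have := (Finset.mem_erase.1 hx).1
            exact this (hgxy.trans e1)
      rw [hempty, Finset.card_empty, mul_zero]
      exact Nat.zero_le _
    · push Not at hy
      have hinj : ((Fintype.piFinset L₀).filter (fun g => g x = g y)).card ≤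
          (Fintype.piFinset (Function.update L₀ y {0})).card := by
        apply Finset.card_le_card_of_injOn (fun g => Function.update g y 0)
        · intro g hg
          have hg := Finset.mem_filter.1 (Finset.mem_coe.1 hg)
          apply Finset.mem_coe.2
          rw [Fintype.mem_piFinset] at hg ⊢
          intro w
          by_cases hw : w = y
          · subst hw; simp
          · simp only [Function.update_of_ne hw]
            exact hg.1 w
        · intro g hg g' hg' hgg
          have hg := (Finset.mem_filter.1 (Finset.mem_coe.1 hg)).2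
          have hg' := (Finset.mem_filter.1 (Finset.mem_coe.1 hg')).2
          have hw' : ∀ w, w ≠ y → g w = g' w := by
            intro w hw
            have := congrFun hgg w
            simpa [Function.update_of_ne hw] using this
          funext w
          by_cases hw : w = y
          · rw [hw, ← hg, ← hg']
            exact hw' x hne
          · exact hw' w hw
      have hprod : (Fintype.piFinset (Function.update L₀ y {0})).card * (L₀ y).card = T := by
        rw [Fintype.card_piFinset, hT, ← Finset.mul_prod_erase _ _ (Finset.mem_univ y),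
          ← Finset.mul_prod_erase _ (fun w => (L₀ w).card) (Finset.mem_univ y)]
        rw [Function.update_self, Finset.card_singleton, one_mul, mul_comm]
        congr 1
        apply Finset.prod_congr rfl
        intro w hw
        rw [Function.update_of_ne (Finset.ne_of_mem_erase hw)]
      calc (m - 2) * ((Fintype.piFinset L₀).filter (fun g => g x = g y)).card
          ≤ (L₀ y).card * (Fintype.piFinset (Function.update L₀ y {0})).card :=
            Nat.mul_le_mul (forced_card_other L hL hy.1 hy.2) hinj
        _ = T := by rw [mul_comm, hprod]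
  have h1 := (Finset.card_le_card hsub).trans (Finset.card_union_le _ _)
  rw [Fintype.card_piFinset] at h1
  have h2 : (m - 2) * (((Finset.univ : Finset (W × W)).filter (fun p => p.1 ≠ p.2)).biUnion
        (fun p => (Fintype.piFinset L₀).filter (fun g => g p.1 = g p.2))).card ≤
      Fintype.card W ^ 2 * T := by
    calc _ ≤ (m - 2) * ∑ p ∈ ((Finset.univ : Finset (W × W)).filter (fun p => p.1 ≠ p.2)),
          ((Fintype.piFinset L₀).filter (fun g => g p.1 = g p.2)).card :=
          Nat.mul_le_mul_left _ Finset.card_biUnion_le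
      _ = ∑ p ∈ ((Finset.univ : Finset (W × W)).filter (fun p => p.1 ≠ p.2)),
          (m - 2) * ((Fintype.piFinset L₀).filter (fun g => g p.1 = g p.2)).card :=
          Finset.mul_sum _ _ _
      _ ≤ ∑ _p ∈ ((Finset.univ : Finset (W × W)).filter (fun p => p.1 ≠ p.2)), T :=
          Finset.sum_le_sum hpair
      _ = ((Finset.univ : Finset (W × W)).filter (fun p => p.1 ≠ p.2)).card * T := by
          rw [Finset.sum_const, smul_eq_mul]
      _ ≤ _ := by
          apply Nat.mul_le_mul_right
          refine (Finset.card_le_univ _).trans ?_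
          rw [Fintype.card_prod, sq]
  calc (m - 2) * T ≤ (m - 2) * ((cols H L₀).card +
        (((Finset.univ : Finset (W × W)).filter (fun p => p.1 ≠ p.2)).biUnion
        (fun p => (Fintype.piFinset L₀).filter (fun g => g p.1 = g p.2))).card) :=
        Nat.mul_le_mul_left _ h1
    _ = (m - 2) * N H L₀ + (m - 2) *
        (((Finset.univ : Finset (W × W)).filter (fun p => p.1 ≠ p.2)).biUnion
        (fun p => (Fintype.piFinset L₀).filter (fun g => g p.1 = g p.2))).card := by
        rw [mul_add, N]
    _ ≤ _ := Nat.add_le_add_left h2 _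

theorem pow_compare (m n : ℕ) (hm : 4 * n + 4 ≤ m) : m ^ n ≤ 2 * (m - 2) ^ n := by
  have h0 : (0 : ℝ) < m := by
    have : 0 < m := by omega
    exact_mod_cast this
  have h1 : (1 : ℝ) + n * (-2 / m) ≤ (1 + (-2 / (m : ℝ))) ^ n := by
    apply one_add_mul_le_pow
    rw [le_div_iff₀ h0]
    have : (1 : ℝ) ≤ m := by
      have : 1 ≤ m := by omega
      exact_mod_cast this
    linarith
  have h2 : (1 : ℝ) / 2 ≤ 1 + n * (-2 / m) := by
    have h3 : (n : ℝ) * (2 / m) ≤ 1 / 2 := by
      rw [mul_div_assoc', div_le_iff₀ h0]
      have : (4 : ℝ) * n + 4 ≤ m := by exact_mod_cast hm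
      linarith
    have : (n : ℝ) * (-2 / m) = - (n * (2 / m)) := by ring
    linarith
  have h4 : ((m - 2 : ℕ) : ℝ) = m * (1 + (-2 / (m : ℝ))) := by
    rw [Nat.cast_sub (by omega)]
    field_simp
    push_cast
    ring
  have h5 : (m : ℝ) ^ n ≤ 2 * ((m - 2 : ℕ) : ℝ) ^ n := by
    rw [h4, mul_pow]
    have h6 : (0 : ℝ) < (m : ℝ) ^ n := by positivity
    nlinarith
  exact_mod_cast h5

theorem compress_lt (H : SimpleGraph W) (L : W → Finset ℕ) {m a b : ℕ}
    (hL : ∀ w, (L w).card = m)
    (hm : 32 * Fintype.card W ^ 3 + 2 * Fintype.card W ^ 2 + 4 * Fintype.card W + 10 ≤ m)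
    {u v : W} (huv : H.Adj u v) (hau : a ∈ L u) (hav : a ∉ L v) (hbv : b ∈ L v) (hbu : b ∉ L u) :
    N H (compr L a b) < N H L := by
  have hab : a ≠ b := by
    rintro rfl
    exact hav hbv
  have hne : u ≠ v := huv.ne
  have hcount := compress_count H L huv hau hav hbv hbu
  have hbig := big_bound H (compr L a b) m a b (fun w => by rw [compr_card, hL])
  set Bg := ((cols H (compr L a b)).filter
        (fun f => 3 ≤ (Finset.univ.filter (fun w => f w = a ∨ f w = b)).card)).card with hBg
  have hlow := forced_lower H L hL hab hne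
  have hprod := forced_prod L (a := a) (b := b) hL hne
  set T := ∏ w, (forced L a b u v w).card with hT
  set N₀ := N H (forced L a b u v) with hN₀
  set n := Fintype.card W with hn
  have hn2 : 2 ≤ n := by
    rw [hn]
    exact Fintype.one_lt_card_iff.2 ⟨u, v, hne⟩
  have h1 : T ≤ 2 * N₀ := by
    have hk : 2 * n ^ 2 ≤ m - 2 := by omega
    have hk' : 0 < m - 2 := by omega
    apply Nat.le_of_mul_le_mul_left _ hk'
    have h2 : 2 * n ^ 2 * T ≤ (m - 2) * T := Nat.mul_le_mul_right _ hk
    nlinarith
  have h2 := pow_compare m (n - 2) (by omega)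
  have h3 : m ^ (n - 2) ≤ 4 * N₀ := by
    calc m ^ (n - 2) ≤ 2 * (m - 2) ^ (n - 2) := h2
      _ ≤ 2 * T := Nat.mul_le_mul_left _ hprod
      _ ≤ 2 * (2 * N₀) := Nat.mul_le_mul_left _ h1
      _ = _ := by ring
  have hmpos : 0 < m := by omega
  have hN₀pos : 0 < N₀ := by
    have : 0 < m ^ (n - 2) := Nat.pow_pos hmpos
    omega
  have h4 : m ^ n = m ^ (n - 2) * m ^ 2 := by
    rw [← pow_add]
    congr 1
    omega
  have h5 : Bg * m ≤ 32 * n ^ 3 * N₀ := by
    have hm2 : 0 < m ^ 2 := Nat.pow_pos hmpos
    apply Nat.le_of_mul_le_mul_right _ hm2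
    calc Bg * m * m ^ 2 = Bg * m ^ 3 := by ring
      _ ≤ n ^ 3 * (8 * m ^ n) := hbig
      _ = n ^ 3 * (8 * (m ^ (n - 2) * m ^ 2)) := by rw [h4]
      _ ≤ n ^ 3 * (8 * (4 * N₀ * m ^ 2)) := by
          apply Nat.mul_le_mul_left
          apply Nat.mul_le_mul_left
          exact Nat.mul_le_mul_right _ h3
      _ = _ := by ring
  have h6 : Bg < N₀ := by
    by_contra hcon
    push Not at hcon
    have h7 : N₀ * m ≤ 32 * n ^ 3 * N₀ := (Nat.mul_le_mul_right _ hcon).trans h5
    have h8 : N₀ * m ≤ N₀ * (32 * n ^ 3) := by
      rw [mul_comm N₀ (32 * n ^ 3)]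
      exact h7
    have h9 := Nat.le_of_mul_le_mul_left h8 hN₀pos
    omega
  omega

/-- Donner's theorem: constant lists are optimal once the lists are long. -/
theorem donner (H : SimpleGraph W) (m : ℕ)
    (hm : 32 * Fintype.card W ^ 3 + 2 * Fintype.card W ^ 2 + 4 * Fintype.card W + 10 ≤ m)
    (L : W → Finset ℕ) (hL : ∀ w, (L w).card = m) : Pn H m ≤ N H L := by
  let S : Set ℕ := {k | ∃ L : W → Finset ℕ, (∀ x, (L x).card = m) ∧ N H L = k}
  have hS : S.Nonempty := ⟨_, L, hL, rfl⟩
  obtain ⟨L', hL', hN⟩ := Nat.sInf_mem hS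
  have hmin : ∀ L'' : W → Finset ℕ, (∀ x, (L'' x).card = m) → N H L' ≤ N H L'' := by
    intro L'' h
    rw [hN]
    exact Nat.sInf_le ⟨L'', h, rfl⟩
  have heq : ∀ u v, H.Adj u v → L' u = L' v := by
    intro u v huv
    by_contra hne
    obtain ⟨a, hau, hav⟩ : ∃ a, a ∈ L' u ∧ a ∉ L' v := by
      by_contra hcon
      push Not at hcon
      exact hne (Finset.eq_of_subset_of_card_le hcon (by rw [hL', hL']))
    obtain ⟨b, hbv, hbu⟩ : ∃ b, b ∈ L' v ∧ b ∉ L' u := by
      by_contra hcon
      push Not at hcon
      exact hne (Finset.eq_of_subset_of_card_le hcon (by rw [hL', hL'])).symm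
    have h1 := compress_lt H L' hL' hm huv hau hav hbv hbu
    have h2 := hmin (compr L' a b) (fun w => by rw [compr_card, hL'])
    omega
  have h1 := N_eq_Pn H L' m hL' heq
  rw [← h1]
  exact hmin L hL

end Pool.Agent.H46.LC
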