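import Mathlib

/-!
Finite Ramsey theorem for `r`-subsets of natural numbers and finitely many colours.
-/

namespace Pool.Agent.H46

open Finset

/-- Ramsey's theorem for `r`-subsets: every colouring of the `r`-subsets of a sufficiently large
finite set of natural numbers by elements of a finite type has a homogeneous subset of size `m`. -/
theorem ramsey {C : Type*} [Finite C] (r : ℕ) : ∀ m : ℕ, ∃ N : ℕ, ∀ A : Finset ℕ, N ≤ A.card →
    ∀ f : Finset ℕ → C, ∃ S ⊆ A, S.card = m ∧ ∃ c, ∀ T ⊆ S, T.card = r → f T = c := by
  classical
  have := Fintype.ofFinite C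
  induction r with
  | zero =>
    intro m
    refine ⟨m, fun A hA f => ?_⟩
    obtain ⟨S, hS, hSc⟩ := Finset.exists_subset_card_eq hA
    refine ⟨S, hS, hSc, f ∅, fun T _ hT => ?_⟩
    rw [Finset.card_eq_zero.1 hT]
  | succ r ih =>
    -- end-homogeneous sets
    have hend : ∀ M : ℕ, ∃ N : ℕ, ∀ A : Finset ℕ, N ≤ A.card → ∀ f : Finset ℕ → C,
        ∃ S ⊆ A, S.card = M ∧ ∃ g : ℕ → C, ∀ a ∈ S, ∀ T ⊆ S, (∀ t ∈ T, a < t) → T.card = r →
          f (insert a T) = g a := by
      intro M
      induction M with
      | zero =>
        refine ⟨0, fun A _ f => ⟨∅, Finset.empty_subset _, rfl, fun _ => f ∅, ?_⟩⟩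
        intro a ha
        simp at ha
      | succ M ihM =>
        obtain ⟨NM, hNM⟩ := ihM
        obtain ⟨R, hR⟩ := ih NM
        refine ⟨R + 1, fun A hA f => ?_⟩
        have hne : A.Nonempty := Finset.card_pos.1 (by omega)
        set a := A.min' hne with ha
        have haA : a ∈ A := Finset.min'_mem A hne
        obtain ⟨A'', hA'', hA''c, c, hc⟩ := hR (A.erase a)
          (by rw [Finset.card_erase_of_mem haA]; omega) (fun T => f (insert a T))
        obtain ⟨S', hS', hS'c, g', hg'⟩ := hNM A'' (by omega) f
        have hlt : ∀ t ∈ S', a < t := by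
          intro t ht
          have h1 := hA'' (hS' ht)
          rw [Finset.mem_erase] at h1
          exact lt_of_le_of_ne (Finset.min'_le A t h1.2) (Ne.symm h1.1)
        have haS' : a ∉ S' := fun h => lt_irrefl _ (hlt a h)
        refine ⟨insert a S', ?_, ?_, Function.update g' a c, ?_⟩
        · intro x hx
          rw [Finset.mem_insert] at hx
          rcases hx with rfl | hx
          · exact haA
          · exact Finset.mem_of_mem_erase (hA'' (hS' hx))
        · rw [Finset.card_insert_of_notMem haS', hS'c]
        · intro b hb T hT hbT hTc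
          rw [Finset.mem_insert] at hb
          rcases hb with rfl | hb
          · rw [Function.update_self]
            apply hc T _ hTc
            intro t ht
            have h1 := hT ht
            rw [Finset.mem_insert] at h1
            rcases h1 with h1 | h1
            · exact absurd (hbT t ht) (by rw [h1]; exact lt_irrefl _)
            · exact hS' h1
          · have hab : a < b := hlt b hb
            rw [Function.update_of_ne (ne_of_gt hab)]
            apply hg' b hb T _ hbT hTc
            intro t ht
            have h1 := hT ht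
            rw [Finset.mem_insert] at h1
            rcases h1 with h1 | h1
            · have := hbT t ht
              rw [h1] at this
              exact absurd (lt_trans hab this) (lt_irrefl _)
            · exact h1
    intro m
    obtain ⟨N, hN⟩ := hend (Fintype.card C * m)
    refine ⟨N, fun A hA f => ?_⟩
    obtain ⟨S, hS, hSc, g, hg⟩ := hN A hA f
    rcases Nat.eq_zero_or_pos m with hm | hm
    · subst hm
      refine ⟨∅, Finset.empty_subset _, rfl, f ∅, fun T hT hTc => ?_⟩
      rw [Finset.subset_empty.1 hT] at hTc
      simp at hTc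
    · have hne : Nonempty C := ⟨f ∅⟩
      obtain ⟨c, -, hc⟩ : ∃ c ∈ (Finset.univ : Finset C), m ≤ (S.filter (fun x => g x = c)).card := by
        apply Finset.exists_le_card_fiber_of_mul_le_card_of_maps_to
        · intro a _
          exact Finset.mem_univ _
        · exact Finset.univ_nonempty
        · rw [Finset.card_univ, hSc]
      obtain ⟨S₁, hS₁, hS₁c⟩ := Finset.exists_subset_card_eq hc
      refine ⟨S₁, hS₁.trans ((Finset.filter_subset _ _).trans hS), hS₁c, c, fun T hT hTc => ?_⟩
      have hTne : T.Nonempty := Finset.card_pos.1 (by omega)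
      set a := T.min' hTne with ha
      have haT : a ∈ T := Finset.min'_mem T hTne
      have haS := hS₁ (hT haT)
      rw [Finset.mem_filter] at haS
      have h1 := hg a haS.1 (T.erase a)
        (fun t ht => (Finset.mem_filter.1 (hS₁ (hT (Finset.mem_of_mem_erase ht)))).1)
        (fun t ht => by
          rw [Finset.mem_erase] at ht
          exact lt_of_le_of_ne (Finset.min'_le T t ht.2) (Ne.symm ht.1))
        (by rw [Finset.card_erase_of_mem haT]; omega)
      rw [Finset.insert_erase haT] at h1
      rw [h1, haS.2]

end Pool.Agent.H46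

namespace Pool.Agent.H46

open Finset

/-- Ramsey's theorem for quadruples `a < b < c < d`. -/
theorem ramsey4 {C : Type*} [Finite C] (m : ℕ) : ∃ N : ℕ, ∀ A : Finset ℕ, N ≤ A.card →
    ∀ g : ℕ → ℕ → ℕ → ℕ → C, ∃ S ⊆ A, S.card = m ∧ ∃ col, ∀ a ∈ S, ∀ b ∈ S, ∀ c ∈ S, ∀ d ∈ S,
      a < b → b < c → c < d → g a b c d = col := by
  classical
  obtain ⟨N, hN⟩ := ramsey (C := C) 4 m
  refine ⟨N, fun A hA g => ?_⟩
  let f : Finset ℕ → C := fun T =>
    if h : T.card = 4 then
      g (T.orderEmbOfFin h 0) (T.orderEmbOfFin h 1) (T.orderEmbOfFin h 2) (T.orderEmbOfFin h 3)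
    else g 0 0 0 0
  obtain ⟨S, hS, hSc, col, hcol⟩ := hN A hA f
  refine ⟨S, hS, hSc, col, fun a ha b hb c hc d hd hab hbc hcd => ?_⟩
  have hac := hab.trans hbc
  have had := hac.trans hcd
  have hbd := hbc.trans hcd
  have hT : ({a, b, c, d} : Finset ℕ).card = 4 := by
    rw [Finset.card_insert_of_notMem, Finset.card_insert_of_notMem, Finset.card_insert_of_notMem,
      Finset.card_singleton]
    · simp only [Finset.mem_singleton]; omega
    · simp only [Finset.mem_insert, Finset.mem_singleton]; omega
    · simp only [Finset.mem_insert, Finset.mem_singleton]; omega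
  have h1 := hcol {a, b, c, d} (by
    intro x hx
    simp only [Finset.mem_insert, Finset.mem_singleton] at hx
    rcases hx with rfl | rfl | rfl | rfl <;> assumption) hT
  have h2 : (fun i => ({a, b, c, d} : Finset ℕ).orderEmbOfFin hT i) = ![a, b, c, d] := by
    symm
    apply Finset.orderEmbOfFin_unique
    · intro x
      fin_cases x <;> simp
    · intro i j hij
      fin_cases i <;> fin_cases j <;> simp_all
  have e0 := congrFun h2 0
  have e1 := congrFun h2 1
  have e2 := congrFun h2 2
  have e3 := congrFun h2 3
  simp only [f, dif_pos hT] at h1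
  simp only [Matrix.cons_val_zero, Matrix.cons_val_one, Matrix.cons_val] at e0 e1 e2 e3
  rw [e0, e1, e2, e3] at h1
  exact h1

end Pool.Agent.H46
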