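import Mathlib
import Pool.Agent.H46.Ramsey

/-!
Large vertex-critical `P₅`-free graphs: the uniform families.
-/

namespace Pool.Agent.H46.P5

open Finset

variable {V : Type*}

/-- Usable form of `P₅`-freeness. -/
def NoP5 (G : SimpleGraph V) : Prop :=
  ∀ a b c d e, G.Adj a b → G.Adj b c → G.Adj c d → G.Adj d e →
    ¬ G.Adj a c → ¬ G.Adj a d → ¬ G.Adj a e → ¬ G.Adj b d → ¬ G.Adj b e → ¬ G.Adj c e → False

theorem noP5_of_free {G : SimpleGraph V} (h : IsEmpty (SimpleGraph.pathGraph 5 ↪g G)) :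
    NoP5 G := by
  intro a b c d e hab hbc hcd hde hac had hae hbd hbe hce
  have hac' : a ≠ c := by rintro rfl; exact had hcd
  have had' : a ≠ d := by rintro rfl; exact hae hde
  have hae' : a ≠ e := by rintro rfl; exact had hde.symm
  have hbd' : b ≠ d := by rintro rfl; exact had hab
  have hbe' : b ≠ e := by rintro rfl; exact hae hab
  have hce' : c ≠ e := by rintro rfl; exact hbe hbc
  refine h.false ⟨⟨![a, b, c, d, e], ?_⟩, ?_⟩
  · intro i j hij
    fin_cases i <;> fin_cases j <;>
      simp_all [hab.ne, hab.ne', hbc.ne, hbc.ne', hcd.ne, hcd.ne', hde.ne, hde.ne',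
        hac'.symm, had'.symm, hae'.symm, hbd'.symm, hbe'.symm, hce'.symm]
  · intro i j
    have h1 := hab.symm
    have h2 := hbc.symm
    have h3 := hcd.symm
    have h4 := hde.symm
    have h5 : ¬ G.Adj c a := fun h => hac h.symm
    have h6 : ¬ G.Adj d a := fun h => had h.symm
    have h7 : ¬ G.Adj e a := fun h => hae h.symm
    have h8 : ¬ G.Adj d b := fun h => hbd h.symm
    have h9 : ¬ G.Adj e b := fun h => hbe h.symm
    have h10 : ¬ G.Adj e c := fun h => hce h.symm
    change G.Adj (![a, b, c, d, e] i) (![a, b, c, d, e] j) ↔ _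
    rw [SimpleGraph.pathGraph_adj]
    fin_cases i <;> fin_cases j <;> simp [*]

/-- `z` is complete to `Q`. -/
def Comp (G : SimpleGraph V) (z : V) (Q : Finset V) : Prop := ∀ a ∈ Q, G.Adj z a

/-- `z` is anticomplete to `Q`. -/
def Anti (G : SimpleGraph V) (z : V) (Q : Finset V) : Prop := ∀ a ∈ Q, ¬ G.Adj z a

/-- Connectedness of a vertex set, in the form of the cut property. -/
def Conn (G : SimpleGraph V) (Q : Finset V) : Prop :=
  ∀ B ⊆ Q, B.Nonempty → B ≠ Q → ∃ x ∈ B, ∃ y ∈ Q, y ∉ B ∧ G.Adj x y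

theorem mixed_edge {G : SimpleGraph V} {Q : Finset V} (hQ : Conn G Q) {z : V}
    (h1 : ¬ Comp G z Q) (h2 : ¬ Anti G z Q) :
    ∃ a ∈ Q, ∃ b ∈ Q, G.Adj a b ∧ G.Adj z a ∧ ¬ G.Adj z b := by
  classical
  unfold Comp at h1
  unfold Anti at h2
  push Not at h1 h2
  obtain ⟨b, hb, hzb⟩ := h1
  obtain ⟨a, ha, hza⟩ := h2
  obtain ⟨x, hx, y, hy, hyB, hxy⟩ := hQ (Q.filter (fun x => G.Adj z x)) (Finset.filter_subset _ _)
    ⟨a, Finset.mem_filter.2 ⟨ha, hza⟩⟩ (fun h => hzb (Finset.mem_filter.1 (h ▸ hb)).2)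
  rw [Finset.mem_filter] at hx hyB
  exact ⟨x, hx.1, y, hy, hxy, hx.2, fun h => hyB ⟨hy, h⟩⟩

/-- A vertex is mixed on at most one of two anticomplete connected sets. -/
theorem mixed_two {G : SimpleGraph V} (hP : NoP5 G) {Q Q' : Finset V} (hQ : Conn G Q)
    (hQ' : Conn G Q') (hanti : ∀ a ∈ Q, ∀ b ∈ Q', ¬ G.Adj a b) {z : V}
    (h1 : ¬ Comp G z Q) (h2 : ¬ Anti G z Q) (h3 : ¬ Comp G z Q') (h4 : ¬ Anti G z Q') : False := by
  obtain ⟨a, ha, b, hb, hab, hza, hzb⟩ := mixed_edge hQ h1 h2
  obtain ⟨c, hc, d, hd, hcd, hzc, hzd⟩ := mixed_edge hQ' h3 h4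
  exact hP b a z c d hab.symm hza.symm hzc hcd (fun h => hzb h.symm) (hanti b hb c hc)
    (hanti b hb d hd) (hanti a ha c hc) (hanti a ha d hd) hzd

theorem clique_seq {G : SimpleGraph V} {k : ℕ} (hω : ∀ T : Finset V, G.IsClique (T : Set V) → T.card ≤ k)
    (f : ℕ → V) (n : ℕ) (h : ∀ i j, i < j → j < n → G.Adj (f i) (f j)) : n ≤ k := by
  classical
  have hinj : Set.InjOn f (Finset.range n : Set ℕ) := by
    intro i hi j hj hij
    rw [Finset.mem_coe, Finset.mem_range] at hi hj
    rcases lt_trichotomy i j with h1 | h1 | h1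
    · exact absurd hij (h i j h1 hj).ne
    · exact h1
    · exact absurd hij.symm (h j i h1 hi).ne
  have hc := hω ((Finset.range n).image f) (by
    intro x hx y hy hxy
    rw [Finset.mem_coe, Finset.mem_image] at hx hy
    obtain ⟨i, hi, rfl⟩ := hx
    obtain ⟨j, hj, rfl⟩ := hy
    rw [Finset.mem_range] at hi hj
    rcases lt_trichotomy i j with h1 | h1 | h1
    · exact h i j h1 hj
    · exact absurd (by rw [h1]) hxy
    · exact (h j i h1 hi).symm)
  rwa [Finset.card_image_of_injOn hinj, Finset.card_range] at hc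

/-- The base data: a clique `K`, complete to pairwise anticomplete connected sets `Q i`, `i < M`. -/
structure Base (G : SimpleGraph V) (K : Finset V) (Q : ℕ → Finset V) (M : ℕ) : Prop where
  noP5 : NoP5 G
  conn : ∀ i, i < M → Conn G (Q i)
  ne : ∀ i, i < M → (Q i).Nonempty
  disj : ∀ i j, i < M → j < M → i ≠ j → ∀ a ∈ Q i, ∀ b ∈ Q j, a ≠ b
  anti : ∀ i j, i < M → j < M → i ≠ j → ∀ a ∈ Q i, ∀ b ∈ Q j, ¬ G.Adj a b
  compK : ∀ i, i < M → ∀ u ∈ K, ∀ a ∈ Q i, G.Adj u a

/-- A uniform family of vertices indexed by pairs `i < j < M`. -/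
structure Unif (G : SimpleGraph V) (K : Finset V) (Q : ℕ → Finset V) (M : ℕ) (F : ℕ → ℕ → V) :
    Prop where
  pre : (∀ a b c, a < b → b < c → c < M → Comp G (F b c) (Q a)) ∨
    (∀ a b c, a < b → b < c → c < M → Anti G (F b c) (Q a))
  mid : (∀ a b c, a < b → b < c → c < M → Comp G (F a c) (Q b)) ∨
    (∀ a b c, a < b → b < c → c < M → Anti G (F a c) (Q b))
  post : (∀ a b c, a < b → b < c → c < M → Comp G (F a b) (Q c)) ∨
    (∀ a b c, a < b → b < c → c < M → Anti G (F a b) (Q c))
  non1 : ∀ a b c d, a < b → b < c → c < d → d < M → ¬ G.Adj (F a b) (F c d)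
  non2 : ∀ a b c d, a < b → b < c → c < d → d < M → ¬ G.Adj (F a c) (F b d)
  kn : ∀ u ∈ K, (∀ a b, a < b → b < M → G.Adj (F a b) u) ∨
    (∀ a b, a < b → b < M → ¬ G.Adj (F a b) u)
  miss : ∃ u ∈ K, ∀ a b, a < b → b < M → ¬ G.Adj (F a b) u

section analysis

variable {G : SimpleGraph V} {K : Finset V} {Q : ℕ → Finset V} {M : ℕ} {Z W : ℕ → ℕ → V}

theorem Z_analysis (hB : Base G K Q M) (hM : 8 ≤ M) (hZ : Unif G K Q M Z)
    (h1 : ∀ a b, a < b → b < M → ¬ Anti G (Z a b) (Q a))
    (h2 : ∀ a b, a < b → b < M → ¬ Comp G (Z a b) (Q b)) :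
    (∀ a b c, a < b → b < c → c < M → Comp G (Z b c) (Q a)) ∧
    (∀ a b c, a < b → b < c → c < M → Anti G (Z a b) (Q c)) := by
  have hnb : ∀ a b, a < b → b < M → ∃ x ∈ Q a, G.Adj (Z a b) x := by
    intro a b hab hb
    have := h1 a b hab hb
    unfold Anti at this
    push Not at this
    exact this
  have hnn : ∀ a b, a < b → b < M → ∃ x ∈ Q b, ¬ G.Adj (Z a b) x := by
    intro a b hab hb
    have := h2 a b hab hb
    unfold Comp at this
    push Not at this
    exact this
  obtain ⟨v, hvK, hv⟩ := hZ.miss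
  rcases hZ.pre with hpre | hpre
  · rcases hZ.post with hpost | hpost
    · -- complete on both sides
      exfalso
      obtain ⟨y, hy, hzy⟩ := hnn 0 1 (by omega) (by omega)
      obtain ⟨y', hy', hzy'⟩ := hnn 3 4 (by omega) (by omega)
      obtain ⟨c, hc⟩ := hB.ne 2 (by omega)
      exact hB.noP5 y (Z 3 4) c (Z 0 1) y'
        (hpre 1 3 4 (by omega) (by omega) (by omega) y hy).symm
        (hpre 2 3 4 (by omega) (by omega) (by omega) c hc)
        (hpost 0 1 2 (by omega) (by omega) (by omega) c hc).symm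
        (hpost 0 1 4 (by omega) (by omega) (by omega) y' hy')
        (hB.anti 1 2 (by omega) (by omega) (by omega) y hy c hc)
        (fun h => hzy h.symm)
        (hB.anti 1 4 (by omega) (by omega) (by omega) y hy y' hy')
        (fun h => hZ.non1 0 1 3 4 (by omega) (by omega) (by omega) (by omega) h.symm)
        hzy'
        (hB.anti 2 4 (by omega) (by omega) (by omega) c hc y' hy')
    · exact ⟨hpre, hpost⟩
  · rcases hZ.post with hpost | hpost
    · -- anticomplete before, complete after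
      exfalso
      obtain ⟨x, hx, hzx⟩ := hnb 0 2 (by omega) (by omega)
      obtain ⟨c, hc⟩ := hB.ne 4 (by omega)
      have key : ∃ j, (j = 1 ∨ j = 2) ∧ ∃ y ∈ Q j, G.Adj (Z 1 3) y ∧ ¬ G.Adj (Z 0 2) y := by
        rcases hZ.mid with hmid | hmid
        · obtain ⟨y, hy, hzy⟩ := hnn 0 2 (by omega) (by omega)
          exact ⟨2, Or.inr rfl, y, hy, hmid 1 2 3 (by omega) (by omega) (by omega) y hy, hzy⟩
        · obtain ⟨y, hy, hzy⟩ := hnb 1 3 (by omega) (by omega)
          exact ⟨1, Or.inl rfl, y, hy, hzy, hmid 0 1 2 (by omega) (by omega) (by omega) y hy⟩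
      obtain ⟨j, hj, y, hy, hzy, hzy'⟩ := key
      exact hB.noP5 x (Z 0 2) c (Z 1 3) y hzx.symm
        (hpost 0 2 4 (by omega) (by omega) (by omega) c hc)
        (hpost 1 3 4 (by omega) (by omega) (by omega) c hc).symm
        hzy
        (hB.anti 0 4 (by omega) (by omega) (by omega) x hx c hc)
        (fun h => hpre 0 1 3 (by omega) (by omega) (by omega) x hx h.symm)
        (hB.anti 0 j (by omega) (by omega) (by omega) x hx y hy)
        (hZ.non2 0 1 2 3 (by omega) (by omega) (by omega) (by omega))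
        hzy'
        (hB.anti 4 j (by omega) (by omega) (by omega) c hc y hy)
    · -- anticomplete on both sides
      exfalso
      obtain ⟨x, hx, hzx⟩ := hnb 0 1 (by omega) (by omega)
      obtain ⟨x', hx', hzx'⟩ := hnb 2 3 (by omega) (by omega)
      exact hB.noP5 (Z 0 1) x v x' (Z 2 3) hzx
        (hB.compK 0 (by omega) v hvK x hx).symm
        (hB.compK 2 (by omega) v hvK x' hx')
        hzx'.symm
        (hv 0 1 (by omega) (by omega))
        (hpost 0 1 2 (by omega) (by omega) (by omega) x' hx')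
        (hZ.non1 0 1 2 3 (by omega) (by omega) (by omega) (by omega))
        (hB.anti 0 2 (by omega) (by omega) (by omega) x hx x' hx')
        (fun h => hpre 0 2 3 (by omega) (by omega) (by omega) x hx h.symm)
        (fun h => hv 2 3 (by omega) (by omega) h.symm)

theorem W_analysis (hB : Base G K Q M) (hM : 8 ≤ M) (hW : Unif G K Q M W)
    (h1 : ∀ a b, a < b → b < M → ¬ Anti G (W a b) (Q b))
    (h2 : ∀ a b, a < b → b < M → ¬ Comp G (W a b) (Q a)) :
    (∀ a b c, a < b → b < c → c < M → Anti G (W b c) (Q a)) ∧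
    (∀ a b c, a < b → b < c → c < M → Comp G (W a b) (Q c)) := by
  have hnb : ∀ a b, a < b → b < M → ∃ x ∈ Q b, G.Adj (W a b) x := by
    intro a b hab hb
    have := h1 a b hab hb
    unfold Anti at this
    push Not at this
    exact this
  have hnn : ∀ a b, a < b → b < M → ∃ x ∈ Q a, ¬ G.Adj (W a b) x := by
    intro a b hab hb
    have := h2 a b hab hb
    unfold Comp at this
    push Not at this
    exact this
  obtain ⟨v, hvK, hv⟩ := hW.miss
  rcases hW.pre with hpre | hpre
  · rcases hW.post with hpost | hpost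
    · -- complete on both sides
      exfalso
      obtain ⟨y, hy, hzy⟩ := hnn 0 1 (by omega) (by omega)
      obtain ⟨y', hy', hzy'⟩ := hnn 3 4 (by omega) (by omega)
      obtain ⟨c, hc⟩ := hB.ne 2 (by omega)
      exact hB.noP5 y (W 3 4) c (W 0 1) y'
        (hpre 0 3 4 (by omega) (by omega) (by omega) y hy).symm
        (hpre 2 3 4 (by omega) (by omega) (by omega) c hc)
        (hpost 0 1 2 (by omega) (by omega) (by omega) c hc).symm
        (hpost 0 1 3 (by omega) (by omega) (by omega) y' hy')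
        (hB.anti 0 2 (by omega) (by omega) (by omega) y hy c hc)
        (fun h => hzy h.symm)
        (hB.anti 0 3 (by omega) (by omega) (by omega) y hy y' hy')
        (fun h => hW.non1 0 1 3 4 (by omega) (by omega) (by omega) (by omega) h.symm)
        hzy'
        (hB.anti 2 3 (by omega) (by omega) (by omega) c hc y' hy')
    · -- complete before, anticomplete after
      exfalso
      obtain ⟨x, hx, hzx⟩ := hnb 2 4 (by omega) (by omega)
      obtain ⟨c, hc⟩ := hB.ne 0 (by omega)
      have key : ∃ j, (j = 2 ∨ j = 3) ∧ ∃ y ∈ Q j, G.Adj (W 1 3) y ∧ ¬ G.Adj (W 2 4) y := by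
        rcases hW.mid with hmid | hmid
        · obtain ⟨y, hy, hzy⟩ := hnn 2 4 (by omega) (by omega)
          exact ⟨2, Or.inl rfl, y, hy, hmid 1 2 3 (by omega) (by omega) (by omega) y hy, hzy⟩
        · obtain ⟨y, hy, hzy⟩ := hnb 1 3 (by omega) (by omega)
          exact ⟨3, Or.inr rfl, y, hy, hzy, hmid 2 3 4 (by omega) (by omega) (by omega) y hy⟩
      obtain ⟨j, hj, y, hy, hzy, hzy'⟩ := key
      exact hB.noP5 x (W 2 4) c (W 1 3) y hzx.symm
        (hpre 0 2 4 (by omega) (by omega) (by omega) c hc)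
        (hpre 0 1 3 (by omega) (by omega) (by omega) c hc).symm
        hzy
        (hB.anti 4 0 (by omega) (by omega) (by omega) x hx c hc)
        (fun h => hpost 1 3 4 (by omega) (by omega) (by omega) x hx h.symm)
        (hB.anti 4 j (by omega) (by omega) (by omega) x hx y hy)
        (fun h => hW.non2 1 2 3 4 (by omega) (by omega) (by omega) (by omega) h.symm)
        hzy'
        (hB.anti 0 j (by omega) (by omega) (by omega) c hc y hy)
  · rcases hW.post with hpost | hpost
    · exact ⟨hpre, hpost⟩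
    · -- anticomplete on both sides
      exfalso
      obtain ⟨x, hx, hzx⟩ := hnb 0 1 (by omega) (by omega)
      obtain ⟨x', hx', hzx'⟩ := hnb 2 3 (by omega) (by omega)
      exact hB.noP5 (W 0 1) x v x' (W 2 3) hzx
        (hB.compK 1 (by omega) v hvK x hx).symm
        (hB.compK 3 (by omega) v hvK x' hx')
        hzx'.symm
        (hv 0 1 (by omega) (by omega))
        (hpost 0 1 3 (by omega) (by omega) (by omega) x' hx')
        (hW.non1 0 1 2 3 (by omega) (by omega) (by omega) (by omega))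
        (hB.anti 1 3 (by omega) (by omega) (by omega) x hx x' hx')
        (fun h => hpre 1 2 3 (by omega) (by omega) (by omega) x hx h.symm)
        (fun h => hv 2 3 (by omega) (by omega) h.symm)

/-- The full structure: a vertex `v ∈ K`, and uniform families `Z`, `W`. -/
structure Full (G : SimpleGraph V) (K : Finset V) (Q : ℕ → Finset V) (M : ℕ) (Z W : ℕ → ℕ → V)
    (v : V) : Prop where
  base : Base G K Q M
  vK : v ∈ K
  preZ : ∀ a b c, a < b → b < c → c < M → Comp G (Z b c) (Q a)
  postZ : ∀ a b c, a < b → b < c → c < M → Anti G (Z a b) (Q c)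
  preW : ∀ a b c, a < b → b < c → c < M → Anti G (W b c) (Q a)
  postW : ∀ a b c, a < b → b < c → c < M → Comp G (W a b) (Q c)
  nonZ : ∀ a b c d, a < b → b < c → c < d → d < M → ¬ G.Adj (Z a b) (Z c d)
  nonW : ∀ a b c d, a < b → b < c → c < d → d < M → ¬ G.Adj (W a b) (W c d)
  WZ : ∀ a b c d, a < b → b < c → c < d → d < M → G.Adj (W a b) (Z c d)
  ZW : ∀ a b c d, a < b → b < c → c < d → d < M → G.Adj (Z a b) (W c d)
  vZ : ∀ a b, a < b → b < M → G.Adj v (Z a b)
  vW : ∀ a b, a < b → b < M → ¬ G.Adj v (W a b)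

theorem full_of_unif (hB : Base G K Q M) (hM : 8 ≤ M) (hZ : Unif G K Q M Z)
    (hW : Unif G K Q M W)
    (hZ1 : ∀ a b, a < b → b < M → ¬ Anti G (Z a b) (Q a))
    (hZ2 : ∀ a b, a < b → b < M → ¬ Comp G (Z a b) (Q b))
    (hW1 : ∀ a b, a < b → b < M → ¬ Anti G (W a b) (Q b))
    (hW2 : ∀ a b, a < b → b < M → ¬ Comp G (W a b) (Q a))
    (hZW : (∀ a b c d, a < b → b < c → c < d → d < M → G.Adj (Z a b) (W c d)) ∨
      (∀ a b c d, a < b → b < c → c < d → d < M → ¬ G.Adj (Z a b) (W c d)))
    (hWZ : (∀ a b c d, a < b → b < c → c < d → d < M → G.Adj (W a b) (Z c d)) ∨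
      (∀ a b c d, a < b → b < c → c < d → d < M → ¬ G.Adj (W a b) (Z c d))) :
    ∃ v, Full G K Q M Z W v := by
  obtain ⟨preZ, postZ⟩ := Z_analysis hB hM hZ hZ1 hZ2
  obtain ⟨preW, postW⟩ := W_analysis hB hM hW hW1 hW2
  have WZ : ∀ a b c d, a < b → b < c → c < d → d < M → G.Adj (W a b) (Z c d) := by
    rcases hWZ with h | h
    · exact h
    · exfalso
      obtain ⟨x, hx⟩ := hB.ne 0 (by omega)
      obtain ⟨c, hc⟩ := hB.ne 3 (by omega)
      obtain ⟨y, hy⟩ := hB.ne 6 (by omega)
      exact hB.noP5 x (Z 4 5) c (W 1 2) y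
        (preZ 0 4 5 (by omega) (by omega) (by omega) x hx).symm
        (preZ 3 4 5 (by omega) (by omega) (by omega) c hc)
        (postW 1 2 3 (by omega) (by omega) (by omega) c hc).symm
        (postW 1 2 6 (by omega) (by omega) (by omega) y hy)
        (hB.anti 0 3 (by omega) (by omega) (by omega) x hx c hc)
        (fun h' => preW 0 1 2 (by omega) (by omega) (by omega) x hx h'.symm)
        (hB.anti 0 6 (by omega) (by omega) (by omega) x hx y hy)
        (fun h' => h 1 2 4 5 (by omega) (by omega) (by omega) (by omega) h'.symm)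
        (postZ 4 5 6 (by omega) (by omega) (by omega) y hy)
        (hB.anti 3 6 (by omega) (by omega) (by omega) c hc y hy)
  have ZW : ∀ a b c d, a < b → b < c → c < d → d < M → G.Adj (Z a b) (W c d) := by
    rcases hZW with h | h
    · exact h
    · exfalso
      obtain ⟨x, hx⟩ := hB.ne 0 (by omega)
      obtain ⟨y, hy⟩ := hB.ne 7 (by omega)
      exact hB.noP5 x (Z 3 4) (W 1 2) y (W 5 6)
        (preZ 0 3 4 (by omega) (by omega) (by omega) x hx).symm
        (WZ 1 2 3 4 (by omega) (by omega) (by omega) (by omega)).symm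
        (postW 1 2 7 (by omega) (by omega) (by omega) y hy)
        (postW 5 6 7 (by omega) (by omega) (by omega) y hy).symm
        (fun h' => preW 0 1 2 (by omega) (by omega) (by omega) x hx h'.symm)
        (hB.anti 0 7 (by omega) (by omega) (by omega) x hx y hy)
        (fun h' => preW 0 5 6 (by omega) (by omega) (by omega) x hx h'.symm)
        (postZ 3 4 7 (by omega) (by omega) (by omega) y hy)
        (h 3 4 5 6 (by omega) (by omega) (by omega) (by omega))
        (hW.non1 1 2 5 6 (by omega) (by omega) (by omega) (by omega))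
  obtain ⟨v, hvK, hv⟩ := hW.miss
  refine ⟨v, hB, hvK, preZ, postZ, preW, postW, hZ.non1, hW.non1, WZ, ZW, ?_, ?_⟩
  · rcases hZ.kn v hvK with h | h
    · intro a b hab hb
      exact (h a b hab hb).symm
    · exfalso
      obtain ⟨l, hl⟩ := hB.ne 3 (by omega)
      obtain ⟨x, hx⟩ := hB.ne 0 (by omega)
      exact hB.noP5 l v x (Z 1 2) (W 4 5)
        (hB.compK 3 (by omega) v hvK l hl).symm
        (hB.compK 0 (by omega) v hvK x hx)
        (preZ 0 1 2 (by omega) (by omega) (by omega) x hx).symm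
        (ZW 1 2 4 5 (by omega) (by omega) (by omega) (by omega))
        (hB.anti 3 0 (by omega) (by omega) (by omega) l hl x hx)
        (fun h' => postZ 1 2 3 (by omega) (by omega) (by omega) l hl h'.symm)
        (fun h' => preW 3 4 5 (by omega) (by omega) (by omega) l hl h'.symm)
        (fun h' => h 1 2 (by omega) (by omega) h'.symm)
        (fun h' => hv 4 5 (by omega) (by omega) h'.symm)
        (fun h' => preW 0 4 5 (by omega) (by omega) (by omega) x hx h'.symm)
  · intro a b hab hb h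
    exact hv a b hab hb h.symm

end analysis

end Pool.Agent.H46.P5
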