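import Mathlib
import Pool.Agent.H46.P5a
import Pool.Agent.H46.P5Defs

/-!
The double half graph, and its embedding into large structures.
-/

namespace Pool.Agent.H46.P5

open Finset

/-- The index of a vertex. -/
def Vtx.idx : Vtx → ℕ
  | .hub => 0
  | .mid s => s
  | .up s => s
  | .down s => s

/-- Shifting all indices by one. -/
def Vtx.shift : Vtx → Vtx
  | .hub => .hub
  | .mid s => .mid (s + 1)
  | .up s => .up (s + 1)
  | .down s => .down (s + 1)

theorem shift_adj (x y : Vtx) : doubleHalf.Adj x.shift y.shift ↔ doubleHalf.Adj x y := by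
  rcases x with _ | s | s | s <;> rcases y with _ | t | t | t <;>
    simp [doubleHalf, dhRel, Vtx.shift]

theorem shift_inj : Function.Injective Vtx.shift := by
  intro x y h
  rcases x with _ | s | s | s <;> rcases y with _ | t | t | t <;> simp_all [Vtx.shift]

/-- Distinct vertices are distinguished by a neighbour of bounded index. -/
theorem distinguish (n : ℕ) (x y : Vtx) (hxy : x ≠ y) (hx : x.idx < n) (hy : y.idx < n) :
    ∃ t : Vtx, t.idx < n + 2 ∧ ¬ (doubleHalf.Adj x.shift t ↔ doubleHalf.Adj y.shift t) := by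
  rcases x with _ | s | s | s <;> rcases y with _ | t | t | t
  · exact absurd rfl hxy
  · exact ⟨.hub, by simp [Vtx.idx], by simp [doubleHalf, dhRel, Vtx.shift]⟩
  · exact ⟨.hub, by simp [Vtx.idx], by simp [doubleHalf, dhRel, Vtx.shift]⟩
  · exact ⟨.mid t, by simp [Vtx.idx] at hy ⊢; omega, by simp [doubleHalf, dhRel, Vtx.shift]⟩
  · exact ⟨.hub, by simp [Vtx.idx], by simp [doubleHalf, dhRel, Vtx.shift]⟩
  · rcases lt_trichotomy s t with h | h | h
    · exact ⟨.up (s + 1), by simp [Vtx.idx] at hx ⊢; omega,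
        by simp [doubleHalf, dhRel, Vtx.shift]; omega⟩
    · exact absurd (by rw [h]) hxy
    · exact ⟨.up (t + 1), by simp [Vtx.idx] at hy ⊢; omega,
        by simp [doubleHalf, dhRel, Vtx.shift]; omega⟩
  · exact ⟨.mid 0, by simp [Vtx.idx], by simp [doubleHalf, dhRel, Vtx.shift]⟩
  · exact ⟨.mid (n + 1), by simp [Vtx.idx], by
      simp [Vtx.idx] at hy
      simp [doubleHalf, dhRel, Vtx.shift]; omega⟩
  · exact ⟨.hub, by simp [Vtx.idx], by simp [doubleHalf, dhRel, Vtx.shift]⟩
  · exact ⟨.mid 0, by simp [Vtx.idx], by simp [doubleHalf, dhRel, Vtx.shift]⟩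
  · rcases lt_trichotomy s t with h | h | h
    · exact ⟨.mid (t + 1), by simp [Vtx.idx] at hy ⊢; omega,
        by simp [doubleHalf, dhRel, Vtx.shift]; omega⟩
    · exact absurd (by rw [h]) hxy
    · exact ⟨.mid (s + 1), by simp [Vtx.idx] at hx ⊢; omega,
        by simp [doubleHalf, dhRel, Vtx.shift]; omega⟩
  · exact ⟨.hub, by simp [Vtx.idx], by simp [doubleHalf, dhRel, Vtx.shift]⟩
  · exact ⟨.mid s, by simp [Vtx.idx] at hx ⊢; omega, by simp [doubleHalf, dhRel, Vtx.shift]⟩
  · exact ⟨.mid (n + 1), by simp [Vtx.idx], by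
      simp [Vtx.idx] at hx
      simp [doubleHalf, dhRel, Vtx.shift]; omega⟩
  · exact ⟨.hub, by simp [Vtx.idx], by simp [doubleHalf, dhRel, Vtx.shift]⟩
  · rcases lt_trichotomy s t with h | h | h
    · exact ⟨.mid (s + 1), by simp [Vtx.idx] at hx ⊢; omega,
        by simp [doubleHalf, dhRel, Vtx.shift]; omega⟩
    · exact absurd (by rw [h]) hxy
    · exact ⟨.mid (t + 1), by simp [Vtx.idx] at hy ⊢; omega,
        by simp [doubleHalf, dhRel, Vtx.shift]; omega⟩

section embed

variable {V : Type*} {G : SimpleGraph V} {K : Finset V} {Q : ℕ → Finset V} {M : ℕ}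
  {Z W : ℕ → ℕ → V} {v : V}

/-- The image of the double half graph. -/
def place (v : V) (q : ℕ → V) (Z W : ℕ → ℕ → V) : Vtx → V
  | .hub => v
  | .mid s => q (5 * s + 2)
  | .up t => Z (5 * t + 3) (5 * t + 4)
  | .down t => W (5 * t) (5 * t + 1)

theorem place_adj (hF : Full G K Q M Z W v) {q : ℕ → V} (hq : ∀ i, i < M → q i ∈ Q i) {n : ℕ}
    (hn : 5 * n ≤ M) (x y : Vtx) (hx : x.idx < n) (hy : y.idx < n) :
    G.Adj (place v q Z W x) (place v q Z W y) ↔ doubleHalf.Adj x y := by
  have hvm : ∀ s, s < n → G.Adj v (q (5 * s + 2)) := fun s hs =>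
    hF.base.compK _ (by omega) v hF.vK _ (hq _ (by omega))
  have hvu : ∀ s, s < n → G.Adj v (Z (5 * s + 3) (5 * s + 4)) := fun s hs =>
    hF.vZ _ _ (by omega) (by omega)
  have hvd : ∀ s, s < n → ¬ G.Adj v (W (5 * s) (5 * s + 1)) := fun s hs =>
    hF.vW _ _ (by omega) (by omega)
  have hmm : ∀ s t, s < n → t < n → ¬ G.Adj (q (5 * s + 2)) (q (5 * t + 2)) := by
    intro s t hs ht
    by_cases h : s = t
    · subst h; exact G.loopless.irrefl _
    · exact hF.base.anti _ _ (by omega) (by omega) (by omega) _ (hq _ (by omega)) _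
        (hq _ (by omega))
  have hmu : ∀ s t, s < n → t < n → (G.Adj (q (5 * s + 2)) (Z (5 * t + 3) (5 * t + 4)) ↔ s ≤ t) := by
    intro s t hs ht
    constructor
    · intro h
      by_contra hlt
      exact hF.postZ (5 * t + 3) (5 * t + 4) (5 * s + 2) (by omega) (by omega) (by omega) _
        (hq _ (by omega)) h.symm
    · intro h
      exact (hF.preZ (5 * s + 2) (5 * t + 3) (5 * t + 4) (by omega) (by omega) (by omega) _
        (hq _ (by omega))).symm
  have hmd : ∀ s t, s < n → t < n → (G.Adj (q (5 * s + 2)) (W (5 * t) (5 * t + 1)) ↔ t ≤ s) := by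
    intro s t hs ht
    constructor
    · intro h
      by_contra hlt
      exact hF.preW (5 * s + 2) (5 * t) (5 * t + 1) (by omega) (by omega) (by omega) _
        (hq _ (by omega)) h.symm
    · intro h
      exact (hF.postW (5 * t) (5 * t + 1) (5 * s + 2) (by omega) (by omega) (by omega) _
        (hq _ (by omega))).symm
  have huu : ∀ s t, s < n → t < n →
      ¬ G.Adj (Z (5 * s + 3) (5 * s + 4)) (Z (5 * t + 3) (5 * t + 4)) := by
    intro s t hs ht
    rcases lt_trichotomy s t with h | h | h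
    · exact hF.nonZ _ _ _ _ (by omega) (by omega) (by omega) (by omega)
    · subst h; exact G.loopless.irrefl _
    · intro h'
      exact hF.nonZ _ _ _ _ (by omega) (by omega) (by omega) (by omega) h'.symm
  have hdd : ∀ s t, s < n → t < n →
      ¬ G.Adj (W (5 * s) (5 * s + 1)) (W (5 * t) (5 * t + 1)) := by
    intro s t hs ht
    rcases lt_trichotomy s t with h | h | h
    · exact hF.nonW _ _ _ _ (by omega) (by omega) (by omega) (by omega)
    · subst h; exact G.loopless.irrefl _
    · intro h'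
      exact hF.nonW _ _ _ _ (by omega) (by omega) (by omega) (by omega) h'.symm
  have hud : ∀ s t, s < n → t < n →
      G.Adj (Z (5 * s + 3) (5 * s + 4)) (W (5 * t) (5 * t + 1)) := by
    intro s t hs ht
    rcases lt_or_ge s t with h | h
    · exact hF.ZW _ _ _ _ (by omega) (by omega) (by omega) (by omega)
    · exact (hF.WZ _ _ _ _ (by omega) (by omega) (by omega) (by omega)).symm
  rcases x with _ | s | s | s <;> rcases y with _ | t | t | t <;>
    simp only [Vtx.idx] at hx hy <;>
    simp only [place, doubleHalf, dhRel, SimpleGraph.fromRel_adj]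
  · simp
  · simp [hvm t hy]
  · simp [hvu t hy]
  · simp [hvd t hy]
  · simp [(hvm s hx).symm]
  · simp [hmm s t hx hy]
  · simp [hmu s t hx hy]
  · simp [hmd s t hx hy]
  · simp [(hvu s hx).symm]
  · rw [G.adj_comm]; simp [hmu t s hy hx]
  · simp [huu s t hx hy]
  · simp [hud s t hx hy]
  · rw [G.adj_comm]; simp [hvd s hx]
  · rw [G.adj_comm]; simp [hmd t s hy hx]
  · rw [G.adj_comm]; simp [hud t s hy hx]
  · simp [hdd s t hx hy]

theorem embeds_of_full {U : Type*} [Finite U] {H : SimpleGraph U} (φ : H ↪g doubleHalf) {n : ℕ}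
    (hφ : ∀ a, (φ a).idx < n) (hF : Full G K Q M Z W v) (hM : 5 * (n + 2) ≤ M) :
    Nonempty (H ↪g G) := by
  classical
  have hq : ∃ q : ℕ → V, ∀ i, i < M → q i ∈ Q i := by
    refine ⟨fun i => if h : i < M then (hF.base.ne i h).choose else v, fun i hi => ?_⟩
    simp only [dif_pos hi]
    exact (hF.base.ne i hi).choose_spec
  obtain ⟨q, hq⟩ := hq
  have hsh : ∀ x : Vtx, x.idx < n → x.shift.idx < n + 2 := by
    intro x hx
    rcases x with _ | s | s | s <;> simp [Vtx.idx, Vtx.shift] at hx ⊢ <;> omega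
  have hadj : ∀ a b : U, G.Adj (place v q Z W (φ a).shift) (place v q Z W (φ b).shift) ↔
      H.Adj a b := by
    intro a b
    rw [place_adj hF hq hM _ _ (hsh _ (hφ a)) (hsh _ (hφ b)), shift_adj, φ.map_adj_iff]
  refine ⟨⟨⟨fun a => place v q Z W (φ a).shift, ?_⟩, ?_⟩⟩
  · intro a b hab
    by_contra hne
    have hne' : φ a ≠ φ b := fun h => hne (φ.injective h)
    obtain ⟨t, ht, hd⟩ := distinguish n (φ a) (φ b) hne' (hφ a) (hφ b)
    apply hd
    rw [← place_adj hF hq hM _ _ (hsh _ (hφ a)) ht, ← place_adj hF hq hM _ _ (hsh _ (hφ b)) ht]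
    simp only at hab
    rw [hab]
  · intro a b
    exact hadj a b

end embed

end Pool.Agent.H46.P5
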