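import Mathlib
import Pool.Agent.H46.P5b

/-!
From a large vertex-critical `P₅`-free graph to the double half graph.
-/

set_option linter.unusedSectionVars false
set_option linter.unusedVariables false

namespace Pool.Agent.H46.P5

open Finset

variable {V : Type*} [Fintype V] [DecidableEq V]

/-- `G` is not `c`-colourable, but every vertex-deleted subgraph is. -/
structure Crit (G : SimpleGraph V) (c : ℕ) : Prop where
  not : ¬ ∃ f : V → ℕ, (∀ x, f x < c) ∧ ∀ x y, G.Adj x y → f x ≠ f y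
  del : ∀ v, ∃ f : V → ℕ, (∀ x, x ≠ v → f x < c) ∧ ∀ x y, x ≠ v → y ≠ v → G.Adj x y → f x ≠ f y

theorem Crit.col {G : SimpleGraph V} {c : ℕ} (h : Crit G c) :
    ∃ f : V → ℕ, (∀ x, f x < c + 1) ∧ ∀ x y, G.Adj x y → f x ≠ f y := by
  rcases isEmpty_or_nonempty V with hV | ⟨⟨v⟩⟩
  · exact ⟨fun _ => 0, fun x => (hV.false x).elim, fun x => (hV.false x).elim⟩
  · obtain ⟨f, hf1, hf2⟩ := h.del v
    refine ⟨Function.update f v c, fun x => ?_, fun x y hxy => ?_⟩
    · by_cases hx : x = v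
      · subst hx; simp
      · rw [Function.update_of_ne hx]
        have := hf1 x hx
        omega
    · by_cases hx : x = v
      · have hy : y ≠ v := fun hy => hxy.ne (hx.trans hy.symm)
        rw [hx, Function.update_self, Function.update_of_ne hy]
        have := hf1 y hy
        omega
      · rw [Function.update_of_ne hx]
        by_cases hy : y = v
        · rw [hy, Function.update_self]
          have := hf1 x hx
          omega
        · rw [Function.update_of_ne hy]
          exact hf2 x y hx hy hxy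

theorem Crit.clique {G : SimpleGraph V} {c : ℕ} (h : Crit G c) (T : Finset V)
    (hT : G.IsClique (T : Set V)) : T.card ≤ c + 1 := by
  obtain ⟨f, hf1, hf2⟩ := h.col
  rw [← Finset.card_range (c + 1)]
  apply Finset.card_le_card_of_injOn f
  · intro x _
    exact Finset.mem_coe.2 (Finset.mem_range.2 (hf1 x))
  · intro x hx y hy hxy
    by_contra hne
    exact hf2 x y (hT hx hy hne) hxy

/-- The least number of colours used on `Q` by a proper colouring of `Q`. -/
noncomputable def chi (G : SimpleGraph V) (Q : Finset V) : ℕ :=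
  sInf {n | ∃ f : V → ℕ, (∀ x ∈ Q, ∀ y ∈ Q, G.Adj x y → f x ≠ f y) ∧ (Q.image f).card = n}

theorem chi_le {G : SimpleGraph V} {Q : Finset V} (f : V → ℕ)
    (hf : ∀ x ∈ Q, ∀ y ∈ Q, G.Adj x y → f x ≠ f y) : chi G Q ≤ (Q.image f).card :=
  Nat.sInf_le ⟨f, hf, rfl⟩

theorem chi_att {G : SimpleGraph V} {c : ℕ} (h : Crit G c) (Q : Finset V) :
    ∃ f : V → ℕ, (∀ x ∈ Q, ∀ y ∈ Q, G.Adj x y → f x ≠ f y) ∧ (Q.image f).card = chi G Q := by
  obtain ⟨f, _, hf2⟩ := h.col
  have : {n | ∃ f : V → ℕ, (∀ x ∈ Q, ∀ y ∈ Q, G.Adj x y → f x ≠ f y) ∧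
      (Q.image f).card = n}.Nonempty := ⟨_, f, fun x _ y _ => hf2 x y, rfl⟩
  exact Nat.sInf_mem this

theorem chi_lt {G : SimpleGraph V} {c : ℕ} (h : Crit G c) (Q : Finset V) : chi G Q < c + 2 := by
  obtain ⟨f, hf1, hf2⟩ := h.col
  have h1 := chi_le (G := G) (Q := Q) f (fun x _ y _ => hf2 x y)
  have h2 : (Q.image f).card ≤ (Finset.range (c + 1)).card := by
    apply Finset.card_le_card
    intro n hn
    rw [Finset.mem_image] at hn
    obtain ⟨x, _, rfl⟩ := hn
    exact Finset.mem_range.2 (hf1 x)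
  rw [Finset.card_range] at h2
  omega

/-- Two anticomplete sets are separated by some vertex. -/
theorem crit_sep {G : SimpleGraph V} {c : ℕ} (h : Crit G c) {Q Q' : Finset V}
    (hne : Q.Nonempty) (hanti : ∀ a ∈ Q, ∀ b ∈ Q', ¬ G.Adj a b) (hchi : chi G Q ≤ chi G Q')
    (hdisj : ∀ a ∈ Q, a ∉ Q') :
    ∃ z, z ∉ Q ∧ ¬ Anti G z Q ∧ ¬ Comp G z Q' := by
  by_contra hcon
  push Not at hcon
  apply h.not
  obtain ⟨v, hv⟩ := hne
  obtain ⟨f, hf1, hf2⟩ := h.del v
  obtain ⟨g, hg1, hg2⟩ := chi_att h Q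
  have hQ'v : ∀ x ∈ Q', x ≠ v := by
    rintro x hx rfl
    exact hdisj x hv hx
  have h1 : chi G Q' ≤ (Q'.image f).card :=
    chi_le f (fun x hx y hy hxy => hf2 x y (hQ'v x hx) (hQ'v y hy) hxy)
  have h2 : (Q.image g).card ≤ (Q'.image f).card := by omega
  obtain ⟨Γ, hΓ, hΓc⟩ := Finset.exists_subset_card_eq h2
  let e := Finset.equivOfCardEq hΓc.symm
  have hmem : ∀ x, x ∈ Q → g x ∈ Q.image g := fun x hx => Finset.mem_image_of_mem g hx
  let F : V → ℕ := fun x => if hx : x ∈ Q then (e ⟨g x, hmem x hx⟩ : ℕ) else f x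
  have hFin : ∀ x, (hx : x ∈ Q) → F x ∈ Q'.image f := by
    intro x hx
    simp only [F, dif_pos hx]
    exact hΓ (Subtype.property _)
  have hFout : ∀ x, x ∉ Q → F x = f x := by
    intro x hx
    simp only [F, dif_neg hx]
  have hcross : ∀ x y, x ∈ Q → y ∉ Q → G.Adj x y → F x ≠ F y := by
    intro x y hx hy hxy heq
    have h3 := hFin x hx
    rw [heq, hFout y hy, Finset.mem_image] at h3
    obtain ⟨w, hw, hwy⟩ := h3
    have hyQ : ¬ Anti G y Q := fun ha => ha x hx hxy.symm
    have hyc := hcon y hy hyQ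
    exact hf2 y w (fun h => hy (h ▸ hv)) (hQ'v w hw) (hyc w hw) hwy.symm
  refine ⟨F, fun x => ?_, fun x y hxy => ?_⟩
  · by_cases hx : x ∈ Q
    · have h3 := hFin x hx
      rw [Finset.mem_image] at h3
      obtain ⟨w, hw, hwx⟩ := h3
      rw [← hwx]
      exact hf1 w (hQ'v w hw)
    · rw [hFout x hx]
      exact hf1 x (fun h => hx (h ▸ hv))
  · by_cases hx : x ∈ Q
    · by_cases hy : y ∈ Q
      · simp only [F, dif_pos hx, dif_pos hy]
        intro heq
        have h3 := e.injective (Subtype.ext heq)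
        rw [Subtype.mk.injEq] at h3
        exact hg1 x hx y hy hxy h3
      · exact hcross x y hx hy hxy
    · by_cases hy : y ∈ Q
      · exact (hcross y x hy hx hxy.symm).symm
      · rw [hFout x hx, hFout y hy]
        exact hf2 x y (fun h => hx (h ▸ hv)) (fun h => hy (h ▸ hv)) hxy

section components

/-- The graph `G` restricted to `S` (as a graph on the same vertex type). -/
def restr (G : SimpleGraph V) (S : Finset V) : SimpleGraph V where
  Adj x y := G.Adj x y ∧ x ∈ S ∧ y ∈ S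
  symm := ⟨fun _ _ h => ⟨h.1.symm, h.2.2, h.2.1⟩⟩
  loopless := ⟨fun _ h => G.loopless.irrefl _ h.1⟩

open Classical in
/-- The component of `x` in `G[S]`. -/
noncomputable def cmp (G : SimpleGraph V) (S : Finset V) (x : V) : Finset V :=
  Finset.univ.filter (fun y => (restr G S).Reachable x y)

variable {G : SimpleGraph V} {S : Finset V}

theorem mem_cmp {x y : V} : y ∈ cmp G S x ↔ (restr G S).Reachable x y := by
  simp [cmp]

theorem self_mem_cmp (x : V) : x ∈ cmp G S x := mem_cmp.2 (SimpleGraph.Reachable.refl x)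

theorem cmp_subset {x : V} (hx : x ∈ S) : cmp G S x ⊆ S := by
  intro y hy
  rw [mem_cmp] at hy
  by_contra hyS
  obtain ⟨p⟩ := hy
  obtain ⟨d, _, hd1, hd2⟩ := p.exists_boundary_dart (S : Set V) hx hyS
  exact hd2 d.adj.2.2

theorem cmp_conn (x : V) : Conn G (cmp G S x) := by
  intro B hB hBne hBQ
  obtain ⟨b, hb⟩ := hBne
  obtain ⟨y, hy, hyB⟩ : ∃ y ∈ cmp G S x, y ∉ B := by
    by_contra hcon
    push Not at hcon
    exact hBQ (Finset.Subset.antisymm hB hcon)
  have h1 := mem_cmp.1 (hB hb)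
  have h2 := mem_cmp.1 hy
  obtain ⟨p⟩ := h1.symm.trans h2
  obtain ⟨d, _, hd1, hd2⟩ := p.exists_boundary_dart (B : Set V) hb hyB
  refine ⟨d.fst, hd1, d.snd, ?_, hd2, d.adj.1⟩
  exact mem_cmp.2 ((mem_cmp.1 (hB hd1)).trans d.adj.reachable)

theorem cmp_eq {x y : V} (h : y ∈ cmp G S x) : cmp G S x = cmp G S y := by
  ext z
  rw [mem_cmp] at h
  rw [mem_cmp, mem_cmp]
  exact ⟨fun hz => h.symm.trans hz, fun hz => h.trans hz⟩

theorem cmp_absorb {x z a : V} (hx : x ∈ S) (hz : z ∈ S) (ha : a ∈ cmp G S x) (hza : G.Adj z a) :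
    z ∈ cmp G S x := by
  have haS := cmp_subset hx ha
  have : (restr G S).Adj a z := ⟨hza.symm, haS, hz⟩
  exact mem_cmp.2 ((mem_cmp.1 ha).trans this.reachable)

/-- One step of the ball. -/
def nb (G : SimpleGraph V) [DecidableRel G.Adj] (S B : Finset V) : Finset V :=
  B ∪ B.biUnion (fun y => S.filter (fun w => G.Adj y w))

theorem nb_card [DecidableRel G.Adj] {D : ℕ}
    (hD : ∀ y ∈ S, (S.filter (fun w => G.Adj y w)).card ≤ D) {B : Finset V} (hB : B ⊆ S) :
    (nb G S B).card ≤ B.card * (1 + D) := by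
  unfold nb
  calc _ ≤ B.card + (B.biUnion (fun y => S.filter (fun w => G.Adj y w))).card :=
        Finset.card_union_le _ _
    _ ≤ B.card + B.card * D :=
        Nat.add_le_add_left (Finset.card_biUnion_le_card_mul _ _ _ (fun y hy => hD y (hB hy))) _
    _ = _ := by ring

theorem nb_subset [DecidableRel G.Adj] {B : Finset V} (hB : B ⊆ S) : nb G S B ⊆ S := by
  unfold nb
  intro x hx
  rw [Finset.mem_union, Finset.mem_biUnion] at hx
  rcases hx with hx | ⟨y, _, hx⟩
  · exact hB hx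
  · exact (Finset.mem_filter.1 hx).1

theorem subset_nb [DecidableRel G.Adj] (B : Finset V) : B ⊆ nb G S B :=
  Finset.subset_union_left

theorem mem_nb_of [DecidableRel G.Adj] {B : Finset V} {y w : V} (hy : y ∈ B) (hw : w ∈ S)
    (h : G.Adj y w) : w ∈ nb G S B :=
  Finset.mem_union_right _ (Finset.mem_biUnion.2 ⟨y, hy, Finset.mem_filter.2 ⟨hw, h⟩⟩)

theorem exists_of_mem_nb [DecidableRel G.Adj] {B : Finset V} {w : V} (hw : w ∈ nb G S B)
    (hwB : w ∉ B) : ∃ y ∈ B, G.Adj y w := by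
  unfold nb at hw
  rw [Finset.mem_union, Finset.mem_biUnion] at hw
  rcases hw with hw | ⟨y, hy, hw⟩
  · exact absurd hw hwB
  · exact ⟨y, hy, (Finset.mem_filter.1 hw).2⟩

theorem cmp_card [DecidableRel G.Adj] (hP : NoP5 G) {D : ℕ}
    (hD : ∀ y ∈ S, (S.filter (fun w => G.Adj y w)).card ≤ D) {x : V} (hx : x ∈ S) :
    (cmp G S x).card ≤ (1 + D) ^ 3 := by
  set B0 : Finset V := {x} with hB0
  set B1 := nb G S B0 with hB1
  set B2 := nb G S B1 with hB2
  set B3 := nb G S B2 with hB3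
  have hS0 : B0 ⊆ S := by simpa [hB0] using hx
  have hS1 : B1 ⊆ S := nb_subset hS0
  have hS2 : B2 ⊆ S := nb_subset hS1
  have h01 : B0 ⊆ B1 := subset_nb _
  have h12 : B1 ⊆ B2 := subset_nb _
  have h23 : B2 ⊆ B3 := subset_nb _
  have hsub : cmp G S x ⊆ B3 := by
    intro y hy
    by_contra hyB
    rw [mem_cmp] at hy
    obtain ⟨p⟩ := hy
    have hx3 : x ∈ B3 := h23 (h12 (h01 (by simp [hB0])))
    obtain ⟨d, _, hd1, hd2⟩ := p.exists_boundary_dart (B3 : Set V) hx3 hyB
    obtain ⟨hadj, huS, hwS⟩ := d.adj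
    set u := d.fst with hu
    set w := d.snd with hw
    have hu3 : u ∈ B3 := hd1
    have hw3 : w ∉ B3 := hd2
    have hu2 : u ∉ B2 := fun h => hw3 (mem_nb_of h hwS hadj)
    obtain ⟨y2, hy2, hy2u⟩ := exists_of_mem_nb hu3 hu2
    have hy21 : y2 ∉ B1 := fun h => hu2 (mem_nb_of h huS hy2u)
    obtain ⟨y1, hy1, hy1y2⟩ := exists_of_mem_nb hy2 hy21
    have hy10 : y1 ∉ B0 := fun h => hy21 (mem_nb_of h (hS2 hy2) hy1y2)
    obtain ⟨y0, hy0, hy0y1⟩ := exists_of_mem_nb hy1 hy10
    exact hP y0 y1 y2 u w hy0y1 hy1y2 hy2u hadj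
      (fun h => hy21 (mem_nb_of hy0 (hS2 hy2) h))
      (fun h => hu2 (h12 (mem_nb_of hy0 huS h)))
      (fun h => hw3 (h23 (h12 (mem_nb_of hy0 hwS h))))
      (fun h => hu2 (mem_nb_of hy1 huS h))
      (fun h => hw3 (h23 (mem_nb_of hy1 hwS h)))
      (fun h => hw3 (mem_nb_of hy2 hwS h))
  calc (cmp G S x).card ≤ B3.card := Finset.card_le_card hsub
    _ ≤ B2.card * (1 + D) := nb_card hD hS2
    _ ≤ (B1.card * (1 + D)) * (1 + D) := Nat.mul_le_mul_right _ (nb_card hD hS1)
    _ ≤ ((B0.card * (1 + D)) * (1 + D)) * (1 + D) :=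
        Nat.mul_le_mul_right _ (Nat.mul_le_mul_right _ (nb_card hD hS0))
    _ = (1 + D) ^ 3 := by rw [hB0, Finset.card_singleton]; ring

end components

/-- The common neighbourhood of `K`. -/
def cn (G : SimpleGraph V) [DecidableRel G.Adj] (K : Finset V) : Finset V :=
  Finset.univ.filter (fun x => ∀ u ∈ K, G.Adj u x)

/-- Selection of a clique with a large common neighbourhood of small degree. -/
theorem select (G : SimpleGraph V) [DecidableRel G.Adj] (F : ℕ → ℕ)
    (h0 : F 0 ≤ Fintype.card V) :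
    ∃ K : Finset V, G.IsClique (K : Set V) ∧ F K.card ≤ (cn G K).card ∧
      ∀ u ∈ cn G K, ((cn G K).filter (fun w => G.Adj u w)).card < F (K.card + 1) := by
  classical
  let P : Finset (Finset V) := Finset.univ.filter
    (fun K => G.IsClique (K : Set V) ∧ F K.card ≤ (cn G K).card)
  have hP : P.Nonempty := ⟨∅, by
    simp only [P, Finset.mem_filter, Finset.mem_univ, true_and]
    refine ⟨by simp, ?_⟩
    simp only [Finset.card_empty]
    refine h0.trans ?_
    rw [← Finset.card_univ]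
    apply Finset.card_le_card
    intro x _
    simp [cn]⟩
  obtain ⟨K, hK, hmax⟩ := Finset.exists_max_image P Finset.card hP
  have hK' : G.IsClique (K : Set V) ∧ F K.card ≤ (cn G K).card := by simpa [P] using hK
  refine ⟨K, hK'.1, hK'.2, fun u hu => ?_⟩
  by_contra hcon
  push Not at hcon
  have huK : ∀ w ∈ K, G.Adj w u := by simpa [cn] using hu
  have hunK : u ∉ K := fun h => G.loopless.irrefl _ (huK u h)
  have hmem : insert u K ∈ P := by
    simp only [P, Finset.mem_filter, Finset.mem_univ, true_and]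
    constructor
    · rw [Finset.coe_insert]
      intro x hx y hy hxy
      rcases hx with rfl | hx
      · rcases hy with rfl | hy
        · exact absurd rfl hxy
        · exact (huK y hy).symm
      · rcases hy with rfl | hy
        · exact huK x hx
        · exact hK'.1 hx hy hxy
    · rw [Finset.card_insert_of_notMem hunK]
      refine hcon.trans (Finset.card_le_card ?_)
      intro w hw
      rw [Finset.mem_filter] at hw
      simp only [cn, Finset.mem_filter, Finset.mem_univ, true_and] at hw ⊢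
      intro y hy
      rw [Finset.mem_insert] at hy
      rcases hy with rfl | hy
      · exact hw.2
      · exact hw.1 y hy
  have := hmax _ hmem
  rw [Finset.card_insert_of_notMem hunK] at this
  omega

/-- Thresholds for the selection. -/
def thr (R k : ℕ) (j : ℕ) : ℕ := (fun D => R * (1 + D) ^ 3)^[k + 1 - j] 1

theorem thr_step {R k j : ℕ} (hj : j ≤ k) : thr R k j = R * (1 + thr R k (j + 1)) ^ 3 := by
  unfold thr
  have : k + 1 - j = (k + 1 - (j + 1)) + 1 := by omega
  rw [this, Function.iterate_succ_apply']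

/-- Many separated components. -/
theorem many_components (c R : ℕ) : ∀ {V : Type*} [Fintype V] [DecidableEq V] (G : SimpleGraph V),
    Crit G c → NoP5 G → thr ((c + 2) * R) (c + 1) 0 ≤ Fintype.card V →
    ∃ (K : Finset V) (Q : ℕ → Finset V), G.IsClique (K : Set V) ∧ K.card ≤ c + 1 ∧ Base G K Q R ∧
      ∀ i j, i < R → j < R → i ≠ j → ∃ z, ¬ Anti G z (Q i) ∧ ¬ Comp G z (Q j) ∧
        ∃ u ∈ K, ¬ G.Adj z u := by
  classical
  intro V _ _ G hcrit hP hV
  obtain ⟨K, hKc, hK1, hK2⟩ := select G (thr ((c + 2) * R) (c + 1)) hV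
  have hKcard : K.card ≤ c + 1 := hcrit.clique K hKc
  rw [thr_step hKcard] at hK1
  set D := thr ((c + 2) * R) (c + 1) (K.card + 1) with hD
  set S := cn G K with hS
  have hSK : ∀ x, x ∈ S ↔ ∀ u ∈ K, G.Adj u x := by
    intro x; simp [hS, cn]
  set X : Finset (Finset V) := S.image (cmp G S) with hX
  have hXcard : (c + 2) * R ≤ X.card := by
    have h1 : S ⊆ X.biUnion id := by
      intro x hx
      rw [Finset.mem_biUnion]
      exact ⟨cmp G S x, Finset.mem_image_of_mem _ hx, self_mem_cmp x⟩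
    have h2 : S.card ≤ X.card * (1 + D) ^ 3 := by
      refine (Finset.card_le_card h1).trans (Finset.card_biUnion_le_card_mul _ _ _ ?_)
      intro Q hQ
      rw [hX, Finset.mem_image] at hQ
      obtain ⟨x, hx, rfl⟩ := hQ
      exact cmp_card hP (fun y hy => (hK2 y hy).le) hx
    have h3 : ((c + 2) * R) * (1 + D) ^ 3 ≤ X.card * (1 + D) ^ 3 := hK1.trans h2
    exact Nat.le_of_mul_le_mul_right h3 (by positivity)
  -- pigeonhole on `chi`
  obtain ⟨n, -, hn⟩ : ∃ n ∈ Finset.range (c + 2), R ≤ (X.filter (fun Q => chi G Q = n)).card := by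
    apply Finset.exists_le_card_fiber_of_mul_le_card_of_maps_to
    · intro Q _
      exact Finset.mem_range.2 (chi_lt hcrit Q)
    · exact ⟨0, Finset.mem_range.2 (by omega)⟩
    · rw [Finset.card_range]; exact hXcard
  set X' := X.filter (fun Q => chi G Q = n) with hX'
  let Q : ℕ → Finset V := fun i => if h : i < X'.card then (X'.equivFin.symm ⟨i, h⟩ : Finset V) else ∅
  have hQ : ∀ i, i < R → ∃ x ∈ S, Q i = cmp G S x ∧ chi G (Q i) = n := by
    intro i hi
    have hi' : i < X'.card := lt_of_lt_of_le hi hn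
    have h1 : Q i ∈ X' := by
      simp only [Q, dif_pos hi']
      exact Subtype.property _
    rw [hX', Finset.mem_filter, hX, Finset.mem_image] at h1
    obtain ⟨⟨x, hx, hxe⟩, h2⟩ := h1
    exact ⟨x, hx, hxe.symm, h2⟩
  have hQinj : ∀ i j, i < R → j < R → Q i = Q j → i = j := by
    intro i j hi hj hij
    have hi' : i < X'.card := lt_of_lt_of_le hi hn
    have hj' : j < X'.card := lt_of_lt_of_le hj hn
    simp only [Q, dif_pos hi', dif_pos hj'] at hij
    have := X'.equivFin.symm.injective (Subtype.ext hij)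
    simpa using this
  have hdisj : ∀ i j, i < R → j < R → i ≠ j → ∀ a ∈ Q i, a ∉ Q j := by
    intro i j hi hj hij a ha ha'
    obtain ⟨x, _, hx, _⟩ := hQ i hi
    obtain ⟨y, _, hy, _⟩ := hQ j hj
    apply hij
    apply hQinj i j hi hj
    rw [hx] at ha
    rw [hy] at ha'
    rw [hx, hy, cmp_eq ha, cmp_eq ha']
  have hanti : ∀ i j, i < R → j < R → i ≠ j → ∀ a ∈ Q i, ∀ b ∈ Q j, ¬ G.Adj a b := by
    intro i j hi hj hij a ha b hb hab
    obtain ⟨x, hxS, hx, _⟩ := hQ i hi
    obtain ⟨y, hyS, hy, _⟩ := hQ j hj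
    have haS : a ∈ S := cmp_subset hxS (hx ▸ ha)
    have : a ∈ Q j := by
      rw [hy]
      exact cmp_absorb hyS haS (hy ▸ hb) hab
    exact hdisj i j hi hj hij a ha this
  refine ⟨K, Q, hKc, hKcard, ⟨hP, ?_, ?_, ?_, hanti, ?_⟩, ?_⟩
  · intro i hi
    obtain ⟨x, _, hx, _⟩ := hQ i hi
    rw [hx]; exact cmp_conn x
  · intro i hi
    obtain ⟨x, _, hx, _⟩ := hQ i hi
    rw [hx]; exact ⟨x, self_mem_cmp x⟩
  · intro i j hi hj hij a ha b hb hab
    exact hdisj i j hi hj hij a ha (hab ▸ hb)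
  · intro i hi u hu a ha
    obtain ⟨x, hxS, hx, _⟩ := hQ i hi
    exact (hSK a).1 (cmp_subset hxS (hx ▸ ha)) u hu
  · intro i j hi hj hij
    obtain ⟨x, hxS, hx, hxn⟩ := hQ i hi
    obtain ⟨y, hyS, hy, hyn⟩ := hQ j hj
    obtain ⟨z, hz1, hz2, hz3⟩ := crit_sep hcrit (Q := Q i) (Q' := Q j)
      (by rw [hx]; exact ⟨x, self_mem_cmp x⟩) (hanti i j hi hj hij) (by rw [hxn, hyn])
      (hdisj i j hi hj hij)
    refine ⟨z, hz2, hz3, ?_⟩
    have hzS : z ∉ S := by
      intro hzS
      unfold Anti at hz2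
      push Not at hz2
      obtain ⟨a, ha, hza⟩ := hz2
      apply hz1
      rw [hx]
      exact cmp_absorb hxS hzS (hx ▸ ha) hza
    rw [hSK] at hzS
    push Not at hzS
    obtain ⟨u, hu, huz⟩ := hzS
    exact ⟨u, hu, fun h => huz h.symm⟩

end Pool.Agent.H46.P5
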