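import Mathlib
import Pool.Agent.H46.P5c

/-!
The Ramsey step.
-/

set_option linter.unusedSectionVars false
set_option linter.unusedVariables false

namespace Pool.Agent.H46.P5

open Finset

/-- Ramsey for quadruples with an increasing enumeration of the homogeneous set. -/
theorem ramsey4_seq (C : Type*) [Finite C] (m : ℕ) : ∃ N : ℕ, ∀ g : ℕ → ℕ → ℕ → ℕ → C,
    ∃ p : ℕ → ℕ, (∀ i j, i < j → j < m → p i < p j) ∧ (∀ i, i < m → p i < N) ∧
      ∃ col, ∀ a b c d, a < b → b < c → c < d → d < m → g (p a) (p b) (p c) (p d) = col := by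
  obtain ⟨N, hN⟩ := Pool.Agent.H46.ramsey4 (C := C) m
  refine ⟨N, fun g => ?_⟩
  obtain ⟨S, hS, hSc, col, hcol⟩ := hN (Finset.range N) (by rw [Finset.card_range]) g
  let e := S.orderEmbOfFin hSc
  let p : ℕ → ℕ := fun i => if h : i < m then e ⟨i, h⟩ else 0
  have hp : ∀ i, (h : i < m) → p i = e ⟨i, h⟩ := fun i h => by simp only [p, dif_pos h]
  have hmono : ∀ i j, i < j → j < m → p i < p j := by
    intro i j hij hj
    rw [hp i (hij.trans hj), hp j hj]
    exact e.strictMono hij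
  have hmem : ∀ i, i < m → p i ∈ S := by
    intro i hi
    rw [hp i hi]
    exact S.orderEmbOfFin_mem hSc _
  refine ⟨p, hmono, fun i hi => Finset.mem_range.1 (hS (hmem i hi)), col, ?_⟩
  intro a b c d hab hbc hcd hd
  exact hcol _ (hmem a (by omega)) _ (hmem b (by omega)) _ (hmem c (by omega)) _ (hmem d hd)
    (hmono a b hab (by omega)) (hmono b c hbc (by omega)) (hmono c d hcd hd)

/-- The colour type. -/
abbrev Col (k : ℕ) : Type := (Fin 2 → Fin 8 → Prop) × (Fin 2 → Prop) × (Fin 2 → Fin k → Prop)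

variable {V : Type*} [Fintype V] [DecidableEq V]

/-- The predicates recorded for a family. -/
def preds (G : SimpleGraph V) (Q : ℕ → Finset V) (F : ℕ → ℕ → V) (a b c d : ℕ) : Fin 8 → Prop :=
  ![Comp G (F b c) (Q a), Anti G (F b c) (Q a), Comp G (F a c) (Q b), Anti G (F a c) (Q b),
    Comp G (F a b) (Q c), Anti G (F a b) (Q c), G.Adj (F a b) (F c d), G.Adj (F a c) (F b d)]

theorem unif_of_const {G : SimpleGraph V} {K : Finset V} {Q : ℕ → Finset V} {M c : ℕ}
    {F : ℕ → ℕ → V} (hM : 2 * (c + 3) ≤ M) (hB : Base G K Q (M + 2))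
    (hω : ∀ T : Finset V, G.IsClique (T : Set V) → T.card ≤ c + 1)
    (hmiss : ∀ a b, a < b → b < M + 2 → ∃ u ∈ K, ¬ G.Adj (F a b) u)
    (e : V → Fin (c + 1)) (he : Set.InjOn e K)
    (col : Fin 8 → Prop) (colK : Fin (c + 1) → Prop)
    (h1 : ∀ a b c' d, a < b → b < c' → c' < d → d < M + 2 → preds G Q F a b c' d = col)
    (h2 : ∀ a b c' d, a < b → b < c' → c' < d → d < M + 2 →
      (fun i => ∃ u ∈ K, e u = i ∧ G.Adj (F a b) u) = colK) :
    Unif G K Q M F := by
  have hp : ∀ a b c' d, a < b → b < c' → c' < d → d < M + 2 →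
      (Comp G (F b c') (Q a) ↔ col 0) ∧ (Anti G (F b c') (Q a) ↔ col 1) ∧
      (Comp G (F a c') (Q b) ↔ col 2) ∧ (Anti G (F a c') (Q b) ↔ col 3) ∧
      (Comp G (F a b) (Q c') ↔ col 4) ∧ (Anti G (F a b) (Q c') ↔ col 5) ∧
      (G.Adj (F a b) (F c' d) ↔ col 6) ∧ (G.Adj (F a c') (F b d) ↔ col 7) := by
    intro a b c' d hab hbc hcd hd
    have h := h1 a b c' d hab hbc hcd hd
    rw [← h]
    simp [preds]
  have hk : ∀ u ∈ K, ∀ a b, a < b → b < M → (G.Adj (F a b) u ↔ colK (e u)) := by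
    intro u hu a b hab hb
    rw [← h2 a b M (M + 1) hab hb (by omega) (by omega)]
    constructor
    · intro h
      exact ⟨u, hu, rfl, h⟩
    · rintro ⟨u', hu', heu, h⟩
      rwa [he hu' hu heu] at h
  have hkn : ∀ u ∈ K, (∀ a b, a < b → b < M → G.Adj (F a b) u) ∨
      (∀ a b, a < b → b < M → ¬ G.Adj (F a b) u) := by
    intro u hu
    by_cases h : colK (e u)
    · exact Or.inl (fun a b hab hb => (hk u hu a b hab hb).2 h)
    · exact Or.inr (fun a b hab hb h' => h ((hk u hu a b hab hb).1 h'))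
  refine ⟨?_, ?_, ?_, ?_, ?_, hkn, ?_⟩
  · -- pre
    by_cases hc0 : col 0
    · exact Or.inl (fun a b c' hab hbc hc => (hp a b c' M hab hbc hc (by omega)).1.2 hc0)
    · by_cases hc1 : col 1
      · exact Or.inr (fun a b c' hab hbc hc => (hp a b c' M hab hbc hc (by omega)).2.1.2 hc1)
      · exfalso
        have h3 := hp 0 2 3 4 (by omega) (by omega) (by omega) (by omega)
        have h4 := hp 1 2 3 4 (by omega) (by omega) (by omega) (by omega)
        exact mixed_two hB.noP5 (hB.conn 0 (by omega)) (hB.conn 1 (by omega))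
          (hB.anti 0 1 (by omega) (by omega) (by omega)) (z := F 2 3)
          (fun h => hc0 (h3.1.1 h)) (fun h => hc1 (h3.2.1.1 h))
          (fun h => hc0 (h4.1.1 h)) (fun h => hc1 (h4.2.1.1 h))
  · -- mid
    by_cases hc0 : col 2
    · exact Or.inl (fun a b c' hab hbc hc => (hp a b c' M hab hbc hc (by omega)).2.2.1.2 hc0)
    · by_cases hc1 : col 3
      · exact Or.inr (fun a b c' hab hbc hc => (hp a b c' M hab hbc hc (by omega)).2.2.2.1.2 hc1)
      · exfalso
        have h3 := hp 0 1 3 4 (by omega) (by omega) (by omega) (by omega)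
        have h4 := hp 0 2 3 4 (by omega) (by omega) (by omega) (by omega)
        exact mixed_two hB.noP5 (hB.conn 1 (by omega)) (hB.conn 2 (by omega))
          (hB.anti 1 2 (by omega) (by omega) (by omega)) (z := F 0 3)
          (fun h => hc0 (h3.2.2.1.1 h)) (fun h => hc1 (h3.2.2.2.1.1 h))
          (fun h => hc0 (h4.2.2.1.1 h)) (fun h => hc1 (h4.2.2.2.1.1 h))
  · -- post
    by_cases hc0 : col 4
    · exact Or.inl (fun a b c' hab hbc hc => (hp a b c' M hab hbc hc (by omega)).2.2.2.2.1.2 hc0)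
    · by_cases hc1 : col 5
      · exact Or.inr
          (fun a b c' hab hbc hc => (hp a b c' M hab hbc hc (by omega)).2.2.2.2.2.1.2 hc1)
      · exfalso
        have h3 := hp 0 1 2 4 (by omega) (by omega) (by omega) (by omega)
        have h4 := hp 0 1 3 4 (by omega) (by omega) (by omega) (by omega)
        exact mixed_two hB.noP5 (hB.conn 2 (by omega)) (hB.conn 3 (by omega))
          (hB.anti 2 3 (by omega) (by omega) (by omega)) (z := F 0 1)
          (fun h => hc0 (h3.2.2.2.2.1.1 h)) (fun h => hc1 (h3.2.2.2.2.2.1.1 h))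
          (fun h => hc0 (h4.2.2.2.2.1.1 h)) (fun h => hc1 (h4.2.2.2.2.2.1.1 h))
  · -- non1
    intro a b c' d hab hbc hcd hd h
    have h6 : col 6 := (hp a b c' d hab hbc hcd (by omega)).2.2.2.2.2.2.1.1 h
    have := clique_seq hω (fun i => F (2 * i) (2 * i + 1)) (c + 2) (fun i j hij hj =>
      (hp (2 * i) (2 * i + 1) (2 * j) (2 * j + 1) (by omega) (by omega) (by omega)
        (by omega)).2.2.2.2.2.2.1.2 h6)
    omega
  · -- non2
    intro a b c' d hab hbc hcd hd h
    have h7 : col 7 := (hp a b c' d hab hbc hcd (by omega)).2.2.2.2.2.2.2.1 h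
    have := clique_seq hω (fun i => F i (c + 2 + i)) (c + 2) (fun i j hij hj =>
      (hp i j (c + 2 + i) (c + 2 + j) (by omega) (by omega) (by omega)
        (by omega)).2.2.2.2.2.2.2.2 h7)
    omega
  · -- miss
    obtain ⟨u, hu, hmu⟩ := hmiss 0 1 (by omega) (by omega)
    refine ⟨u, hu, ?_⟩
    rcases hkn u hu with h | h
    · exact absurd (h 0 1 (by omega) (by omega)) hmu
    · exact h

/-- Every large vertex-critical `P₅`-free graph contains the full structure. -/
theorem full_of_large (c M : ℕ) (hM : 2 * (c + 3) ≤ M) (hM8 : 8 ≤ M) :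
    ∃ n : ℕ, ∀ {V : Type*} [Fintype V] [DecidableEq V] (G : SimpleGraph V), Crit G c → NoP5 G →
      n ≤ Fintype.card V → ∃ (K : Finset V) (Q : ℕ → Finset V) (Z W : ℕ → ℕ → V) (v : V),
        Full G K Q M Z W v ∧ G.IsClique (K : Set V) ∧
          ∃ u ∈ K, ∀ a b, a < b → b < M → ¬ G.Adj (Z a b) u := by
  classical
  obtain ⟨R, hR⟩ := ramsey4_seq (Col (c + 1)) (M + 2)
  refine ⟨thr ((c + 2) * R) (c + 1) 0, fun {V} _ _ G hcrit hP hn => ?_⟩
  obtain ⟨K, Q, hKcl, hKc, hB, hsep⟩ := many_components c R G hcrit hP hn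
  have hω : ∀ T : Finset V, G.IsClique (T : Set V) → T.card ≤ c + 1 := fun T hT =>
    hcrit.clique T hT
  have hVne : Nonempty V := by
    by_contra hV
    rw [not_nonempty_iff] at hV
    exact hcrit.not ⟨fun x => (hV.false x).elim, fun x => (hV.false x).elim,
      fun x => (hV.false x).elim⟩
  -- the separating vertices
  have hsep' : ∃ s : ℕ → ℕ → V, ∀ i j, i < R → j < R → i ≠ j →
      ¬ Anti G (s i j) (Q i) ∧ ¬ Comp G (s i j) (Q j) ∧ ∃ u ∈ K, ¬ G.Adj (s i j) u := by
    refine ⟨fun i j => if h : i < R ∧ j < R ∧ i ≠ j then (hsep i j h.1 h.2.1 h.2.2).choose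
      else Classical.arbitrary V, fun i j hi hj hij => ?_⟩
    simp only [dif_pos (And.intro hi (And.intro hj hij))]
    exact (hsep i j hi hj hij).choose_spec
  obtain ⟨s, hs⟩ := hsep'
  -- encoding of `K`
  have he : ∃ e : V → Fin (c + 1), Set.InjOn e K := by
    refine ⟨fun u => if h : u ∈ K then Fin.castLE hKc (K.equivFin ⟨u, h⟩) else 0, ?_⟩
    intro x hx y hy hxy
    rw [Finset.mem_coe] at hx hy
    simp only [dif_pos hx, dif_pos hy] at hxy
    have h2 := K.equivFin.injective (Fin.castLE_injective hKc hxy)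
    simpa using h2
  obtain ⟨e, he⟩ := he
  let Fm : Fin 2 → ℕ → ℕ → V := ![fun i j => s i j, fun i j => s j i]
  obtain ⟨p, hpm, hpR, col, hcol⟩ := hR (fun a b c' d =>
    (fun f => preds G Q (Fm f) a b c' d, ![G.Adj (s a b) (s d c'), G.Adj (s b a) (s c' d)],
      fun f i => ∃ u ∈ K, e u = i ∧ G.Adj (Fm f a b) u))
  let Q' : ℕ → Finset V := fun i => Q (p i)
  let Z : ℕ → ℕ → V := fun i j => s (p i) (p j)
  let W : ℕ → ℕ → V := fun i j => s (p j) (p i)
  have hpinj : ∀ i j, i < M + 2 → j < M + 2 → i ≠ j → p i ≠ p j := by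
    intro i j hi hj hij
    rcases lt_or_gt_of_ne hij with h | h
    · exact (hpm i j h hj).ne
    · exact (hpm j i h hi).ne'
  have hB' : Base G K Q' (M + 2) := by
    refine ⟨hB.noP5, fun i hi => hB.conn _ (hpR i hi), fun i hi => hB.ne _ (hpR i hi),
      fun i j hi hj hij => hB.disj _ _ (hpR i hi) (hpR j hj) (hpinj i j hi hj hij),
      fun i j hi hj hij => hB.anti _ _ (hpR i hi) (hpR j hj) (hpinj i j hi hj hij),
      fun i hi => hB.compK _ (hpR i hi)⟩
  have hB'' : Base G K Q' M := by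
    refine ⟨hB'.noP5, fun i hi => hB'.conn _ (by omega), fun i hi => hB'.ne _ (by omega),
      fun i j hi hj hij => hB'.disj _ _ (by omega) (by omega) hij,
      fun i j hi hj hij => hB'.anti _ _ (by omega) (by omega) hij,
      fun i hi => hB'.compK _ (by omega)⟩
  have hZs : ∀ i j, i < j → j < M + 2 → ¬ Anti G (Z i j) (Q' i) ∧ ¬ Comp G (Z i j) (Q' j) ∧
      ∃ u ∈ K, ¬ G.Adj (Z i j) u := fun i j hij hj =>
    hs _ _ (hpR i (by omega)) (hpR j hj) (hpinj i j (by omega) hj (by omega))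
  have hWs : ∀ i j, i < j → j < M + 2 → ¬ Anti G (W i j) (Q' j) ∧ ¬ Comp G (W i j) (Q' i) ∧
      ∃ u ∈ K, ¬ G.Adj (W i j) u := fun i j hij hj =>
    hs _ _ (hpR j hj) (hpR i (by omega)) (hpinj j i hj (by omega) (by omega))
  have hUZ : Unif G K Q' M Z := by
    apply unif_of_const hM hB' hω (fun a b hab hb => (hZs a b hab hb).2.2) e he (col.1 0)
      (col.2.2 0)
    · intro a b c' d hab hbc hcd hd
      have h := hcol a b c' d hab hbc hcd hd
      rw [← h]
      rfl
    · intro a b c' d hab hbc hcd hd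
      have h := hcol a b c' d hab hbc hcd hd
      rw [← h]
      rfl
  have hUW : Unif G K Q' M W := by
    apply unif_of_const hM hB' hω (fun a b hab hb => (hWs a b hab hb).2.2) e he (col.1 1)
      (col.2.2 1)
    · intro a b c' d hab hbc hcd hd
      have h := hcol a b c' d hab hbc hcd hd
      rw [← h]
      rfl
    · intro a b c' d hab hbc hcd hd
      have h := hcol a b c' d hab hbc hcd hd
      rw [← h]
      rfl
  have hZW : ∀ a b c' d, a < b → b < c' → c' < d → d < M → (G.Adj (Z a b) (W c' d) ↔ col.2.1 0) := by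
    intro a b c' d hab hbc hcd hd
    rw [← hcol a b c' d hab hbc hcd (by omega)]
    rfl
  have hWZ : ∀ a b c' d, a < b → b < c' → c' < d → d < M → (G.Adj (W a b) (Z c' d) ↔ col.2.1 1) := by
    intro a b c' d hab hbc hcd hd
    rw [← hcol a b c' d hab hbc hcd (by omega)]
    rfl
  obtain ⟨v, hF⟩ := full_of_unif hB'' hM8 hUZ hUW
    (fun a b hab hb => (hZs a b hab (by omega)).1)
    (fun a b hab hb => (hZs a b hab (by omega)).2.1)
    (fun a b hab hb => (hWs a b hab (by omega)).1)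
    (fun a b hab hb => (hWs a b hab (by omega)).2.1)
    (by
      by_cases h : col.2.1 0
      · exact Or.inl (fun a b c' d h1 h2 h3 h4 => (hZW a b c' d h1 h2 h3 h4).2 h)
      · exact Or.inr (fun a b c' d h1 h2 h3 h4 h' => h ((hZW a b c' d h1 h2 h3 h4).1 h')))
    (by
      by_cases h : col.2.1 1
      · exact Or.inl (fun a b c' d h1 h2 h3 h4 => (hWZ a b c' d h1 h2 h3 h4).2 h)
      · exact Or.inr (fun a b c' d h1 h2 h3 h4 h' => h ((hWZ a b c' d h1 h2 h3 h4).1 h')))
  exact ⟨K, Q', Z, W, v, hF, hKcl, hUZ.miss⟩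

/-- The main theorem: large vertex-critical `P₅`-free graphs contain every finite induced subgraph
of the double half graph. -/
theorem main {U : Type*} [Finite U] {H : SimpleGraph U} (φ : H ↪g doubleHalf) (c : ℕ) :
    ∃ n : ℕ, ∀ {V : Type*} [Fintype V] [DecidableEq V] (G : SimpleGraph V), Crit G c → NoP5 G →
      n ≤ Fintype.card V → Nonempty (H ↪g G) := by
  classical
  have := Fintype.ofFinite U
  obtain ⟨m, hm⟩ : ∃ m, ∀ a, (φ a).idx < m := by
    refine ⟨(Finset.univ.sup (fun a => (φ a).idx)) + 1, fun a => ?_⟩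
    exact Nat.lt_succ_of_le (Finset.le_sup (f := fun a => (φ a).idx) (Finset.mem_univ a))
  obtain ⟨n, hn⟩ := full_of_large c (2 * (c + 3) + 5 * (m + 2)) (by omega) (by omega)
  refine ⟨n, fun {V} _ _ G hcrit hP hV => ?_⟩
  obtain ⟨K, Q, Z, W, v, hF, -, -⟩ := hn G hcrit hP hV
  exact embeds_of_full φ hm hF (by omega)

end Pool.Agent.H46.P5
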