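import Mathlib
import Pool.Agent.H46.P5a

/-!
Local lemmas on words (generated).
-/

set_option linter.unusedVariables false

namespace Pool.Agent.H46.P5

/-- `K₅ - e`-freeness. -/
def NoK5e {V : Type*} (G : SimpleGraph V) : Prop :=
  ∀ a b c d e, a ≠ b → ¬ G.Adj a b → G.Adj a c → G.Adj a d → G.Adj a e → G.Adj b c → G.Adj b d →
    G.Adj b e → G.Adj c d → G.Adj c e → G.Adj d e → False

/-- Freeness from `K₄` plus a vertex adjacent to exactly two of its vertices. -/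
def NoCo {V : Type*} (G : SimpleGraph V) : Prop :=
  ∀ a b c d e, G.Adj a b → G.Adj a c → G.Adj a d → G.Adj b c → G.Adj b d → G.Adj c d →
    G.Adj e a → G.Adj e b → ¬ G.Adj e c → ¬ G.Adj e d → False

/-- `W` is a word of length `n`. -/
def Word {V : Type*} (G : SimpleGraph V) (W : ℕ → V) (n : ℕ) : Prop :=
  ∀ i j, i < j → j < n → (G.Adj (W i) (W j) ↔ (j - i) % 4 = 1 ∨ (j - i) % 4 = 2)

/-- `z` behaves like a letter of residue `κ` placed strictly between `p` and `q`. -/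
structure Cl {V : Type*} (G : SimpleGraph V) (W : ℕ → V) (n κ p q : ℕ) (z : V) : Prop where
  left : ∀ r, r ≤ p → (G.Adj z (W r) ↔ (κ + 3 * r) % 4 = 1 ∨ (κ + 3 * r) % 4 = 2)
  right : ∀ r, q ≤ r → r < n → (G.Adj z (W r) ↔ (r + 3 * κ) % 4 = 1 ∨ (r + 3 * κ) % 4 = 2)

theorem word_ne {V : Type*} {G : SimpleGraph V} {W : ℕ → V} {n : ℕ} (hW : Word G W n) {i j : ℕ}
    (hij : i < j) (hj : j + 1 < n) : W i ≠ W j := by
  intro h
  rcases (by omega : (j - i) % 4 = 1 ∨ (j - i) % 4 = 2 ∨ (j - i) % 4 = 3 ∨ (j - i) % 4 = 0) with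
    h1 | h1 | h1 | h1
  · exact ((hW i j hij (by omega)).2 (Or.inl h1)).ne h
  · exact ((hW i j hij (by omega)).2 (Or.inr h1)).ne h
  · have h2 : G.Adj (W j) (W (j + 1)) := (hW j (j + 1) (by omega) (by omega)).2 (by omega)
    rw [← h] at h2
    have := (hW i (j + 1) (by omega) (by omega)).1 h2
    omega
  · have h2 : G.Adj (W i) (W (i + 1)) := (hW i (i + 1) (by omega) (by omega)).2 (by omega)
    rw [h] at h2
    have := (hW (i + 1) j (by omega) (by omega)).1 h2.symm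
    omega

theorem ne_of_adj {V : Type*} {G : SimpleGraph V} {a b x : V} (h : G.Adj a x) (h' : ¬ G.Adj b x) :
    a ≠ b := fun e => h' (e ▸ h)


theorem cl_indep {V : Type*} {G : SimpleGraph V} {W : ℕ → V} {n κ p q : ℕ} (hP : NoP5 G) (hH : NoK5e G ∨ NoCo G)
    (hW : Word G W n) {z y : V} (hz : Cl G W n κ p q z) (hy : Cl G W n κ p q y) {a b : ℕ}
    (ha : a % 4 = (κ + 1) % 4) (hap : a + 2 ≤ p) (hb : b % 4 = (κ + 1) % 4) (hqb : q ≤ b) (hbn : b + 2 < n)
    (hpq : p < q) (hzy : G.Adj z y) : False := by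
  have k_l1_l2 : G.Adj (W (a + 2)) (W (a + 1)) := ((hW _ _ (by omega) (by omega)).2 (by omega)).symm
  have k_l1_y : G.Adj (W (a + 2)) y := ((hy.left _ (by omega)).2 (by omega)).symm
  have k_l1_z : G.Adj (W (a + 2)) z := ((hz.left _ (by omega)).2 (by omega)).symm
  have k_l2_l3 : G.Adj (W (a + 1)) (W a) := ((hW _ _ (by omega) (by omega)).2 (by omega)).symm
  have k_l2_y : G.Adj (W (a + 1)) y := ((hy.left _ (by omega)).2 (by omega)).symm
  have k_l2_z : G.Adj (W (a + 1)) z := ((hz.left _ (by omega)).2 (by omega)).symm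
  have k_y_z : G.Adj y z := hzy.symm
  rcases hH with hK | hC
  · have k_l1_r1 : G.Adj (W (a + 2)) (W b) := ((hW _ _ (by omega) (by omega)).2 (by omega))
    have k_l2_r1 : ¬ G.Adj (W (a + 1)) (W b) := (fun h => absurd ((hW _ _ (by omega) (by omega)).1 h) (by omega))
    have k_l3_r1 : ¬ G.Adj (W a) (W b) := (fun h => absurd ((hW _ _ (by omega) (by omega)).1 h) (by omega))
    have k_r1_y : G.Adj (W b) y := ((hy.right _ (by omega) (by omega)).2 (by omega)).symm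
    have k_r1_z : G.Adj (W b) z := ((hz.right _ (by omega) (by omega)).2 (by omega)).symm
    exact hK (W (a + 1)) (W b) z y (W (a + 2)) (ne_of_adj k_l2_l3 (fun h => k_l3_r1 h.symm)) k_l2_r1 k_l2_z k_l2_y k_l1_l2.symm k_r1_z k_r1_y k_l1_r1.symm k_y_z.symm k_l1_z.symm k_l1_y.symm
  · have k_l1_l3 : G.Adj (W (a + 2)) (W a) := ((hW _ _ (by omega) (by omega)).2 (by omega)).symm
    have k_l3_y : ¬ G.Adj (W a) y := (fun h => absurd ((hy.left _ (by omega)).1 h.symm) (by omega))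
    have k_l3_z : ¬ G.Adj (W a) z := (fun h => absurd ((hz.left _ (by omega)).1 h.symm) (by omega))
    exact hC (W (a + 1)) (W (a + 2)) z y (W a) k_l1_l2.symm k_l2_z k_l2_y k_l1_z k_l1_y k_y_z.symm k_l2_l3.symm k_l1_l3.symm k_l3_z k_l3_y

theorem cl_compl {V : Type*} {G : SimpleGraph V} {W : ℕ → V} {n κ p q : ℕ} (hP : NoP5 G) (hH : NoK5e G ∨ NoCo G)
    (hW : Word G W n) {z y : V} (hz : Cl G W n κ p q z) (hy : Cl G W n (κ + 2) p q y) {a : ℕ}
    (ha : a % 4 = (κ + 3) % 4) (hap : a + 4 ≤ p) (hpn : p < n) (hzy : ¬ G.Adj z y) : False := by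
  have k_l1_l4 : ¬ G.Adj (W (a + 4)) (W (a + 1)) := (fun h => absurd ((hW _ _ (by omega) (by omega)).1 h.symm) (by omega))
  have k_l1_l5 : ¬ G.Adj (W (a + 4)) (W a) := (fun h => absurd ((hW _ _ (by omega) (by omega)).1 h.symm) (by omega))
  have k_l1_y : ¬ G.Adj (W (a + 4)) y := (fun h => absurd ((hy.left _ (by omega)).1 h.symm) (by omega))
  have k_l1_z : G.Adj (W (a + 4)) z := ((hz.left _ (by omega)).2 (by omega)).symm
  have k_l4_l5 : G.Adj (W (a + 1)) (W a) := ((hW _ _ (by omega) (by omega)).2 (by omega)).symm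
  have k_l4_y : G.Adj (W (a + 1)) y := ((hy.left _ (by omega)).2 (by omega)).symm
  have k_l4_z : ¬ G.Adj (W (a + 1)) z := (fun h => absurd ((hz.left _ (by omega)).1 h.symm) (by omega))
  have k_l5_y : ¬ G.Adj (W a) y := (fun h => absurd ((hy.left _ (by omega)).1 h.symm) (by omega))
  have k_l5_z : G.Adj (W a) z := ((hz.left _ (by omega)).2 (by omega)).symm
  have k_y_z : ¬ G.Adj y z := (fun h => hzy h.symm)
  exact hP y (W (a + 1)) (W a) z (W (a + 4)) k_l4_y.symm k_l4_l5 k_l5_z k_l1_z.symm (fun h => k_l5_y h.symm) k_y_z (fun h => k_l1_y h.symm) k_l4_z (fun h => k_l1_l4 h.symm) (fun h => k_l1_l5 h.symm)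

theorem not_both {V : Type*} {G : SimpleGraph V} {W : ℕ → V} {n κ p q : ℕ} (hP : NoP5 G) (hH : NoK5e G ∨ NoCo G)
    (hW : Word G W n) {z y w : V} (hz : Cl G W n κ p q z) (hy : Cl G W n κ p q y) {a b : ℕ}
    (ha : a % 4 = (κ + 3) % 4) (hap : a + 4 ≤ p) (hb : b % 4 = (κ + 1) % 4) (hqb : q ≤ b) (hbn : b + 2 < n)
    (hpq : p < q) (hwz : G.Adj w z) (hwy : ¬ G.Adj w y) (hzy : ¬ G.Adj z y)
    (h1 : G.Adj w (W (a + 4))) (h2 : G.Adj w (W b)) : False := by
  have k_l1_r1 : G.Adj (W (a + 4)) (W b) := ((hW _ _ (by omega) (by omega)).2 (by omega))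
  have k_l1_w : G.Adj (W (a + 4)) w := h1.symm
  have k_l1_y : G.Adj (W (a + 4)) y := ((hy.left _ (by omega)).2 (by omega)).symm
  have k_l1_z : G.Adj (W (a + 4)) z := ((hz.left _ (by omega)).2 (by omega)).symm
  have k_r1_w : G.Adj (W b) w := h2.symm
  have k_r1_z : G.Adj (W b) z := ((hz.right _ (by omega) (by omega)).2 (by omega)).symm
  have k_w_y : ¬ G.Adj w y := hwy
  have k_w_z : G.Adj w z := hwz
  have k_y_z : ¬ G.Adj y z := (fun h => hzy h.symm)
  rcases hH with hK | hC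
  · have k_l1_l5 : ¬ G.Adj (W (a + 4)) (W a) := (fun h => absurd ((hW _ _ (by omega) (by omega)).1 h.symm) (by omega))
    have k_l1_r2 : ¬ G.Adj (W (a + 4)) (W (b + 1)) := (fun h => absurd ((hW _ _ (by omega) (by omega)).1 h) (by omega))
    have k_l1_r3 : ¬ G.Adj (W (a + 4)) (W (b + 2)) := (fun h => absurd ((hW _ _ (by omega) (by omega)).1 h) (by omega))
    have k_l5_r1 : G.Adj (W a) (W b) := ((hW _ _ (by omega) (by omega)).2 (by omega))
    have k_l5_r3 : ¬ G.Adj (W a) (W (b + 2)) := (fun h => absurd ((hW _ _ (by omega) (by omega)).1 h) (by omega))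
    have k_l5_y : G.Adj (W a) y := ((hy.left _ (by omega)).2 (by omega)).symm
    have k_l5_z : G.Adj (W a) z := ((hz.left _ (by omega)).2 (by omega)).symm
    have k_r1_r2 : G.Adj (W b) (W (b + 1)) := ((hW _ _ (by omega) (by omega)).2 (by omega))
    have k_r2_r3 : G.Adj (W (b + 1)) (W (b + 2)) := ((hW _ _ (by omega) (by omega)).2 (by omega))
    have k_r2_y : G.Adj (W (b + 1)) y := ((hy.right _ (by omega) (by omega)).2 (by omega)).symm
    have k_r2_z : G.Adj (W (b + 1)) z := ((hz.right _ (by omega) (by omega)).2 (by omega)).symm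
    have k_r3_y : ¬ G.Adj (W (b + 2)) y := (fun h => absurd ((hy.right _ (by omega) (by omega)).1 h.symm) (by omega))
    have k_r3_z : ¬ G.Adj (W (b + 2)) z := (fun h => absurd ((hz.right _ (by omega) (by omega)).1 h.symm) (by omega))
    by_cases c_l5_w : G.Adj (W a) w
    · exact hK (W a) (W (a + 4)) z w (W b) (word_ne hW (by omega) (by omega)) (fun h => k_l1_l5 h.symm) k_l5_z c_l5_w k_l5_r1 k_l1_z k_l1_w k_l1_r1 k_w_z.symm k_r1_z.symm k_r1_w.symm
    · by_cases c_r3_w : G.Adj (W (b + 2)) w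
      · exact hP y (W a) z w (W (b + 2)) k_l5_y.symm k_l5_z k_w_z.symm c_r3_w.symm k_y_z (fun h => k_w_y h.symm) (fun h => k_r3_y h.symm) c_l5_w k_l5_r3 (fun h => k_r3_z h.symm)
      · by_cases c_r2_w : G.Adj (W (b + 1)) w
        · exact hK (W (a + 4)) (W (b + 1)) z w (W b) (ne_of_adj k_r2_r3 k_l1_r3).symm k_l1_r2 k_l1_z k_l1_w k_l1_r1 k_r2_z c_r2_w k_r1_r2.symm k_w_z.symm k_r1_z.symm k_r1_w.symm
        · exact hP w (W (a + 4)) y (W (b + 1)) (W (b + 2)) k_l1_w.symm k_l1_y k_r2_y.symm k_r2_r3 k_w_y (fun h => c_r2_w h.symm) (fun h => c_r3_w h.symm) k_l1_r2 k_l1_r3 (fun h => k_r3_y h.symm)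
  · have k_r1_y : G.Adj (W b) y := ((hy.right _ (by omega) (by omega)).2 (by omega)).symm
    exact hC (W (a + 4)) (W b) z w y k_l1_r1 k_l1_z k_l1_w k_r1_z k_r1_w k_w_z.symm k_l1_y.symm k_r1_y.symm k_y_z (fun h => k_w_y h.symm)

theorem not_neither {V : Type*} {G : SimpleGraph V} {W : ℕ → V} {n κ p q : ℕ} (hP : NoP5 G) (hH : NoK5e G ∨ NoCo G)
    (hW : Word G W n) {z y w : V} (hz : Cl G W n κ p q z) (hy : Cl G W n κ p q y) {a b : ℕ}
    (ha : a % 4 = (κ + 1) % 4) (hap : a + 2 ≤ p) (hb : b % 4 = (κ + 1) % 4) (hqb : q ≤ b) (hbn : b + 2 < n)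
    (hpq : p < q) (hwz : G.Adj w z) (hwy : ¬ G.Adj w y) (hzy : ¬ G.Adj z y)
    (h1 : ¬ G.Adj w (W (a + 2))) (h2 : ¬ G.Adj w (W b)) : False := by
  have k_l1_l3 : G.Adj (W (a + 2)) (W a) := ((hW _ _ (by omega) (by omega)).2 (by omega)).symm
  have k_l1_r3 : ¬ G.Adj (W (a + 2)) (W (b + 2)) := (fun h => absurd ((hW _ _ (by omega) (by omega)).1 h) (by omega))
  have k_l1_w : ¬ G.Adj (W (a + 2)) w := (fun h => h1 h.symm)
  have k_l1_y : G.Adj (W (a + 2)) y := ((hy.left _ (by omega)).2 (by omega)).symm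
  have k_l1_z : G.Adj (W (a + 2)) z := ((hz.left _ (by omega)).2 (by omega)).symm
  have k_l3_r1 : ¬ G.Adj (W a) (W b) := (fun h => absurd ((hW _ _ (by omega) (by omega)).1 h) (by omega))
  have k_l3_r3 : G.Adj (W a) (W (b + 2)) := ((hW _ _ (by omega) (by omega)).2 (by omega))
  have k_l3_y : ¬ G.Adj (W a) y := (fun h => absurd ((hy.left _ (by omega)).1 h.symm) (by omega))
  have k_l3_z : ¬ G.Adj (W a) z := (fun h => absurd ((hz.left _ (by omega)).1 h.symm) (by omega))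
  have k_r1_w : ¬ G.Adj (W b) w := (fun h => h2 h.symm)
  have k_r1_y : G.Adj (W b) y := ((hy.right _ (by omega) (by omega)).2 (by omega)).symm
  have k_r1_z : G.Adj (W b) z := ((hz.right _ (by omega) (by omega)).2 (by omega)).symm
  have k_r3_y : ¬ G.Adj (W (b + 2)) y := (fun h => absurd ((hy.right _ (by omega) (by omega)).1 h.symm) (by omega))
  have k_r3_z : ¬ G.Adj (W (b + 2)) z := (fun h => absurd ((hz.right _ (by omega) (by omega)).1 h.symm) (by omega))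
  have k_w_y : ¬ G.Adj w y := hwy
  have k_w_z : G.Adj w z := hwz
  have k_y_z : ¬ G.Adj y z := (fun h => hzy h.symm)
  by_cases c_l3_w : G.Adj (W a) w
  · exact hP y (W b) z w (W a) k_r1_y.symm k_r1_z k_w_z.symm c_l3_w.symm k_y_z (fun h => k_w_y h.symm) (fun h => k_l3_y h.symm) k_r1_w (fun h => k_l3_r1 h.symm) (fun h => k_l3_z h.symm)
  · by_cases c_r3_w : G.Adj (W (b + 2)) w
    · exact hP y (W (a + 2)) z w (W (b + 2)) k_l1_y.symm k_l1_z k_w_z.symm c_r3_w.symm k_y_z (fun h => k_w_y h.symm) (fun h => k_r3_y h.symm) k_l1_w k_l1_r3 (fun h => k_r3_z h.symm)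
    · exact hP w z (W (a + 2)) (W a) (W (b + 2)) k_w_z k_l1_z.symm k_l1_l3 k_l3_r3 (fun h => k_l1_w h.symm) (fun h => c_l3_w h.symm) (fun h => c_r3_w h.symm) (fun h => k_l3_z h.symm) (fun h => k_r3_z h.symm) k_l1_r3

theorem far_p_l1 {V : Type*} {G : SimpleGraph V} {W : ℕ → V} {n κ p q : ℕ} (hP : NoP5 G) (hH : NoK5e G ∨ NoCo G)
    (hW : Word G W n) {z y w : V} (hz : Cl G W n κ p q z) (hy : Cl G W n κ p q y) {a b : ℕ}
    (ha : a % 4 = (κ + 1) % 4) (hap : a + 2 ≤ p) (hb : b % 4 = (κ + 1) % 4) (hqb : q ≤ b) (hbn : b + 2 < n)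
    (hpq : p < q) (hwz : G.Adj w z) (hwy : ¬ G.Adj w y) (hzy : ¬ G.Adj z y)
    (h1 : G.Adj w (W (a + 2))) (h2 : ¬ G.Adj w (W b))
    {t : ℕ} (ht : t < a) (htn : t < n) (htr : t % 4 = (κ + 1) % 4) (h3 : G.Adj w (W t)) : False := by
  have k_r1_t : ¬ G.Adj (W b) (W t) := (fun h => absurd ((hW _ _ (by omega) (by omega)).1 h.symm) (by omega))
  have k_r1_w : ¬ G.Adj (W b) w := (fun h => h2 h.symm)
  have k_r1_y : G.Adj (W b) y := ((hy.right _ (by omega) (by omega)).2 (by omega)).symm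
  have k_r1_z : G.Adj (W b) z := ((hz.right _ (by omega) (by omega)).2 (by omega)).symm
  have k_t_w : G.Adj (W t) w := h3.symm
  have k_t_y : ¬ G.Adj (W t) y := (fun h => absurd ((hy.left _ (by omega)).1 h.symm) (by omega))
  have k_t_z : ¬ G.Adj (W t) z := (fun h => absurd ((hz.left _ (by omega)).1 h.symm) (by omega))
  have k_w_y : ¬ G.Adj w y := hwy
  have k_w_z : G.Adj w z := hwz
  have k_y_z : ¬ G.Adj y z := (fun h => hzy h.symm)
  exact hP y (W b) z w (W t) k_r1_y.symm k_r1_z k_w_z.symm k_t_w.symm k_y_z (fun h => k_w_y h.symm) (fun h => k_t_y h.symm) k_r1_w k_r1_t (fun h => k_t_z h.symm)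

theorem far_p_l0 {V : Type*} {G : SimpleGraph V} {W : ℕ → V} {n κ p q : ℕ} (hP : NoP5 G) (hH : NoK5e G ∨ NoCo G)
    (hW : Word G W n) {z y w : V} (hz : Cl G W n κ p q z) (hy : Cl G W n κ p q y) {a b : ℕ}
    (ha : a % 4 = (κ + 1) % 4) (hap : a + 2 ≤ p) (hb : b % 4 = (κ + 1) % 4) (hqb : q ≤ b) (hbn : b + 2 < n)
    (hpq : p < q) (hwz : G.Adj w z) (hwy : ¬ G.Adj w y) (hzy : ¬ G.Adj z y)
    (h1 : G.Adj w (W (a + 2))) (h2 : ¬ G.Adj w (W b))
    {t : ℕ} (ht : t < a) (htn : t < n) (htr : t % 4 = (κ + 0) % 4) (h3 : ¬ G.Adj w (W t)) : False := by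
  have k_l3_r1 : ¬ G.Adj (W a) (W b) := (fun h => absurd ((hW _ _ (by omega) (by omega)).1 h) (by omega))
  have k_l3_t : G.Adj (W a) (W t) := ((hW _ _ (by omega) (by omega)).2 (by omega)).symm
  have k_l3_y : ¬ G.Adj (W a) y := (fun h => absurd ((hy.left _ (by omega)).1 h.symm) (by omega))
  have k_l3_z : ¬ G.Adj (W a) z := (fun h => absurd ((hz.left _ (by omega)).1 h.symm) (by omega))
  have k_r1_t : G.Adj (W b) (W t) := ((hW _ _ (by omega) (by omega)).2 (by omega)).symm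
  have k_r1_w : ¬ G.Adj (W b) w := (fun h => h2 h.symm)
  have k_r1_y : G.Adj (W b) y := ((hy.right _ (by omega) (by omega)).2 (by omega)).symm
  have k_r1_z : G.Adj (W b) z := ((hz.right _ (by omega) (by omega)).2 (by omega)).symm
  have k_t_w : ¬ G.Adj (W t) w := (fun h => h3 h.symm)
  have k_t_z : ¬ G.Adj (W t) z := (fun h => absurd ((hz.left _ (by omega)).1 h.symm) (by omega))
  have k_w_y : ¬ G.Adj w y := hwy
  have k_w_z : G.Adj w z := hwz
  have k_y_z : ¬ G.Adj y z := (fun h => hzy h.symm)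
  by_cases c_l3_w : G.Adj (W a) w
  · exact hP y (W b) z w (W a) k_r1_y.symm k_r1_z k_w_z.symm c_l3_w.symm k_y_z (fun h => k_w_y h.symm) (fun h => k_l3_y h.symm) k_r1_w (fun h => k_l3_r1 h.symm) (fun h => k_l3_z h.symm)
  · exact hP w z (W b) (W t) (W a) k_w_z k_r1_z.symm k_r1_t k_l3_t.symm (fun h => k_r1_w h.symm) (fun h => k_t_w h.symm) (fun h => c_l3_w h.symm) (fun h => k_t_z h.symm) (fun h => k_l3_z h.symm) (fun h => k_l3_r1 h.symm)

theorem far_p_l3 {V : Type*} {G : SimpleGraph V} {W : ℕ → V} {n κ p q : ℕ} (hP : NoP5 G) (hH : NoK5e G ∨ NoCo G)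
    (hW : Word G W n) {z y w : V} (hz : Cl G W n κ p q z) (hy : Cl G W n κ p q y) {a b : ℕ}
    (ha : a % 4 = (κ + 1) % 4) (hap : a + 2 ≤ p) (hb : b % 4 = (κ + 1) % 4) (hqb : q ≤ b) (hbn : b + 2 < n)
    (hpq : p < q) (hwz : G.Adj w z) (hwy : ¬ G.Adj w y) (hzy : ¬ G.Adj z y)
    (h1 : G.Adj w (W (a + 2))) (h2 : ¬ G.Adj w (W b))
    {t : ℕ} (ht : t < a) (htn : t < n) (htr : t % 4 = (κ + 3) % 4) (h3 : ¬ G.Adj w (W t)) : False := by
  have k_l3_r1 : ¬ G.Adj (W a) (W b) := (fun h => absurd ((hW _ _ (by omega) (by omega)).1 h) (by omega))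
  have k_l3_r3 : G.Adj (W a) (W (b + 2)) := ((hW _ _ (by omega) (by omega)).2 (by omega))
  have k_l3_y : ¬ G.Adj (W a) y := (fun h => absurd ((hy.left _ (by omega)).1 h.symm) (by omega))
  have k_l3_z : ¬ G.Adj (W a) z := (fun h => absurd ((hz.left _ (by omega)).1 h.symm) (by omega))
  have k_r1_r3 : G.Adj (W b) (W (b + 2)) := ((hW _ _ (by omega) (by omega)).2 (by omega))
  have k_r1_w : ¬ G.Adj (W b) w := (fun h => h2 h.symm)
  have k_r1_y : G.Adj (W b) y := ((hy.right _ (by omega) (by omega)).2 (by omega)).symm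
  have k_r1_z : G.Adj (W b) z := ((hz.right _ (by omega) (by omega)).2 (by omega)).symm
  have k_r3_t : ¬ G.Adj (W (b + 2)) (W t) := (fun h => absurd ((hW _ _ (by omega) (by omega)).1 h.symm) (by omega))
  have k_r3_y : ¬ G.Adj (W (b + 2)) y := (fun h => absurd ((hy.right _ (by omega) (by omega)).1 h.symm) (by omega))
  have k_r3_z : ¬ G.Adj (W (b + 2)) z := (fun h => absurd ((hz.right _ (by omega) (by omega)).1 h.symm) (by omega))
  have k_t_w : ¬ G.Adj (W t) w := (fun h => h3 h.symm)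
  have k_t_y : G.Adj (W t) y := ((hy.left _ (by omega)).2 (by omega)).symm
  have k_t_z : G.Adj (W t) z := ((hz.left _ (by omega)).2 (by omega)).symm
  have k_w_y : ¬ G.Adj w y := hwy
  have k_w_z : G.Adj w z := hwz
  have k_y_z : ¬ G.Adj y z := (fun h => hzy h.symm)
  by_cases c_l3_w : G.Adj (W a) w
  · exact hP y (W b) z w (W a) k_r1_y.symm k_r1_z k_w_z.symm c_l3_w.symm k_y_z (fun h => k_w_y h.symm) (fun h => k_l3_y h.symm) k_r1_w (fun h => k_l3_r1 h.symm) (fun h => k_l3_z h.symm)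
  · by_cases c_r3_w : G.Adj (W (b + 2)) w
    · exact hP y (W t) z w (W (b + 2)) k_t_y.symm k_t_z k_w_z.symm c_r3_w.symm k_y_z (fun h => k_w_y h.symm) (fun h => k_r3_y h.symm) k_t_w (fun h => k_r3_t h.symm) (fun h => k_r3_z h.symm)
    · exact hP w z (W b) (W (b + 2)) (W a) k_w_z k_r1_z.symm k_r1_r3 k_l3_r3.symm (fun h => k_r1_w h.symm) (fun h => c_r3_w h.symm) (fun h => c_l3_w h.symm) (fun h => k_r3_z h.symm) (fun h => k_l3_z h.symm) (fun h => k_l3_r1 h.symm)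

theorem far_p_l2 {V : Type*} {G : SimpleGraph V} {W : ℕ → V} {n κ p q : ℕ} (hP : NoP5 G) (hH : NoK5e G ∨ NoCo G)
    (hW : Word G W n) {z y w : V} (hz : Cl G W n κ p q z) (hy : Cl G W n κ p q y) {a b : ℕ}
    (ha : a % 4 = (κ + 1) % 4) (hap : a + 2 ≤ p) (hb : b % 4 = (κ + 1) % 4) (hqb : q ≤ b) (hbn : b + 2 < n)
    (hpq : p < q) (hwz : G.Adj w z) (hwy : ¬ G.Adj w y) (hzy : ¬ G.Adj z y)
    (h1 : G.Adj w (W (a + 2))) (h2 : ¬ G.Adj w (W b))
    {t : ℕ} (ht : t < a) (htn : t < n) (htr : t % 4 = (κ + 2) % 4) (h3 : G.Adj w (W t)) : False := by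
  have k_l1_t : G.Adj (W (a + 2)) (W t) := ((hW _ _ (by omega) (by omega)).2 (by omega)).symm
  have k_l1_w : G.Adj (W (a + 2)) w := h1.symm
  have k_l1_z : G.Adj (W (a + 2)) z := ((hz.left _ (by omega)).2 (by omega)).symm
  have k_t_w : G.Adj (W t) w := h3.symm
  have k_t_y : G.Adj (W t) y := ((hy.left _ (by omega)).2 (by omega)).symm
  have k_t_z : G.Adj (W t) z := ((hz.left _ (by omega)).2 (by omega)).symm
  have k_w_y : ¬ G.Adj w y := hwy
  have k_w_z : G.Adj w z := hwz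
  have k_y_z : ¬ G.Adj y z := (fun h => hzy h.symm)
  rcases hH with hK | hC
  · have k_l1_l2 : G.Adj (W (a + 2)) (W (a + 1)) := ((hW _ _ (by omega) (by omega)).2 (by omega)).symm
    have k_l2_l3 : G.Adj (W (a + 1)) (W a) := ((hW _ _ (by omega) (by omega)).2 (by omega)).symm
    have k_l2_t : ¬ G.Adj (W (a + 1)) (W t) := (fun h => absurd ((hW _ _ (by omega) (by omega)).1 h.symm) (by omega))
    have k_l2_y : G.Adj (W (a + 1)) y := ((hy.left _ (by omega)).2 (by omega)).symm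
    have k_l2_z : G.Adj (W (a + 1)) z := ((hz.left _ (by omega)).2 (by omega)).symm
    have k_l3_r1 : ¬ G.Adj (W a) (W b) := (fun h => absurd ((hW _ _ (by omega) (by omega)).1 h) (by omega))
    have k_l3_t : ¬ G.Adj (W a) (W t) := (fun h => absurd ((hW _ _ (by omega) (by omega)).1 h.symm) (by omega))
    have k_l3_y : ¬ G.Adj (W a) y := (fun h => absurd ((hy.left _ (by omega)).1 h.symm) (by omega))
    have k_l3_z : ¬ G.Adj (W a) z := (fun h => absurd ((hz.left _ (by omega)).1 h.symm) (by omega))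
    have k_r1_w : ¬ G.Adj (W b) w := (fun h => h2 h.symm)
    have k_r1_y : G.Adj (W b) y := ((hy.right _ (by omega) (by omega)).2 (by omega)).symm
    have k_r1_z : G.Adj (W b) z := ((hz.right _ (by omega) (by omega)).2 (by omega)).symm
    by_cases c_l3_w : G.Adj (W a) w
    · exact hP y (W b) z w (W a) k_r1_y.symm k_r1_z k_w_z.symm c_l3_w.symm k_y_z (fun h => k_w_y h.symm) (fun h => k_l3_y h.symm) k_r1_w (fun h => k_l3_r1 h.symm) (fun h => k_l3_z h.symm)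
    · by_cases c_l2_w : G.Adj (W (a + 1)) w
      · exact hK (W (a + 1)) (W t) z w (W (a + 2)) (ne_of_adj k_l2_l3 (fun h => k_l3_t h.symm)) k_l2_t k_l2_z c_l2_w k_l1_l2.symm k_t_z k_t_w k_l1_t.symm k_w_z.symm k_l1_z.symm k_l1_w.symm
      · exact hP w (W t) y (W (a + 1)) (W a) k_t_w.symm k_t_y k_l2_y.symm k_l2_l3 k_w_y (fun h => c_l2_w h.symm) (fun h => c_l3_w h.symm) (fun h => k_l2_t h.symm) (fun h => k_l3_t h.symm) (fun h => k_l3_y h.symm)
  · have k_l1_y : G.Adj (W (a + 2)) y := ((hy.left _ (by omega)).2 (by omega)).symm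
    exact hC (W (a + 2)) (W t) z w y k_l1_t k_l1_z k_l1_w k_t_z k_t_w k_w_z.symm k_l1_y.symm k_t_y.symm k_y_z (fun h => k_w_y h.symm)

theorem far_p_r3 {V : Type*} {G : SimpleGraph V} {W : ℕ → V} {n κ p q : ℕ} (hP : NoP5 G) (hH : NoK5e G ∨ NoCo G)
    (hW : Word G W n) {z y w : V} (hz : Cl G W n κ p q z) (hy : Cl G W n κ p q y) {a b : ℕ}
    (ha : a % 4 = (κ + 1) % 4) (hap : a + 2 ≤ p) (hb : b % 4 = (κ + 1) % 4) (hqb : q ≤ b) (hbn : b + 2 < n)
    (hpq : p < q) (hwz : G.Adj w z) (hwy : ¬ G.Adj w y) (hzy : ¬ G.Adj z y)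
    (h1 : G.Adj w (W (a + 2))) (h2 : ¬ G.Adj w (W b))
    {t : ℕ} (ht : b + 2 < t) (htn : t < n) (htr : t % 4 = (κ + 3) % 4) (h3 : ¬ G.Adj w (W t)) : False := by
  have k_l3_r1 : ¬ G.Adj (W a) (W b) := (fun h => absurd ((hW _ _ (by omega) (by omega)).1 h) (by omega))
  have k_l3_t : G.Adj (W a) (W t) := ((hW _ _ (by omega) (by omega)).2 (by omega))
  have k_l3_y : ¬ G.Adj (W a) y := (fun h => absurd ((hy.left _ (by omega)).1 h.symm) (by omega))
  have k_l3_z : ¬ G.Adj (W a) z := (fun h => absurd ((hz.left _ (by omega)).1 h.symm) (by omega))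
  have k_r1_t : G.Adj (W b) (W t) := ((hW _ _ (by omega) (by omega)).2 (by omega))
  have k_r1_w : ¬ G.Adj (W b) w := (fun h => h2 h.symm)
  have k_r1_y : G.Adj (W b) y := ((hy.right _ (by omega) (by omega)).2 (by omega)).symm
  have k_r1_z : G.Adj (W b) z := ((hz.right _ (by omega) (by omega)).2 (by omega)).symm
  have k_t_w : ¬ G.Adj (W t) w := (fun h => h3 h.symm)
  have k_t_z : ¬ G.Adj (W t) z := (fun h => absurd ((hz.right _ (by omega) (by omega)).1 h.symm) (by omega))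
  have k_w_y : ¬ G.Adj w y := hwy
  have k_w_z : G.Adj w z := hwz
  have k_y_z : ¬ G.Adj y z := (fun h => hzy h.symm)
  by_cases c_l3_w : G.Adj (W a) w
  · exact hP y (W b) z w (W a) k_r1_y.symm k_r1_z k_w_z.symm c_l3_w.symm k_y_z (fun h => k_w_y h.symm) (fun h => k_l3_y h.symm) k_r1_w (fun h => k_l3_r1 h.symm) (fun h => k_l3_z h.symm)
  · exact hP w z (W b) (W t) (W a) k_w_z k_r1_z.symm k_r1_t k_l3_t.symm (fun h => k_r1_w h.symm) (fun h => k_t_w h.symm) (fun h => c_l3_w h.symm) (fun h => k_t_z h.symm) (fun h => k_l3_z h.symm) (fun h => k_l3_r1 h.symm)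

theorem far_p_r0 {V : Type*} {G : SimpleGraph V} {W : ℕ → V} {n κ p q : ℕ} (hP : NoP5 G) (hH : NoK5e G ∨ NoCo G)
    (hW : Word G W n) {z y w : V} (hz : Cl G W n κ p q z) (hy : Cl G W n κ p q y) {a b : ℕ}
    (ha : a % 4 = (κ + 1) % 4) (hap : a + 2 ≤ p) (hb : b % 4 = (κ + 1) % 4) (hqb : q ≤ b) (hbn : b + 2 < n)
    (hpq : p < q) (hwz : G.Adj w z) (hwy : ¬ G.Adj w y) (hzy : ¬ G.Adj z y)
    (h1 : G.Adj w (W (a + 2))) (h2 : ¬ G.Adj w (W b))
    {t : ℕ} (ht : b + 2 < t) (htn : t < n) (htr : t % 4 = (κ + 0) % 4) (h3 : G.Adj w (W t)) : False := by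
  have k_r1_t : ¬ G.Adj (W b) (W t) := (fun h => absurd ((hW _ _ (by omega) (by omega)).1 h) (by omega))
  have k_r1_w : ¬ G.Adj (W b) w := (fun h => h2 h.symm)
  have k_r1_y : G.Adj (W b) y := ((hy.right _ (by omega) (by omega)).2 (by omega)).symm
  have k_r1_z : G.Adj (W b) z := ((hz.right _ (by omega) (by omega)).2 (by omega)).symm
  have k_t_w : G.Adj (W t) w := h3.symm
  have k_t_y : ¬ G.Adj (W t) y := (fun h => absurd ((hy.right _ (by omega) (by omega)).1 h.symm) (by omega))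
  have k_t_z : ¬ G.Adj (W t) z := (fun h => absurd ((hz.right _ (by omega) (by omega)).1 h.symm) (by omega))
  have k_w_y : ¬ G.Adj w y := hwy
  have k_w_z : G.Adj w z := hwz
  have k_y_z : ¬ G.Adj y z := (fun h => hzy h.symm)
  exact hP y (W b) z w (W t) k_r1_y.symm k_r1_z k_w_z.symm k_t_w.symm k_y_z (fun h => k_w_y h.symm) (fun h => k_t_y h.symm) k_r1_w k_r1_t (fun h => k_t_z h.symm)

theorem far_p_r1 {V : Type*} {G : SimpleGraph V} {W : ℕ → V} {n κ p q : ℕ} (hP : NoP5 G) (hH : NoK5e G ∨ NoCo G)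
    (hW : Word G W n) {z y w : V} (hz : Cl G W n κ p q z) (hy : Cl G W n κ p q y) {a b : ℕ}
    (ha : a % 4 = (κ + 1) % 4) (hap : a + 2 ≤ p) (hb : b % 4 = (κ + 1) % 4) (hqb : q ≤ b) (hbn : b + 2 < n)
    (hpq : p < q) (hwz : G.Adj w z) (hwy : ¬ G.Adj w y) (hzy : ¬ G.Adj z y)
    (h1 : G.Adj w (W (a + 2))) (h2 : ¬ G.Adj w (W b))
    {t : ℕ} (ht : b + 2 < t) (htn : t < n) (htr : t % 4 = (κ + 1) % 4) (h3 : G.Adj w (W t)) : False := by
  have k_l1_t : G.Adj (W (a + 2)) (W t) := ((hW _ _ (by omega) (by omega)).2 (by omega))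
  have k_l1_w : G.Adj (W (a + 2)) w := h1.symm
  have k_l1_z : G.Adj (W (a + 2)) z := ((hz.left _ (by omega)).2 (by omega)).symm
  have k_t_w : G.Adj (W t) w := h3.symm
  have k_t_y : G.Adj (W t) y := ((hy.right _ (by omega) (by omega)).2 (by omega)).symm
  have k_t_z : G.Adj (W t) z := ((hz.right _ (by omega) (by omega)).2 (by omega)).symm
  have k_w_y : ¬ G.Adj w y := hwy
  have k_w_z : G.Adj w z := hwz
  have k_y_z : ¬ G.Adj y z := (fun h => hzy h.symm)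
  rcases hH with hK | hC
  · have k_l1_l2 : G.Adj (W (a + 2)) (W (a + 1)) := ((hW _ _ (by omega) (by omega)).2 (by omega)).symm
    have k_l2_l3 : G.Adj (W (a + 1)) (W a) := ((hW _ _ (by omega) (by omega)).2 (by omega)).symm
    have k_l2_t : ¬ G.Adj (W (a + 1)) (W t) := (fun h => absurd ((hW _ _ (by omega) (by omega)).1 h) (by omega))
    have k_l2_y : G.Adj (W (a + 1)) y := ((hy.left _ (by omega)).2 (by omega)).symm
    have k_l2_z : G.Adj (W (a + 1)) z := ((hz.left _ (by omega)).2 (by omega)).symm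
    have k_l3_r1 : ¬ G.Adj (W a) (W b) := (fun h => absurd ((hW _ _ (by omega) (by omega)).1 h) (by omega))
    have k_l3_t : ¬ G.Adj (W a) (W t) := (fun h => absurd ((hW _ _ (by omega) (by omega)).1 h) (by omega))
    have k_l3_y : ¬ G.Adj (W a) y := (fun h => absurd ((hy.left _ (by omega)).1 h.symm) (by omega))
    have k_l3_z : ¬ G.Adj (W a) z := (fun h => absurd ((hz.left _ (by omega)).1 h.symm) (by omega))
    have k_r1_w : ¬ G.Adj (W b) w := (fun h => h2 h.symm)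
    have k_r1_y : G.Adj (W b) y := ((hy.right _ (by omega) (by omega)).2 (by omega)).symm
    have k_r1_z : G.Adj (W b) z := ((hz.right _ (by omega) (by omega)).2 (by omega)).symm
    by_cases c_l3_w : G.Adj (W a) w
    · exact hP y (W b) z w (W a) k_r1_y.symm k_r1_z k_w_z.symm c_l3_w.symm k_y_z (fun h => k_w_y h.symm) (fun h => k_l3_y h.symm) k_r1_w (fun h => k_l3_r1 h.symm) (fun h => k_l3_z h.symm)
    · by_cases c_l2_w : G.Adj (W (a + 1)) w
      · exact hK (W (a + 1)) (W t) z w (W (a + 2)) (ne_of_adj k_l2_l3 (fun h => k_l3_t h.symm)) k_l2_t k_l2_z c_l2_w k_l1_l2.symm k_t_z k_t_w k_l1_t.symm k_w_z.symm k_l1_z.symm k_l1_w.symm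
      · exact hP w (W t) y (W (a + 1)) (W a) k_t_w.symm k_t_y k_l2_y.symm k_l2_l3 k_w_y (fun h => c_l2_w h.symm) (fun h => c_l3_w h.symm) (fun h => k_l2_t h.symm) (fun h => k_l3_t h.symm) (fun h => k_l3_y h.symm)
  · have k_l1_y : G.Adj (W (a + 2)) y := ((hy.left _ (by omega)).2 (by omega)).symm
    exact hC (W (a + 2)) (W t) z w y k_l1_t k_l1_z k_l1_w k_t_z k_t_w k_w_z.symm k_l1_y.symm k_t_y.symm k_y_z (fun h => k_w_y h.symm)

theorem far_p_r2 {V : Type*} {G : SimpleGraph V} {W : ℕ → V} {n κ p q : ℕ} (hP : NoP5 G) (hH : NoK5e G ∨ NoCo G)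
    (hW : Word G W n) {z y w : V} (hz : Cl G W n κ p q z) (hy : Cl G W n κ p q y) {a b : ℕ}
    (ha : a % 4 = (κ + 1) % 4) (hap : a + 2 ≤ p) (hb : b % 4 = (κ + 1) % 4) (hqb : q ≤ b) (hbn : b + 2 < n)
    (hpq : p < q) (hwz : G.Adj w z) (hwy : ¬ G.Adj w y) (hzy : ¬ G.Adj z y)
    (h1 : G.Adj w (W (a + 2))) (h2 : ¬ G.Adj w (W b))
    {t : ℕ} (ht : b + 2 < t) (htn : t < n) (htr : t % 4 = (κ + 2) % 4) (h3 : ¬ G.Adj w (W t)) : False := by
  have k_l3_r1 : ¬ G.Adj (W a) (W b) := (fun h => absurd ((hW _ _ (by omega) (by omega)).1 h) (by omega))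
  have k_l3_r3 : G.Adj (W a) (W (b + 2)) := ((hW _ _ (by omega) (by omega)).2 (by omega))
  have k_l3_y : ¬ G.Adj (W a) y := (fun h => absurd ((hy.left _ (by omega)).1 h.symm) (by omega))
  have k_l3_z : ¬ G.Adj (W a) z := (fun h => absurd ((hz.left _ (by omega)).1 h.symm) (by omega))
  have k_r1_r3 : G.Adj (W b) (W (b + 2)) := ((hW _ _ (by omega) (by omega)).2 (by omega))
  have k_r1_w : ¬ G.Adj (W b) w := (fun h => h2 h.symm)
  have k_r1_y : G.Adj (W b) y := ((hy.right _ (by omega) (by omega)).2 (by omega)).symm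
  have k_r1_z : G.Adj (W b) z := ((hz.right _ (by omega) (by omega)).2 (by omega)).symm
  have k_r3_t : ¬ G.Adj (W (b + 2)) (W t) := (fun h => absurd ((hW _ _ (by omega) (by omega)).1 h) (by omega))
  have k_r3_y : ¬ G.Adj (W (b + 2)) y := (fun h => absurd ((hy.right _ (by omega) (by omega)).1 h.symm) (by omega))
  have k_r3_z : ¬ G.Adj (W (b + 2)) z := (fun h => absurd ((hz.right _ (by omega) (by omega)).1 h.symm) (by omega))
  have k_t_w : ¬ G.Adj (W t) w := (fun h => h3 h.symm)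
  have k_t_y : G.Adj (W t) y := ((hy.right _ (by omega) (by omega)).2 (by omega)).symm
  have k_t_z : G.Adj (W t) z := ((hz.right _ (by omega) (by omega)).2 (by omega)).symm
  have k_w_y : ¬ G.Adj w y := hwy
  have k_w_z : G.Adj w z := hwz
  have k_y_z : ¬ G.Adj y z := (fun h => hzy h.symm)
  by_cases c_l3_w : G.Adj (W a) w
  · exact hP y (W b) z w (W a) k_r1_y.symm k_r1_z k_w_z.symm c_l3_w.symm k_y_z (fun h => k_w_y h.symm) (fun h => k_l3_y h.symm) k_r1_w (fun h => k_l3_r1 h.symm) (fun h => k_l3_z h.symm)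
  · by_cases c_r3_w : G.Adj (W (b + 2)) w
    · exact hP y (W t) z w (W (b + 2)) k_t_y.symm k_t_z k_w_z.symm c_r3_w.symm k_y_z (fun h => k_w_y h.symm) (fun h => k_r3_y h.symm) k_t_w (fun h => k_r3_t h.symm) (fun h => k_r3_z h.symm)
    · exact hP w z (W b) (W (b + 2)) (W a) k_w_z k_r1_z.symm k_r1_r3 k_l3_r3.symm (fun h => k_r1_w h.symm) (fun h => c_r3_w h.symm) (fun h => c_l3_w h.symm) (fun h => k_r3_z h.symm) (fun h => k_l3_z h.symm) (fun h => k_l3_r1 h.symm)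

theorem far_m_r3 {V : Type*} {G : SimpleGraph V} {W : ℕ → V} {n κ p q : ℕ} (hP : NoP5 G) (hH : NoK5e G ∨ NoCo G)
    (hW : Word G W n) {z y w : V} (hz : Cl G W n κ p q z) (hy : Cl G W n κ p q y) {a b : ℕ}
    (ha : a % 4 = (κ + 1) % 4) (hap : a + 2 ≤ p) (hb : b % 4 = (κ + 1) % 4) (hqb : q ≤ b) (hbn : b + 2 < n)
    (hpq : p < q) (hwz : G.Adj w z) (hwy : ¬ G.Adj w y) (hzy : ¬ G.Adj z y)
    (h1 : ¬ G.Adj w (W (a + 2))) (h2 : G.Adj w (W b))
    {t : ℕ} (ht : b + 2 < t) (htn : t < n) (htr : t % 4 = (κ + 3) % 4) (h3 : G.Adj w (W t)) : False := by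
  have k_l1_t : ¬ G.Adj (W (a + 2)) (W t) := (fun h => absurd ((hW _ _ (by omega) (by omega)).1 h) (by omega))
  have k_l1_w : ¬ G.Adj (W (a + 2)) w := (fun h => h1 h.symm)
  have k_l1_y : G.Adj (W (a + 2)) y := ((hy.left _ (by omega)).2 (by omega)).symm
  have k_l1_z : G.Adj (W (a + 2)) z := ((hz.left _ (by omega)).2 (by omega)).symm
  have k_t_w : G.Adj (W t) w := h3.symm
  have k_t_y : ¬ G.Adj (W t) y := (fun h => absurd ((hy.right _ (by omega) (by omega)).1 h.symm) (by omega))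
  have k_t_z : ¬ G.Adj (W t) z := (fun h => absurd ((hz.right _ (by omega) (by omega)).1 h.symm) (by omega))
  have k_w_y : ¬ G.Adj w y := hwy
  have k_w_z : G.Adj w z := hwz
  have k_y_z : ¬ G.Adj y z := (fun h => hzy h.symm)
  exact hP y (W (a + 2)) z w (W t) k_l1_y.symm k_l1_z k_w_z.symm k_t_w.symm k_y_z (fun h => k_w_y h.symm) (fun h => k_t_y h.symm) k_l1_w k_l1_t (fun h => k_t_z h.symm)

theorem far_m_r0 {V : Type*} {G : SimpleGraph V} {W : ℕ → V} {n κ p q : ℕ} (hP : NoP5 G) (hH : NoK5e G ∨ NoCo G)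
    (hW : Word G W n) {z y w : V} (hz : Cl G W n κ p q z) (hy : Cl G W n κ p q y) {a b : ℕ}
    (ha : a % 4 = (κ + 1) % 4) (hap : a + 2 ≤ p) (hb : b % 4 = (κ + 1) % 4) (hqb : q ≤ b) (hbn : b + 2 < n)
    (hpq : p < q) (hwz : G.Adj w z) (hwy : ¬ G.Adj w y) (hzy : ¬ G.Adj z y)
    (h1 : ¬ G.Adj w (W (a + 2))) (h2 : G.Adj w (W b))
    {t : ℕ} (ht : b + 2 < t) (htn : t < n) (htr : t % 4 = (κ + 0) % 4) (h3 : ¬ G.Adj w (W t)) : False := by
  have k_l1_r3 : ¬ G.Adj (W (a + 2)) (W (b + 2)) := (fun h => absurd ((hW _ _ (by omega) (by omega)).1 h) (by omega))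
  have k_l1_t : G.Adj (W (a + 2)) (W t) := ((hW _ _ (by omega) (by omega)).2 (by omega))
  have k_l1_w : ¬ G.Adj (W (a + 2)) w := (fun h => h1 h.symm)
  have k_l1_y : G.Adj (W (a + 2)) y := ((hy.left _ (by omega)).2 (by omega)).symm
  have k_l1_z : G.Adj (W (a + 2)) z := ((hz.left _ (by omega)).2 (by omega)).symm
  have k_r3_t : G.Adj (W (b + 2)) (W t) := ((hW _ _ (by omega) (by omega)).2 (by omega))
  have k_r3_y : ¬ G.Adj (W (b + 2)) y := (fun h => absurd ((hy.right _ (by omega) (by omega)).1 h.symm) (by omega))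
  have k_r3_z : ¬ G.Adj (W (b + 2)) z := (fun h => absurd ((hz.right _ (by omega) (by omega)).1 h.symm) (by omega))
  have k_t_w : ¬ G.Adj (W t) w := (fun h => h3 h.symm)
  have k_t_z : ¬ G.Adj (W t) z := (fun h => absurd ((hz.right _ (by omega) (by omega)).1 h.symm) (by omega))
  have k_w_y : ¬ G.Adj w y := hwy
  have k_w_z : G.Adj w z := hwz
  have k_y_z : ¬ G.Adj y z := (fun h => hzy h.symm)
  by_cases c_r3_w : G.Adj (W (b + 2)) w
  · exact hP y (W (a + 2)) z w (W (b + 2)) k_l1_y.symm k_l1_z k_w_z.symm c_r3_w.symm k_y_z (fun h => k_w_y h.symm) (fun h => k_r3_y h.symm) k_l1_w k_l1_r3 (fun h => k_r3_z h.symm)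
  · exact hP w z (W (a + 2)) (W t) (W (b + 2)) k_w_z k_l1_z.symm k_l1_t k_r3_t.symm (fun h => k_l1_w h.symm) (fun h => k_t_w h.symm) (fun h => c_r3_w h.symm) (fun h => k_t_z h.symm) (fun h => k_r3_z h.symm) k_l1_r3

theorem far_m_r1 {V : Type*} {G : SimpleGraph V} {W : ℕ → V} {n κ p q : ℕ} (hP : NoP5 G) (hH : NoK5e G ∨ NoCo G)
    (hW : Word G W n) {z y w : V} (hz : Cl G W n κ p q z) (hy : Cl G W n κ p q y) {a b : ℕ}
    (ha : a % 4 = (κ + 1) % 4) (hap : a + 2 ≤ p) (hb : b % 4 = (κ + 1) % 4) (hqb : q ≤ b) (hbn : b + 2 < n)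
    (hpq : p < q) (hwz : G.Adj w z) (hwy : ¬ G.Adj w y) (hzy : ¬ G.Adj z y)
    (h1 : ¬ G.Adj w (W (a + 2))) (h2 : G.Adj w (W b))
    {t : ℕ} (ht : b + 2 < t) (htn : t < n) (htr : t % 4 = (κ + 1) % 4) (h3 : ¬ G.Adj w (W t)) : False := by
  have k_l1_l3 : G.Adj (W (a + 2)) (W a) := ((hW _ _ (by omega) (by omega)).2 (by omega)).symm
  have k_l1_r3 : ¬ G.Adj (W (a + 2)) (W (b + 2)) := (fun h => absurd ((hW _ _ (by omega) (by omega)).1 h) (by omega))
  have k_l1_w : ¬ G.Adj (W (a + 2)) w := (fun h => h1 h.symm)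
  have k_l1_y : G.Adj (W (a + 2)) y := ((hy.left _ (by omega)).2 (by omega)).symm
  have k_l1_z : G.Adj (W (a + 2)) z := ((hz.left _ (by omega)).2 (by omega)).symm
  have k_l3_r3 : G.Adj (W a) (W (b + 2)) := ((hW _ _ (by omega) (by omega)).2 (by omega))
  have k_l3_t : ¬ G.Adj (W a) (W t) := (fun h => absurd ((hW _ _ (by omega) (by omega)).1 h) (by omega))
  have k_l3_y : ¬ G.Adj (W a) y := (fun h => absurd ((hy.left _ (by omega)).1 h.symm) (by omega))
  have k_l3_z : ¬ G.Adj (W a) z := (fun h => absurd ((hz.left _ (by omega)).1 h.symm) (by omega))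
  have k_r3_y : ¬ G.Adj (W (b + 2)) y := (fun h => absurd ((hy.right _ (by omega) (by omega)).1 h.symm) (by omega))
  have k_r3_z : ¬ G.Adj (W (b + 2)) z := (fun h => absurd ((hz.right _ (by omega) (by omega)).1 h.symm) (by omega))
  have k_t_w : ¬ G.Adj (W t) w := (fun h => h3 h.symm)
  have k_t_y : G.Adj (W t) y := ((hy.right _ (by omega) (by omega)).2 (by omega)).symm
  have k_t_z : G.Adj (W t) z := ((hz.right _ (by omega) (by omega)).2 (by omega)).symm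
  have k_w_y : ¬ G.Adj w y := hwy
  have k_w_z : G.Adj w z := hwz
  have k_y_z : ¬ G.Adj y z := (fun h => hzy h.symm)
  by_cases c_l3_w : G.Adj (W a) w
  · exact hP y (W t) z w (W a) k_t_y.symm k_t_z k_w_z.symm c_l3_w.symm k_y_z (fun h => k_w_y h.symm) (fun h => k_l3_y h.symm) k_t_w (fun h => k_l3_t h.symm) (fun h => k_l3_z h.symm)
  · by_cases c_r3_w : G.Adj (W (b + 2)) w
    · exact hP y (W (a + 2)) z w (W (b + 2)) k_l1_y.symm k_l1_z k_w_z.symm c_r3_w.symm k_y_z (fun h => k_w_y h.symm) (fun h => k_r3_y h.symm) k_l1_w k_l1_r3 (fun h => k_r3_z h.symm)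
    · exact hP w z (W (a + 2)) (W a) (W (b + 2)) k_w_z k_l1_z.symm k_l1_l3 k_l3_r3 (fun h => k_l1_w h.symm) (fun h => c_l3_w h.symm) (fun h => c_r3_w h.symm) (fun h => k_l3_z h.symm) (fun h => k_r3_z h.symm) k_l1_r3

theorem far_m_r2 {V : Type*} {G : SimpleGraph V} {W : ℕ → V} {n κ p q : ℕ} (hP : NoP5 G) (hH : NoK5e G ∨ NoCo G)
    (hW : Word G W n) {z y w : V} (hz : Cl G W n κ p q z) (hy : Cl G W n κ p q y) {a b : ℕ}
    (ha : a % 4 = (κ + 1) % 4) (hap : a + 2 ≤ p) (hb : b % 4 = (κ + 1) % 4) (hqb : q ≤ b) (hbn : b + 2 < n)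
    (hpq : p < q) (hwz : G.Adj w z) (hwy : ¬ G.Adj w y) (hzy : ¬ G.Adj z y)
    (h1 : ¬ G.Adj w (W (a + 2))) (h2 : G.Adj w (W b))
    {t : ℕ} (ht : b + 2 < t) (htn : t < n) (htr : t % 4 = (κ + 2) % 4) (h3 : G.Adj w (W t)) : False := by
  have k_r1_t : G.Adj (W b) (W t) := ((hW _ _ (by omega) (by omega)).2 (by omega))
  have k_r1_w : G.Adj (W b) w := h2.symm
  have k_r1_z : G.Adj (W b) z := ((hz.right _ (by omega) (by omega)).2 (by omega)).symm
  have k_t_w : G.Adj (W t) w := h3.symm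
  have k_t_y : G.Adj (W t) y := ((hy.right _ (by omega) (by omega)).2 (by omega)).symm
  have k_t_z : G.Adj (W t) z := ((hz.right _ (by omega) (by omega)).2 (by omega)).symm
  have k_w_y : ¬ G.Adj w y := hwy
  have k_w_z : G.Adj w z := hwz
  have k_y_z : ¬ G.Adj y z := (fun h => hzy h.symm)
  rcases hH with hK | hC
  · have k_l1_r3 : ¬ G.Adj (W (a + 2)) (W (b + 2)) := (fun h => absurd ((hW _ _ (by omega) (by omega)).1 h) (by omega))
    have k_l1_w : ¬ G.Adj (W (a + 2)) w := (fun h => h1 h.symm)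
    have k_l1_y : G.Adj (W (a + 2)) y := ((hy.left _ (by omega)).2 (by omega)).symm
    have k_l1_z : G.Adj (W (a + 2)) z := ((hz.left _ (by omega)).2 (by omega)).symm
    have k_r1_r2 : G.Adj (W b) (W (b + 1)) := ((hW _ _ (by omega) (by omega)).2 (by omega))
    have k_r2_r3 : G.Adj (W (b + 1)) (W (b + 2)) := ((hW _ _ (by omega) (by omega)).2 (by omega))
    have k_r2_t : ¬ G.Adj (W (b + 1)) (W t) := (fun h => absurd ((hW _ _ (by omega) (by omega)).1 h) (by omega))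
    have k_r2_y : G.Adj (W (b + 1)) y := ((hy.right _ (by omega) (by omega)).2 (by omega)).symm
    have k_r2_z : G.Adj (W (b + 1)) z := ((hz.right _ (by omega) (by omega)).2 (by omega)).symm
    have k_r3_t : ¬ G.Adj (W (b + 2)) (W t) := (fun h => absurd ((hW _ _ (by omega) (by omega)).1 h) (by omega))
    have k_r3_y : ¬ G.Adj (W (b + 2)) y := (fun h => absurd ((hy.right _ (by omega) (by omega)).1 h.symm) (by omega))
    have k_r3_z : ¬ G.Adj (W (b + 2)) z := (fun h => absurd ((hz.right _ (by omega) (by omega)).1 h.symm) (by omega))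
    by_cases c_r3_w : G.Adj (W (b + 2)) w
    · exact hP y (W (a + 2)) z w (W (b + 2)) k_l1_y.symm k_l1_z k_w_z.symm c_r3_w.symm k_y_z (fun h => k_w_y h.symm) (fun h => k_r3_y h.symm) k_l1_w k_l1_r3 (fun h => k_r3_z h.symm)
    · by_cases c_r2_w : G.Adj (W (b + 1)) w
      · exact hK (W (b + 1)) (W t) z w (W b) (ne_of_adj k_r2_r3 (fun h => k_r3_t h.symm)) k_r2_t k_r2_z c_r2_w k_r1_r2.symm k_t_z k_t_w k_r1_t.symm k_w_z.symm k_r1_z.symm k_r1_w.symm
      · exact hP w (W t) y (W (b + 1)) (W (b + 2)) k_t_w.symm k_t_y k_r2_y.symm k_r2_r3 k_w_y (fun h => c_r2_w h.symm) (fun h => c_r3_w h.symm) (fun h => k_r2_t h.symm) (fun h => k_r3_t h.symm) (fun h => k_r3_y h.symm)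
  · have k_r1_y : G.Adj (W b) y := ((hy.right _ (by omega) (by omega)).2 (by omega)).symm
    exact hC (W b) (W t) z w y k_r1_t k_r1_z k_r1_w k_t_z k_t_w k_w_z.symm k_r1_y.symm k_t_y.symm k_y_z (fun h => k_w_y h.symm)

theorem far_m_l1 {V : Type*} {G : SimpleGraph V} {W : ℕ → V} {n κ p q : ℕ} (hP : NoP5 G) (hH : NoK5e G ∨ NoCo G)
    (hW : Word G W n) {z y w : V} (hz : Cl G W n κ p q z) (hy : Cl G W n κ p q y) {a b : ℕ}
    (ha : a % 4 = (κ + 1) % 4) (hap : a + 2 ≤ p) (hb : b % 4 = (κ + 1) % 4) (hqb : q ≤ b) (hbn : b + 2 < n)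
    (hpq : p < q) (hwz : G.Adj w z) (hwy : ¬ G.Adj w y) (hzy : ¬ G.Adj z y)
    (h1 : ¬ G.Adj w (W (a + 2))) (h2 : G.Adj w (W b))
    {t : ℕ} (ht : t < a) (htn : t < n) (htr : t % 4 = (κ + 1) % 4) (h3 : ¬ G.Adj w (W t)) : False := by
  have k_l1_r3 : ¬ G.Adj (W (a + 2)) (W (b + 2)) := (fun h => absurd ((hW _ _ (by omega) (by omega)).1 h) (by omega))
  have k_l1_t : G.Adj (W (a + 2)) (W t) := ((hW _ _ (by omega) (by omega)).2 (by omega)).symm
  have k_l1_w : ¬ G.Adj (W (a + 2)) w := (fun h => h1 h.symm)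
  have k_l1_y : G.Adj (W (a + 2)) y := ((hy.left _ (by omega)).2 (by omega)).symm
  have k_l1_z : G.Adj (W (a + 2)) z := ((hz.left _ (by omega)).2 (by omega)).symm
  have k_r3_t : G.Adj (W (b + 2)) (W t) := ((hW _ _ (by omega) (by omega)).2 (by omega)).symm
  have k_r3_y : ¬ G.Adj (W (b + 2)) y := (fun h => absurd ((hy.right _ (by omega) (by omega)).1 h.symm) (by omega))
  have k_r3_z : ¬ G.Adj (W (b + 2)) z := (fun h => absurd ((hz.right _ (by omega) (by omega)).1 h.symm) (by omega))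
  have k_t_w : ¬ G.Adj (W t) w := (fun h => h3 h.symm)
  have k_t_z : ¬ G.Adj (W t) z := (fun h => absurd ((hz.left _ (by omega)).1 h.symm) (by omega))
  have k_w_y : ¬ G.Adj w y := hwy
  have k_w_z : G.Adj w z := hwz
  have k_y_z : ¬ G.Adj y z := (fun h => hzy h.symm)
  by_cases c_r3_w : G.Adj (W (b + 2)) w
  · exact hP y (W (a + 2)) z w (W (b + 2)) k_l1_y.symm k_l1_z k_w_z.symm c_r3_w.symm k_y_z (fun h => k_w_y h.symm) (fun h => k_r3_y h.symm) k_l1_w k_l1_r3 (fun h => k_r3_z h.symm)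
  · exact hP w z (W (a + 2)) (W t) (W (b + 2)) k_w_z k_l1_z.symm k_l1_t k_r3_t.symm (fun h => k_l1_w h.symm) (fun h => k_t_w h.symm) (fun h => c_r3_w h.symm) (fun h => k_t_z h.symm) (fun h => k_r3_z h.symm) k_l1_r3

theorem far_m_l0 {V : Type*} {G : SimpleGraph V} {W : ℕ → V} {n κ p q : ℕ} (hP : NoP5 G) (hH : NoK5e G ∨ NoCo G)
    (hW : Word G W n) {z y w : V} (hz : Cl G W n κ p q z) (hy : Cl G W n κ p q y) {a b : ℕ}
    (ha : a % 4 = (κ + 1) % 4) (hap : a + 2 ≤ p) (hb : b % 4 = (κ + 1) % 4) (hqb : q ≤ b) (hbn : b + 2 < n)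
    (hpq : p < q) (hwz : G.Adj w z) (hwy : ¬ G.Adj w y) (hzy : ¬ G.Adj z y)
    (h1 : ¬ G.Adj w (W (a + 2))) (h2 : G.Adj w (W b))
    {t : ℕ} (ht : t < a) (htn : t < n) (htr : t % 4 = (κ + 0) % 4) (h3 : G.Adj w (W t)) : False := by
  have k_l1_t : ¬ G.Adj (W (a + 2)) (W t) := (fun h => absurd ((hW _ _ (by omega) (by omega)).1 h.symm) (by omega))
  have k_l1_w : ¬ G.Adj (W (a + 2)) w := (fun h => h1 h.symm)
  have k_l1_y : G.Adj (W (a + 2)) y := ((hy.left _ (by omega)).2 (by omega)).symm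
  have k_l1_z : G.Adj (W (a + 2)) z := ((hz.left _ (by omega)).2 (by omega)).symm
  have k_t_w : G.Adj (W t) w := h3.symm
  have k_t_y : ¬ G.Adj (W t) y := (fun h => absurd ((hy.left _ (by omega)).1 h.symm) (by omega))
  have k_t_z : ¬ G.Adj (W t) z := (fun h => absurd ((hz.left _ (by omega)).1 h.symm) (by omega))
  have k_w_y : ¬ G.Adj w y := hwy
  have k_w_z : G.Adj w z := hwz
  have k_y_z : ¬ G.Adj y z := (fun h => hzy h.symm)
  exact hP y (W (a + 2)) z w (W t) k_l1_y.symm k_l1_z k_w_z.symm k_t_w.symm k_y_z (fun h => k_w_y h.symm) (fun h => k_t_y h.symm) k_l1_w k_l1_t (fun h => k_t_z h.symm)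

theorem far_m_l3 {V : Type*} {G : SimpleGraph V} {W : ℕ → V} {n κ p q : ℕ} (hP : NoP5 G) (hH : NoK5e G ∨ NoCo G)
    (hW : Word G W n) {z y w : V} (hz : Cl G W n κ p q z) (hy : Cl G W n κ p q y) {a b : ℕ}
    (ha : a % 4 = (κ + 1) % 4) (hap : a + 2 ≤ p) (hb : b % 4 = (κ + 1) % 4) (hqb : q ≤ b) (hbn : b + 2 < n)
    (hpq : p < q) (hwz : G.Adj w z) (hwy : ¬ G.Adj w y) (hzy : ¬ G.Adj z y)
    (h1 : ¬ G.Adj w (W (a + 2))) (h2 : G.Adj w (W b))
    {t : ℕ} (ht : t < a) (htn : t < n) (htr : t % 4 = (κ + 3) % 4) (h3 : G.Adj w (W t)) : False := by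
  have k_r1_t : G.Adj (W b) (W t) := ((hW _ _ (by omega) (by omega)).2 (by omega)).symm
  have k_r1_w : G.Adj (W b) w := h2.symm
  have k_r1_z : G.Adj (W b) z := ((hz.right _ (by omega) (by omega)).2 (by omega)).symm
  have k_t_w : G.Adj (W t) w := h3.symm
  have k_t_y : G.Adj (W t) y := ((hy.left _ (by omega)).2 (by omega)).symm
  have k_t_z : G.Adj (W t) z := ((hz.left _ (by omega)).2 (by omega)).symm
  have k_w_y : ¬ G.Adj w y := hwy
  have k_w_z : G.Adj w z := hwz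
  have k_y_z : ¬ G.Adj y z := (fun h => hzy h.symm)
  rcases hH with hK | hC
  · have k_l1_r3 : ¬ G.Adj (W (a + 2)) (W (b + 2)) := (fun h => absurd ((hW _ _ (by omega) (by omega)).1 h) (by omega))
    have k_l1_w : ¬ G.Adj (W (a + 2)) w := (fun h => h1 h.symm)
    have k_l1_y : G.Adj (W (a + 2)) y := ((hy.left _ (by omega)).2 (by omega)).symm
    have k_l1_z : G.Adj (W (a + 2)) z := ((hz.left _ (by omega)).2 (by omega)).symm
    have k_r1_r2 : G.Adj (W b) (W (b + 1)) := ((hW _ _ (by omega) (by omega)).2 (by omega))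
    have k_r2_r3 : G.Adj (W (b + 1)) (W (b + 2)) := ((hW _ _ (by omega) (by omega)).2 (by omega))
    have k_r2_t : ¬ G.Adj (W (b + 1)) (W t) := (fun h => absurd ((hW _ _ (by omega) (by omega)).1 h.symm) (by omega))
    have k_r2_y : G.Adj (W (b + 1)) y := ((hy.right _ (by omega) (by omega)).2 (by omega)).symm
    have k_r2_z : G.Adj (W (b + 1)) z := ((hz.right _ (by omega) (by omega)).2 (by omega)).symm
    have k_r3_t : ¬ G.Adj (W (b + 2)) (W t) := (fun h => absurd ((hW _ _ (by omega) (by omega)).1 h.symm) (by omega))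
    have k_r3_y : ¬ G.Adj (W (b + 2)) y := (fun h => absurd ((hy.right _ (by omega) (by omega)).1 h.symm) (by omega))
    have k_r3_z : ¬ G.Adj (W (b + 2)) z := (fun h => absurd ((hz.right _ (by omega) (by omega)).1 h.symm) (by omega))
    by_cases c_r3_w : G.Adj (W (b + 2)) w
    · exact hP y (W (a + 2)) z w (W (b + 2)) k_l1_y.symm k_l1_z k_w_z.symm c_r3_w.symm k_y_z (fun h => k_w_y h.symm) (fun h => k_r3_y h.symm) k_l1_w k_l1_r3 (fun h => k_r3_z h.symm)
    · by_cases c_r2_w : G.Adj (W (b + 1)) w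
      · exact hK (W (b + 1)) (W t) z w (W b) (ne_of_adj k_r2_r3 (fun h => k_r3_t h.symm)) k_r2_t k_r2_z c_r2_w k_r1_r2.symm k_t_z k_t_w k_r1_t.symm k_w_z.symm k_r1_z.symm k_r1_w.symm
      · exact hP w (W t) y (W (b + 1)) (W (b + 2)) k_t_w.symm k_t_y k_r2_y.symm k_r2_r3 k_w_y (fun h => c_r2_w h.symm) (fun h => c_r3_w h.symm) (fun h => k_r2_t h.symm) (fun h => k_r3_t h.symm) (fun h => k_r3_y h.symm)
  · have k_r1_y : G.Adj (W b) y := ((hy.right _ (by omega) (by omega)).2 (by omega)).symm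
    exact hC (W b) (W t) z w y k_r1_t k_r1_z k_r1_w k_t_z k_t_w k_w_z.symm k_r1_y.symm k_t_y.symm k_y_z (fun h => k_w_y h.symm)

theorem far_m_l2 {V : Type*} {G : SimpleGraph V} {W : ℕ → V} {n κ p q : ℕ} (hP : NoP5 G) (hH : NoK5e G ∨ NoCo G)
    (hW : Word G W n) {z y w : V} (hz : Cl G W n κ p q z) (hy : Cl G W n κ p q y) {a b : ℕ}
    (ha : a % 4 = (κ + 1) % 4) (hap : a + 2 ≤ p) (hb : b % 4 = (κ + 1) % 4) (hqb : q ≤ b) (hbn : b + 2 < n)
    (hpq : p < q) (hwz : G.Adj w z) (hwy : ¬ G.Adj w y) (hzy : ¬ G.Adj z y)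
    (h1 : ¬ G.Adj w (W (a + 2))) (h2 : G.Adj w (W b))
    {t : ℕ} (ht : t < a) (htn : t < n) (htr : t % 4 = (κ + 2) % 4) (h3 : ¬ G.Adj w (W t)) : False := by
  have k_l1_l3 : G.Adj (W (a + 2)) (W a) := ((hW _ _ (by omega) (by omega)).2 (by omega)).symm
  have k_l1_r3 : ¬ G.Adj (W (a + 2)) (W (b + 2)) := (fun h => absurd ((hW _ _ (by omega) (by omega)).1 h) (by omega))
  have k_l1_w : ¬ G.Adj (W (a + 2)) w := (fun h => h1 h.symm)
  have k_l1_y : G.Adj (W (a + 2)) y := ((hy.left _ (by omega)).2 (by omega)).symm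
  have k_l1_z : G.Adj (W (a + 2)) z := ((hz.left _ (by omega)).2 (by omega)).symm
  have k_l3_r3 : G.Adj (W a) (W (b + 2)) := ((hW _ _ (by omega) (by omega)).2 (by omega))
  have k_l3_t : ¬ G.Adj (W a) (W t) := (fun h => absurd ((hW _ _ (by omega) (by omega)).1 h.symm) (by omega))
  have k_l3_y : ¬ G.Adj (W a) y := (fun h => absurd ((hy.left _ (by omega)).1 h.symm) (by omega))
  have k_l3_z : ¬ G.Adj (W a) z := (fun h => absurd ((hz.left _ (by omega)).1 h.symm) (by omega))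
  have k_r3_y : ¬ G.Adj (W (b + 2)) y := (fun h => absurd ((hy.right _ (by omega) (by omega)).1 h.symm) (by omega))
  have k_r3_z : ¬ G.Adj (W (b + 2)) z := (fun h => absurd ((hz.right _ (by omega) (by omega)).1 h.symm) (by omega))
  have k_t_w : ¬ G.Adj (W t) w := (fun h => h3 h.symm)
  have k_t_y : G.Adj (W t) y := ((hy.left _ (by omega)).2 (by omega)).symm
  have k_t_z : G.Adj (W t) z := ((hz.left _ (by omega)).2 (by omega)).symm
  have k_w_y : ¬ G.Adj w y := hwy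
  have k_w_z : G.Adj w z := hwz
  have k_y_z : ¬ G.Adj y z := (fun h => hzy h.symm)
  by_cases c_l3_w : G.Adj (W a) w
  · exact hP y (W t) z w (W a) k_t_y.symm k_t_z k_w_z.symm c_l3_w.symm k_y_z (fun h => k_w_y h.symm) (fun h => k_l3_y h.symm) k_t_w (fun h => k_l3_t h.symm) (fun h => k_l3_z h.symm)
  · by_cases c_r3_w : G.Adj (W (b + 2)) w
    · exact hP y (W (a + 2)) z w (W (b + 2)) k_l1_y.symm k_l1_z k_w_z.symm c_r3_w.symm k_y_z (fun h => k_w_y h.symm) (fun h => k_r3_y h.symm) k_l1_w k_l1_r3 (fun h => k_r3_z h.symm)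
    · exact hP w z (W (a + 2)) (W a) (W (b + 2)) k_w_z k_l1_z.symm k_l1_l3 k_l3_r3 (fun h => k_l1_w h.symm) (fun h => c_l3_w h.symm) (fun h => c_r3_w h.symm) (fun h => k_l3_z h.symm) (fun h => k_r3_z h.symm) k_l1_r3


end Pool.Agent.H46.P5
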