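import Mathlib
import Pool.Agent.H46.W1
import Pool.Agent.H46.P5c

/-!
Global structure relative to a long word.
-/

set_option linter.unusedVariables false

namespace Pool.Agent.H46.P5

variable {V : Type*} {G : SimpleGraph V} {W : ℕ → V} {n : ℕ}

theorem Cl.congr {κ κ' p q : ℕ} {z : V} (h : Cl G W n κ p q z) (hκ : κ % 4 = κ' % 4) :
    Cl G W n κ' p q z := by
  constructor
  · intro r hr
    rw [h.left r hr]
    constructor <;> intro h' <;> omega
  · intro r hr hrn
    rw [h.right r hr hrn]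
    constructor <;> intro h' <;> omega

theorem Cl.mono {κ p q p' q' : ℕ} {z : V} (h : Cl G W n κ p q z) (hp : p' ≤ p) (hq : q ≤ q') :
    Cl G W n κ p' q' z :=
  ⟨fun r hr => h.left r (hr.trans hp), fun r hr hrn => h.right r (hq.trans hr) hrn⟩

theorem cl_ref (hW : Word G W n) {κ p q r : ℕ} (hr : r < n) (hp : p < r) (hq : r < q)
    (hκ : r % 4 = κ % 4) : Cl G W n κ p q (W r) := by
  constructor
  · intro s hs
    rw [SimpleGraph.adj_comm, hW s r (by omega) hr]
    constructor <;> intro h' <;> omega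
  · intro s hs hsn
    rw [hW r s (by omega) hsn]
    constructor <;> intro h' <;> omega

/-- The common hypotheses. -/
structure Setup (G : SimpleGraph V) (W : ℕ → V) (n c : ℕ) : Prop where
  hP : NoP5 G
  hH : NoK5e G ∨ NoCo G
  hW : Word G W n
  hC : Crit G c

theorem indep (S : NoP5 G) (hH : NoK5e G ∨ NoCo G) (hW : Word G W n) {κ p q : ℕ} {z y : V}
    (hz : Cl G W n κ p q z) (hy : Cl G W n κ p q y) (hp : 6 ≤ p) (hpq : p < q) (hq : q + 6 ≤ n) :
    ¬ G.Adj z y := by
  intro hzy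
  obtain ⟨a, ha1, ha2⟩ : ∃ a, a % 4 = (κ + 1) % 4 ∧ a + 2 ≤ p :=
    ⟨p - 2 - ((p - 2 + 3 * (κ + 1)) % 4), by omega, by omega⟩
  obtain ⟨b, hb1, hb2, hb3⟩ : ∃ b, b % 4 = (κ + 1) % 4 ∧ q ≤ b ∧ b + 2 < n :=
    ⟨q + ((κ + 1 + 3 * q) % 4), by omega, by omega, by omega⟩
  exact cl_indep S hH hW hz hy ha1 ha2 hb1 hb2 hb3 hpq hzy

theorem compl (S : NoP5 G) (hH : NoK5e G ∨ NoCo G) (hW : Word G W n) {κ κ' p q : ℕ} {z y : V}
    (hz : Cl G W n κ p q z) (hy : Cl G W n κ' p q y) (hκ : κ' % 4 = (κ + 2) % 4) (hp : 8 ≤ p)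
    (hpn : p < n) : G.Adj z y := by
  by_contra hzy
  obtain ⟨a, ha1, ha2⟩ : ∃ a, a % 4 = (κ + 3) % 4 ∧ a + 4 ≤ p :=
    ⟨p - 4 - ((p - 4 + 3 * (κ + 3)) % 4), by omega, by omega⟩
  exact cl_compl S hH hW hz (hy.congr hκ) ha1 ha2 hpn hzy

/-- A vertex distinguishing two letters of the same class is itself a letter of a neighbouring
class. -/
theorem dist (S : NoP5 G) (hH : NoK5e G ∨ NoCo G) (hW : Word G W n) {κ p q : ℕ} {z y w : V}
    (hz : Cl G W n κ p q z) (hy : Cl G W n κ p q y) (hp : 8 ≤ p) (hpq : p < q) (hq : q + 6 ≤ n)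
    (hwz : G.Adj w z) (hwy : ¬ G.Adj w y) :
    Cl G W n (κ + 1) (p - 6) (q + 6) w ∨ Cl G W n (κ + 3) (p - 6) (q + 6) w := by
  have hzy : ¬ G.Adj z y := indep S hH hW hz hy (by omega) hpq hq
  obtain ⟨a, ha0, ha1, ha2, ha3⟩ : ∃ a, 2 ≤ a ∧ a % 4 = (κ + 1) % 4 ∧ a + 2 ≤ p ∧ p ≤ a + 5 :=
    ⟨p - 2 - ((p - 2 + 3 * (κ + 1)) % 4), by omega, by omega, by omega, by omega⟩
  obtain ⟨b, hb1, hb2, hb3, hb4⟩ : ∃ b, b % 4 = (κ + 1) % 4 ∧ q ≤ b ∧ b + 2 < n ∧ b ≤ q + 3 :=
    ⟨q + ((κ + 1 + 3 * q) % 4), by omega, by omega, by omega, by omega⟩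
  by_cases h1 : G.Adj w (W (a + 2))
  · by_cases h2 : G.Adj w (W b)
    · exfalso
      obtain ⟨a', rfl⟩ : ∃ a', a = a' + 2 := ⟨a - 2, by omega⟩
      exact not_both S hH hW hz hy (a := a') (b := b) (by omega) (by omega) hb1 hb2 hb3 hpq hwz hwy
        hzy h1 h2
    · left
      constructor
      · intro r hr
        rcases (by omega : r % 4 = (κ + 0) % 4 ∨ r % 4 = (κ + 1) % 4 ∨ r % 4 = (κ + 2) % 4 ∨
          r % 4 = (κ + 3) % 4) with h | h | h | h
        · refine iff_of_true ?_ (by omega)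
          by_contra h3
          exact far_p_l0 S hH hW hz hy ha1 ha2 hb1 hb2 hb3 hpq hwz hwy hzy h1 h2 (t := r)
            (by omega) (by omega) h h3
        · refine iff_of_false ?_ (by omega)
          intro h3
          exact far_p_l1 S hH hW hz hy ha1 ha2 hb1 hb2 hb3 hpq hwz hwy hzy h1 h2 (t := r)
            (by omega) (by omega) h h3
        · refine iff_of_false ?_ (by omega)
          intro h3
          exact far_p_l2 S hH hW hz hy ha1 ha2 hb1 hb2 hb3 hpq hwz hwy hzy h1 h2 (t := r)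
            (by omega) (by omega) h h3
        · refine iff_of_true ?_ (by omega)
          by_contra h3
          exact far_p_l3 S hH hW hz hy ha1 ha2 hb1 hb2 hb3 hpq hwz hwy hzy h1 h2 (t := r)
            (by omega) (by omega) h h3
      · intro r hr hrn
        rcases (by omega : r % 4 = (κ + 0) % 4 ∨ r % 4 = (κ + 1) % 4 ∨ r % 4 = (κ + 2) % 4 ∨
          r % 4 = (κ + 3) % 4) with h | h | h | h
        · refine iff_of_false ?_ (by omega)
          intro h3
          exact far_p_r0 S hH hW hz hy ha1 ha2 hb1 hb2 hb3 hpq hwz hwy hzy h1 h2 (t := r)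
            (by omega) (by omega) h h3
        · refine iff_of_false ?_ (by omega)
          intro h3
          exact far_p_r1 S hH hW hz hy ha1 ha2 hb1 hb2 hb3 hpq hwz hwy hzy h1 h2 (t := r)
            (by omega) (by omega) h h3
        · refine iff_of_true ?_ (by omega)
          by_contra h3
          exact far_p_r2 S hH hW hz hy ha1 ha2 hb1 hb2 hb3 hpq hwz hwy hzy h1 h2 (t := r)
            (by omega) (by omega) h h3
        · refine iff_of_true ?_ (by omega)
          by_contra h3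
          exact far_p_r3 S hH hW hz hy ha1 ha2 hb1 hb2 hb3 hpq hwz hwy hzy h1 h2 (t := r)
            (by omega) (by omega) h h3
  · by_cases h2 : G.Adj w (W b)
    · right
      constructor
      · intro r hr
        rcases (by omega : r % 4 = (κ + 0) % 4 ∨ r % 4 = (κ + 1) % 4 ∨ r % 4 = (κ + 2) % 4 ∨
          r % 4 = (κ + 3) % 4) with h | h | h | h
        · refine iff_of_false ?_ (by omega)
          intro h3
          exact far_m_l0 S hH hW hz hy ha1 ha2 hb1 hb2 hb3 hpq hwz hwy hzy h1 h2 (t := r)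
            (by omega) (by omega) h h3
        · refine iff_of_true ?_ (by omega)
          by_contra h3
          exact far_m_l1 S hH hW hz hy ha1 ha2 hb1 hb2 hb3 hpq hwz hwy hzy h1 h2 (t := r)
            (by omega) (by omega) h h3
        · refine iff_of_true ?_ (by omega)
          by_contra h3
          exact far_m_l2 S hH hW hz hy ha1 ha2 hb1 hb2 hb3 hpq hwz hwy hzy h1 h2 (t := r)
            (by omega) (by omega) h h3
        · refine iff_of_false ?_ (by omega)
          intro h3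
          exact far_m_l3 S hH hW hz hy ha1 ha2 hb1 hb2 hb3 hpq hwz hwy hzy h1 h2 (t := r)
            (by omega) (by omega) h h3
      · intro r hr hrn
        rcases (by omega : r % 4 = (κ + 0) % 4 ∨ r % 4 = (κ + 1) % 4 ∨ r % 4 = (κ + 2) % 4 ∨
          r % 4 = (κ + 3) % 4) with h | h | h | h
        · refine iff_of_true ?_ (by omega)
          by_contra h3
          exact far_m_r0 S hH hW hz hy ha1 ha2 hb1 hb2 hb3 hpq hwz hwy hzy h1 h2 (t := r)
            (by omega) (by omega) h h3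
        · refine iff_of_true ?_ (by omega)
          by_contra h3
          exact far_m_r1 S hH hW hz hy ha1 ha2 hb1 hb2 hb3 hpq hwz hwy hzy h1 h2 (t := r)
            (by omega) (by omega) h h3
        · refine iff_of_false ?_ (by omega)
          intro h3
          exact far_m_r2 S hH hW hz hy ha1 ha2 hb1 hb2 hb3 hpq hwz hwy hzy h1 h2 (t := r)
            (by omega) (by omega) h h3
        · refine iff_of_false ?_ (by omega)
          intro h3
          exact far_m_r3 S hH hW hz hy ha1 ha2 hb1 hb2 hb3 hpq hwz hwy hzy h1 h2 (t := r)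
            (by omega) (by omega) h h3
    · exfalso
      exact not_neither S hH hW hz hy ha1 ha2 hb1 hb2 hb3 hpq hwz hwy hzy h1 h2

/-- The bipartite graph between consecutive classes has no induced `2K₂`. -/
theorem no2K2 (S : NoP5 G) (hH : NoK5e G ∨ NoCo G) (hW : Word G W n) {κ κ' p q : ℕ}
    {z y w v : V} (hz : Cl G W n κ p q z) (hy : Cl G W n κ p q y) (hw : Cl G W n κ' p q w)
    (hv : Cl G W n κ' p q v) (hκ : κ' % 4 = (κ + 1) % 4) (hp : 6 ≤ p) (hpq : p < q)
    (hq : q + 6 ≤ n) (h1 : G.Adj z w) (h2 : G.Adj y v) (h3 : ¬ G.Adj z v) (h4 : ¬ G.Adj y w) :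
    False := by
  obtain ⟨a, ha1, ha2⟩ : ∃ a, a % 4 = (κ + 2) % 4 ∧ a ≤ p :=
    ⟨p - ((p + 3 * (κ + 2)) % 4), by omega, by omega⟩
  have e1 : G.Adj z (W a) := (hz.left a ha2).2 (by omega)
  have e2 : G.Adj y (W a) := (hy.left a ha2).2 (by omega)
  have e3 : ¬ G.Adj w (W a) := fun h => absurd ((hw.left a ha2).1 h) (by omega)
  have e4 : ¬ G.Adj v (W a) := fun h => absurd ((hv.left a ha2).1 h) (by omega)
  exact S w z (W a) y v h1.symm e1 e2.symm h2 e3 (fun h => h4 h.symm)
    (indep S hH hW hw hv hp hpq hq) (indep S hH hW hz hy hp hpq hq) h3 (fun h => e4 h.symm)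

theorem crit_dom {c : ℕ} (hC : Crit G c) {z y : V} (hzy : z ≠ y) (hadj : ¬ G.Adj z y) :
    ∃ w, G.Adj w z ∧ ¬ G.Adj w y := by
  classical
  by_contra hcon
  push Not at hcon
  obtain ⟨f, hf1, hf2⟩ := hC.del z
  apply hC.not
  refine ⟨Function.update f z (f y), fun x => ?_, fun x x' hxx' => ?_⟩
  · by_cases hx : x = z
    · subst hx
      rw [Function.update_self]
      exact hf1 y hzy.symm
    · rw [Function.update_of_ne hx]
      exact hf1 x hx
  · by_cases hx : x = z
    · have hx' : x' ≠ z := fun h => hxx'.ne (hx.trans h.symm)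
      rw [hx, Function.update_self, Function.update_of_ne hx']
      have h1 : G.Adj x' y := hcon x' (hx ▸ hxx'.symm)
      exact hf2 y x' hzy.symm hx' h1.symm
    · by_cases hx' : x' = z
      · rw [hx', Function.update_self, Function.update_of_ne hx]
        have h1 : G.Adj x y := hcon x (hx' ▸ hxx')
        exact hf2 x y hx hzy.symm h1
      · rw [Function.update_of_ne hx, Function.update_of_ne hx']
        exact hf2 x x' hx hx' hxx'

/-- The domination lemma. -/
theorem dom {c : ℕ} (hC : Crit G c) (S : NoP5 G) (hH : NoK5e G ∨ NoCo G) (hW : Word G W n)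
    {κ κ₁ κ₃ p q : ℕ} {z y v v' : V}
    (hz : Cl G W n κ p q z) (hy : Cl G W n κ p q y)
    (hκ1 : κ₁ % 4 = (κ + 1) % 4) (hκ3 : κ₃ % 4 = (κ + 3) % 4)
    (hv : Cl G W n κ₁ (p - 6) (q + 6) v) (hv' : Cl G W n κ₃ (p - 6) (q + 6) v')
    (hp : 12 ≤ p) (hpq : p < q) (hq : q + 12 ≤ n)
    (h1 : G.Adj v y) (h2 : ¬ G.Adj v z) (h3 : G.Adj v' y) (h4 : ¬ G.Adj v' z) : False := by
  have hzy : z ≠ y := by
    rintro rfl
    exact h2 h1
  obtain ⟨w, hw1, hw2⟩ := crit_dom hC hzy (indep S hH hW hz hy (by omega) hpq (by omega))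
  have hz' := hz.mono (p' := p - 6) (q' := q + 6) (by omega) (by omega)
  have hy' := hy.mono (p' := p - 6) (q' := q + 6) (by omega) (by omega)
  rcases dist S hH hW hz hy (by omega) hpq (by omega) hw1 hw2 with h | h
  · exact no2K2 S hH hW hz' hy' (h.congr hκ1.symm) hv hκ1 (by omega) (by omega) (by omega)
      hw1.symm h1.symm (fun h => h2 h.symm) (fun h => hw2 h.symm)
  · exact no2K2 S hH hW (h.congr hκ3.symm) hv' hz' hy' (by omega) (by omega) (by omega) (by omega)
      hw1 h3 hw2 h4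

end Pool.Agent.H46.P5
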