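import Mathlib
import Pool.Agent.H46.W2

/-!
Long words do not occur in vertex-critical graphs.
-/

set_option linter.unusedVariables false

namespace Pool.Agent.H46.P5

variable {V : Type*} {G : SimpleGraph V} {W : ℕ → V} {n : ℕ}

section pos

variable (S : NoP5 G) (hH : NoK5e G ∨ NoCo G) (hW : Word G W n)

include S hH hW

theorem mon1 {κ p q r r' : ℕ} {z : V} (hz : Cl G W n κ p q z) (hp : 6 ≤ p) (hpq : p < q)
    (hq : q + 6 ≤ n) (hr : r % 4 = (κ + 1) % 4) (hr' : r' % 4 = (κ + 1) % 4) (hle : r ≤ r')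
    (hn : r' < n) (h : G.Adj z (W r)) : G.Adj z (W r') := by
  by_contra hcon
  have h1 : p < r := by
    by_contra h1
    have := (hz.left r (by omega)).1 h
    omega
  have h2 : r' < q := by
    by_contra h2
    exact hcon ((hz.right r' (by omega) hn).2 (by omega))
  have h3 : r ≠ r' := by
    rintro rfl
    exact hcon h
  obtain ⟨s, rfl⟩ : ∃ s, r' = s + 1 := ⟨r' - 1, by omega⟩
  have hs : Cl G W n κ p q (W s) := cl_ref hW (by omega) (by omega) (by omega) (by omega)
  have hcr : Cl G W n (κ + 1) p q (W r) := cl_ref hW (by omega) (by omega) (by omega) hr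
  have hcr' : Cl G W n (κ + 1) p q (W (s + 1)) := cl_ref hW (by omega) (by omega) (by omega) hr'
  refine no2K2 S hH hW hz hs hcr hcr' rfl hp hpq hq h
    ((hW s (s + 1) (by omega) hn).2 (by omega)) hcon ?_
  intro h4
  have := (hW r s (by omega) (by omega)).1 h4.symm
  omega

theorem mon2 {κ p q r r' : ℕ} {z : V} (hz : Cl G W n κ p q z) (hp : 6 ≤ p) (hpq : p < q)
    (hq : q + 6 ≤ n) (hr : r % 4 = (κ + 3) % 4) (hr' : r' % 4 = (κ + 3) % 4) (hle : r' ≤ r)
    (hn : r < n) (h : G.Adj z (W r)) : G.Adj z (W r') := by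
  by_contra hcon
  have h1 : p < r' := by
    by_contra h1
    exact hcon ((hz.left r' (by omega)).2 (by omega))
  have h2 : r < q := by
    by_contra h2
    have := (hz.right r (by omega) hn).1 h
    omega
  have h3 : r ≠ r' := by
    rintro rfl
    exact hcon h
  have hs : Cl G W n κ p q (W (r' + 1)) := cl_ref hW (by omega) (by omega) (by omega) (by omega)
  have hcr : Cl G W n (κ + 3) p q (W r) := cl_ref hW (by omega) (by omega) (by omega) hr
  have hcr' : Cl G W n (κ + 3) p q (W r') := cl_ref hW (by omega) (by omega) (by omega) hr'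
  refine no2K2 S hH hW hcr hcr' hz hs (by omega) hp hpq hq h.symm
    ((hW r' (r' + 1) (by omega) (by omega)).2 (by omega)) ?_ (fun h => hcon h.symm)
  intro h4
  have := (hW (r' + 1) r (by omega) (by omega)).1 h4.symm
  omega

theorem pos1 {c : ℕ} (hC : Crit G c) {κ p q s : ℕ} {z : V} (hz : Cl G W n κ p q z) (hp : 12 ≤ p)
    (hpq : p < q) (hq : q + 12 ≤ n) (hs : s % 4 = (κ + 1) % 4) (h1 : p < s + 3) (h2 : s + 3 < q)
    (h3 : G.Adj z (W s)) (h4 : G.Adj z (W (s + 6))) : False := by
  have e1 : Cl G W n κ p q (W (s + 3)) := cl_ref hW (by omega) h1 h2 (by omega)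
  have e2 : Cl G W n (κ + 1) (p - 6) (q + 6) (W s) :=
    cl_ref hW (by omega) (by omega) (by omega) (by omega)
  have e3 : Cl G W n (κ + 3) (p - 6) (q + 6) (W (s + 6)) :=
    cl_ref hW (by omega) (by omega) (by omega) (by omega)
  refine dom hC S hH hW e1 hz rfl rfl e2 e3 hp hpq hq h3.symm ?_ h4.symm ?_
  · intro h
    have := (hW s (s + 3) (by omega) (by omega)).1 h
    omega
  · intro h
    have := (hW (s + 3) (s + 6) (by omega) (by omega)).1 h.symm
    omega

theorem pos2 {c : ℕ} (hC : Crit G c) {κ p q s : ℕ} {z : V} (hz : Cl G W n κ p q z) (hp : 12 ≤ p)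
    (hpq : p < q) (hq : q + 12 ≤ n) (hs : s % 4 = (κ + 3) % 4) (h1 : p < s + 1) (h2 : s + 1 < q)
    (h3 : ¬ G.Adj z (W s)) (h4 : ¬ G.Adj z (W (s + 2))) : False := by
  have e1 : Cl G W n κ p q (W (s + 1)) := cl_ref hW (by omega) h1 h2 (by omega)
  have e2 : Cl G W n (κ + 1) (p - 6) (q + 6) (W (s + 2)) :=
    cl_ref hW (by omega) (by omega) (by omega) (by omega)
  have e3 : Cl G W n (κ + 3) (p - 6) (q + 6) (W s) :=
    cl_ref hW (by omega) (by omega) (by omega) (by omega)
  exact dom hC S hH hW hz e1 rfl rfl e2 e3 hp hpq hq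
    ((hW (s + 1) (s + 2) (by omega) (by omega)).2 (by omega)).symm (fun h => h4 h.symm)
    ((hW s (s + 1) (by omega) (by omega)).2 (by omega)) (fun h => h3 h.symm)

theorem toE {κ q q' : ℕ} {z : V} (hz : Cl G W n κ 12 q z) (hq' : q' ≤ q) (h18 : 18 < q')
    (hq : q + 6 ≤ n) {t1 t3 s1 s3 : ℕ}
    (a1 : t1 % 4 = (κ + 1) % 4) (a2 : 18 ≤ t1) (a3 : t1 < n) (a4 : ¬ G.Adj z (W t1))
    (b1 : t3 % 4 = (κ + 3) % 4) (b2 : 18 ≤ t3) (b3 : t3 < n) (b4 : G.Adj z (W t3))
    (c1 : s1 % 4 = (κ + 1) % 4) (c2 : s1 ≤ q') (c4 : G.Adj z (W s1))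
    (d1 : s3 % 4 = (κ + 3) % 4) (d2 : s3 ≤ q') (d4 : ¬ G.Adj z (W s3)) :
    Cl G W n κ 18 q' z := by
  constructor
  · intro r hr
    by_cases hr12 : r ≤ 12
    · exact hz.left r hr12
    · rcases (by omega : r % 4 = (κ + 0) % 4 ∨ r % 4 = (κ + 1) % 4 ∨ r % 4 = (κ + 2) % 4 ∨
          r % 4 = (κ + 3) % 4) with h | h | h | h
      · refine iff_of_false ?_ (by omega)
        have e : Cl G W n κ 12 q (W r) := cl_ref hW (by omega) (by omega) (by omega) (by omega)
        exact indep S hH hW hz e (by omega) (by omega) hq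
      · refine iff_of_false ?_ (by omega)
        intro h'
        exact a4 (mon1 S hH hW hz (by omega) (by omega) hq h a1 (by omega) a3 h')
      · refine iff_of_true ?_ (by omega)
        have e : Cl G W n (κ + 2) 12 q (W r) := cl_ref hW (by omega) (by omega) (by omega) (by omega)
        exact compl S hH hW hz e rfl (by omega) (by omega)
      · refine iff_of_true ?_ (by omega)
        exact mon2 S hH hW hz (by omega) (by omega) hq b1 h (by omega) b3 b4
  · intro r hr hrn
    by_cases hrq : q ≤ r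
    · exact hz.right r hrq hrn
    · rcases (by omega : r % 4 = (κ + 0) % 4 ∨ r % 4 = (κ + 1) % 4 ∨ r % 4 = (κ + 2) % 4 ∨
          r % 4 = (κ + 3) % 4) with h | h | h | h
      · refine iff_of_false ?_ (by omega)
        have e : Cl G W n κ 12 q (W r) := cl_ref hW (by omega) (by omega) (by omega) (by omega)
        exact indep S hH hW hz e (by omega) (by omega) hq
      · refine iff_of_true ?_ (by omega)
        exact mon1 S hH hW hz (by omega) (by omega) hq c1 h (by omega) hrn c4
      · refine iff_of_true ?_ (by omega)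
        have e : Cl G W n (κ + 2) 12 q (W r) := cl_ref hW (by omega) (by omega) (by omega) (by omega)
        exact compl S hH hW hz e rfl (by omega) (by omega)
      · refine iff_of_false ?_ (by omega)
        intro h'
        exact d4 (mon2 S hH hW hz (by omega) (by omega) hq h d1 (by omega) hrn h')

end pos

/-- The sets to be recoloured. -/
def Z0 (G : SimpleGraph V) (W : ℕ → V) (n q a' : ℕ) (z : V) : Prop :=
  Cl G W n 0 12 q z ∧ (∀ v, Cl G W n 1 12 q v → G.Adj v z → G.Adj v (W 36)) ∧
    ∀ v, Cl G W n 3 12 q v → G.Adj v z → G.Adj v (W a')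

def Z1 (G : SimpleGraph V) (W : ℕ → V) (n q a : ℕ) (z : V) : Prop :=
  Cl G W n 1 12 q z ∧ G.Adj z (W 36) ∧
    ∀ v, Cl G W n 0 12 q v → G.Adj v z → G.Adj v (W (a + 1))

def Z2 (G : SimpleGraph V) (W : ℕ → V) (n q a : ℕ) (z : V) : Prop :=
  Cl G W n 2 12 q z ∧ (∃ z1, Cl G W n 1 12 q z1 ∧ G.Adj z1 (W 36) ∧ G.Adj z z1) ∧
    ∀ v, Cl G W n 1 12 q v → G.Adj v z → G.Adj v (W (a + 2))

def Z3 (G : SimpleGraph V) (W : ℕ → V) (n q a : ℕ) (z : V) : Prop :=
  Cl G W n 3 12 q z ∧ (∃ z1 z2, Cl G W n 1 12 q z1 ∧ G.Adj z1 (W 36) ∧ Cl G W n 2 12 q z2 ∧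
    G.Adj z2 z1 ∧ G.Adj z z2) ∧
    ∀ v, Cl G W n 2 12 q v → G.Adj v z → G.Adj v (W (a + 3))

section final

variable {c a a' q : ℕ} (S : NoP5 G) (hH : NoK5e G ∨ NoCo G) (hW : Word G W n) (hC : Crit G c)
  (ha4 : a % 4 = 0) (ha4' : a' % 4 = 0) (h40 : 40 ≤ a) (haa : a + 4 ≤ a') (haq : a' + 16 ≤ q)
  (hqn : q + 12 ≤ n)

include S hH hW hC ha4 ha4' h40 haa haq hqn

theorem Z0.E {z : V} (hz : Z0 G W n q a' z) : Cl G W n 0 18 (q - 6) z := by
  obtain ⟨h0, h1, h2⟩ := hz
  have e1 : ¬ G.Adj z (W 33) := by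
    intro h
    have := (hW 33 36 (by omega) (by omega)).1 (h1 (W 33)
      (cl_ref hW (by omega) (by omega) (by omega) (by omega)) h.symm)
    omega
  have e2 : G.Adj z (W 31) := by
    by_contra h
    exact pos2 S hH hW hC h0 (by omega) (by omega) (by omega) (s := 31) (by omega) (by omega)
      (by omega) h e1
  have e3 : ¬ G.Adj z (W (a' + 3)) := by
    intro h
    have := (hW a' (a' + 3) (by omega) (by omega)).1 (h2 (W (a' + 3))
      (cl_ref hW (by omega) (by omega) (by omega) (by omega)) h.symm).symm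
    omega
  have e4 : G.Adj z (W (a' + 5)) := by
    by_contra h
    exact pos2 S hH hW hC h0 (by omega) (by omega) (by omega) (s := a' + 3) (by omega) (by omega)
      (by omega) e3 h
  exact toE S hH hW h0 (by omega) (by omega) (by omega) (t1 := 33) (t3 := 31) (s1 := a' + 5)
    (s3 := a' + 3) (by omega) (by omega) (by omega) e1 (by omega) (by omega) (by omega) e2
    (by omega) (by omega) e4 (by omega) (by omega) e3

theorem Z1.E {z : V} (hz : Z1 G W n q a z) : Cl G W n 1 18 (q - 6) z := by
  obtain ⟨h0, h1, h2⟩ := hz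
  have e1 : ¬ G.Adj z (W 30) := by
    intro h
    exact pos1 S hH hW hC h0 (by omega) (by omega) (by omega) (s := 30) (by omega) (by omega)
      (by omega) h h1
  have e3 : ¬ G.Adj z (W (a + 4)) := by
    intro h
    have := (hW (a + 1) (a + 4) (by omega) (by omega)).1 (h2 (W (a + 4))
      (cl_ref hW (by omega) (by omega) (by omega) (by omega)) h.symm).symm
    omega
  have e4 : G.Adj z (W (a + 6)) := by
    by_contra h
    exact pos2 S hH hW hC h0 (by omega) (by omega) (by omega) (s := a + 4) (by omega) (by omega)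
      (by omega) e3 h
  exact toE S hH hW h0 (by omega) (by omega) (by omega) (t1 := 30) (t3 := 36) (s1 := a + 6)
    (s3 := a + 4) (by omega) (by omega) (by omega) e1 (by omega) (by omega) (by omega) h1
    (by omega) (by omega) e4 (by omega) (by omega) e3

theorem adj33 {z z1 : V} (hz1 : Cl G W n 1 12 q z1) (hx : G.Adj z1 (W 36))
    (hz : Cl G W n 2 12 q z) (h : G.Adj z z1) : G.Adj z (W 33) := by
  by_contra hcon
  have e1 : Cl G W n 1 12 q (W 33) := cl_ref hW (by omega) (by omega) (by omega) (by omega)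
  have e2 : Cl G W n 0 (12 - 6) (q + 6) (W 36) :=
    cl_ref hW (by omega) (by omega) (by omega) (by omega)
  refine dom hC S hH hW e1 hz1 (κ₁ := 2) (κ₃ := 0) (by omega) (by omega)
    (hz.mono (by omega) (by omega)) e2 (by omega) (by omega) (by omega) h hcon hx.symm ?_
  intro h'
  have := (hW 33 36 (by omega) (by omega)).1 h'.symm
  omega

theorem Z2.E {z : V} (hz : Z2 G W n q a z) : Cl G W n 2 18 (q - 6) z := by
  obtain ⟨h0, ⟨z1, h1, h1', h1''⟩, h2⟩ := hz
  have e2 := adj33 S hH hW hC ha4 ha4' h40 haa haq hqn h1 h1' h0 h1''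
  have e1 : ¬ G.Adj z (W 27) := by
    intro h
    exact pos1 S hH hW hC h0 (by omega) (by omega) (by omega) (s := 27) (by omega) (by omega)
      (by omega) h e2
  have e3 : ¬ G.Adj z (W (a + 5)) := by
    intro h
    have := (hW (a + 2) (a + 5) (by omega) (by omega)).1 (h2 (W (a + 5))
      (cl_ref hW (by omega) (by omega) (by omega) (by omega)) h.symm).symm
    omega
  have e4 : G.Adj z (W (a + 7)) := by
    by_contra h
    exact pos2 S hH hW hC h0 (by omega) (by omega) (by omega) (s := a + 5) (by omega) (by omega)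
      (by omega) e3 h
  exact toE S hH hW h0 (by omega) (by omega) (by omega) (t1 := 27) (t3 := 33) (s1 := a + 7)
    (s3 := a + 5) (by omega) (by omega) (by omega) e1 (by omega) (by omega) (by omega) e2
    (by omega) (by omega) e4 (by omega) (by omega) e3

theorem Z3.E {z : V} (hz : Z3 G W n q a z) : Cl G W n 3 18 (q - 6) z := by
  obtain ⟨h0, ⟨z1, z2, h1, h1', h2, h2', h3⟩, h4⟩ := hz
  have f1 := adj33 S hH hW hC ha4 ha4' h40 haa haq hqn h1 h1' h2 h2'
  have f2 : ¬ G.Adj z2 (W 27) := by
    intro h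
    exact pos1 S hH hW hC h2 (by omega) (by omega) (by omega) (s := 27) (by omega) (by omega)
      (by omega) h f1
  have e2 : G.Adj z (W 26) := by
    by_contra h
    have g1 : Cl G W n 2 12 q (W 26) := cl_ref hW (by omega) (by omega) (by omega) (by omega)
    have g2 : Cl G W n 3 12 q (W 27) := cl_ref hW (by omega) (by omega) (by omega) (by omega)
    exact no2K2 S hH hW g1 h2 g2 h0 (by omega) (by omega) (by omega) (by omega)
      ((hW 26 27 (by omega) (by omega)).2 (by omega)) h3.symm (fun h' => h h'.symm) f2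
  have e1 : ¬ G.Adj z (W 20) := by
    intro h
    exact pos1 S hH hW hC h0 (by omega) (by omega) (by omega) (s := 20) (by omega) (by omega)
      (by omega) h e2
  have e3 : ¬ G.Adj z (W (a + 6)) := by
    intro h
    have := (hW (a + 3) (a + 6) (by omega) (by omega)).1 (h4 (W (a + 6))
      (cl_ref hW (by omega) (by omega) (by omega) (by omega)) h.symm).symm
    omega
  have e4 : G.Adj z (W (a + 8)) := by
    by_contra h
    exact pos2 S hH hW hC h0 (by omega) (by omega) (by omega) (s := a + 6) (by omega) (by omega)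
      (by omega) e3 h
  exact toE S hH hW h0 (by omega) (by omega) (by omega) (t1 := 20) (t3 := 26) (s1 := a + 8)
    (s3 := a + 6) (by omega) (by omega) (by omega) e1 (by omega) (by omega) (by omega) e2
    (by omega) (by omega) e4 (by omega) (by omega) e3

theorem Z0.next {z w : V} (hz : Z0 G W n q a' z) (hwz : G.Adj w z) (h1 : ¬ G.Adj w (W a))
    (h2 : ¬ G.Adj w (W a')) : Z1 G W n q a w := by
  have hE := Z0.E S hH hW hC ha4 ha4' h40 haa haq hqn hz
  have hr : Cl G W n 0 18 (q - 6) (W a) := cl_ref hW (by omega) (by omega) (by omega) (by omega)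
  rcases dist S hH hW hE hr (by omega) (by omega) (by omega) hwz h1 with h | h
  · have h : Cl G W n 1 12 q w := h.mono (by omega) (by omega)
    refine ⟨h, hz.2.1 w h hwz, fun v hv hvw => ?_⟩
    by_contra h3
    exact no2K2 S hH hW (κ := 0) (κ' := 1) (p := 12) (q := q)
      (cl_ref hW (r := a) (by omega) (by omega) (by omega) (by omega)) hv
      (cl_ref hW (r := a + 1) (by omega) (by omega) (by omega) (by omega)) h (by omega)
      (by omega) (by omega) (by omega) ((hW a (a + 1) (by omega) (by omega)).2 (by omega)) hvw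
      (fun h' => h1 h'.symm) h3
  · have h : Cl G W n 3 12 q w := (h.mono (by omega) (by omega)).congr (by omega)
    exact absurd (hz.2.2 w h hwz) h2

theorem Z1.next {z w : V} (hz : Z1 G W n q a z) (hwz : G.Adj w z)
    (h1 : ¬ G.Adj w (W (a + 1))) : Z2 G W n q a w := by
  have hE := Z1.E S hH hW hC ha4 ha4' h40 haa haq hqn hz
  have hr : Cl G W n 1 18 (q - 6) (W (a + 1)) :=
    cl_ref hW (by omega) (by omega) (by omega) (by omega)
  rcases dist S hH hW hE hr (by omega) (by omega) (by omega) hwz h1 with h | h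
  · have h : Cl G W n 2 12 q w := h.mono (by omega) (by omega)
    refine ⟨h, ⟨z, hz.1, hz.2.1, hwz⟩, fun v hv hvw => ?_⟩
    by_contra h3
    exact no2K2 S hH hW (κ := 1) (κ' := 2) (p := 12) (q := q)
      (cl_ref hW (r := a + 1) (by omega) (by omega) (by omega) (by omega)) hv
      (cl_ref hW (r := a + 2) (by omega) (by omega) (by omega) (by omega)) h (by omega)
      (by omega) (by omega) (by omega) ((hW (a + 1) (a + 2) (by omega) (by omega)).2 (by omega))
      hvw (fun h' => h1 h'.symm) h3
  · have h : Cl G W n 0 12 q w := (h.mono (by omega) (by omega)).congr (by omega)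
    exact absurd (hz.2.2 w h hwz) h1

theorem Z2.next {z w : V} (hz : Z2 G W n q a z) (hwz : G.Adj w z)
    (h1 : ¬ G.Adj w (W (a + 2))) : Z3 G W n q a w := by
  have hE := Z2.E S hH hW hC ha4 ha4' h40 haa haq hqn hz
  have hr : Cl G W n 2 18 (q - 6) (W (a + 2)) :=
    cl_ref hW (by omega) (by omega) (by omega) (by omega)
  rcases dist S hH hW hE hr (by omega) (by omega) (by omega) hwz h1 with h | h
  · have h : Cl G W n 3 12 q w := h.mono (by omega) (by omega)
    obtain ⟨g0, ⟨z1, g1, g2, g3⟩, g4⟩ := hz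
    refine ⟨h, ⟨z1, z, g1, g2, g0, g3, hwz⟩, fun v hv hvw => ?_⟩
    by_contra h3
    exact no2K2 S hH hW (κ := 2) (κ' := 3) (p := 12) (q := q)
      (cl_ref hW (r := a + 2) (by omega) (by omega) (by omega) (by omega)) hv
      (cl_ref hW (r := a + 3) (by omega) (by omega) (by omega) (by omega)) h (by omega)
      (by omega) (by omega) (by omega) ((hW (a + 2) (a + 3) (by omega) (by omega)).2 (by omega))
      hvw (fun h' => h1 h'.symm) h3
  · have h : Cl G W n 1 12 q w := (h.mono (by omega) (by omega)).congr (by omega)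
    exact absurd (hz.2.2 w h hwz) h1

theorem Z3.next {z w : V} (hz : Z3 G W n q a z) (hwz : G.Adj w z)
    (h1 : ¬ G.Adj w (W (a + 3))) : Z0 G W n q a' w := by
  have hE := Z3.E S hH hW hC ha4 ha4' h40 haa haq hqn hz
  have hr : Cl G W n 3 18 (q - 6) (W (a + 3)) :=
    cl_ref hW (by omega) (by omega) (by omega) (by omega)
  obtain ⟨g0, ⟨z1, z2, g1, g2, g3, g4, g5⟩, g6⟩ := hz
  rcases dist S hH hW hE hr (by omega) (by omega) (by omega) hwz h1 with h | h
  · have h : Cl G W n 0 12 q w := (h.mono (by omega) (by omega)).congr (by omega)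
    refine ⟨h, fun v hv hvw => ?_, fun v hv hvw => ?_⟩
    · by_contra h3
      have hx : Cl G W n 0 12 q (W 36) := cl_ref hW (by omega) (by omega) (by omega) (by omega)
      -- `w` is adjacent to `z1`
      have k1 : G.Adj w z1 := by
        by_contra k
        exact no2K2 S hH hW (κ := 0) (κ' := 1) (p := 12) (q := q) hx h g1 hv (by omega) (by omega)
          (by omega) (by omega) g2.symm hvw.symm (fun h' => h3 h'.symm) k
      -- `z` is adjacent to `x`
      have k2 : G.Adj z (W 36) := by
        by_contra k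
        exact dom hC S hH hW hx h (κ₁ := 1) (κ₃ := 3) (by omega) (by omega)
          (hv.mono (by omega) (by omega)) (g0.mono (by omega) (by omega)) (by omega) (by omega)
          (by omega) hvw h3 hwz.symm k
      have k3 : G.Adj z1 z := compl S hH hW g1 g0 (by omega) (by omega) (by omega)
      have k4 : G.Adj (W 36) z2 := compl S hH hW hx g3 (by omega) (by omega) (by omega)
      have k5 : G.Adj w z2 := compl S hH hW h g3 (by omega) (by omega) (by omega)
      have k6 : ¬ G.Adj (W 36) w := indep S hH hW hx h (by omega) (by omega) (by omega)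
      rcases hH with hK | hCo
      · exact hK (W 36) w z1 z2 z (fun e => h3 (e ▸ hvw)) k6 g2.symm k4 k2.symm k1 k5 hwz g4.symm
          k3 g5.symm
      · -- a letter far to the right
        obtain ⟨r, hr1, hr2, hr3⟩ : ∃ r, r % 4 = 0 ∧ q ≤ r ∧ r < n :=
          ⟨q + (3 * q) % 4, by omega, by omega, by omega⟩
        exact hCo z2 z z1 (W 36) (W r) g5.symm g4 k4.symm k3.symm k2 g2
          ((g3.right r hr2 hr3).2 (by omega)).symm ((g0.right r hr2 hr3).2 (by omega)).symm
          (fun h' => absurd ((g1.right r hr2 hr3).1 h'.symm) (by omega))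
          (fun h' => absurd ((hW 36 r (by omega) hr3).1 h'.symm) (by omega))
    · by_contra h3
      exact no2K2 S hH hW (κ := 3) (κ' := 0) (p := 12) (q := q)
        (cl_ref hW (r := a + 3) (by omega) (by omega) (by omega) (by omega)) hv
        (cl_ref hW (r := a') (by omega) (by omega) (by omega) (by omega)) h (by omega)
        (by omega) (by omega) (by omega) ((hW (a + 3) a' (by omega) (by omega)).2 (by omega))
        hvw (fun h' => h1 h'.symm) h3
  · have h : Cl G W n 2 12 q w := (h.mono (by omega) (by omega)).congr (by omega)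
    exact absurd (g6 w h hwz) h1

end final

end Pool.Agent.H46.P5
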