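import Mathlib
import Pool.Agent.H46.W3

/-!
Long words do not occur in vertex-critical graphs: the recolouring.
-/

set_option linter.unusedVariables false

namespace Pool.Agent.H46.P5

variable {V : Type*} {G : SimpleGraph V} {W : ℕ → V} {n : ℕ}

theorem word_false {c : ℕ} (S : NoP5 G) (hH : NoK5e G ∨ NoCo G) (hW : Word G W n)
    (hC : Crit G c) (hn : 4 * c + 72 ≤ n) : False := by
  classical
  obtain ⟨f, hf1, hf2⟩ := hC.del (W 36)
  have hne : ∀ r, 36 < r → r + 1 < n → W r ≠ W 36 := fun r h1 h2 => (word_ne hW h1 h2).symm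
  obtain ⟨a, a', ha4, ha4', h40, haa, haq, hfa⟩ : ∃ a a', a % 4 = 0 ∧ a' % 4 = 0 ∧ 40 ≤ a ∧
      a + 4 ≤ a' ∧ a' ≤ 40 + 4 * c ∧ f (W a) = f (W a') := by
    obtain ⟨j, hj, j', hj', hne', heq⟩ := Finset.exists_ne_map_eq_of_card_lt_of_maps_to
      (s := Finset.range (c + 1)) (t := Finset.range c) (f := fun j => f (W (40 + 4 * j)))
      (by rw [Finset.card_range, Finset.card_range]; omega)
      (fun j hj => by
        rw [Finset.mem_coe, Finset.mem_range] at hj
        exact Finset.mem_coe.2 (Finset.mem_range.2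
          (hf1 _ (hne (40 + 4 * j) (by omega) (by omega)))))
    rw [Finset.mem_range] at hj hj'
    rcases Nat.lt_or_gt_of_ne hne' with h | h
    · exact ⟨40 + 4 * j, 40 + 4 * j', by omega, by omega, by omega, by omega, by omega, heq⟩
    · exact ⟨40 + 4 * j', 40 + 4 * j, by omega, by omega, by omega, by omega, by omega, heq.symm⟩
  obtain ⟨q, hq⟩ : ∃ q, q = 4 * c + 56 := ⟨_, rfl⟩
  have haq' : a' + 16 ≤ q := by omega
  have hqn : q + 12 ≤ n := by omega
  -- colours of the representatives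
  have hadj : ∀ i j, 36 < i → i < j → j + 1 < n → (j - i) % 4 = 1 ∨ (j - i) % 4 = 2 →
      f (W i) ≠ f (W j) := fun i j h1 h2 h3 h4 =>
    hf2 _ _ (hne i h1 (by omega)) (hne j (by omega) h3) ((hW i j h2 (by omega)).2 h4)
  have c01 : f (W a) ≠ f (W (a + 1)) := hadj _ _ (by omega) (by omega) (by omega) (by omega)
  have c12 : f (W (a + 1)) ≠ f (W (a + 2)) := hadj _ _ (by omega) (by omega) (by omega) (by omega)
  have c23 : f (W (a + 2)) ≠ f (W (a + 3)) := hadj _ _ (by omega) (by omega) (by omega) (by omega)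
  have c02 : f (W a) ≠ f (W (a + 2)) := hadj _ _ (by omega) (by omega) (by omega) (by omega)
  have c13 : f (W (a + 1)) ≠ f (W (a + 3)) := hadj _ _ (by omega) (by omega) (by omega) (by omega)
  have c03 : f (W a) ≠ f (W (a + 3)) := by
    rw [hfa]
    exact (hadj _ _ (by omega) (by omega) (by omega) (by omega)).symm
  -- the new colouring
  obtain ⟨g, hg⟩ : ∃ g : V → ℕ, ∀ w, (Z0 G W n q a' w ∧ g w = f (W a)) ∨
      (Z1 G W n q a w ∧ g w = f (W (a + 1))) ∨ (Z2 G W n q a w ∧ g w = f (W (a + 2))) ∨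
      (Z3 G W n q a w ∧ g w = f (W (a + 3))) ∨
      (¬ Z0 G W n q a' w ∧ ¬ Z1 G W n q a w ∧ ¬ Z2 G W n q a w ∧ ¬ Z3 G W n q a w ∧
        g w = f w) := by
    refine ⟨fun w => if Z0 G W n q a' w then f (W a) else if Z1 G W n q a w then f (W (a + 1)) else
      if Z2 G W n q a w then f (W (a + 2)) else if Z3 G W n q a w then f (W (a + 3)) else f w,
      fun w => ?_⟩
    by_cases h0 : Z0 G W n q a' w
    · left; exact ⟨h0, by simp [h0]⟩
    · by_cases h1 : Z1 G W n q a w
      · right; left; exact ⟨h1, by simp [h0, h1]⟩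
      · by_cases h2 : Z2 G W n q a w
        · right; right; left; exact ⟨h2, by simp [h0, h1, h2]⟩
        · by_cases h3 : Z3 G W n q a w
          · right; right; right; left; exact ⟨h3, by simp [h0, h1, h2, h3]⟩
          · right; right; right; right; exact ⟨h0, h1, h2, h3, by simp [h0, h1, h2, h3]⟩
  have hx : Z0 G W n q a' (W 36) := by
    have hx0 : Cl G W n 0 12 q (W 36) := cl_ref hW (by omega) (by omega) (by omega) (by omega)
    refine ⟨hx0, fun v _ h => h, fun v hv h => ?_⟩
    by_contra h3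
    exact no2K2 S hH hW (κ := 3) (κ' := 0) (p := 12) (q := q)
      (cl_ref hW (r := 39) (by omega) (by omega) (by omega) (by omega)) hv
      (cl_ref hW (r := a') (by omega) (by omega) (by omega) (by omega)) hx0 (by omega)
      (by omega) (by omega) (by omega) ((hW 39 a' (by omega) (by omega)).2 (by omega)) h
      (fun h' => absurd ((hW 36 39 (by omega) (by omega)).1 h'.symm) (by omega)) h3
  -- properness around the recoloured sets
  have key : ∀ z w, G.Adj w z → (Z0 G W n q a' z ∨ Z1 G W n q a z ∨ Z2 G W n q a z ∨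
      Z3 G W n q a z) → g w ≠ g z := by
    intro z w hwz hz
    have hwx : w ≠ W 36 ∨ Z0 G W n q a' w := by
      by_cases h : w = W 36
      · right; rw [h]; exact hx
      · left; exact h
    -- facts about the colour of an untouched vertex
    have hfw : ∀ r, 36 < r → r + 1 < n → ¬ Z0 G W n q a' w → f w = f (W r) → ¬ G.Adj w (W r) := by
      intro r h1 h2 h0 h3 h4
      exact hf2 w (W r) (hwx.resolve_right h0) (hne r h1 h2) h4 h3
    rcases hg z with ⟨hz0, e⟩ | ⟨hz1, e⟩ | ⟨hz2, e⟩ | ⟨hz3, e⟩ | ⟨m0, m1, m2, m3, -⟩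
    · rw [e]
      rcases hg w with ⟨hw0, e'⟩ | ⟨hw1, e'⟩ | ⟨hw2, e'⟩ | ⟨hw3, e'⟩ | ⟨m0, m1, m2, m3, e'⟩
      · exact absurd hwz (indep S hH hW hw0.1 hz0.1 (by omega) (by omega) (by omega))
      · rw [e']; exact c01.symm
      · rw [e']; exact c02.symm
      · rw [e']; exact c03.symm
      · rw [e']
        intro h
        exact m1 (Z0.next S hH hW hC ha4 ha4' h40 haa haq' hqn hz0 hwz
          (hfw a (by omega) (by omega) m0 h) (hfw a' (by omega) (by omega) m0 (h.trans hfa)))
    · rw [e]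
      rcases hg w with ⟨hw0, e'⟩ | ⟨hw1, e'⟩ | ⟨hw2, e'⟩ | ⟨hw3, e'⟩ | ⟨m0, m1, m2, m3, e'⟩
      · rw [e']; exact c01
      · exact absurd hwz (indep S hH hW hw1.1 hz1.1 (by omega) (by omega) (by omega))
      · rw [e']; exact c12.symm
      · rw [e']; exact c13.symm
      · rw [e']
        intro h
        exact m2 (Z1.next S hH hW hC ha4 ha4' h40 haa haq' hqn hz1 hwz
          (hfw (a + 1) (by omega) (by omega) m0 h))
    · rw [e]
      rcases hg w with ⟨hw0, e'⟩ | ⟨hw1, e'⟩ | ⟨hw2, e'⟩ | ⟨hw3, e'⟩ | ⟨m0, m1, m2, m3, e'⟩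
      · rw [e']; exact c02
      · rw [e']; exact c12
      · exact absurd hwz (indep S hH hW hw2.1 hz2.1 (by omega) (by omega) (by omega))
      · rw [e']; exact c23.symm
      · rw [e']
        intro h
        exact m3 (Z2.next S hH hW hC ha4 ha4' h40 haa haq' hqn hz2 hwz
          (hfw (a + 2) (by omega) (by omega) m0 h))
    · rw [e]
      rcases hg w with ⟨hw0, e'⟩ | ⟨hw1, e'⟩ | ⟨hw2, e'⟩ | ⟨hw3, e'⟩ | ⟨m0, m1, m2, m3, e'⟩
      · rw [e']; exact c03
      · rw [e']; exact c13
      · rw [e']; exact c23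
      · exact absurd hwz (indep S hH hW hw3.1 hz3.1 (by omega) (by omega) (by omega))
      · rw [e']
        intro h
        exact m0 (Z3.next S hH hW hC ha4 ha4' h40 haa haq' hqn hz3 hwz
          (hfw (a + 3) (by omega) (by omega) m0 h))
    · rcases hz with h | h | h | h
      · exact absurd h m0
      · exact absurd h m1
      · exact absurd h m2
      · exact absurd h m3
  apply hC.not
  refine ⟨g, fun w => ?_, fun w z hwz => ?_⟩
  · rcases hg w with ⟨-, e⟩ | ⟨-, e⟩ | ⟨-, e⟩ | ⟨-, e⟩ | ⟨m0, -, -, -, e⟩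
    · rw [e]; exact hf1 _ (hne a (by omega) (by omega))
    · rw [e]; exact hf1 _ (hne (a + 1) (by omega) (by omega))
    · rw [e]; exact hf1 _ (hne (a + 2) (by omega) (by omega))
    · rw [e]; exact hf1 _ (hne (a + 3) (by omega) (by omega))
    · rw [e]
      apply hf1
      rintro rfl
      exact m0 hx
  · by_cases hz : Z0 G W n q a' z ∨ Z1 G W n q a z ∨ Z2 G W n q a z ∨ Z3 G W n q a z
    · exact key z w hwz hz
    · by_cases hw : Z0 G W n q a' w ∨ Z1 G W n q a w ∨ Z2 G W n q a w ∨ Z3 G W n q a w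
      · exact (key w z hwz.symm hw).symm
      · push Not at hz hw
        obtain ⟨z0, z1, z2, z3⟩ := hz
        obtain ⟨w0, w1, w2, w3⟩ := hw
        have ez : g z = f z := by
          rcases hg z with ⟨h, -⟩ | ⟨h, -⟩ | ⟨h, -⟩ | ⟨h, -⟩ | ⟨-, -, -, -, e⟩
          · exact absurd h z0
          · exact absurd h z1
          · exact absurd h z2
          · exact absurd h z3
          · exact e
        have ew : g w = f w := by
          rcases hg w with ⟨h, -⟩ | ⟨h, -⟩ | ⟨h, -⟩ | ⟨h, -⟩ | ⟨-, -, -, -, e⟩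
          · exact absurd h w0
          · exact absurd h w1
          · exact absurd h w2
          · exact absurd h w3
          · exact e
        rw [ez, ew]
        apply hf2 w z _ _ hwz
        · rintro rfl
          exact w0 hx
        · rintro rfl
          exact z0 hx

end Pool.Agent.H46.P5
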