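import Mathlib
import Pool.Agent.H46.W1

/-!
Local lemmas on triple half graphs with two hubs (generated).
-/

set_option linter.unusedVariables false

namespace Pool.Agent.H46.P5

/-- Two hubs and three classes of letters. -/
structure Tri {V : Type*} (G : SimpleGraph V) (u v : V) (I X Y : ℕ → V) (n : ℕ) : Prop where
  uv : G.Adj u v
  uI : ∀ s, s < n → G.Adj u (I s)
  uX : ∀ s, s < n → ¬ G.Adj u (X s)
  uY : ∀ s, s < n → G.Adj u (Y s)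
  vI : ∀ s, s < n → G.Adj v (I s)
  vX : ∀ s, s < n → G.Adj v (X s)
  vY : ∀ s, s < n → ¬ G.Adj v (Y s)
  II : ∀ s t, s < n → t < n → ¬ G.Adj (I s) (I t)
  XX : ∀ s t, s < n → t < n → ¬ G.Adj (X s) (X t)
  YY : ∀ s t, s < n → t < n → ¬ G.Adj (Y s) (Y t)
  XY : ∀ s t, s < n → t < n → G.Adj (X s) (Y t)
  IX : ∀ s t, s < n → t < n → (G.Adj (I s) (X t) ↔ s ≤ t)
  IY : ∀ s t, s < n → t < n → (G.Adj (I s) (Y t) ↔ t ≤ s)

theorem Tri.neI {V : Type*} {G : SimpleGraph V} {u v : V} {I X Y : ℕ → V} {n : ℕ}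
    (hT : Tri G u v I X Y n) {s t : ℕ} (h : s < t) (ht : t < n) : I s ≠ I t :=
  ne_of_adj ((hT.IX s s (by omega) (by omega)).2 le_rfl)
    (fun h' => absurd ((hT.IX t s ht (by omega)).1 h') (by omega))

theorem Tri.neX {V : Type*} {G : SimpleGraph V} {u v : V} {I X Y : ℕ → V} {n : ℕ}
    (hT : Tri G u v I X Y n) {s t : ℕ} (h : s < t) (ht : t < n) : X s ≠ X t :=
  (ne_of_adj ((hT.IX t t ht ht).2 le_rfl).symm
    (fun h' => absurd ((hT.IX t s ht (by omega)).1 h'.symm) (by omega))).symm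

theorem Tri.neY {V : Type*} {G : SimpleGraph V} {u v : V} {I X Y : ℕ → V} {n : ℕ}
    (hT : Tri G u v I X Y n) {s t : ℕ} (h : s < t) (ht : t < n) : Y s ≠ Y t :=
  ne_of_adj ((hT.IY s s (by omega) (by omega)).2 le_rfl).symm
    (fun h' => absurd ((hT.IY s t (by omega) ht).1 h'.symm) (by omega))


theorem tri_v {V : Type*} {G : SimpleGraph V} {u v : V} {I X Y : ℕ → V} {n : ℕ} (hP : NoP5 G)
    (hH : NoK5e G ∨ NoCo G) (hT : Tri G u v I X Y n) {w : V} {b : ℕ} (hb : b + 10 < n)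
    (h0 : G.Adj w (X (b + 5))) (h1 : ¬ G.Adj w (X (b + 6)))
    (hv : G.Adj w v) : False := by
  have k_I1_Im5 : ¬ G.Adj (I (b + 6)) (I b) := hT.II _ _ (by omega) (by omega)
  have k_I1_X0 : ¬ G.Adj (I (b + 6)) (X (b + 5)) := (fun h => absurd ((hT.IX _ _ (by omega) (by omega)).1 h) (by omega))
  have k_I1_X1 : G.Adj (I (b + 6)) (X (b + 6)) := (hT.IX _ _ (by omega) (by omega)).2 (by omega)
  have k_I1_Xm3 : ¬ G.Adj (I (b + 6)) (X (b + 2)) := (fun h => absurd ((hT.IX _ _ (by omega) (by omega)).1 h) (by omega))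
  have k_Im2_X0 : G.Adj (I (b + 3)) (X (b + 5)) := (hT.IX _ _ (by omega) (by omega)).2 (by omega)
  have k_Im2_X1 : G.Adj (I (b + 3)) (X (b + 6)) := (hT.IX _ _ (by omega) (by omega)).2 (by omega)
  have k_Im2_Xm3 : ¬ G.Adj (I (b + 3)) (X (b + 2)) := (fun h => absurd ((hT.IX _ _ (by omega) (by omega)).1 h) (by omega))
  have k_Im2_v : G.Adj (I (b + 3)) v := (hT.vI _ (by omega)).symm
  have k_Im5_X0 : G.Adj (I b) (X (b + 5)) := (hT.IX _ _ (by omega) (by omega)).2 (by omega)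
  have k_Im5_X1 : G.Adj (I b) (X (b + 6)) := (hT.IX _ _ (by omega) (by omega)).2 (by omega)
  have k_Im5_Xm3 : G.Adj (I b) (X (b + 2)) := (hT.IX _ _ (by omega) (by omega)).2 (by omega)
  have k_Im5_v : G.Adj (I b) v := (hT.vI _ (by omega)).symm
  have k_X0_X1 : ¬ G.Adj (X (b + 5)) (X (b + 6)) := hT.XX _ _ (by omega) (by omega)
  have k_X0_Xm3 : ¬ G.Adj (X (b + 5)) (X (b + 2)) := hT.XX _ _ (by omega) (by omega)
  have k_X0_v : G.Adj (X (b + 5)) v := (hT.vX _ (by omega)).symm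
  have k_X0_w : G.Adj (X (b + 5)) w := h0.symm
  have k_X1_Xm3 : ¬ G.Adj (X (b + 6)) (X (b + 2)) := hT.XX _ _ (by omega) (by omega)
  have k_X1_w : ¬ G.Adj (X (b + 6)) w := (fun h => h1 h.symm)
  have k_v_w : G.Adj v w := hv.symm
  rcases hH with hK | hC
  · have k_I1_Im2 : ¬ G.Adj (I (b + 6)) (I (b + 3)) := hT.II _ _ (by omega) (by omega)
    have k_I1_Xm2 : ¬ G.Adj (I (b + 6)) (X (b + 3)) := (fun h => absurd ((hT.IX _ _ (by omega) (by omega)).1 h) (by omega))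
    have k_Im2_Im5 : ¬ G.Adj (I (b + 3)) (I b) := hT.II _ _ (by omega) (by omega)
    have k_Im2_Xm2 : G.Adj (I (b + 3)) (X (b + 3)) := (hT.IX _ _ (by omega) (by omega)).2 (by omega)
    have k_Im5_Xm2 : G.Adj (I b) (X (b + 3)) := (hT.IX _ _ (by omega) (by omega)).2 (by omega)
    have k_X0_Xm2 : ¬ G.Adj (X (b + 5)) (X (b + 3)) := hT.XX _ _ (by omega) (by omega)
    have k_Xm2_v : G.Adj (X (b + 3)) v := (hT.vX _ (by omega)).symm
    by_cases c_Im5_w : G.Adj (I b) w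
    · by_cases c_Im2_w : G.Adj (I (b + 3)) w
      · exact hK (I b) (I (b + 3)) w v (X (b + 5)) (ne_of_adj k_Im5_Xm3 k_Im2_Xm3) (fun h => k_Im2_Im5 h.symm) c_Im5_w k_Im5_v k_Im5_X0 c_Im2_w k_Im2_v k_Im2_X0 k_v_w.symm k_X0_w.symm k_X0_v.symm
      · by_cases c_Xm2_w : G.Adj (X (b + 3)) w
        · exact hK (X (b + 5)) (X (b + 3)) w v (I b) (hT.neX (by omega) (by omega)).symm k_X0_Xm2 k_X0_w k_X0_v k_Im5_X0.symm c_Xm2_w k_Xm2_v k_Im5_Xm2.symm k_v_w.symm c_Im5_w.symm k_Im5_v.symm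
        · by_cases c_I1_w : G.Adj (I (b + 6)) w
          · exact hP (X (b + 3)) (I (b + 3)) (X (b + 5)) w (I (b + 6)) k_Im2_Xm2.symm k_Im2_X0 k_X0_w c_I1_w.symm (fun h => k_X0_Xm2 h.symm) c_Xm2_w (fun h => k_I1_Xm2 h.symm) c_Im2_w (fun h => k_I1_Im2 h.symm) (fun h => k_I1_X0 h.symm)
          · exact hP w (X (b + 5)) (I (b + 3)) (X (b + 6)) (I (b + 6)) k_X0_w.symm k_Im2_X0.symm k_Im2_X1 k_I1_X1.symm (fun h => c_Im2_w h.symm) (fun h => k_X1_w h.symm) (fun h => c_I1_w h.symm) k_X0_X1 (fun h => k_I1_X0 h.symm) (fun h => k_I1_Im2 h.symm)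
    · by_cases c_I1_w : G.Adj (I (b + 6)) w
      · by_cases c_Xm3_w : G.Adj (X (b + 2)) w
        · by_cases c_Im2_w : G.Adj (I (b + 3)) w
          · by_cases c_Xm2_w : G.Adj (X (b + 3)) w
            · exact hK (X (b + 5)) (X (b + 3)) w v (I (b + 3)) (hT.neX (by omega) (by omega)).symm k_X0_Xm2 k_X0_w k_X0_v k_Im2_X0.symm c_Xm2_w k_Xm2_v k_Im2_Xm2.symm k_v_w.symm c_Im2_w.symm k_Im2_v.symm
            · exact hP (X (b + 3)) (I b) (X (b + 5)) w (I (b + 6)) k_Im5_Xm2.symm k_Im5_X0 k_X0_w c_I1_w.symm (fun h => k_X0_Xm2 h.symm) c_Xm2_w (fun h => k_I1_Xm2 h.symm) c_Im5_w (fun h => k_I1_Im5 h.symm) (fun h => k_I1_X0 h.symm)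
          · exact hP (X (b + 6)) (I (b + 3)) (X (b + 5)) w (X (b + 2)) k_Im2_X1.symm k_Im2_X0 k_X0_w c_Xm3_w.symm (fun h => k_X0_X1 h.symm) k_X1_w k_X1_Xm3 c_Im2_w k_Im2_Xm3 k_X0_Xm3
        · exact hP (X (b + 2)) (I b) (X (b + 5)) w (I (b + 6)) k_Im5_Xm3.symm k_Im5_X0 k_X0_w c_I1_w.symm (fun h => k_X0_Xm3 h.symm) c_Xm3_w (fun h => k_I1_Xm3 h.symm) c_Im5_w (fun h => k_I1_Im5 h.symm) (fun h => k_I1_X0 h.symm)
      · exact hP w (X (b + 5)) (I b) (X (b + 6)) (I (b + 6)) k_X0_w.symm k_Im5_X0.symm k_Im5_X1 k_I1_X1.symm (fun h => c_Im5_w h.symm) (fun h => k_X1_w h.symm) (fun h => c_I1_w h.symm) k_X0_X1 (fun h => k_I1_X0 h.symm) (fun h => k_I1_Im5 h.symm)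
  · have k_X1_v : G.Adj (X (b + 6)) v := (hT.vX _ (by omega)).symm
    by_cases c_Im5_w : G.Adj (I b) w
    · exact hC v (I b) w (X (b + 5)) (X (b + 6)) k_Im5_v.symm k_v_w k_X0_v.symm c_Im5_w k_Im5_X0 k_X0_w.symm k_X1_v k_Im5_X1.symm k_X1_w (fun h => k_X0_X1 h.symm)
    · by_cases c_Im2_w : G.Adj (I (b + 3)) w
      · exact hC v (I (b + 3)) w (X (b + 5)) (X (b + 6)) k_Im2_v.symm k_v_w k_X0_v.symm c_Im2_w k_Im2_X0 k_X0_w.symm k_X1_v k_Im2_X1.symm k_X1_w (fun h => k_X0_X1 h.symm)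
      · by_cases c_I1_w : G.Adj (I (b + 6)) w
        · by_cases c_Xm3_w : G.Adj (X (b + 2)) w
          · exact hP (X (b + 6)) (I (b + 3)) (X (b + 5)) w (X (b + 2)) k_Im2_X1.symm k_Im2_X0 k_X0_w c_Xm3_w.symm (fun h => k_X0_X1 h.symm) k_X1_w k_X1_Xm3 c_Im2_w k_Im2_Xm3 k_X0_Xm3
          · exact hP (X (b + 2)) (I b) (X (b + 5)) w (I (b + 6)) k_Im5_Xm3.symm k_Im5_X0 k_X0_w c_I1_w.symm (fun h => k_X0_Xm3 h.symm) c_Xm3_w (fun h => k_I1_Xm3 h.symm) c_Im5_w (fun h => k_I1_Im5 h.symm) (fun h => k_I1_X0 h.symm)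
        · exact hP w (X (b + 5)) (I b) (X (b + 6)) (I (b + 6)) k_X0_w.symm k_Im5_X0.symm k_Im5_X1 k_I1_X1.symm (fun h => c_Im5_w h.symm) (fun h => k_X1_w h.symm) (fun h => c_I1_w h.symm) k_X0_X1 (fun h => k_I1_X0 h.symm) (fun h => k_I1_Im5 h.symm)

theorem tri_u {V : Type*} {G : SimpleGraph V} {u v : V} {I X Y : ℕ → V} {n : ℕ} (hP : NoP5 G)
    (hH : NoK5e G ∨ NoCo G) (hT : Tri G u v I X Y n) {w : V} {b : ℕ} (hb : b + 10 < n)
    (h0 : G.Adj w (X (b + 5))) (h1 : ¬ G.Adj w (X (b + 6)))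
    (hv : ¬ G.Adj w v) (hu : G.Adj w u) : False := by
  have k_I1_I4 : ¬ G.Adj (I (b + 6)) (I (b + 9)) := hT.II _ _ (by omega) (by omega)
  have k_I1_X0 : ¬ G.Adj (I (b + 6)) (X (b + 5)) := (fun h => absurd ((hT.IX _ _ (by omega) (by omega)).1 h) (by omega))
  have k_I1_X1 : G.Adj (I (b + 6)) (X (b + 6)) := (hT.IX _ _ (by omega) (by omega)).2 (by omega)
  have k_I1_Y3 : ¬ G.Adj (I (b + 6)) (Y (b + 8)) := (fun h => absurd ((hT.IY _ _ (by omega) (by omega)).1 h) (by omega))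
  have k_I1_u : G.Adj (I (b + 6)) u := (hT.uI _ (by omega)).symm
  have k_I1_v : G.Adj (I (b + 6)) v := (hT.vI _ (by omega)).symm
  have k_I2_X1 : ¬ G.Adj (I (b + 7)) (X (b + 6)) := (fun h => absurd ((hT.IX _ _ (by omega) (by omega)).1 h) (by omega))
  have k_I2_Y3 : ¬ G.Adj (I (b + 7)) (Y (b + 8)) := (fun h => absurd ((hT.IY _ _ (by omega) (by omega)).1 h) (by omega))
  have k_I2_Y5 : ¬ G.Adj (I (b + 7)) (Y (b + 10)) := (fun h => absurd ((hT.IY _ _ (by omega) (by omega)).1 h) (by omega))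
  have k_I2_v : G.Adj (I (b + 7)) v := (hT.vI _ (by omega)).symm
  have k_I4_X1 : ¬ G.Adj (I (b + 9)) (X (b + 6)) := (fun h => absurd ((hT.IX _ _ (by omega) (by omega)).1 h) (by omega))
  have k_I4_Y3 : G.Adj (I (b + 9)) (Y (b + 8)) := (hT.IY _ _ (by omega) (by omega)).2 (by omega)
  have k_I4_Y5 : ¬ G.Adj (I (b + 9)) (Y (b + 10)) := (fun h => absurd ((hT.IY _ _ (by omega) (by omega)).1 h) (by omega))
  have k_I4_u : G.Adj (I (b + 9)) u := (hT.uI _ (by omega)).symm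
  have k_I4_v : G.Adj (I (b + 9)) v := (hT.vI _ (by omega)).symm
  have k_X0_X1 : ¬ G.Adj (X (b + 5)) (X (b + 6)) := hT.XX _ _ (by omega) (by omega)
  have k_X0_u : ¬ G.Adj (X (b + 5)) u := (fun h => (hT.uX _ (by omega)) h.symm)
  have k_X0_w : G.Adj (X (b + 5)) w := h0.symm
  have k_X1_Y3 : G.Adj (X (b + 6)) (Y (b + 8)) := hT.XY _ _ (by omega) (by omega)
  have k_X1_Y5 : G.Adj (X (b + 6)) (Y (b + 10)) := hT.XY _ _ (by omega) (by omega)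
  have k_X1_u : ¬ G.Adj (X (b + 6)) u := (fun h => (hT.uX _ (by omega)) h.symm)
  have k_X1_v : G.Adj (X (b + 6)) v := (hT.vX _ (by omega)).symm
  have k_X1_w : ¬ G.Adj (X (b + 6)) w := (fun h => h1 h.symm)
  have k_Y3_u : G.Adj (Y (b + 8)) u := (hT.uY _ (by omega)).symm
  have k_Y3_v : ¬ G.Adj (Y (b + 8)) v := (fun h => (hT.vY _ (by omega)) h.symm)
  have k_Y5_v : ¬ G.Adj (Y (b + 10)) v := (fun h => (hT.vY _ (by omega)) h.symm)
  have k_u_w : G.Adj u w := hu.symm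
  have k_v_w : ¬ G.Adj v w := (fun h => hv h.symm)
  rcases hH with hK | hC
  · have k_I2_Y4 : ¬ G.Adj (I (b + 7)) (Y (b + 9)) := (fun h => absurd ((hT.IY _ _ (by omega) (by omega)).1 h) (by omega))
    have k_I4_Y4 : G.Adj (I (b + 9)) (Y (b + 9)) := (hT.IY _ _ (by omega) (by omega)).2 (by omega)
    have k_X1_Y4 : G.Adj (X (b + 6)) (Y (b + 9)) := hT.XY _ _ (by omega) (by omega)
    have k_Y3_Y4 : ¬ G.Adj (Y (b + 8)) (Y (b + 9)) := hT.YY _ _ (by omega) (by omega)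
    have k_Y4_u : G.Adj (Y (b + 9)) u := (hT.uY _ (by omega)).symm
    have k_Y4_v : ¬ G.Adj (Y (b + 9)) v := (fun h => (hT.vY _ (by omega)) h.symm)
    by_cases c_I1_w : G.Adj (I (b + 6)) w
    · by_cases c_I2_w : G.Adj (I (b + 7)) w
      · by_cases c_Y3_w : G.Adj (Y (b + 8)) w
        · by_cases c_Y4_w : G.Adj (Y (b + 9)) w
          · by_cases c_I4_w : G.Adj (I (b + 9)) w
            · exact hK (Y (b + 8)) (Y (b + 9)) w u (I (b + 9)) (hT.neY (by omega) (by omega)) k_Y3_Y4 c_Y3_w k_Y3_u k_I4_Y3.symm c_Y4_w k_Y4_u k_I4_Y4.symm k_u_w.symm c_I4_w.symm k_I4_u.symm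
            · by_cases c_Y5_w : G.Adj (Y (b + 10)) w
              · exact hP w (Y (b + 10)) (X (b + 6)) v (I (b + 9)) c_Y5_w.symm k_X1_Y5.symm k_X1_v k_I4_v.symm (fun h => k_X1_w h.symm) (fun h => k_v_w h.symm) (fun h => c_I4_w h.symm) k_Y5_v (fun h => k_I4_Y5 h.symm) (fun h => k_I4_X1 h.symm)
              · exact hP w (I (b + 7)) v (X (b + 6)) (Y (b + 10)) c_I2_w.symm k_I2_v k_X1_v.symm k_X1_Y5 (fun h => k_v_w h.symm) (fun h => k_X1_w h.symm) (fun h => c_Y5_w h.symm) k_I2_X1 k_I2_Y5 (fun h => k_Y5_v h.symm)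
          · exact hP w (I (b + 7)) v (X (b + 6)) (Y (b + 9)) c_I2_w.symm k_I2_v k_X1_v.symm k_X1_Y4 (fun h => k_v_w h.symm) (fun h => k_X1_w h.symm) (fun h => c_Y4_w h.symm) k_I2_X1 k_I2_Y4 (fun h => k_Y4_v h.symm)
        · exact hP w (I (b + 7)) v (X (b + 6)) (Y (b + 8)) c_I2_w.symm k_I2_v k_X1_v.symm k_X1_Y3 (fun h => k_v_w h.symm) (fun h => k_X1_w h.symm) (fun h => c_Y3_w h.symm) k_I2_X1 k_I2_Y3 (fun h => k_Y3_v h.symm)
      · by_cases c_Y3_w : G.Adj (Y (b + 8)) w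
        · exact hP w (Y (b + 8)) (X (b + 6)) v (I (b + 7)) c_Y3_w.symm k_X1_Y3.symm k_X1_v k_I2_v.symm (fun h => k_X1_w h.symm) (fun h => k_v_w h.symm) (fun h => c_I2_w h.symm) k_Y3_v (fun h => k_I2_Y3 h.symm) (fun h => k_I2_X1 h.symm)
        · by_cases c_Y5_w : G.Adj (Y (b + 10)) w
          · exact hP w (Y (b + 10)) (X (b + 6)) v (I (b + 7)) c_Y5_w.symm k_X1_Y5.symm k_X1_v k_I2_v.symm (fun h => k_X1_w h.symm) (fun h => k_v_w h.symm) (fun h => c_I2_w h.symm) k_Y5_v (fun h => k_I2_Y5 h.symm) (fun h => k_I2_X1 h.symm)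
          · by_cases c_I4_w : G.Adj (I (b + 9)) w
            · exact hP w (I (b + 9)) v (X (b + 6)) (Y (b + 10)) c_I4_w.symm k_I4_v k_X1_v.symm k_X1_Y5 (fun h => k_v_w h.symm) (fun h => k_X1_w h.symm) (fun h => c_Y5_w h.symm) k_I4_X1 k_I4_Y5 (fun h => k_Y5_v h.symm)
            · exact hP w (I (b + 6)) v (I (b + 9)) (Y (b + 8)) c_I1_w.symm k_I1_v k_I4_v.symm k_I4_Y3 (fun h => k_v_w h.symm) (fun h => c_I4_w h.symm) (fun h => c_Y3_w h.symm) k_I1_I4 k_I1_Y3 (fun h => k_Y3_v h.symm)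
    · exact hP (X (b + 5)) w u (I (b + 6)) (X (b + 6)) k_X0_w k_u_w.symm k_I1_u.symm k_I1_X1 k_X0_u (fun h => k_I1_X0 h.symm) k_X0_X1 (fun h => c_I1_w h.symm) (fun h => k_X1_w h.symm) (fun h => k_X1_u h.symm)
  · have k_u_v : G.Adj u v := hT.uv
    by_cases c_I1_w : G.Adj (I (b + 6)) w
    · by_cases c_I2_w : G.Adj (I (b + 7)) w
      · by_cases c_Y3_w : G.Adj (Y (b + 8)) w
        · by_cases c_I4_w : G.Adj (I (b + 9)) w
          · exact hC u (I (b + 9)) w (Y (b + 8)) v k_I4_u.symm k_u_w k_Y3_u.symm c_I4_w k_I4_Y3 c_Y3_w.symm k_u_v.symm k_I4_v.symm k_v_w (fun h => k_Y3_v h.symm)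
          · by_cases c_Y5_w : G.Adj (Y (b + 10)) w
            · exact hP w (Y (b + 10)) (X (b + 6)) v (I (b + 9)) c_Y5_w.symm k_X1_Y5.symm k_X1_v k_I4_v.symm (fun h => k_X1_w h.symm) (fun h => k_v_w h.symm) (fun h => c_I4_w h.symm) k_Y5_v (fun h => k_I4_Y5 h.symm) (fun h => k_I4_X1 h.symm)
            · exact hP w (I (b + 7)) v (X (b + 6)) (Y (b + 10)) c_I2_w.symm k_I2_v k_X1_v.symm k_X1_Y5 (fun h => k_v_w h.symm) (fun h => k_X1_w h.symm) (fun h => c_Y5_w h.symm) k_I2_X1 k_I2_Y5 (fun h => k_Y5_v h.symm)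
        · exact hP w (I (b + 7)) v (X (b + 6)) (Y (b + 8)) c_I2_w.symm k_I2_v k_X1_v.symm k_X1_Y3 (fun h => k_v_w h.symm) (fun h => k_X1_w h.symm) (fun h => c_Y3_w h.symm) k_I2_X1 k_I2_Y3 (fun h => k_Y3_v h.symm)
      · by_cases c_Y3_w : G.Adj (Y (b + 8)) w
        · exact hP w (Y (b + 8)) (X (b + 6)) v (I (b + 7)) c_Y3_w.symm k_X1_Y3.symm k_X1_v k_I2_v.symm (fun h => k_X1_w h.symm) (fun h => k_v_w h.symm) (fun h => c_I2_w h.symm) k_Y3_v (fun h => k_I2_Y3 h.symm) (fun h => k_I2_X1 h.symm)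
        · by_cases c_Y5_w : G.Adj (Y (b + 10)) w
          · exact hP w (Y (b + 10)) (X (b + 6)) v (I (b + 7)) c_Y5_w.symm k_X1_Y5.symm k_X1_v k_I2_v.symm (fun h => k_X1_w h.symm) (fun h => k_v_w h.symm) (fun h => c_I2_w h.symm) k_Y5_v (fun h => k_I2_Y5 h.symm) (fun h => k_I2_X1 h.symm)
          · by_cases c_I4_w : G.Adj (I (b + 9)) w
            · exact hP w (I (b + 9)) v (X (b + 6)) (Y (b + 10)) c_I4_w.symm k_I4_v k_X1_v.symm k_X1_Y5 (fun h => k_v_w h.symm) (fun h => k_X1_w h.symm) (fun h => c_Y5_w h.symm) k_I4_X1 k_I4_Y5 (fun h => k_Y5_v h.symm)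
            · exact hP w (I (b + 6)) v (I (b + 9)) (Y (b + 8)) c_I1_w.symm k_I1_v k_I4_v.symm k_I4_Y3 (fun h => k_v_w h.symm) (fun h => c_I4_w h.symm) (fun h => c_Y3_w h.symm) k_I1_I4 k_I1_Y3 (fun h => k_Y3_v h.symm)
    · exact hP (X (b + 5)) w u (I (b + 6)) (X (b + 6)) k_X0_w k_u_w.symm k_I1_u.symm k_I1_X1 k_X0_u (fun h => k_I1_X0 h.symm) k_X0_X1 (fun h => c_I1_w h.symm) (fun h => k_X1_w h.symm) (fun h => k_X1_u h.symm)

theorem tri_I_left {V : Type*} {G : SimpleGraph V} {u v : V} {I X Y : ℕ → V} {n : ℕ} (hP : NoP5 G)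
    (hH : NoK5e G ∨ NoCo G) (hT : Tri G u v I X Y n) {w : V} {b : ℕ} (hb : b + 10 < n)
    (h0 : G.Adj w (X (b + 5))) (h1 : ¬ G.Adj w (X (b + 6)))
    (hv : ¬ G.Adj w v) (hu : ¬ G.Adj w u) {r : ℕ} (hr : r ≤ b + 5) (hI : ¬ G.Adj w (I r)) : False := by
  have k_I2_X0 : ¬ G.Adj (I (b + 7)) (X (b + 5)) := (fun h => absurd ((hT.IX _ _ (by omega) (by omega)).1 h) (by omega))
  have k_I2_X1 : ¬ G.Adj (I (b + 7)) (X (b + 6)) := (fun h => absurd ((hT.IX _ _ (by omega) (by omega)).1 h) (by omega))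
  have k_I2_r : ¬ G.Adj (I (b + 7)) (I r) := hT.II _ _ (by omega) (by omega)
  have k_I2_u : G.Adj (I (b + 7)) u := (hT.uI _ (by omega)).symm
  have k_X0_r : G.Adj (X (b + 5)) (I r) := ((hT.IX _ _ (by omega) (by omega)).2 (by omega)).symm
  have k_X0_u : ¬ G.Adj (X (b + 5)) u := (fun h => (hT.uX _ (by omega)) h.symm)
  have k_X0_w : G.Adj (X (b + 5)) w := h0.symm
  have k_X1_r : G.Adj (X (b + 6)) (I r) := ((hT.IX _ _ (by omega) (by omega)).2 (by omega)).symm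
  have k_X1_u : ¬ G.Adj (X (b + 6)) u := (fun h => (hT.uX _ (by omega)) h.symm)
  have k_X1_w : ¬ G.Adj (X (b + 6)) w := (fun h => h1 h.symm)
  have k_r_u : G.Adj (I r) u := (hT.uI _ (by omega)).symm
  have k_r_w : ¬ G.Adj (I r) w := (fun h => hI h.symm)
  have k_u_w : ¬ G.Adj u w := (fun h => hu h.symm)
  by_cases c_I2_w : G.Adj (I (b + 7)) w
  · exact hP w (I (b + 7)) u (I r) (X (b + 6)) c_I2_w.symm k_I2_u k_r_u.symm k_X1_r.symm (fun h => k_u_w h.symm) (fun h => k_r_w h.symm) (fun h => k_X1_w h.symm) k_I2_r k_I2_X1 (fun h => k_X1_u h.symm)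
  · exact hP w (X (b + 5)) (I r) u (I (b + 7)) k_X0_w.symm k_X0_r k_r_u k_I2_u.symm (fun h => k_r_w h.symm) (fun h => k_u_w h.symm) (fun h => c_I2_w h.symm) k_X0_u (fun h => k_I2_X0 h.symm) (fun h => k_I2_r h.symm)

theorem tri_I_right {V : Type*} {G : SimpleGraph V} {u v : V} {I X Y : ℕ → V} {n : ℕ} (hP : NoP5 G)
    (hH : NoK5e G ∨ NoCo G) (hT : Tri G u v I X Y n) {w : V} {b : ℕ} (hb : b + 10 < n)
    (h0 : G.Adj w (X (b + 5))) (h1 : ¬ G.Adj w (X (b + 6)))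
    (hv : ¬ G.Adj w v) (hu : ¬ G.Adj w u) {r y : ℕ} (hr : b + 7 ≤ r) (hy : r < y) (hyn : y < n)
    (hI : ¬ G.Adj w (I r)) : False := by
  have k_X0_r : ¬ G.Adj (X (b + 5)) (I r) := (fun h => ((fun h => absurd ((hT.IX _ _ (by omega) (by omega)).1 h) (by omega))) h.symm)
  have k_X0_u : ¬ G.Adj (X (b + 5)) u := (fun h => (hT.uX _ (by omega)) h.symm)
  have k_X0_w : G.Adj (X (b + 5)) w := h0.symm
  have k_X0_y : G.Adj (X (b + 5)) (Y y) := hT.XY _ _ (by omega) (by omega)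
  have k_X1_r : ¬ G.Adj (X (b + 6)) (I r) := (fun h => ((fun h => absurd ((hT.IX _ _ (by omega) (by omega)).1 h) (by omega))) h.symm)
  have k_X1_v : G.Adj (X (b + 6)) v := (hT.vX _ (by omega)).symm
  have k_X1_w : ¬ G.Adj (X (b + 6)) w := (fun h => h1 h.symm)
  have k_X1_y : G.Adj (X (b + 6)) (Y y) := hT.XY _ _ (by omega) (by omega)
  have k_r_u : G.Adj (I r) u := (hT.uI _ (by omega)).symm
  have k_r_v : G.Adj (I r) v := (hT.vI _ (by omega)).symm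
  have k_r_w : ¬ G.Adj (I r) w := (fun h => hI h.symm)
  have k_r_y : ¬ G.Adj (I r) (Y y) := (fun h => absurd ((hT.IY _ _ (by omega) (by omega)).1 h) (by omega))
  have k_u_w : ¬ G.Adj u w := (fun h => hu h.symm)
  have k_u_y : G.Adj u (Y y) := hT.uY _ (by omega)
  have k_v_w : ¬ G.Adj v w := (fun h => hv h.symm)
  have k_v_y : ¬ G.Adj v (Y y) := hT.vY _ (by omega)
  by_cases c_w_y : G.Adj w (Y y)
  · exact hP w (Y y) (X (b + 6)) v (I r) c_w_y k_X1_y.symm k_X1_v k_r_v.symm (fun h => k_X1_w h.symm) (fun h => k_v_w h.symm) (fun h => k_r_w h.symm) (fun h => k_v_y h.symm) (fun h => k_r_y h.symm) k_X1_r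
  · exact hP w (X (b + 5)) (Y y) u (I r) k_X0_w.symm k_X0_y k_u_y.symm k_r_u.symm c_w_y (fun h => k_u_w h.symm) (fun h => k_r_w h.symm) k_X0_u k_X0_r (fun h => k_r_y h.symm)

theorem tri_X_left {V : Type*} {G : SimpleGraph V} {u v : V} {I X Y : ℕ → V} {n : ℕ} (hP : NoP5 G)
    (hH : NoK5e G ∨ NoCo G) (hT : Tri G u v I X Y n) {w : V} {b : ℕ} (hb : b + 10 < n)
    (h0 : G.Adj w (X (b + 5))) (h1 : ¬ G.Adj w (X (b + 6)))
    (hv : ¬ G.Adj w v) (hu : ¬ G.Adj w u)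
    (hI : ∀ i, i ≠ b + 6 → i ≤ b + 10 → G.Adj w (I i)) {r : ℕ} (hrb : r ≤ b) (hr : ¬ G.Adj w (X r)) : False := by
  have k_Im3_X0 : G.Adj (I (b + 2)) (X (b + 5)) := (hT.IX _ _ (by omega) (by omega)).2 (by omega)
  have k_Im3_Ym3 : G.Adj (I (b + 2)) (Y (b + 2)) := (hT.IY _ _ (by omega) (by omega)).2 (by omega)
  have k_Im3_w : G.Adj (I (b + 2)) w := (hI (b + 2) (by omega) (by omega)).symm
  have k_Im4_X1 : G.Adj (I (b + 1)) (X (b + 6)) := (hT.IX _ _ (by omega) (by omega)).2 (by omega)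
  have k_Im4_Ym3 : ¬ G.Adj (I (b + 1)) (Y (b + 2)) := (fun h => absurd ((hT.IY _ _ (by omega) (by omega)).1 h) (by omega))
  have k_Im4_r : ¬ G.Adj (I (b + 1)) (X r) := (fun h => absurd ((hT.IX _ _ (by omega) (by omega)).1 h) (by omega))
  have k_Im4_w : G.Adj (I (b + 1)) w := (hI (b + 1) (by omega) (by omega)).symm
  have k_X0_Ym3 : G.Adj (X (b + 5)) (Y (b + 2)) := hT.XY _ _ (by omega) (by omega)
  have k_X0_w : G.Adj (X (b + 5)) w := h0.symm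
  have k_X1_Ym3 : G.Adj (X (b + 6)) (Y (b + 2)) := hT.XY _ _ (by omega) (by omega)
  have k_X1_r : ¬ G.Adj (X (b + 6)) (X r) := hT.XX _ _ (by omega) (by omega)
  have k_X1_w : ¬ G.Adj (X (b + 6)) w := (fun h => h1 h.symm)
  have k_Ym3_r : G.Adj (Y (b + 2)) (X r) := (hT.XY _ _ (by omega) (by omega)).symm
  have k_r_w : ¬ G.Adj (X r) w := (fun h => hr h.symm)
  rcases hH with hK | hC
  · have k_I0_Im3 : ¬ G.Adj (I (b + 5)) (I (b + 2)) := hT.II _ _ (by omega) (by omega)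
    have k_I0_X0 : G.Adj (I (b + 5)) (X (b + 5)) := (hT.IX _ _ (by omega) (by omega)).2 (by omega)
    have k_I0_Ym3 : G.Adj (I (b + 5)) (Y (b + 2)) := (hT.IY _ _ (by omega) (by omega)).2 (by omega)
    have k_I0_w : G.Adj (I (b + 5)) w := (hI (b + 5) (by omega) (by omega)).symm
    by_cases c_Ym3_w : G.Adj (Y (b + 2)) w
    · exact hK (I (b + 2)) (I (b + 5)) w (Y (b + 2)) (X (b + 5)) (hT.neI (by omega) (by omega)) (fun h => k_I0_Im3 h.symm) k_Im3_w k_Im3_Ym3 k_Im3_X0 k_I0_w k_I0_Ym3 k_I0_X0 c_Ym3_w.symm k_X0_w.symm k_X0_Ym3.symm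
    · exact hP w (I (b + 1)) (X (b + 6)) (Y (b + 2)) (X r) k_Im4_w.symm k_Im4_X1 k_X1_Ym3 k_Ym3_r (fun h => k_X1_w h.symm) (fun h => c_Ym3_w h.symm) (fun h => k_r_w h.symm) k_Im4_Ym3 k_Im4_r k_X1_r
  · have k_Im3_X1 : G.Adj (I (b + 2)) (X (b + 6)) := (hT.IX _ _ (by omega) (by omega)).2 (by omega)
    have k_X0_X1 : ¬ G.Adj (X (b + 5)) (X (b + 6)) := hT.XX _ _ (by omega) (by omega)
    by_cases c_Ym3_w : G.Adj (Y (b + 2)) w
    · exact hC (Y (b + 2)) (I (b + 2)) w (X (b + 5)) (X (b + 6)) k_Im3_Ym3.symm c_Ym3_w k_X0_Ym3.symm k_Im3_w k_Im3_X0 k_X0_w.symm k_X1_Ym3 k_Im3_X1.symm k_X1_w (fun h => k_X0_X1 h.symm)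
    · exact hP w (I (b + 1)) (X (b + 6)) (Y (b + 2)) (X r) k_Im4_w.symm k_Im4_X1 k_X1_Ym3 k_Ym3_r (fun h => k_X1_w h.symm) (fun h => c_Ym3_w h.symm) (fun h => k_r_w h.symm) k_Im4_Ym3 k_Im4_r k_X1_r

theorem tri_X_right {V : Type*} {G : SimpleGraph V} {u v : V} {I X Y : ℕ → V} {n : ℕ} (hP : NoP5 G)
    (hH : NoK5e G ∨ NoCo G) (hT : Tri G u v I X Y n) {w : V} {b : ℕ} (hb : b + 10 < n)
    (h0 : G.Adj w (X (b + 5))) (h1 : ¬ G.Adj w (X (b + 6)))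
    (hv : ¬ G.Adj w v) (hu : ¬ G.Adj w u)
    (hI : ∀ i, i ≠ b + 6 → i ≤ b + 10 → G.Adj w (I i)) {r : ℕ} (hrb : b + 10 ≤ r) (hrn : r < n) (hr : G.Adj w (X r)) : False := by
  have k_I2_X0 : ¬ G.Adj (I (b + 7)) (X (b + 5)) := (fun h => absurd ((hT.IX _ _ (by omega) (by omega)).1 h) (by omega))
  have k_I2_X1 : ¬ G.Adj (I (b + 7)) (X (b + 6)) := (fun h => absurd ((hT.IX _ _ (by omega) (by omega)).1 h) (by omega))
  have k_I2_Y3 : ¬ G.Adj (I (b + 7)) (Y (b + 8)) := (fun h => absurd ((hT.IY _ _ (by omega) (by omega)).1 h) (by omega))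
  have k_I2_w : G.Adj (I (b + 7)) w := (hI (b + 7) (by omega) (by omega)).symm
  have k_I3_Y3 : G.Adj (I (b + 8)) (Y (b + 8)) := (hT.IY _ _ (by omega) (by omega)).2 (by omega)
  have k_I3_r : G.Adj (I (b + 8)) (X r) := (hT.IX _ _ (by omega) (by omega)).2 (by omega)
  have k_I3_w : G.Adj (I (b + 8)) w := (hI (b + 8) (by omega) (by omega)).symm
  have k_X0_X1 : ¬ G.Adj (X (b + 5)) (X (b + 6)) := hT.XX _ _ (by omega) (by omega)
  have k_X0_Y3 : G.Adj (X (b + 5)) (Y (b + 8)) := hT.XY _ _ (by omega) (by omega)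
  have k_X0_w : G.Adj (X (b + 5)) w := h0.symm
  have k_X1_Y3 : G.Adj (X (b + 6)) (Y (b + 8)) := hT.XY _ _ (by omega) (by omega)
  have k_X1_w : ¬ G.Adj (X (b + 6)) w := (fun h => h1 h.symm)
  have k_Y3_r : G.Adj (Y (b + 8)) (X r) := (hT.XY _ _ (by omega) (by omega)).symm
  have k_r_w : G.Adj (X r) w := hr.symm
  rcases hH with hK | hC
  · have k_I3_I4 : ¬ G.Adj (I (b + 8)) (I (b + 9)) := hT.II _ _ (by omega) (by omega)
    have k_I4_Y3 : G.Adj (I (b + 9)) (Y (b + 8)) := (hT.IY _ _ (by omega) (by omega)).2 (by omega)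
    have k_I4_r : G.Adj (I (b + 9)) (X r) := (hT.IX _ _ (by omega) (by omega)).2 (by omega)
    have k_I4_w : G.Adj (I (b + 9)) w := (hI (b + 9) (by omega) (by omega)).symm
    by_cases c_Y3_w : G.Adj (Y (b + 8)) w
    · exact hK (I (b + 8)) (I (b + 9)) w (Y (b + 8)) (X r) (hT.neI (by omega) (by omega)) k_I3_I4 k_I3_w k_I3_Y3 k_I3_r k_I4_w k_I4_Y3 k_I4_r c_Y3_w.symm k_r_w.symm k_Y3_r
    · exact hP (X (b + 6)) (Y (b + 8)) (X (b + 5)) w (I (b + 7)) k_X1_Y3 k_X0_Y3.symm k_X0_w k_I2_w.symm (fun h => k_X0_X1 h.symm) k_X1_w (fun h => k_I2_X1 h.symm) c_Y3_w (fun h => k_I2_Y3 h.symm) (fun h => k_I2_X0 h.symm)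
  · have k_I3_X0 : ¬ G.Adj (I (b + 8)) (X (b + 5)) := (fun h => absurd ((hT.IX _ _ (by omega) (by omega)).1 h) (by omega))
    have k_X0_r : ¬ G.Adj (X (b + 5)) (X r) := hT.XX _ _ (by omega) (by omega)
    by_cases c_Y3_w : G.Adj (Y (b + 8)) w
    · exact hC w (Y (b + 8)) (I (b + 8)) (X r) (X (b + 5)) c_Y3_w.symm k_I3_w.symm k_r_w.symm k_I3_Y3.symm k_Y3_r k_I3_r k_X0_w k_X0_Y3 (fun h => k_I3_X0 h.symm) k_X0_r
    · exact hP (X (b + 6)) (Y (b + 8)) (X (b + 5)) w (I (b + 7)) k_X1_Y3 k_X0_Y3.symm k_X0_w k_I2_w.symm (fun h => k_X0_X1 h.symm) k_X1_w (fun h => k_I2_X1 h.symm) c_Y3_w (fun h => k_I2_Y3 h.symm) (fun h => k_I2_X0 h.symm)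

theorem tri_Y_left {V : Type*} {G : SimpleGraph V} {u v : V} {I X Y : ℕ → V} {n : ℕ} (hP : NoP5 G)
    (hH : NoK5e G ∨ NoCo G) (hT : Tri G u v I X Y n) {w : V} {b : ℕ} (hb : b + 10 < n)
    (h0 : G.Adj w (X (b + 5))) (h1 : ¬ G.Adj w (X (b + 6)))
    (hv : ¬ G.Adj w v) (hu : ¬ G.Adj w u)
    (hI : ∀ i, i ≠ b + 6 → i ≤ b + 10 → G.Adj w (I i)) {r : ℕ} (hrb : r ≤ b) (hr : G.Adj w (Y r)) : False := by
  have k_Im4_X0 : G.Adj (I (b + 1)) (X (b + 5)) := (hT.IX _ _ (by omega) (by omega)).2 (by omega)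
  have k_Im4_r : G.Adj (I (b + 1)) (Y r) := (hT.IY _ _ (by omega) (by omega)).2 (by omega)
  have k_Im4_w : G.Adj (I (b + 1)) w := (hI (b + 1) (by omega) (by omega)).symm
  have k_X0_r : G.Adj (X (b + 5)) (Y r) := hT.XY _ _ (by omega) (by omega)
  have k_X0_w : G.Adj (X (b + 5)) w := h0.symm
  have k_r_w : G.Adj (Y r) w := hr.symm
  rcases hH with hK | hC
  · have k_I0_Im4 : ¬ G.Adj (I (b + 5)) (I (b + 1)) := hT.II _ _ (by omega) (by omega)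
    have k_I0_X0 : G.Adj (I (b + 5)) (X (b + 5)) := (hT.IX _ _ (by omega) (by omega)).2 (by omega)
    have k_I0_r : G.Adj (I (b + 5)) (Y r) := (hT.IY _ _ (by omega) (by omega)).2 (by omega)
    have k_I0_w : G.Adj (I (b + 5)) w := (hI (b + 5) (by omega) (by omega)).symm
    exact hK (I (b + 1)) (I (b + 5)) w (X (b + 5)) (Y r) (hT.neI (by omega) (by omega)) (fun h => k_I0_Im4 h.symm) k_Im4_w k_Im4_X0 k_Im4_r k_I0_w k_I0_X0 k_I0_r k_X0_w.symm k_r_w.symm k_X0_r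
  · have k_Im4_X1 : G.Adj (I (b + 1)) (X (b + 6)) := (hT.IX _ _ (by omega) (by omega)).2 (by omega)
    have k_X0_X1 : ¬ G.Adj (X (b + 5)) (X (b + 6)) := hT.XX _ _ (by omega) (by omega)
    have k_X1_r : G.Adj (X (b + 6)) (Y r) := hT.XY _ _ (by omega) (by omega)
    have k_X1_w : ¬ G.Adj (X (b + 6)) w := (fun h => h1 h.symm)
    exact hC (I (b + 1)) (Y r) w (X (b + 5)) (X (b + 6)) k_Im4_r k_Im4_w k_Im4_X0 k_r_w k_X0_r.symm k_X0_w.symm k_Im4_X1.symm k_X1_r k_X1_w (fun h => k_X0_X1 h.symm)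

theorem tri_Y_right {V : Type*} {G : SimpleGraph V} {u v : V} {I X Y : ℕ → V} {n : ℕ} (hP : NoP5 G)
    (hH : NoK5e G ∨ NoCo G) (hT : Tri G u v I X Y n) {w : V} {b : ℕ} (hb : b + 10 < n)
    (h0 : G.Adj w (X (b + 5))) (h1 : ¬ G.Adj w (X (b + 6)))
    (hv : ¬ G.Adj w v) (hu : ¬ G.Adj w u)
    (hI : ∀ i, i ≠ b + 6 → i ≤ b + 10 → G.Adj w (I i)) {r : ℕ} (hrb : b + 10 ≤ r) (hrn : r < n) (hr : ¬ G.Adj w (Y r)) : False := by
  have k_I2_X0 : ¬ G.Adj (I (b + 7)) (X (b + 5)) := (fun h => absurd ((hT.IX _ _ (by omega) (by omega)).1 h) (by omega))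
  have k_I2_X1 : ¬ G.Adj (I (b + 7)) (X (b + 6)) := (fun h => absurd ((hT.IX _ _ (by omega) (by omega)).1 h) (by omega))
  have k_I2_r : ¬ G.Adj (I (b + 7)) (Y r) := (fun h => absurd ((hT.IY _ _ (by omega) (by omega)).1 h) (by omega))
  have k_I2_w : G.Adj (I (b + 7)) w := (hI (b + 7) (by omega) (by omega)).symm
  have k_X0_X1 : ¬ G.Adj (X (b + 5)) (X (b + 6)) := hT.XX _ _ (by omega) (by omega)
  have k_X0_r : G.Adj (X (b + 5)) (Y r) := hT.XY _ _ (by omega) (by omega)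
  have k_X0_w : G.Adj (X (b + 5)) w := h0.symm
  have k_X1_r : G.Adj (X (b + 6)) (Y r) := hT.XY _ _ (by omega) (by omega)
  have k_X1_w : ¬ G.Adj (X (b + 6)) w := (fun h => h1 h.symm)
  have k_r_w : ¬ G.Adj (Y r) w := (fun h => hr h.symm)
  exact hP (X (b + 6)) (Y r) (X (b + 5)) w (I (b + 7)) k_X1_r k_X0_r.symm k_X0_w k_I2_w.symm (fun h => k_X0_X1 h.symm) k_X1_w (fun h => k_I2_X1 h.symm) k_r_w (fun h => k_I2_r h.symm) (fun h => k_I2_X0 h.symm)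


end Pool.Agent.H46.P5
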