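import Mathlib
import Pool.Agent.H46.P5d
import Pool.Agent.H46.W4
import Pool.Agent.H46.W5

/-!
From a large vertex-critical graph to a long word.
-/

set_option linter.unusedVariables false

namespace Pool.Agent.H46.P5

/-- Large vertex-critical `P₅`-free graphs contain two hubs and three long classes. -/
theorem tri_of_large (c N : ℕ) : ∃ n : ℕ, ∀ {V : Type*} [Fintype V] [DecidableEq V]
    (G : SimpleGraph V), Crit G c → NoP5 G → n ≤ Fintype.card V →
      ∃ (u v : V) (I X Y : ℕ → V), Tri G u v I X Y N := by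
  classical
  obtain ⟨n, hn⟩ := full_of_large c (2 * (c + 3) + 5 * (N + 3)) (by omega) (by omega)
  refine ⟨n, fun {V} _ _ G hcrit hP hV => ?_⟩
  obtain ⟨K, Q, Z, W, v, hF, hK, u, huK, hu⟩ := hn G hcrit hP hV
  set M := 2 * (c + 3) + 5 * (N + 3) with hM
  have hq : ∃ q : ℕ → V, ∀ i, i < M → q i ∈ Q i := by
    refine ⟨fun i => if h : i < M then (hF.base.ne i h).choose else v, fun i hi => ?_⟩
    simp only [dif_pos hi]
    exact (hF.base.ne i hi).choose_spec
  obtain ⟨q, hq⟩ := hq
  have key := fun x y hx hy => place_adj hF hq (n := N + 3) (by omega) x y hx hy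
  have hvX : ∀ s, s < N + 3 → G.Adj v (Z (5 * s + 3) (5 * s + 4)) := fun s hs =>
    (key .hub (.up s) (by simp [Vtx.idx]) (by simpa [Vtx.idx] using hs)).2
      (by simp [doubleHalf, dhRel])
  have huv : u ≠ v := by
    rintro rfl
    exact hu 3 4 (by omega) (by omega) (hvX 0 (by omega)).symm
  have huX : ∀ s, s < N + 3 → ¬ G.Adj u (Z (5 * s + 3) (5 * s + 4)) := fun s hs h =>
    hu _ _ (by omega) (by omega) h.symm
  have huI : ∀ s, s < N + 3 → G.Adj u (q (5 * s + 2)) := fun s hs =>
    hF.base.compK _ (by omega) u huK _ (hq _ (by omega))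
  have hII : ∀ s t, s < N + 3 → t < N + 3 → ¬ G.Adj (q (5 * s + 2)) (q (5 * t + 2)) :=
    fun s t hs ht h => absurd ((key (.mid s) (.mid t) (by simpa [Vtx.idx] using hs)
      (by simpa [Vtx.idx] using ht)).1 h) (by simp [doubleHalf, dhRel])
  have hIX : ∀ s t, s < N + 3 → t < N + 3 →
      (G.Adj (q (5 * s + 2)) (Z (5 * t + 3) (5 * t + 4)) ↔ s ≤ t) := fun s t hs ht => by
    have := key (.mid s) (.up t) (by simpa [Vtx.idx] using hs) (by simpa [Vtx.idx] using ht)
    simp only [place] at this
    rw [this]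
    simp [doubleHalf, dhRel]
  have hIY : ∀ s t, s < N + 3 → t < N + 3 →
      (G.Adj (q (5 * s + 2)) (W (5 * t) (5 * t + 1)) ↔ t ≤ s) := fun s t hs ht => by
    have := key (.mid s) (.down t) (by simpa [Vtx.idx] using hs) (by simpa [Vtx.idx] using ht)
    simp only [place] at this
    rw [this]
    simp [doubleHalf, dhRel]
  have hXY : ∀ s t, s < N + 3 → t < N + 3 →
      G.Adj (Z (5 * s + 3) (5 * s + 4)) (W (5 * t) (5 * t + 1)) := fun s t hs ht =>
    (key (.up s) (.down t) (by simpa [Vtx.idx] using hs) (by simpa [Vtx.idx] using ht)).2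
      (by simp [doubleHalf, dhRel])
  refine ⟨u, v, fun s => q (5 * (s + 2) + 2), fun s => Z (5 * (s + 2) + 3) (5 * (s + 2) + 4),
    fun s => W (5 * (s + 2)) (5 * (s + 2) + 1), ?_⟩
  constructor
  · exact hK huK hF.vK huv
  · exact fun s hs => huI _ (by omega)
  · exact fun s hs => huX _ (by omega)
  · intro s hs
    by_contra h
    exact hP (q (5 * 1 + 2)) u (q (5 * 0 + 2)) (Z (5 * 0 + 3) (5 * 0 + 4))
      (W (5 * (s + 2)) (5 * (s + 2) + 1))
      (huI 1 (by omega)).symm (huI 0 (by omega)) ((hIX 0 0 (by omega) (by omega)).2 le_rfl)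
      (hXY 0 (s + 2) (by omega) (by omega)) (hII 1 0 (by omega) (by omega))
      (fun h' => absurd ((hIX 1 0 (by omega) (by omega)).1 h') (by omega))
      (fun h' => absurd ((hIY 1 (s + 2) (by omega) (by omega)).1 h') (by omega))
      (huX 0 (by omega)) h
      (fun h' => absurd ((hIY 0 (s + 2) (by omega) (by omega)).1 h') (by omega))
  · exact fun s hs => (key .hub (.mid (s + 2)) (by simp [Vtx.idx])
      (by simp [Vtx.idx]; omega)).2 (by simp [doubleHalf, dhRel])
  · exact fun s hs => hvX _ (by omega)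
  · exact fun s hs h => absurd ((key .hub (.down (s + 2)) (by simp [Vtx.idx])
      (by simp [Vtx.idx]; omega)).1 h) (by simp [doubleHalf, dhRel])
  · exact fun s t hs ht => hII _ _ (by omega) (by omega)
  · exact fun s t hs ht h => absurd ((key (.up (s + 2)) (.up (t + 2)) (by simp [Vtx.idx]; omega)
      (by simp [Vtx.idx]; omega)).1 h) (by simp [doubleHalf, dhRel])
  · exact fun s t hs ht h => absurd ((key (.down (s + 2)) (.down (t + 2)) (by simp [Vtx.idx]; omega)
      (by simp [Vtx.idx]; omega)).1 h) (by simp [doubleHalf, dhRel])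
  · exact fun s t hs ht => hXY _ _ (by omega) (by omega)
  · intro s t hs ht
    rw [hIX _ _ (by omega) (by omega)]
    omega
  · intro s t hs ht
    rw [hIY _ _ (by omega) (by omega)]
    omega

end Pool.Agent.H46.P5
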