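import Mathlib
import Pool.Agent.H46.W6

/-!
From the triple half graph to a word, and the finiteness theorem for `K₅ - e` and for the
complement of `P₃ + 2P₁`.
-/

set_option linter.unusedVariables false

namespace Pool.Agent.H46.P5

theorem word_of_tri {V : Type*} {G : SimpleGraph V} {u v : V} {I X Y : ℕ → V} {N n c : ℕ}
    (hP : NoP5 G) (hH : NoK5e G ∨ NoCo G) (hC : Crit G c) (hT : Tri G u v I X Y n)
    (hn : 10 * N + 40 ≤ n) : ∃ W : ℕ → V, Word G W (4 * N) := by
  classical
  -- the fourth class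
  have hA : ∃ A : ℕ → V, ∀ s, s < N → G.Adj (A s) (X (10 * s + 10 + 5)) ∧
      ¬ G.Adj (A s) (X (10 * s + 10 + 6)) := by
    have h : ∀ s, s < N → ∃ w, G.Adj w (X (10 * s + 10 + 5)) ∧ ¬ G.Adj w (X (10 * s + 10 + 6)) := by
      intro s hs
      exact crit_dom hC (hT.neX (by omega) (by omega)) (hT.XX _ _ (by omega) (by omega))
    refine ⟨fun s => if hs : s < N then (h s hs).choose else u, fun s hs => ?_⟩
    simp only [dif_pos hs]
    exact (h s hs).choose_spec
  obtain ⟨A, hA⟩ := hA
  have hv : ∀ s, s < N → ¬ G.Adj (A s) v := fun s hs h =>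
    tri_v hP hH hT (b := 10 * s + 10) (by omega) (hA s hs).1 (hA s hs).2 h
  have hu : ∀ s, s < N → ¬ G.Adj (A s) u := fun s hs h =>
    tri_u hP hH hT (b := 10 * s + 10) (by omega) (hA s hs).1 (hA s hs).2 (hv s hs) h
  have hI : ∀ s, s < N → ∀ i, i ≠ 10 * s + 10 + 6 → i + 1 < n → G.Adj (A s) (I i) := by
    intro s hs i hi hin
    by_contra h
    rcases (by omega : i ≤ 10 * s + 10 + 5 ∨ 10 * s + 10 + 7 ≤ i) with h1 | h1
    · exact tri_I_left hP hH hT (b := 10 * s + 10) (by omega) (hA s hs).1 (hA s hs).2 (hv s hs)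
        (hu s hs) h1 h
    · exact tri_I_right hP hH hT (b := 10 * s + 10) (by omega) (hA s hs).1 (hA s hs).2 (hv s hs)
        (hu s hs) h1 (Nat.lt_succ_self i) hin h
  have hXl : ∀ s, s < N → ∀ r, r ≤ 10 * s + 10 → G.Adj (A s) (X r) := by
    intro s hs r hr
    by_contra h
    exact tri_X_left hP hH hT (b := 10 * s + 10) (by omega) (hA s hs).1 (hA s hs).2 (hv s hs)
      (hu s hs) (fun i hi hi' => hI s hs i hi (by omega)) hr h
  have hXr : ∀ s, s < N → ∀ r, 10 * s + 20 ≤ r → r < n → ¬ G.Adj (A s) (X r) := by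
    intro s hs r hr hrn h
    exact tri_X_right hP hH hT (b := 10 * s + 10) (by omega) (hA s hs).1 (hA s hs).2 (hv s hs)
      (hu s hs) (fun i hi hi' => hI s hs i hi (by omega)) (by omega) hrn h
  have hYl : ∀ s, s < N → ∀ r, r ≤ 10 * s + 10 → ¬ G.Adj (A s) (Y r) := by
    intro s hs r hr h
    exact tri_Y_left hP hH hT (b := 10 * s + 10) (by omega) (hA s hs).1 (hA s hs).2 (hv s hs)
      (hu s hs) (fun i hi hi' => hI s hs i hi (by omega)) hr h
  have hYr : ∀ s, s < N → ∀ r, 10 * s + 20 ≤ r → r < n → G.Adj (A s) (Y r) := by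
    intro s hs r hr hrn
    by_contra h
    exact tri_Y_right hP hH hT (b := 10 * s + 10) (by omega) (hA s hs).1 (hA s hs).2 (hv s hs)
      (hu s hs) (fun i hi hi' => hI s hs i hi (by omega)) (by omega) hrn h
  have hAA : ∀ s t, s < N → t < N → ¬ G.Adj (A s) (A t) := by
    intro s t hs ht h
    have i0 : G.Adj (I 0) (X 10) := (hT.IX 0 10 (by omega) (by omega)).2 (by omega)
    have i1 : G.Adj (I 1) (X 10) := (hT.IX 1 10 (by omega) (by omega)).2 (by omega)
    have i01 : ¬ G.Adj (I 0) (I 1) := hT.II 0 1 (by omega) (by omega)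
    have e0 := hI s hs 0 (by omega) (by omega)
    have e0' := hI t ht 0 (by omega) (by omega)
    have e1 := hI s hs 1 (by omega) (by omega)
    have e1' := hI t ht 1 (by omega) (by omega)
    have x0 := hXl s hs 10 (by omega)
    have x0' := hXl t ht 10 (by omega)
    rcases hH with hK | hCo
    · exact hK (I 0) (I 1) (A s) (A t) (X 10) (hT.neI (by omega) (by omega)) i01 e0.symm e0'.symm
        i0 e1.symm e1'.symm i1 h x0 x0'
    · have e2 := hI s hs 11 (by omega) (by omega)
      have e2' := hI t ht 11 (by omega) (by omega)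
      exact hCo (A s) (A t) (X 10) (I 0) (I 11) h x0 e0 x0' e0' i0.symm e2.symm e2'.symm
        (fun h' => absurd ((hT.IX 11 10 (by omega) (by omega)).1 h') (by omega))
        (hT.II 11 0 (by omega) (by omega))
  refine ⟨fun i => if i % 4 = 0 then Y (10 * (i / 4) + 10) else if i % 4 = 1 then
    I (10 * (i / 4) + 10) else if i % 4 = 2 then X (10 * (i / 4) + 10) else A (i / 4), ?_⟩
  intro i j hij hj
  have hi4 := Nat.div_add_mod i 4
  have hj4 := Nat.div_add_mod j 4
  rcases (by omega : i % 4 = 0 ∨ i % 4 = 1 ∨ i % 4 = 2 ∨ i % 4 = 3) with h | h | h | h <;>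
    rcases (by omega : j % 4 = 0 ∨ j % 4 = 1 ∨ j % 4 = 2 ∨ j % 4 = 3) with h' | h' | h' | h' <;>
    simp only [h, h', if_true, if_false, reduceIte, Nat.reduceEqDiff, OfNat.ofNat_ne_zero,
      Nat.one_ne_zero]
  -- Y, Y
  · exact iff_of_false (hT.YY _ _ (by omega) (by omega)) (by omega)
  -- Y, I
  · exact iff_of_true ((hT.IY _ _ (by omega) (by omega)).2 (by omega)).symm (by omega)
  -- Y, X
  · exact iff_of_true (hT.XY _ _ (by omega) (by omega)).symm (by omega)
  -- Y, A
  · exact iff_of_false (fun e => hYl (j / 4) (by omega) _ (by omega) e.symm) (by omega)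
  -- I, Y
  · exact iff_of_false (fun e => absurd ((hT.IY _ _ (by omega) (by omega)).1 e) (by omega))
      (by omega)
  -- I, I
  · exact iff_of_false (hT.II _ _ (by omega) (by omega)) (by omega)
  -- I, X
  · exact iff_of_true ((hT.IX _ _ (by omega) (by omega)).2 (by omega)) (by omega)
  -- I, A
  · exact iff_of_true (hI (j / 4) (by omega) _ (by omega) (by omega)).symm (by omega)
  -- X, Y
  · exact iff_of_true (hT.XY _ _ (by omega) (by omega)) (by omega)
  -- X, I
  · exact iff_of_false (fun e => absurd ((hT.IX _ _ (by omega) (by omega)).1 e.symm) (by omega))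
      (by omega)
  -- X, X
  · exact iff_of_false (hT.XX _ _ (by omega) (by omega)) (by omega)
  -- X, A
  · exact iff_of_true (hXl (j / 4) (by omega) _ (by omega)).symm (by omega)
  -- A, Y
  · exact iff_of_true (hYr (i / 4) (by omega) _ (by omega) (by omega)) (by omega)
  -- A, I
  · exact iff_of_true (hI (i / 4) (by omega) _ (by omega) (by omega)) (by omega)
  -- A, X
  · exact iff_of_false (hXr (i / 4) (by omega) _ (by omega) (by omega)) (by omega)
  -- A, A
  · exact iff_of_false (hAA _ _ (by omega) (by omega)) (by omega)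

/-- Vertex-critical `P₅`-free graphs that are `K₅ - e`-free, or free of the complement of
`P₃ + 2P₁`, have bounded order. -/
theorem bounded_of_free (c : ℕ) : ∃ n : ℕ, ∀ {V : Type*} [Fintype V] [DecidableEq V]
    (G : SimpleGraph V), Crit G c → NoP5 G → (NoK5e G ∨ NoCo G) → Fintype.card V < n := by
  obtain ⟨n, hn⟩ := tri_of_large c (10 * (c + 18) + 40)
  refine ⟨n, fun {V} _ _ G hC hP hH => ?_⟩
  by_contra h
  obtain ⟨u, v, I, X, Y, hT⟩ := hn G hC hP (not_lt.1 h)
  obtain ⟨W, hW⟩ := word_of_tri (N := c + 18) hP hH hC hT le_rfl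
  exact word_false hP hH hW hC (by omega)

end Pool.Agent.H46.P5
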